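import Pool.Agent.H398.Kt.Basic

/-!
# Interfaces (statements to be proved), second part of MP_13b5a2_al

All statements are `Prop`-valued definitions; the paper proofs are in the help board texts.
-/

set_option autoImplicit false
set_option linter.unusedVariables false

open scoped TensorProduct

namespace Pool.Agent.H398.Kt

universe u w

open Md

/-! ### K1 -/

/-- **K1.** The semiring of isomorphism classes. -/
def S_ring : Prop :=
  ∀ (k : Type u) [Field k] [CharP k 2] (r : ℕ),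
    ∃ (R : Type (u + 1)) (_ : CommSemiring R) (cls : Md k r → R),
      Function.Surjective cls ∧ (∀ A B, cls A = cls B ↔ A.Iso B) ∧
      (∀ A B, cls (A.prod B) = cls A + cls B) ∧ (∀ A B, cls (A.tens B) = cls A * cls B) ∧
      cls (one k r) = 1 ∧ (∀ A : Md k r, A.dim = 0 → cls A = 0)

/-! ### K2 -/

/-- **K2a.** `2 ^ r * rank (x_1 ⋯ x_r) ≤ dim`. -/
def S_nrmLe : Prop :=
  ∀ (k : Type u) [Field k] [CharP k 2] (r : ℕ) (N : Md k r),
    2 ^ r * Module.finrank k (LinearMap.range N.nrm) ≤ N.dim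

/-- **K2b.** The core is subadditive in short exact sequences, additive in direct sums, and
invariant under isomorphism. -/
def S_coreSes : Prop :=
  ∀ (k : Type u) [Field k] [CharP k 2] (r : ℕ),
    (∀ A B C : Md k r, Nonempty (SES A B C) → B.core ≤ A.core + C.core) ∧
    (∀ A B : Md k r, (A.prod B).core = A.core + B.core) ∧
    (∀ A B : Md k r, A.Iso B → A.core = B.core) ∧
    (1 ≤ r → (one k r).core = 1)

/-- **K2c.** The core is submultiplicative. -/
def S_coreTens : Prop :=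
  ∀ (k : Type u) [Field k] [CharP k 2] (r : ℕ) (A B : Md k r),
    (A.tens B).core ≤ A.core * B.core

/-- **K2d.** Modules with zero core are projective: every extension by them splits. -/
def S_split : Prop :=
  ∀ (k : Type u) [Field k] [CharP k 2] (r : ℕ) (A E Q : Md k r),
    Q.core = 0 → Nonempty (SES A E Q) → E.Iso (A.prod Q)

/-- **K2e.** `h_a ≤ core` for `a ≠ 0`. -/
def S_hLeCore : Prop :=
  ∀ (k : Type u) [Field k] [CharP k 2] (r : ℕ) (N : Md k r) (a : Fin r → k),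
    a ≠ 0 → N.h a ≤ N.core

/-! ### K3 -/

/-- **K3.** Existence of characters, monotone for a relation. -/
def S_relChar : Prop :=
  ∀ (R : Type w) [CommSemiring R] (c : R → ℝ) (rel : R → R → Prop),
    (∀ x, 0 ≤ c x) → c 1 = 1 → (∀ x y, c (x + y) = c x + c y) →
    (∀ x y, c (x * y) ≤ c x * c y) →
    (∀ x y, rel x y → c x ≤ c y) → (∀ x y z, rel x y → rel (z * x) (z * y)) →
    ∀ (a : R) (g : ℝ), 0 < g → (∀ m : ℕ, g ^ m ≤ c (a ^ m)) →
      (∀ ε : ℝ, 0 < ε → ∃ m : ℕ, 0 < m ∧ c (a ^ m) ≤ (g + ε) ^ m) →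
      ∃ φ : R → ℝ, (∀ x, 0 ≤ φ x) ∧ φ 1 = 1 ∧ (∀ x y, φ (x + y) = φ x + φ y) ∧
        (∀ x y, φ (x * y) = φ x * φ y) ∧ (∀ x, φ x ≤ c x) ∧ φ a = g ∧
        (∀ x y, rel x y → φ x ≤ φ y)

/-! ### K4 -/

/-- **K4a.** Pullbacks. -/
def S_pull : Prop :=
  ∀ (k : Type u) [Field k] [CharP k 2] (r : ℕ) (A B C A' B' : Md k r),
    Nonempty (SES A B C) → Nonempty (SES A' B' C) →
    ∃ E : Md k r, Nonempty (SES A E B') ∧ Nonempty (SES A' E B)

/-- **K4b.** The two-dimensional modules `V_i`, whose tensor product is free. -/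
def S_vees : Prop :=
  ∀ (k : Type u) [Field k] [CharP k 2] (r : ℕ),
    ∃ V : Fin r → Md k r, (∀ i, Nonempty (SES (one k r) (V i) (one k r))) ∧
      ((List.ofFn V).foldr Md.tens (one k r)).core = 0 ∧
      ∃ Ω : Md k r, Nonempty (SES Ω ((List.ofFn V).foldr Md.tens (one k r)) (one k r))

/-- **K4c.** Tensoring a short exact sequence. -/
def S_tensSes : Prop :=
  ∀ (k : Type u) [Field k] [CharP k 2] (r : ℕ) (Z A B C : Md k r),
    Nonempty (SES A B C) → Nonempty (SES (Z.tens A) (Z.tens B) (Z.tens C))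

/-! ### K5 -/

section

variable {k : Type u} [Field k] {q : ℕ}

/-- The coefficients `ξ m` (coefficient of the monomial `u ^ m`) of a homogeneous polynomial of
degree `n` in `u_1, …, u_q` with values in `Z`, which satisfies `(∑ u_i x_i) ξ = 0`. -/
def Coc (Z : Md k q) (n : ℕ) (ξ : (Fin q → ℕ) → Z.V) : Prop :=
  (∀ m, ∑ i, m i ≠ n → ξ m = 0) ∧
  ∀ m, ∑ i, (if m i = 0 then 0 else Z.x i (ξ (Function.update m i (m i - 1)))) = 0

/-- Evaluation at `b`. -/
noncomputable def ev (Z : Md k q) (n : ℕ) (ξ : (Fin q → ℕ) → Z.V) (b : Fin q → k) : Z.V :=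
  ∑ m ∈ Finset.piAntidiag Finset.univ n, (∏ i, b i ^ m i) • ξ m

end

/-- **K5a.** Existence of polynomial cocycles. -/
def S_cocycle : Prop :=
  ∀ (k : Type u) [Field k] [CharP k 2] [Infinite k] (q : ℕ) (Z : Md k q) (b : Fin q → k),
    (∀ b', Z.h b ≤ Z.h b') → Z.h b ≠ 0 →
    ∃ (n : ℕ) (ξ : (Fin q → ℕ) → Z.V), Coc Z n ξ ∧ ev Z n ξ b ∉ LinearMap.range (Z.op b)

/-- **K5b.** Lowering the degree of a polynomial cocycle. -/
def S_koszul : Prop :=
  ∀ (k : Type u) [Field k] [CharP k 2] (q : ℕ) (Z : Md k q) (b : Fin q → k) (n : ℕ)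
    (ξ : (Fin q → ℕ) → Z.V), b ≠ 0 → Coc Z (n + 1) ξ → ev Z (n + 1) ξ b ∉ LinearMap.range (Z.op b) →
    ∃ (J Z' : Md k q) (ξ' : (Fin q → ℕ) → Z'.V), Nonempty (SES Z J Z') ∧ J.h b = 0 ∧
      Z'.h b = Z.h b ∧ Coc Z' n ξ' ∧ ev Z' n ξ' b ∉ LinearMap.range (Z'.op b)

/-- **K5c.** Degree zero. -/
def S_koszulZero : Prop :=
  ∀ (k : Type u) [Field k] [CharP k 2] (q : ℕ) (Z : Md k q) (b : Fin q → k)
    (ξ : (Fin q → ℕ) → Z.V), Coc Z 0 ξ → ev Z 0 ξ b ∉ LinearMap.range (Z.op b) →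
    ∃ A Z' : Md k q, Nonempty (SES A Z Z') ∧ A.dim = 1 ∧ Z'.h b + 1 ≤ Z.h b

/-! ### K6 -/

/-- **K6a.** Filtrations and quotients. -/
def S_filQuo : Prop :=
  ∀ (k : Type u) [Field k] [CharP k 2] (r : ℕ) (K Y : Md k r) (f : Fin r → k) (s : ℕ),
    K.h f = 0 → Fil K s Y → Y.h f = 0 ∧ Fil (K.quo f) s (Y.quo f)

/-- **K6b.** The eigenvalue step. -/
def S_eigenStep : Prop :=
  ∀ (k : Type u) [Field k] [CharP k 2] [IsAlgClosed k] (r : ℕ) (K : Md k r) (f α : Fin r → k)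
    (s : ℕ), K.h f = 0 →
    ∃ (D : ℕ) (E : Finset k), ∀ Y : Md k r, Fil K s Y →
      (Y.quo f).h α ≤ D * ∑ a ∈ E, Y.h (α + a • f)

/-! ### K7 -/

/-- **K7a.** The ranks of a tensor product. -/
def S_double : Prop :=
  ∀ (k : Type u) [Field k] [CharP k 2] (r : ℕ) (A B : Md k r) (a : Fin r → k),
    A.h a * B.h a ≤ 2 ^ r * (A.tens B).h a

/-- **K7b.** A module which is free over `r` linear forms is free. -/
def S_full : Prop :=
  ∀ (k : Type u) [Field k] [CharP k 2] (r : ℕ) (N : Md k r) (L : List (Fin r → k)),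
    L.length = r → N.FrL L → N.core = 0

/-- **K7c.** The dual has the same ranks. -/
def S_hDual : Prop :=
  ∀ (k : Type u) [Field k] [CharP k 2] (r : ℕ) (N : Md k r) (a : Fin r → k), N.dual.h a = N.h a

/-! ### K8 -/

/-- **K8a.** Loewy filtrations of uniform length. -/
def S_loewy : Prop :=
  ∀ (k : Type u) [Field k] [CharP k 2] (r : ℕ), ∃ s : ℕ, ∀ X K : Md k r, Fil K s (X.tens K)

/-- **K8b.** -/
def S_hTens : Prop :=
  ∀ (k : Type u) [Field k] [CharP k 2] (r : ℕ) (Z K : Md k r) (a : Fin r → k),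
    (Z.tens K).h a ≤ K.dim * Z.h a

/-- **K8c.** -/
def S_quoSes : Prop :=
  ∀ (k : Type u) [Field k] [CharP k 2] (r : ℕ) (N : Md k r) (a : Fin r → k),
    N.h a = 0 → Nonempty (SES (N.quo a) N (N.quo a))

/-- **K8d.** -/
def S_infl : Prop :=
  ∀ (k : Type u) [Field k] [CharP k 2] (r : ℕ) (L : List (Fin r → k)), L.length < r →
    ∃ (q : ℕ) (P : (Fin r → k) →ₗ[k] (Fin q → k)) (I : Md k q → Md k r), 1 ≤ q ∧
      Function.Surjective P ∧ (∀ f ∈ L, P f = 0) ∧
      (∀ f, P f = 0 → f ∈ Submodule.span k {f | f ∈ L}) ∧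
      (∀ A B C, Nonempty (SES A B C) → Nonempty (SES (I A) (I B) (I C))) ∧
      (∀ (A : Md k q) (z : Fin r → k), (I A).h z = A.h (P z)) ∧
      (∀ (A : Md k q), ∀ f ∈ L, (I A).op f = 0) ∧
      (∀ A : Md k q, A.dim = 1 → (I A).Iso (one k r)) ∧
      (∀ W : Md k r, (∀ f ∈ L, W.op f = 0) → ∃ Z : Md k q, (I Z).Iso W)

end Pool.Agent.H398.Kt
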