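import Pool.Agent.H398.Kt.Iface2

/-!
K10: base change of `Md` along a field extension (helper249, for helper398).
-/

set_option autoImplicit false

open scoped TensorProduct

namespace Pool.Agent.H249.Kt

open Pool.Agent.H398.Kt

universe u

section lin

variable {k : Type u} [Field k] (K : Type u) [Field K] [Algebra k K]

/-- the rank does not change under base change -/
theorem rank_bc {V W : Type u} [AddCommGroup V] [Module k V] [AddCommGroup W] [Module k W]
    (f : V →ₗ[k] W) : Module.finrank K (LinearMap.range (f.baseChange K)) =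
      Module.finrank k (LinearMap.range f) := by
  have h1 : f.baseChange K = ((LinearMap.range f).subtype.baseChange K) ∘ₗ
      (f.rangeRestrict.baseChange K) := by
    rw [← LinearMap.baseChange_comp]
    rfl
  have h2 : Function.Surjective (f.rangeRestrict.baseChange K) := by
    rw [LinearMap.baseChange_eq_ltensor]
    exact LinearMap.lTensor_surjective K f.surjective_rangeRestrict
  have h3 : Function.Injective ((LinearMap.range f).subtype.baseChange K) := by
    rw [LinearMap.baseChange_eq_ltensor]
    exact Module.Flat.lTensor_preserves_injective_linearMap _ (Submodule.subtype_injective _)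
  rw [h1, LinearMap.range_comp_of_range_eq_top _ (LinearMap.range_eq_top.2 h2),
    LinearMap.finrank_range_of_inj h3, Module.finrank_baseChange]

/-- two maps which agree on the pure tensors -/
theorem ext_bc {V W : Type u} [AddCommGroup V] [Module k V] [AddCommGroup W] [Module K W]
    (f g : K ⊗[k] V →ₗ[K] W) (h : ∀ (c : K) (v : V), f (c ⊗ₜ v) = g (c ⊗ₜ v)) (z : K ⊗[k] V) :
    f z = g z := by
  induction z using TensorProduct.induction_on with
  | zero => rw [map_zero, map_zero]
  | tmul c v => exact h c v
  | add x y hx hy => rw [map_add, map_add, hx, hy]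

end lin

section dual

variable {k : Type u} [Field k] (K : Type u) [Field K] [Algebra k K]
variable (V : Type u) [AddCommGroup V] [Module k V] [FiniteDimensional k V]

/-- extension of functionals -/
noncomputable def extF : K ⊗[k] Module.Dual k V →ₗ[K] Module.Dual K (K ⊗[k] V) :=
  LinearMap.liftBaseChange K (Module.Dual.baseChange K)

omit [FiniteDimensional k V] in
theorem extF_tmul (c d : K) (f : Module.Dual k V) (v : V) :
    extF K V (c ⊗ₜ f) (d ⊗ₜ v) = c * (f v • d) := by
  unfold extF
  rw [LinearMap.liftBaseChange_tmul, LinearMap.smul_apply, Module.Dual.baseChange_apply_tmul,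
    smul_eq_mul]

/-- the dual commutes with base change -/
theorem exists_dual : ∃ e : (K ⊗[k] Module.Dual k V) ≃ₗ[K] Module.Dual K (K ⊗[k] V),
    ∀ z, e z = extF K V z := by
  classical
  let b := Module.finBasis k V
  let bD := (b.dualBasis).baseChange K
  let bK := (b.baseChange K).dualBasis
  refine ⟨bD.equiv bK (Equiv.refl _), fun z => ?_⟩
  have h : (bD.equiv bK (Equiv.refl _)).toLinearMap = extF K V := by
    apply bD.ext
    intro i
    rw [LinearEquiv.coe_coe, Module.Basis.equiv_apply]
    apply (b.baseChange K).ext
    intro j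
    have h1 : extF K V (bD i) (b.baseChange K j) = (b.dualBasis i) (b j) • 1 := by
      rw [Module.Basis.baseChange_apply, Module.Basis.baseChange_apply, extF_tmul, one_mul]
    rw [h1, Module.Basis.dualBasis_apply_self, Module.Basis.dualBasis_apply_self,
      Equiv.refl_apply]
    by_cases hij : j = i
    · rw [if_pos hij, if_pos hij, one_smul]
    · rw [if_neg hij, if_neg hij, zero_smul]
  exact congrArg (fun T => T z) h

end dual

section F

variable {k : Type u} [Field k] (K : Type u) [Field K] [Algebra k K] {r : ℕ}

/-- base change of a module -/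
noncomputable abbrev bc (A : Md k r) : Md K r where
  V := K ⊗[k] A.V
  x i := (A.x i).baseChange K
  comm i j v := by
    refine ext_bc K ((A.x i).baseChange K ∘ₗ (A.x j).baseChange K)
      ((A.x j).baseChange K ∘ₗ (A.x i).baseChange K) (fun c v => ?_) v
    simp only [LinearMap.comp_apply, LinearMap.baseChange_tmul, A.comm i j]
  sq i v := by
    refine ext_bc K ((A.x i).baseChange K ∘ₗ (A.x i).baseChange K) 0 (fun c v => ?_) v
    simp only [LinearMap.comp_apply, LinearMap.baseChange_tmul, A.sq i, TensorProduct.tmul_zero,
      LinearMap.zero_apply]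

theorem bc_iso {A B : Md k r} (h : A.Iso B) : (bc K A).Iso (bc K B) := by
  obtain ⟨e, he⟩ := h
  refine ⟨e.baseChange k K _ _, fun i v => ?_⟩
  refine ext_bc K ((e.baseChange k K _ _).toLinearMap ∘ₗ (A.x i).baseChange K)
    ((B.x i).baseChange K ∘ₗ (e.baseChange k K _ _).toLinearMap) (fun c v => ?_) v
  simp only [LinearMap.comp_apply, LinearMap.baseChange_tmul, LinearEquiv.coe_coe,
    LinearEquiv.baseChange_tmul, he]

theorem bc_tens [CharP k 2] [CharP K 2] (A B : Md k r) :
    (bc K (A.tens B)).Iso ((bc K A).tens (bc K B)) := by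
  refine ⟨TensorProduct.AlgebraTensorModule.distribBaseChange k K A.V B.V, fun i v => ?_⟩
  refine ext_bc K
    ((TensorProduct.AlgebraTensorModule.distribBaseChange k K A.V B.V).toLinearMap ∘ₗ
      ((A.tens B).x i).baseChange K)
    (((bc K A).tens (bc K B)).x i ∘ₗ
      (TensorProduct.AlgebraTensorModule.distribBaseChange k K A.V B.V).toLinearMap)
    (fun c v => ?_) v
  induction v using TensorProduct.induction_on with
  | zero => rw [TensorProduct.tmul_zero, map_zero, map_zero]
  | tmul a b =>
    simp only [LinearMap.comp_apply, LinearMap.baseChange_tmul, LinearEquiv.coe_coe,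
      LinearMap.add_apply, TensorProduct.map_tmul, LinearMap.id_apply, TensorProduct.tmul_add,
      map_add, TensorProduct.AlgebraTensorModule.distribBaseChange_tmul]
  | add x y hx hy => rw [TensorProduct.tmul_add, map_add, map_add, hx, hy]

theorem bc_dual (A : Md k r) : (bc K A.dual).Iso (bc K A).dual := by
  obtain ⟨e, he⟩ := exists_dual (k := k) K A.V
  refine ⟨e, fun i v => ?_⟩
  have h : ∀ z, e z = extF K A.V z := he
  rw [h, h]
  refine ext_bc K (extF K A.V ∘ₗ (A.dual.x i).baseChange K)
    ((bc K A).dual.x i ∘ₗ extF K A.V) (fun c f => ?_) v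
  refine LinearMap.ext fun w => ?_
  refine ext_bc K ((extF K A.V ∘ₗ (A.dual.x i).baseChange K) (c ⊗ₜ f))
    (((bc K A).dual.x i ∘ₗ extF K A.V) (c ⊗ₜ f)) (fun d v => ?_) w
  rw [LinearMap.comp_apply, LinearMap.comp_apply, LinearMap.baseChange_tmul, extF_tmul]
  show _ = extF K A.V (c ⊗ₜ f) ((A.x i).baseChange K (d ⊗ₜ v))
  rw [LinearMap.baseChange_tmul, extF_tmul]
  rfl

theorem bc_one : (bc K (Md.one k r)).Iso (Md.one K r) := by
  refine ⟨TensorProduct.AlgebraTensorModule.rid k K K, fun i v => ?_⟩
  have h : (bc K (Md.one k r)).x i = 0 := LinearMap.baseChange_zero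
  rw [h, LinearMap.zero_apply, map_zero]
  rfl

theorem bc_prod (A B : Md k r) : (bc K (A.prod B)).Iso ((bc K A).prod (bc K B)) := by
  refine ⟨TensorProduct.prodRight k K K A.V B.V, fun i v => ?_⟩
  refine ext_bc K ((TensorProduct.prodRight k K K A.V B.V).toLinearMap ∘ₗ
      ((A.prod B).x i).baseChange K)
    (((bc K A).prod (bc K B)).x i ∘ₗ (TensorProduct.prodRight k K K A.V B.V).toLinearMap)
    (fun c v => ?_) v
  simp only [LinearMap.comp_apply, LinearMap.baseChange_tmul, LinearEquiv.coe_coe,
    TensorProduct.prodRight_tmul, LinearMap.prodMap_apply]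

theorem bc_list {V : Type u} [AddCommGroup V] [Module k V] (L : List (V →ₗ[k] V)) :
    (L.map fun f => f.baseChange K).prod = (L.prod).baseChange K := by
  induction L with
  | nil =>
    rw [List.map_nil, List.prod_nil, List.prod_nil]
    exact LinearMap.baseChange_id.symm
  | cons f L ih =>
    rw [List.map_cons, List.prod_cons, List.prod_cons, ih]
    exact (LinearMap.baseChange_comp _ _).symm

theorem bc_core (A : Md k r) : (bc K A).core = A.core := by
  have h1 : (bc K A).dim = A.dim := Module.finrank_baseChange
  have h2 : (bc K A).nrm = A.nrm.baseChange K := by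
    unfold Md.nrm
    rw [← bc_list, List.map_ofFn]
    rfl
  unfold Md.core
  rw [h1, h2, rank_bc]

end F

/-- **K10.** Base change. -/
theorem proof_base : Pool.Agent.H398.Kt.S_base.{u} := by
  intro k K _ _ _ _ _ r
  exact ⟨bc K, fun A B h => bc_iso K h, bc_tens K, bc_dual K, bc_one K, bc_core K, bc_prod K⟩

end Pool.Agent.H249.Kt
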