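import Pool.Agent.H398.Kt.Iface2

/-!
# Representations of elementary abelian 2-groups as modules (MP_13b5a2_al, task KT16)
-/

set_option autoImplicit false
set_option linter.unusedVariables false
set_option linter.unusedSectionVars false

open scoped TensorProduct

namespace Pool.Agent.H308.Kt

universe u v w

/-! ## Generators of an elementary abelian `2`-group -/

section gens

variable {G : Type v} [Group G]

/-- The multiset of the subset products of a list. -/
def MM : List G → Multiset G
  | [] => {1}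
  | a :: l => MM l + (MM l).map (fun x => a * x)

theorem MM_card (l : List G) : (MM l).card = 2 ^ l.length := by
  induction l with
  | nil => simp [MM]
  | cons a l ih => simp [MM, ih, pow_succ]; ring

theorem one_mem_MM (l : List G) : (1 : G) ∈ MM l := by
  induction l with
  | nil => simp [MM]
  | cons a l ih => simp [MM, ih]

/-- The properties of an independent list. -/
def Qp (l : List G) : Prop := (MM l).Nodup ∧ ∀ x ∈ MM l, ∀ y ∈ MM l, x * y ∈ MM l

theorem Qp_nil : Qp ([] : List G) := by
  constructor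
  · simp [MM]
  · simp [MM]

theorem comm_of_sq (hG : ∀ g : G, g * g = 1) (a b : G) : a * b = b * a := by
  have h1 : ∀ g : G, g⁻¹ = g := fun g => inv_eq_of_mul_eq_one_left (hG g)
  have h2 := h1 (a * b)
  rw [mul_inv_rev, h1, h1] at h2
  exact h2.symm

theorem Qp_cons (hG : ∀ g : G, g * g = 1) (l : List G) (hl : Qp l) (a : G) (ha : a ∉ MM l) :
    Qp (a :: l) := by
  have hc := comm_of_sq hG
  have key : ∀ x ∈ MM l, a * x ∉ MM l := by
    intro x hx hax
    apply ha
    have h1 := hl.2 (a * x) hax x hx
    rwa [mul_assoc, hG, mul_one] at h1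
  constructor
  · simp only [MM]
    rw [Multiset.nodup_add]
    refine ⟨hl.1, hl.1.map (mul_right_injective a), ?_⟩
    rw [Multiset.disjoint_left]
    intro x hx hx2
    rw [Multiset.mem_map] at hx2
    obtain ⟨y, hy, rfl⟩ := hx2
    exact key y hy hx
  · intro x hx y hy
    simp only [MM, Multiset.mem_add, Multiset.mem_map] at hx hy ⊢
    rcases hx with hx | ⟨x', hx', rfl⟩ <;> rcases hy with hy | ⟨y', hy', rfl⟩
    · exact Or.inl (hl.2 x hx y hy)
    · right
      refine ⟨x * y', hl.2 x hx y' hy', ?_⟩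
      rw [← mul_assoc, hc a x, mul_assoc]
    · right
      exact ⟨x' * y, hl.2 x' hx' y hy, (mul_assoc _ _ _).symm⟩
    · left
      have : a * x' * (a * y') = x' * y' := by
        rw [hc a x', mul_assoc, ← mul_assoc a a, hG, one_mul]
      rw [this]
      exact hl.2 x' hx' y' hy'

theorem exists_gens [Fintype G] (hG : ∀ g : G, g * g = 1) :
    ∃ l : List G, MM l = (Finset.univ : Finset G).val := by
  classical
  have hb : ∀ l : List G, Qp l → l.length < Fintype.card G := by
    intro l hl
    have h1 : (MM l).card ≤ Fintype.card G := by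
      have h2 : (⟨MM l, hl.1⟩ : Finset G).card ≤ Fintype.card G := Finset.card_le_univ _
      exact h2
    rw [MM_card] at h1
    exact lt_of_lt_of_le Nat.lt_two_pow_self h1
  by_contra hcon
  push Not at hcon
  have step : ∀ n : ℕ, ∃ l : List G, Qp l ∧ l.length = n := by
    intro n
    induction n with
    | zero => exact ⟨[], Qp_nil, rfl⟩
    | succ n ih =>
      obtain ⟨l, hl, hn⟩ := ih
      have h1 : ∃ a, a ∉ MM l := by
        by_contra h2
        push Not at h2
        apply hcon l
        have h3 : (⟨MM l, hl.1⟩ : Finset G) = Finset.univ := by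
          ext a
          simp only [Finset.mem_univ, iff_true]
          exact h2 a
        exact congrArg Finset.val h3
      obtain ⟨a, ha⟩ := h1
      exact ⟨a :: l, Qp_cons hG l hl a ha, by simp [hn]⟩
  obtain ⟨l, hl, hn⟩ := step (Fintype.card G)
  have := hb l hl
  omega

end gens

/-! ## Representations -/

section rep

variable {k : Type u} [Field k] {G : Type v} [Group G] {V : Type w} [AddCommGroup V] [Module k V]

theorem prod_eq_sum (ρ : Representation k G V) (l : List G) :
    (l.map (fun g => ρ g + 1)).prod = ((MM l).map (fun g => ρ g)).sum := by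
  induction l with
  | nil => simp [MM]
  | cons a l ih =>
    simp only [List.map_cons, List.prod_cons, ih, MM, Multiset.map_add, Multiset.sum_add,
      Multiset.map_map, Function.comp_apply, map_mul]
    rw [add_mul, one_mul, Multiset.sum_map_mul_left, add_comm]

/-- A nonzero element of an invariant subspace gives a nonzero invariant one. -/
theorem exists_inv [CharP k 2] (hG : ∀ g : G, g * g = 1) (ρ : Representation k G V)
    (K : Submodule k V) (hK : ∀ g, ∀ c ∈ K, ρ g c ∈ K) (l : List G) :
    ∀ c ∈ K, c ≠ 0 → ∃ w ∈ K, w ≠ 0 ∧ ∀ g ∈ l, ρ g w = w := by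
  have h2 : ∀ v : V, v + v = 0 := by
    intro v
    rw [← two_smul k v, CharTwo.two_eq_zero, zero_smul]
  have hs : ∀ (g : G) (v : V), ρ g v + v = 0 ↔ ρ g v = v := by
    intro g v
    constructor
    · intro h
      have h3 := h2 v
      have : ρ g v + v = v + v := by rw [h, h3]
      exact add_right_cancel this
    · intro h
      rw [h, h2]
  induction l with
  | nil =>
    intro c hc h0
    exact ⟨c, hc, h0, by simp⟩
  | cons a l ih =>
    intro c hc h0
    obtain ⟨w, hw, hw0, hwl⟩ := ih c hc h0
    by_cases h : ρ a w + w = 0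
    · refine ⟨w, hw, hw0, ?_⟩
      intro g hg
      rcases List.mem_cons.mp hg with rfl | hg
      · exact (hs _ _).mp h
      · exact hwl g hg
    · refine ⟨ρ a w + w, K.add_mem (hK a w hw) hw, h, ?_⟩
      intro g hg
      rcases List.mem_cons.mp hg with rfl | hg
      · rw [map_add, ← Module.End.mul_apply, ← map_mul, hG, map_one, Module.End.one_apply, add_comm]
      · rw [map_add, hwl g hg]
        have h5 : ρ g (ρ a w) = ρ a (ρ g w) := by
          rw [← Module.End.mul_apply, ← Module.End.mul_apply, ← map_mul, ← map_mul,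
            comm_of_sq hG]
        rw [h5, hwl g hg]

end rep

end Pool.Agent.H308.Kt

namespace Pool.Agent.H308.Kt

universe u v w

open Pool.Agent.H398.Gam Pool.Agent.H398.Gam.Ob

variable {k : Type u} [Field k] {G : Type v} [Group G] [Fintype G]

/-- The norm. -/
noncomputable def NN (A : Ob k G) : A.V →ₗ[k] A.V := ∑ g : G, A.ρ g

theorem NN_apply (A : Ob k G) (v : A.V) : NN A v = ∑ g : G, A.ρ g v := by
  unfold NN
  rw [LinearMap.sum_apply]

theorem ρ_NN (A : Ob k G) (h : G) (v : A.V) : A.ρ h (NN A v) = NN A v := by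
  rw [NN_apply, map_sum]
  have h1 : ∀ g : G, A.ρ h (A.ρ g v) = A.ρ (h * g) v := by
    intro g
    rw [map_mul, Module.End.mul_apply]
  simp only [h1]
  exact Equiv.sum_comp (Equiv.mulLeft h) (fun g => A.ρ g v)

theorem NN_ρ (A : Ob k G) (h : G) (v : A.V) : NN A (A.ρ h v) = NN A v := by
  rw [NN_apply, NN_apply]
  have h1 : ∀ g : G, A.ρ g (A.ρ h v) = A.ρ (g * h) v := by
    intro g
    rw [map_mul, Module.End.mul_apply]
  simp only [h1]
  exact Equiv.sum_comp (Equiv.mulRight h) (fun g => A.ρ g v)

theorem NN_eqv {A B : Ob k G} (T : A.V →ₗ[k] B.V) (hT : Eqv A B T) (v : A.V) :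
    T (NN A v) = NN B (T v) := by
  rw [NN_apply, NN_apply, map_sum]
  exact Finset.sum_congr rfl (fun g _ => hT g v)

/-- The rank of the norm. -/
noncomputable def RR (A : Ob k G) : ℕ := Module.finrank k (LinearMap.range (NN A))

theorem RR_iso {A B : Ob k G} (h : A.Iso B) : RR A = RR B := by
  obtain ⟨e, he⟩ := h.exists_equiv
  have : LinearMap.range (NN B) = (LinearMap.range (NN A)).map e.toLinearMap := by
    ext v
    constructor
    · rintro ⟨w, rfl⟩
      refine ⟨NN A (e.symm w), ⟨_, rfl⟩, ?_⟩
      have h1 := NN_eqv e.toLinearMap he (e.symm w)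
      simpa using h1
    · rintro ⟨_, ⟨w, rfl⟩, rfl⟩
      exact ⟨e w, (NN_eqv e.toLinearMap he w).symm⟩
  unfold RR
  rw [this]
  exact (LinearEquiv.finrank_map_eq e _).symm

theorem RR_prod (A B : Ob k G) : RR (A.prod B) = RR A + RR B := by
  have h1 : NN (A.prod B) = (NN A).prodMap (NN B) := by
    apply LinearMap.ext
    rintro ⟨a, b⟩
    rw [NN_apply]
    change ∑ g : G, ((A.ρ g a, B.ρ g b) : A.V × B.V) = (NN A a, NN B b)
    rw [NN_apply, NN_apply]
    ext
    · rw [Prod.fst_sum]
    · rw [Prod.snd_sum]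
  have h2 : LinearMap.range (NN (A.prod B)) =
      (LinearMap.range (NN A)).prod (LinearMap.range (NN B)) := by
    rw [h1]
    exact LinearMap.range_prodMap _ _
  unfold RR
  rw [h2]
  have h3 : LinearMap.range ((LinearMap.range (NN A)).subtype.prodMap
      (LinearMap.range (NN B)).subtype) =
      (LinearMap.range (NN A)).prod (LinearMap.range (NN B)) := by
    rw [LinearMap.range_prodMap, Submodule.range_subtype, Submodule.range_subtype]
  rw [← h3, LinearMap.finrank_range_of_inj, Module.finrank_prod]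
  rintro ⟨a, b⟩ ⟨a', b'⟩ h
  have h4 := congrArg Prod.fst h
  have h5 := congrArg Prod.snd h
  exact Prod.ext (Subtype.ext h4) (Subtype.ext h5)

/-! ## The structure lemma -/

/-- The permutation action on functions. -/
def act (I : Type) (h : G) : (I → G → k) →ₗ[k] (I → G → k) where
  toFun c i g := c i (h⁻¹ * g)
  map_add' c d := rfl
  map_smul' a c := rfl

/-- The representation on functions. -/
def ρX (k : Type u) [Field k] (G : Type v) [Group G] (I : Type) : Representation k G (I → G → k) where
  toFun h := act I h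
  map_one' := by
    apply LinearMap.ext
    intro c
    funext i g
    change c i (1⁻¹ * g) = c i g
    simp
  map_mul' a b := by
    apply LinearMap.ext
    intro c
    funext i g
    change c i ((a * b)⁻¹ * g) = c i (b⁻¹ * (a⁻¹ * g))
    rw [mul_inv_rev, mul_assoc]

theorem ρX_apply (I : Type) (h : G) (c : I → G → k) (i : I) (g : G) :
    ρX k G I h c i g = c i (h⁻¹ * g) := rfl

section constr

variable (A : Ob k G) {I : Type} [Fintype I] (v : I → A.V) (lam : I → A.V →ₗ[k] k)

/-- `α c = ∑ c i g • g v_i`. -/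
noncomputable def al : (I → G → k) →ₗ[k] A.V where
  toFun c := ∑ i, ∑ g, c i g • A.ρ g (v i)
  map_add' c d := by
    simp only [Pi.add_apply, add_smul, Finset.sum_add_distrib]
  map_smul' a c := by
    simp only [Pi.smul_apply, smul_eq_mul, mul_smul, Finset.smul_sum, RingHom.id_apply]

/-- `β v i g = λ_i (g⁻¹ v)`. -/
noncomputable def be : A.V →ₗ[k] (I → G → k) where
  toFun w i g := lam i (A.ρ g⁻¹ w)
  map_add' c d := by
    funext i g
    simp
  map_smul' a c := by
    funext i g
    simp

theorem al_apply (c : I → G → k) : al A v c = ∑ i, ∑ g, c i g • A.ρ g (v i) := rfl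

theorem be_apply (w : A.V) (i : I) (g : G) : be A lam w i g = lam i (A.ρ g⁻¹ w) := rfl

theorem al_eqv (h : G) (c : I → G → k) : al A v (ρX k G I h c) = A.ρ h (al A v c) := by
  rw [al_apply, al_apply, map_sum]
  refine Finset.sum_congr rfl (fun i _ => ?_)
  rw [map_sum]
  rw [← Equiv.sum_comp (Equiv.mulLeft h)]
  refine Finset.sum_congr rfl (fun g _ => ?_)
  rw [map_smul, Equiv.coe_mulLeft, ρX_apply, inv_mul_cancel_left, map_mul, Module.End.mul_apply]

theorem be_eqv (h : G) (w : A.V) : be A lam (A.ρ h w) = ρX k G I h (be A lam w) := by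
  funext i g
  rw [ρX_apply, be_apply, be_apply, mul_inv_rev, inv_inv, map_mul, Module.End.mul_apply]

end constr

theorem T_inj [CharP k 2] (hG : ∀ g : G, g * g = 1) (A : Ob k G) {I : Type} [Fintype I]
    [DecidableEq I]
    (v : I → A.V) (lam : I → A.V →ₗ[k] k) (hd : ∀ i j, lam i (NN A (v j)) = if j = i then 1 else 0)
    (c : I → G → k) (hc : be A lam (al A v c) = 0) : c = 0 := by
  classical
  by_contra h0
  obtain ⟨w, hw, hw0, hwl⟩ := exists_inv hG (ρX k G I) (LinearMap.ker (be A lam ∘ₗ al A v))
    (by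
      intro g c hc
      rw [LinearMap.mem_ker, LinearMap.comp_apply] at hc ⊢
      rw [al_eqv, be_eqv, hc, map_zero]) (Finset.univ : Finset G).toList c
    (by rw [LinearMap.mem_ker, LinearMap.comp_apply]; exact hc) h0
  have h1 : ∀ i g, w i g = w i 1 := by
    intro i g
    have h2 := hwl g (by simp)
    have h3 := congrFun (congrFun h2 i) g
    rw [ρX_apply, inv_mul_cancel] at h3
    exact h3.symm
  have h2 : al A v w = ∑ j, w j 1 • NN A (v j) := by
    rw [al_apply]
    refine Finset.sum_congr rfl (fun j _ => ?_)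
    rw [NN_apply, Finset.smul_sum]
    exact Finset.sum_congr rfl (fun g _ => by rw [h1])
  have h3 : ∀ i, w i 1 = 0 := by
    intro i
    have h4 : be A lam (al A v w) i 1 = 0 := by
      rw [LinearMap.mem_ker, LinearMap.comp_apply] at hw
      rw [hw]
      rfl
    rw [be_apply, inv_one, map_one, Module.End.one_apply, h2, map_sum] at h4
    simp only [map_smul, hd, smul_eq_mul, mul_ite, mul_one, mul_zero] at h4
    rw [Finset.sum_ite_eq' Finset.univ i] at h4
    simpa using h4
  apply hw0
  funext i g
  rw [h1, h3]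
  rfl

/-- Evaluation at `1`. -/
def thX (k : Type u) [Field k] (G : Type v) [Group G] [DecidableEq G] (I : Type) :
    (I → G → k) →ₗ[k] (I → G → k) where
  toFun c i g := if g = 1 then c i 1 else 0
  map_add' c d := by
    funext i g
    simp only [Pi.add_apply]
    split_ifs <;> simp
  map_smul' a c := by
    funext i g
    simp only [Pi.smul_apply, smul_eq_mul, RingHom.id_apply]
    split_ifs <;> simp

theorem thX_sum [DecidableEq G] (I : Type) (c : I → G → k) :
    ∑ h : G, ρX k G I h (thX k G I (ρX k G I h⁻¹ c)) = c := by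
  funext i g
  rw [Finset.sum_apply, Finset.sum_apply]
  have h1 : ∀ h : G, ρX k G I h (thX k G I (ρX k G I h⁻¹ c)) i g = if h = g then c i g else 0 := by
    intro h
    rw [ρX_apply]
    change (if h⁻¹ * g = 1 then (ρX k G I h⁻¹ c) i 1 else 0) = _
    rw [ρX_apply, inv_inv, mul_one]
    by_cases hg : h = g
    · rw [hg]
      simp
    · rw [if_neg hg, if_neg]
      intro h2
      exact hg (inv_mul_eq_one.mp h2)
  simp only [h1]
  simp

theorem structure_aux [CharP k 2] (hG : ∀ g : G, g * g = 1) (A : Ob k G) :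
    ∃ Q C : Ob k G, A.Iso (Q.prod C) ∧ IsTr Q Q LinearMap.id ∧
      Q.dim = RR A * Fintype.card G ∧ ∀ c : C.V, NN C c = 0 := by
  classical
  let b := Module.finBasis k (LinearMap.range (NN A))
  have hv : ∀ i : Fin (Module.finrank k (LinearMap.range (NN A))), ∃ v : A.V, NN A v = (b i : A.V) :=
    fun i => (b i).2
  choose v hv using hv
  have hl : ∀ i : Fin (Module.finrank k (LinearMap.range (NN A))), ∃ l : A.V →ₗ[k] k,
      l ∘ₗ (LinearMap.range (NN A)).subtype = b.coord i := fun i => LinearMap.exists_extend _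
  choose lam hlam using hl
  have hlam' : ∀ i (y : LinearMap.range (NN A)), lam i y = b.coord i y :=
    fun i y => LinearMap.congr_fun (hlam i) y
  have hd : ∀ i j, lam i (NN A (v j)) = if j = i then 1 else 0 := by
    intro i j
    rw [hv, hlam', Module.Basis.coord_apply, Module.Basis.repr_self, Finsupp.single_apply]
  let T : (Fin (Module.finrank k (LinearMap.range (NN A))) → G → k) →ₗ[k]
    (Fin (Module.finrank k (LinearMap.range (NN A))) → G → k) := be A lam ∘ₗ al A v
  have hT : Function.Injective T := by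
    rw [injective_iff_map_eq_zero]
    intro c hc
    exact T_inj hG A v lam hd c hc
  let Te := LinearEquiv.ofInjectiveEndo T hT
  have hTeT : ∀ c, Te c = be A lam (al A v c) := fun c => rfl
  let S : (Fin (Module.finrank k (LinearMap.range (NN A))) → G → k) →ₗ[k] A.V :=
    al A v ∘ₗ Te.symm.toLinearMap
  have hSd : ∀ c, S c = al A v (Te.symm c) := fun c => rfl
  have hbS : ∀ c, be A lam (S c) = c := by
    intro c
    rw [hSd, ← hTeT, LinearEquiv.apply_symm_apply]
  have hTs : ∀ h c, Te.symm (ρX k G _ h c) = ρX k G _ h (Te.symm c) := by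
    intro h c
    apply Te.injective
    rw [LinearEquiv.apply_symm_apply, hTeT, al_eqv, be_eqv, ← hTeT, LinearEquiv.apply_symm_apply]
  have hS : ∀ h c, S (ρX k G _ h c) = A.ρ h (S c) := by
    intro h c
    rw [hSd, hSd, hTs, al_eqv]
  have hW : ∀ g, LinearMap.range S ≤ (LinearMap.range S).comap (A.ρ g) := by
    rintro g _ ⟨c, rfl⟩
    exact ⟨ρX k G _ g c, hS g c⟩
  let Q : Ob k G := ⟨LinearMap.range S, A.ρ.subrepresentation (LinearMap.range S) hW⟩
  let TQ : A.V →ₗ[k] Q.V := LinearMap.codRestrict (LinearMap.range S) (S ∘ₗ be A lam)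
    (fun w => ⟨be A lam w, rfl⟩)
  let SQ : Q.V →ₗ[k] A.V := (LinearMap.range S).subtype
  have hSQ : Eqv Q A SQ := fun g v => rfl
  have hSi : Function.Injective SQ := Subtype.val_injective
  have hST : ∀ w, SQ (TQ w) = S (be A lam w) := fun w => rfl
  have hTQ : Eqv A Q TQ := by
    intro g w
    apply hSi
    rw [hSQ, hST, hST, be_eqv, hS]
  have hTS : ∀ q, TQ (SQ q) = q := by
    intro q
    apply hSi
    rw [hST]
    obtain ⟨_, ⟨c, rfl⟩⟩ := q
    change S (be A lam (S c)) = S c
    rw [hbS]
  obtain ⟨C, I, P, hI, hP, hPI, hIP, hTI, hiso⟩ := compl Q A SQ TQ hSQ hTQ hTS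
  refine ⟨Q, C, hiso, ?_, ?_, ?_⟩
  · have h1 : IsTr A A (S ∘ₗ be A lam) := by
      refine ⟨S ∘ₗ thX k G _ ∘ₗ be A lam, fun w => ?_⟩
      simp only [LinearMap.comp_apply]
      have h2 : ∀ h : G, A.ρ h (S (thX k G _ (be A lam (A.ρ h⁻¹ w)))) =
          S (ρX k G _ h (thX k G _ (ρX k G _ h⁻¹ (be A lam w)))) := by
        intro h
        rw [hS, be_eqv]
      rw [Finset.sum_congr rfl (fun h _ => h2 h), ← map_sum, thX_sum]
    have h3 := (h1.comp_right hSQ).comp_left hTQ
    have e : TQ ∘ₗ ((S ∘ₗ be A lam) ∘ₗ SQ) = LinearMap.id := by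
      apply LinearMap.ext
      intro q
      change TQ (SQ (TQ (SQ q))) = q
      rw [hTS, hTS]
    rwa [e] at h3
  · have h1 : Function.Injective S := by
      intro c d h
      have := congrArg (be A lam) h
      rwa [hbS, hbS] at this
    change Module.finrank k (LinearMap.range S) = _
    rw [LinearMap.finrank_range_of_inj h1, Module.finrank_pi_fintype]
    simp [RR]
  · intro c
    have h1 : be A lam (I c) = 0 := by
      have h2 : S (be A lam (I c)) = 0 := by
        rw [← hST, hTI, map_zero]
      rw [← hbS (be A lam (I c)), h2, map_zero]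
    have h2 : ∀ i, lam i (NN A (I c)) = 0 := by
      intro i
      rw [NN_apply, map_sum]
      apply Finset.sum_eq_zero
      intro g _
      have h3 := congrFun (congrFun h1 i) g⁻¹
      rw [be_apply, inv_inv] at h3
      exact h3
    have h3 : NN A (I c) = 0 := by
      have h4 : (⟨NN A (I c), ⟨I c, rfl⟩⟩ : LinearMap.range (NN A)) = 0 := by
        apply b.ext_elem
        intro i
        have h5 := h2 i
        have h6 := hlam' i ⟨NN A (I c), ⟨I c, rfl⟩⟩
        change lam i (NN A (I c)) = _ at h6
        rw [h5, Module.Basis.coord_apply] at h6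
        rw [← h6, map_zero]
        rfl
      exact congrArg Subtype.val h4
    have h4 : I (NN C c) = 0 := by
      rw [NN_eqv I hI, h3]
    have h5 := hPI (NN C c)
    rw [h4, map_zero] at h5
    exact h5.symm

theorem dim_proj [CharP k 2] (hG : ∀ g : G, g * g = 1) (P : Ob k G) (hP : IsTr P P LinearMap.id) :
    P.dim = RR P * Fintype.card G := by
  obtain ⟨Q, C, h1, h2, h3, h4⟩ := structure_aux hG P
  have h5 : IsTr C C LinearMap.id := (IsTr.id_iso (h1.trans (prod_comm _ _)) hP).id_left
  have h6 : C.dim = 0 := by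
    apply Module.finrank_zero_iff.mpr
    by_contra hns
    rw [not_subsingleton_iff_nontrivial] at hns
    obtain ⟨c, hc⟩ := exists_ne (0 : C.V)
    obtain ⟨w, -, hw0, hw⟩ := exists_inv hG C.ρ ⊤ (fun _ _ _ => trivial)
      (Finset.univ : Finset G).toList c trivial hc
    obtain ⟨θ, hθ⟩ := h5
    apply hw0
    have h7 := hθ w
    rw [LinearMap.id_apply] at h7
    rw [h7, ← h4 (θ w), NN_apply]
    refine Finset.sum_congr rfl (fun g _ => ?_)
    rw [hw g⁻¹ (by simp)]
  rw [dim_eq_of_iso h1, dim_prod, h6, h3, add_zero]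

theorem coreDim_eq [CharP k 2] (hG : ∀ g : G, g * g = 1) (A : Ob k G) :
    A.coreDim = A.dim - Fintype.card G * RR A := by
  have H : S_higman.{u, v} := Pool.Agent.H284.GAM.proof_higman
  apply le_antisymm
  · obtain ⟨Q, C, h1, h2, h3, h4⟩ := structure_aux hG A
    have h5 := coreDim_le ((isProj_iff H Q).mpr h2) (h1.trans (prod_comm _ _))
    have h6 := dim_eq_of_iso h1
    rw [dim_prod, h3, mul_comm] at h6
    omega
  · obtain ⟨B, P, hP, h1, h2⟩ := exists_core H A
    have h3 := dim_proj hG P ((isProj_iff H P).mp hP)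
    have h4 := dim_eq_of_iso h1
    have h5 := RR_iso h1
    rw [RR_prod] at h5
    rw [dim_prod, h3] at h4
    rw [← h2, h4, h5, mul_add, mul_comm (Fintype.card G) (RR P)]
    omega

end Pool.Agent.H308.Kt

namespace Pool.Agent.H308.Kt

universe u v w

open Pool.Agent.H398.Gam Pool.Agent.H398.Gam.Ob Pool.Agent.H398.Kt

variable {k : Type u} [Field k] {G : Type v} [Group G] [Fintype G]

theorem add_self2 [CharP k 2] {V : Type w} [AddCommGroup V] [Module k V] (v : V) : v + v = 0 := by
  rw [← two_smul k v, CharTwo.two_eq_zero, zero_smul]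

/-- The functor. -/
abbrev FF [CharP k 2] (hG : ∀ g : G, g * g = 1) (l : List G) (A : Ob k G) : Md k l.length where
  V := A.V
  x i := A.ρ (l.get i) + 1
  comm i j v := by
    have h1 : A.ρ (l.get i) (A.ρ (l.get j) v) = A.ρ (l.get j) (A.ρ (l.get i) v) := by
      rw [← Module.End.mul_apply, ← Module.End.mul_apply, ← map_mul, ← map_mul, comm_of_sq hG]
    simp only [LinearMap.add_apply, Module.End.one_apply, map_add, h1]
    abel
  sq i v := by
    have h1 : A.ρ (l.get i) (A.ρ (l.get i) v) = v := by
      rw [← Module.End.mul_apply, ← map_mul, hG, map_one, Module.End.one_apply]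
    simp only [LinearMap.add_apply, Module.End.one_apply, map_add, h1]
    have h2 := add_self2 (k := k) (v + A.ρ (l.get i) v)
    rw [← h2]
    abel

theorem FF_x [CharP k 2] (hG : ∀ g : G, g * g = 1) (l : List G) (A : Ob k G) (i : Fin l.length)
    (v : A.V) : (FF hG l A).x i v = A.ρ (l.get i) v + v := rfl

theorem FF_nrm [CharP k 2] (hG : ∀ g : G, g * g = 1) (l : List G)
    (hl : MM l = (Finset.univ : Finset G).val) (A : Ob k G) : (FF hG l A).nrm = NN A := by
  have h1 : (FF hG l A).nrm = (l.map (fun g => A.ρ g + 1)).prod := by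
    unfold Md.nrm
    congr 1
    conv_rhs => rw [← List.ofFn_get l, List.map_ofFn]
    rfl
  rw [h1, prod_eq_sum, hl]
  rfl

theorem proof_bridge : S_bridge.{u, v} := by
  intro k _ _ G _ _ hG
  obtain ⟨l, hl⟩ := exists_gens hG
  have hcard : 2 ^ l.length = Fintype.card G := by
    rw [← MM_card, hl]
    rfl
  have hcore : ∀ A : Ob k G, (FF hG l A).core = A.coreDim := by
    intro A
    unfold Md.core
    rw [FF_nrm hG l hl, hcard, coreDim_eq hG]
    rfl
  refine ⟨l.length, FF hG l, ?_, ?_, ?_, ?_, hcore, ?_, ?_, ?_⟩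
  · intro A B h
    obtain ⟨e, he⟩ := h.exists_equiv
    refine ⟨e, fun i v => ?_⟩
    rw [FF_x, FF_x, map_add, he]
  · intro A B
    refine ⟨LinearEquiv.refl k _, fun i v => ?_⟩
    have h1 : (FF hG l (A.tens B)).x i = ((FF hG l A).tens (FF hG l B)).x i := by
      apply TensorProduct.ext'
      intro a b
      change (A.ρ (l.get i) a ⊗ₜ[k] B.ρ (l.get i) b : A.V ⊗[k] B.V) + a ⊗ₜ[k] b =
        ((A.ρ (l.get i) a + a) ⊗ₜ[k] b : A.V ⊗[k] B.V) + a ⊗ₜ[k] (B.ρ (l.get i) b + b) +
        (A.ρ (l.get i) a + a) ⊗ₜ[k] (B.ρ (l.get i) b + b)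
      simp only [TensorProduct.add_tmul, TensorProduct.tmul_add]
      have h2 := add_self2 (k := k) ((A.ρ (l.get i) a ⊗ₜ[k] b : A.V ⊗[k] B.V) +
        a ⊗ₜ[k] B.ρ (l.get i) b + a ⊗ₜ[k] b)
      calc (A.ρ (l.get i) a ⊗ₜ[k] B.ρ (l.get i) b : A.V ⊗[k] B.V) + a ⊗ₜ[k] b
          = (A.ρ (l.get i) a ⊗ₜ[k] B.ρ (l.get i) b : A.V ⊗[k] B.V) + a ⊗ₜ[k] b + 0 := by
            rw [add_zero]
        _ = _ := by
            rw [← h2]
            abel
    exact congrArg (fun T => T v) h1
  · intro A
    refine ⟨LinearEquiv.refl k _, fun i v => ?_⟩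
    apply LinearMap.ext
    intro a
    change v (A.ρ (l.get i)⁻¹ a) + v a = v (A.ρ (l.get i) a + a)
    have h1 : (l.get i)⁻¹ = l.get i := inv_eq_of_mul_eq_one_left (hG _)
    rw [h1, map_add]
  · refine ⟨LinearEquiv.refl k _, fun i v => ?_⟩
    change v + v = 0
    exact CharTwo.add_self_eq_zero v
  · intro A B
    refine ⟨LinearEquiv.refl k _, fun i v => ?_⟩
    rfl
  · intro A
    rfl
  · intro hr A
    rw [← hcore A]
    have h1 : (FF hG l A).nrm = 1 := by
      have h2 : l = [] := List.length_eq_zero_iff.mp hr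
      subst h2
      unfold Md.nrm
      simp
    have h3 : 2 ^ l.length = 1 := by rw [hr, pow_zero]
    unfold Md.core
    rw [h1, h3, Module.End.one_eq_id, LinearMap.range_id, finrank_top, one_mul]
    exact Nat.sub_self _

end Pool.Agent.H308.Kt
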