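import Pool.Agent.H398.Kt.Iface

/-!
# The interface statement `S_cocycle` (existence of polynomial cocycles)

If `h` is minimal and non-zero at `b`, there is a polynomial map `ξ : k ^ q → Z`, homogeneous, with
`z_u (ξ u) = 0` for all `u` and `ξ b ∉ im z_b`.
-/

set_option autoImplicit false

open Pool.Agent.H398.Kt Pool.Agent.H398.Kt.Md MvPolynomial

namespace Pool.Agent.H782.Kt

universe u

section poly

variable {k : Type u} [Field k] {q : ℕ}

/-- The evaluation of a polynomial, sorted by degree. -/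
theorem eval_by_degree (b : Fin q → k) (P : MvPolynomial (Fin q) k) (D : ℕ)
    (hD : P.totalDegree ≤ D) :
    ∑ n ∈ Finset.range (D + 1), ∑ m ∈ Finset.piAntidiag (Finset.univ : Finset (Fin q)) n,
      (∏ i, b i ^ m i) * coeff (Finsupp.equivFunOnFinite.symm m) P = eval b P := by
  classical
  rw [eval_eq']
  have h1 : ∀ d ∈ P.support, (∑ i, d i) ∈ Finset.range (D + 1) := by
    intro d hd
    rw [Finset.mem_range, Nat.lt_succ_iff]
    refine le_trans ?_ hD
    have := le_totalDegree hd
    rw [Finsupp.sum_fintype _ _ (fun _ => rfl)] at this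
    exact this
  rw [← Finset.sum_fiberwise_of_maps_to h1]
  refine Finset.sum_congr rfl (fun n _ => ?_)
  have h2 : ((P.support.filter (fun d => ∑ i, d i = n)).map
      (Finsupp.equivFunOnFinite (α := Fin q) (M := ℕ)).toEmbedding) ⊆
      Finset.piAntidiag (Finset.univ : Finset (Fin q)) n := by
    intro m hm
    rw [Finset.mem_map] at hm
    obtain ⟨d, hd, rfl⟩ := hm
    rw [Finset.mem_filter] at hd
    rw [Finset.mem_piAntidiag]
    exact ⟨hd.2, fun _ _ => Finset.mem_univ _⟩
  rw [← Finset.sum_subset h2]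
  · rw [Finset.sum_map]
    refine Finset.sum_congr rfl (fun d _ => ?_)
    rw [mul_comm]
    simp
  · intro m hm hm'
    have h3 : coeff (Finsupp.equivFunOnFinite.symm m) P = 0 := by
      by_contra hne
      apply hm'
      rw [Finset.mem_map]
      refine ⟨Finsupp.equivFunOnFinite.symm m, ?_, by simp⟩
      rw [Finset.mem_filter]
      refine ⟨mem_support_iff.mpr hne, ?_⟩
      rw [Finset.mem_piAntidiag] at hm
      simpa using hm.1
    rw [h3, mul_zero]

/-- The coefficient of `u ^ m` of the `Z`-valued polynomial with coordinates `P`. -/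
noncomputable def cf (Z : Md k q) {d : ℕ} (B : Module.Basis (Fin d) k Z.V)
    (P : Fin d → MvPolynomial (Fin q) k) (m : Fin q → ℕ) : Z.V :=
  ∑ j, coeff (Finsupp.equivFunOnFinite.symm m) (P j) • B j

/-- The value at `u` of the `Z`-valued polynomial with coordinates `P`. -/
noncomputable def vl (Z : Md k q) {d : ℕ} (B : Module.Basis (Fin d) k Z.V)
    (P : Fin d → MvPolynomial (Fin q) k) (u : Fin q → k) : Z.V :=
  ∑ j, eval u (P j) • B j

open Classical in
/-- The homogeneous component of degree `n`. -/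
noncomputable def cmp (Z : Md k q) {d : ℕ} (B : Module.Basis (Fin d) k Z.V)
    (P : Fin d → MvPolynomial (Fin q) k) (n : ℕ) (m : Fin q → ℕ) : Z.V :=
  if ∑ i, m i = n then cf Z B P m else 0

/-- The sum of the values of the homogeneous components is the value. -/
theorem sum_ev_cmp (Z : Md k q) {d : ℕ} (B : Module.Basis (Fin d) k Z.V)
    (P : Fin d → MvPolynomial (Fin q) k) (u : Fin q → k) (D : ℕ)
    (hD : ∀ j, (P j).totalDegree ≤ D) :
    ∑ n ∈ Finset.range (D + 1), ev Z n (cmp Z B P n) u = vl Z B P u := by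
  classical
  have h1 : ∀ n, ev Z n (cmp Z B P n) u = ∑ j,
      (∑ m ∈ Finset.piAntidiag (Finset.univ : Finset (Fin q)) n,
        (∏ i, u i ^ m i) * coeff (Finsupp.equivFunOnFinite.symm m) (P j)) • B j := by
    intro n
    unfold ev
    have h2 : ∀ m ∈ Finset.piAntidiag (Finset.univ : Finset (Fin q)) n,
        (∏ i, u i ^ m i) • cmp Z B P n m =
        ∑ j, ((∏ i, u i ^ m i) * coeff (Finsupp.equivFunOnFinite.symm m) (P j)) • B j := by
      intro m hm
      rw [Finset.mem_piAntidiag] at hm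
      unfold cmp
      rw [if_pos hm.1]
      unfold cf
      rw [Finset.smul_sum]
      exact Finset.sum_congr rfl (fun j _ => by rw [smul_smul])
    rw [Finset.sum_congr rfl h2, Finset.sum_comm]
    exact Finset.sum_congr rfl (fun j _ => by rw [Finset.sum_smul])
  rw [Finset.sum_congr rfl (fun n _ => h1 n), Finset.sum_comm]
  unfold vl
  refine Finset.sum_congr rfl (fun j _ => ?_)
  rw [← Finset.sum_smul, eval_by_degree u (P j) D (hD j)]

/-- The coordinates of `z_u (P u)`. -/
noncomputable def zP (Z : Md k q) {d : ℕ} (B : Module.Basis (Fin d) k Z.V)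
    (P : Fin d → MvPolynomial (Fin q) k) (j : Fin d) : MvPolynomial (Fin q) k :=
  ∑ i, X i * ∑ l, C (B.repr (Z.x i (B l)) j) * P l

theorem eval_zP (Z : Md k q) {d : ℕ} (B : Module.Basis (Fin d) k Z.V)
    (P : Fin d → MvPolynomial (Fin q) k) (u : Fin q → k) (j : Fin d) :
    eval u (zP Z B P j) = B.repr (Z.op u (vl Z B P u)) j := by
  unfold zP vl
  rw [op_apply]
  simp only [map_sum, map_mul, eval_X, eval_C, map_smul, Finsupp.coe_finsetSum, Finset.sum_apply,
    Finsupp.smul_apply, smul_eq_mul]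
  refine Finset.sum_congr rfl (fun i _ => ?_)
  congr 1
  exact Finset.sum_congr rfl (fun l _ => mul_comm _ _)

/-- If `z_u (P u)` vanishes identically, the homogeneous components are cocycles. -/
theorem coc_cmp (Z : Md k q) {d : ℕ} (B : Module.Basis (Fin d) k Z.V)
    (P : Fin d → MvPolynomial (Fin q) k) (h0 : ∀ j, zP Z B P j = 0) (n : ℕ) :
    Coc Z n (cmp Z B P n) := by
  classical
  refine ⟨fun m hm => by unfold cmp; rw [if_neg hm], fun m => ?_⟩
  have hsum : ∀ i, m i ≠ 0 → ∑ l, Function.update m i (m i - 1) l + 1 = ∑ l, m l := by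
    intro i hi
    rw [Finset.sum_update_of_mem (Finset.mem_univ i)]
    have h2 : ∑ l, m l = m i + ∑ l ∈ Finset.univ \ {i}, m l := by
      rw [← Finset.sum_sdiff (Finset.subset_univ {i}), Finset.sum_singleton, add_comm]
    omega
  by_cases hmn : ∑ l, m l = n + 1
  · -- the coefficient of `u ^ m`
    have h1 : ∀ i, (if m i = 0 then 0 else
        Z.x i (cmp Z B P n (Function.update m i (m i - 1)))) =
        if m i = 0 then 0 else Z.x i (cf Z B P (Function.update m i (m i - 1))) := by
      intro i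
      by_cases hi : m i = 0
      · rw [if_pos hi, if_pos hi]
      · rw [if_neg hi, if_neg hi]
        unfold cmp
        rw [if_pos (by have := hsum i hi; omega)]
    rw [Finset.sum_congr rfl (fun i _ => h1 i)]
    apply B.repr.injective
    ext j
    rw [map_zero, Finsupp.zero_apply]
    have h2 := congrArg (coeff (Finsupp.equivFunOnFinite.symm m)) (h0 j)
    unfold zP at h2
    rw [coeff_zero, coeff_sum] at h2
    rw [map_sum, Finsupp.coe_finsetSum, Finset.sum_apply, ← h2]
    refine Finset.sum_congr rfl (fun i _ => ?_)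
    rw [coeff_X_mul']
    by_cases hi : m i = 0
    · rw [if_pos hi, if_neg (by simpa using hi), map_zero, Finsupp.zero_apply]
    · rw [if_neg hi, if_pos (by simpa using hi), coeff_sum]
      have h3 : (Finsupp.equivFunOnFinite.symm m - Finsupp.single i 1 : Fin q →₀ ℕ) =
          Finsupp.equivFunOnFinite.symm (Function.update m i (m i - 1)) := by
        ext l
        by_cases hl : l = i
        · subst hl; simp
        · simp [Function.update_of_ne hl, Ne.symm hl]
      rw [h3]
      unfold cf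
      simp only [map_sum, map_smul, Finsupp.coe_finsetSum, Finset.sum_apply, Finsupp.smul_apply,
        smul_eq_mul, coeff_C_mul]
      exact Finset.sum_congr rfl (fun l _ => mul_comm _ _)
  · apply Finset.sum_eq_zero
    intro i _
    by_cases hi : m i = 0
    · rw [if_pos hi]
    · rw [if_neg hi]
      unfold cmp
      rw [if_neg (by have := hsum i hi; omega), map_zero]

end poly

section main

variable {k : Type u} [Field k] {q : ℕ}

/-- The matrix of `π ∘ z_u ∘ ι`. -/
noncomputable def Tm (Z : Md k q) {R : ℕ} (i0 : (Fin R → k) →ₗ[k] Z.V) (p0 : Z.V →ₗ[k] (Fin R → k))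
    (u : Fin q → k) : Matrix (Fin R) (Fin R) k :=
  LinearMap.toMatrix' (p0 ∘ₗ Z.op u ∘ₗ i0)

/-- The matrix of linear forms. -/
noncomputable def Tp (Z : Md k q) {R : ℕ} (i0 : (Fin R → k) →ₗ[k] Z.V)
    (p0 : Z.V →ₗ[k] (Fin R → k)) : Matrix (Fin R) (Fin R) (MvPolynomial (Fin q) k) :=
  Matrix.of fun a c => ∑ i, X i * C (p0 (Z.x i (i0 (Pi.single c 1))) a)

theorem Tm_apply (Z : Md k q) {R : ℕ} (i0 : (Fin R → k) →ₗ[k] Z.V)
    (p0 : Z.V →ₗ[k] (Fin R → k)) (u : Fin q → k) (a c : Fin R) :
    Tm Z i0 p0 u a c = p0 (Z.op u (i0 (Pi.single c 1))) a := by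
  unfold Tm
  rw [LinearMap.toMatrix'_apply]
  rfl

theorem eval_Tp (Z : Md k q) {R : ℕ} (i0 : (Fin R → k) →ₗ[k] Z.V)
    (p0 : Z.V →ₗ[k] (Fin R → k)) (u : Fin q → k) :
    (Tp Z i0 p0).map (eval u) = Tm Z i0 p0 u := by
  ext a c
  rw [Tm_apply, op_apply, Matrix.map_apply]
  unfold Tp
  simp only [Matrix.of_apply, map_sum, map_mul, eval_X, eval_C, map_smul, Finset.sum_apply,
    Pi.smul_apply, smul_eq_mul]

/-- The polynomial vector `π (z_u s)`. -/
noncomputable def wp (Z : Md k q) {R : ℕ} (p0 : Z.V →ₗ[k] (Fin R → k)) (s : Z.V) :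
    Fin R → MvPolynomial (Fin q) k :=
  fun a => ∑ i, X i * C (p0 (Z.x i s) a)

theorem eval_wp (Z : Md k q) {R : ℕ} (p0 : Z.V →ₗ[k] (Fin R → k)) (s : Z.V) (u : Fin q → k) :
    (fun a => eval u (wp Z p0 s a)) = p0 (Z.op u s) := by
  funext a
  rw [op_apply]
  unfold wp
  simp only [map_sum, map_mul, eval_X, eval_C, map_smul, Finset.sum_apply, Pi.smul_apply,
    smul_eq_mul]

/-- The coordinates of `ξ u = δ(u) s - ι (adj (T u) π z_u s)`. -/
noncomputable def Pp (Z : Md k q) {R d : ℕ} (B : Module.Basis (Fin d) k Z.V)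
    (i0 : (Fin R → k) →ₗ[k] Z.V) (p0 : Z.V →ₗ[k] (Fin R → k)) (s : Z.V) (j : Fin d) :
    MvPolynomial (Fin q) k :=
  (Tp Z i0 p0).det * C (B.repr s j) -
    ∑ c, ((Tp Z i0 p0).adjugate.mulVec (wp Z p0 s)) c * C (B.repr (i0 (Pi.single c 1)) j)

theorem vl_Pp (Z : Md k q) {R d : ℕ} (B : Module.Basis (Fin d) k Z.V)
    (i0 : (Fin R → k) →ₗ[k] Z.V) (p0 : Z.V →ₗ[k] (Fin R → k)) (s : Z.V) (u : Fin q → k) :
    vl Z B (Pp Z B i0 p0 s) u = (Tm Z i0 p0 u).det • s -
      i0 ((Tm Z i0 p0 u).adjugate.mulVec (p0 (Z.op u s))) := by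
  have h1 : eval u (Tp Z i0 p0).det = (Tm Z i0 p0 u).det := by
    rw [RingHom.map_det, RingHom.mapMatrix_apply, eval_Tp]
  have h2 : ∀ c, eval u (((Tp Z i0 p0).adjugate.mulVec (wp Z p0 s)) c) =
      (Tm Z i0 p0 u).adjugate.mulVec (p0 (Z.op u s)) c := by
    intro c
    rw [RingHom.map_mulVec]
    have h3 : (Tp Z i0 p0).adjugate.map (eval u) = (Tm Z i0 p0 u).adjugate := by
      rw [← eval_Tp]
      exact RingHom.map_adjugate (eval u) (Tp Z i0 p0)
    rw [h3]
    have h4 : (eval u : MvPolynomial (Fin q) k → k) ∘ wp Z p0 s = p0 (Z.op u s) := eval_wp Z p0 s u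
    rw [h4]
  have h5 : ∀ v : Fin R → k, i0 v = ∑ c, v c • i0 (Pi.single c 1) := by
    intro v
    rw [LinearMap.pi_apply_eq_sum_univ i0 v]
    refine Finset.sum_congr rfl (fun c _ => ?_)
    congr 2
    funext l
    by_cases hl : c = l
    · subst hl; simp
    · rw [if_neg hl, Pi.single_eq_of_ne (Ne.symm hl)]
  apply B.repr.injective
  ext j
  have h6 : B.repr (vl Z B (Pp Z B i0 p0 s) u) j = eval u (Pp Z B i0 p0 s j) := by
    unfold vl
    rw [B.repr_sum_self]
  rw [h6]
  unfold Pp
  rw [map_sub, map_mul, h1, eval_C, map_sum, map_sub, map_smul, Finsupp.sub_apply,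
    Finsupp.smul_apply, smul_eq_mul, h5 ((Tm Z i0 p0 u).adjugate.mulVec (p0 (Z.op u s)))]
  congr 1
  rw [map_sum, Finsupp.coe_finsetSum, Finset.sum_apply]
  refine Finset.sum_congr rfl (fun c _ => ?_)
  rw [map_mul, h2, eval_C, map_smul, Finsupp.smul_apply, smul_eq_mul]

/-- If the rank of `z_u` is at most `R` and `T u` is invertible then `z_u (ξ u) = 0`. -/
theorem op_vl (Z : Md k q) {R : ℕ} (i0 : (Fin R → k) →ₗ[k] Z.V)
    (p0 : Z.V →ₗ[k] (Fin R → k)) (s : Z.V) (u : Fin q → k)
    (hR : Module.finrank k (LinearMap.range (Z.op u)) ≤ R) (hT : (Tm Z i0 p0 u).det ≠ 0) :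
    Z.op u ((Tm Z i0 p0 u).det • s -
      i0 ((Tm Z i0 p0 u).adjugate.mulVec (p0 (Z.op u s)))) = 0 := by
  have hmul : ∀ v, (Tm Z i0 p0 u).mulVec v = p0 (Z.op u (i0 v)) := by
    intro v
    unfold Tm
    rw [LinearMap.toMatrix'_mulVec]
    rfl
  have hinj : Function.Injective (Z.op u ∘ₗ i0) := by
    rw [← LinearMap.ker_eq_bot, LinearMap.ker_eq_bot']
    intro v hv
    have h1 : (Tm Z i0 p0 u).mulVec v = 0 := by
      rw [hmul]
      have : Z.op u (i0 v) = 0 := hv
      rw [this, map_zero]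
    exact Matrix.eq_zero_of_mulVec_eq_zero hT h1
  have hrange : LinearMap.range (Z.op u ∘ₗ i0) = LinearMap.range (Z.op u) := by
    apply Submodule.eq_of_le_of_finrank_le (LinearMap.range_comp_le_range _ _)
    rw [LinearMap.finrank_range_of_inj hinj, Module.finrank_fin_fun]
    exact hR
  have hs : Z.op u s ∈ LinearMap.range (Z.op u ∘ₗ i0) := by
    rw [hrange]
    exact ⟨s, rfl⟩
  obtain ⟨c, hc⟩ := hs
  have hc' : Z.op u (i0 c) = Z.op u s := hc
  have h2 : (Tm Z i0 p0 u).adjugate.mulVec (p0 (Z.op u s)) = (Tm Z i0 p0 u).det • c := by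
    rw [← hc', ← hmul, Matrix.mulVec_mulVec, Matrix.adjugate_mul, Matrix.smul_mulVec,
      Matrix.one_mulVec]
  rw [h2, map_sub, map_smul, map_smul, map_smul, hc', sub_self]

/-- The interface statement. -/
theorem proof_cocycle : S_cocycle.{u} := by
  classical
  intro k _ _ _ q Z b hmin hne
  have hb := h_add Z b
  -- the maximal rank
  obtain ⟨R, hR⟩ : ∃ R, Module.finrank k (LinearMap.range (Z.op b)) = R := ⟨_, rfl⟩
  have hmax : ∀ u, Module.finrank k (LinearMap.range (Z.op u)) ≤ R := by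
    intro u
    have h1 := h_add Z u
    have h2 := hmin u
    omega
  -- the element `s`
  obtain ⟨s, hs1, hs2⟩ : ∃ s, Z.op b s = 0 ∧ s ∉ LinearMap.range (Z.op b) := by
    by_contra hcon
    push Not at hcon
    have h1 : LinearMap.ker (Z.op b) ≤ LinearMap.range (Z.op b) := fun v hv => hcon v hv
    have h2 := Submodule.finrank_mono h1
    have h3 := LinearMap.finrank_range_add_finrank_ker (Z.op b)
    have h4 : Module.finrank k Z.V = Z.dim := rfl
    omega
  -- the maps `ι` and `π`
  let e : LinearMap.range (Z.op b) ≃ₗ[k] (Fin R → k) :=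
    (Module.finBasisOfFinrankEq k (LinearMap.range (Z.op b)) hR).equivFun
  obtain ⟨g, hg⟩ := (Z.op b).rangeRestrict.exists_rightInverse_of_surjective
    (LinearMap.range_rangeRestrict _)
  obtain ⟨p0, hp0⟩ := LinearMap.exists_extend (e : LinearMap.range (Z.op b) →ₗ[k] (Fin R → k))
  let i0 : (Fin R → k) →ₗ[k] Z.V := g ∘ₗ (e.symm : (Fin R → k) →ₗ[k] LinearMap.range (Z.op b))
  have hpi : ∀ v, p0 (Z.op b (i0 v)) = v := by
    intro v
    have h1 : Z.op b (i0 v) = ((e.symm v : LinearMap.range (Z.op b)) : Z.V) := by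
      have h2 := congrArg (fun f => ((f (e.symm v) : LinearMap.range (Z.op b)) : Z.V)) hg
      exact h2
    rw [h1]
    have h3 := congrArg (fun f => f (e.symm v)) hp0
    have h4 : p0 ((e.symm v : LinearMap.range (Z.op b)) : Z.V) = e (e.symm v) := h3
    rw [h4, LinearEquiv.apply_symm_apply]
  have hTb : Tm Z i0 p0 b = 1 := by
    unfold Tm
    rw [← LinearMap.toMatrix'_id]
    congr 1
    exact LinearMap.ext hpi
  let B := Module.finBasis k Z.V
  let P := Pp Z B i0 p0 s
  -- the value at `b`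
  have hvb : vl Z B P b = s := by
    change vl Z B (Pp Z B i0 p0 s) b = s
    rw [vl_Pp, hTb, hs1, map_zero, Matrix.mulVec_zero, map_zero, Matrix.det_one, one_smul,
      sub_zero]
  -- the cocycle identity
  have hdet : (Tp Z i0 p0).det ≠ 0 := by
    intro h0
    have h1 := congrArg (eval b) h0
    rw [RingHom.map_det, RingHom.mapMatrix_apply, eval_Tp, hTb, Matrix.det_one, map_zero] at h1
    exact one_ne_zero h1
  have hzero : ∀ j, zP Z B P j = 0 := by
    intro j
    have h1 : (Tp Z i0 p0).det * zP Z B P j = 0 := by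
      apply MvPolynomial.funext
      intro u
      rw [map_mul, map_zero, RingHom.map_det, RingHom.mapMatrix_apply, eval_Tp, eval_zP]
      by_cases hT : (Tm Z i0 p0 u).det = 0
      · rw [hT, zero_mul]
      · have h2 : Z.op u (vl Z B P u) = 0 := by
          change Z.op u (vl Z B (Pp Z B i0 p0 s) u) = 0
          rw [vl_Pp]
          exact op_vl Z i0 p0 s u (hmax u) hT
        rw [h2, map_zero, Finsupp.zero_apply, mul_zero]
    exact (mul_eq_zero.mp h1).resolve_left hdet
  -- one of the components is not in the range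
  by_contra hcon
  push Not at hcon
  apply hs2
  rw [← hvb, ← sum_ev_cmp Z B P b (Finset.univ.sup fun j => (P j).totalDegree)
    (fun j => Finset.le_sup (f := fun j => (P j).totalDegree) (Finset.mem_univ j))]
  exact Submodule.sum_mem _ (fun n _ => hcon n _ (coc_cmp Z B P hzero n))

end main

end Pool.Agent.H782.Kt
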