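import Pool.Agent.H398.Kt.Iface

set_option autoImplicit false

open scoped TensorProduct

namespace Pool.Agent.H924.Kt

open Pool.Agent.H398.Kt Pool.Agent.H398.Kt.Md

universe u

variable {k : Type u} [Field k] {r : ℕ}

/-- A nonzero stable subset has a nonzero vector killed by all operators. -/
theorem soc {V : Type u} [AddCommGroup V] [Module k V] (x : Fin r → (V →ₗ[k] V))
    (comm : ∀ i j v, x i (x j v) = x j (x i v)) (sq : ∀ i v, x i (x i v) = 0)
    (K : V → Prop) (hK : ∀ i v, K v → K (x i v)) (v : V) (hv : K v) (hv0 : v ≠ 0) :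
    ∃ m, K m ∧ m ≠ 0 ∧ ∀ i, x i m = 0 := by
  classical
  have key : ∀ s : Finset (Fin r), ∃ m, K m ∧ m ≠ 0 ∧ ∀ i ∈ s, x i m = 0 := by
    intro s
    induction s using Finset.induction_on with
    | empty => exact ⟨v, hv, hv0, by simp⟩
    | insert j s hj ih =>
      obtain ⟨m, h1, h2, h3⟩ := ih
      by_cases h : x j m = 0
      · exact ⟨m, h1, h2, fun i hi => by
          rcases Finset.mem_insert.mp hi with rfl | hi
          · exact h
          · exact h3 i hi⟩
      · exact ⟨x j m, hK j m h1, h, fun i hi => by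
          rcases Finset.mem_insert.mp hi with rfl | hi
          · exact sq _ _
          · rw [comm, h3 i hi, map_zero]⟩
  obtain ⟨m, h1, h2, h3⟩ := key Finset.univ
  exact ⟨m, h1, h2, fun i => h3 i (Finset.mem_univ i)⟩

/-- Intertwining maps intertwine the products. -/
theorem intertw {V W : Type u} [AddCommGroup V] [Module k V] [AddCommGroup W] [Module k W]
    (x : Fin r → (V →ₗ[k] V)) (y : Fin r → (W →ₗ[k] W)) (f : V →ₗ[k] W)
    (hf : ∀ i v, f (x i v) = y i (f v)) (v : V) :
    f ((List.ofFn x).prod v) = (List.ofFn y).prod (f v) := by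
  have key : ∀ L : List (Fin r), ∀ v, f ((L.map x).prod v) = (L.map y).prod (f v) := by
    intro L
    induction L with
    | nil => intro v; rfl
    | cons i L ih =>
      intro v
      rw [List.map_cons, List.prod_cons, List.map_cons, List.prod_cons]
      change f (x i ((L.map x).prod v)) = y i ((L.map y).prod (f v))
      rw [hf, ih]
  rw [List.ofFn_eq_map, List.ofFn_eq_map]
  exact key _ v

variable [CharP k 2]

theorem tens_x_tmul (A B : Md k r) (i : Fin r) (u : A.V) (v : B.V) :
    (A.tens B).x i (u ⊗ₜ[k] v) = A.x i u ⊗ₜ[k] v + u ⊗ₜ[k] B.x i v + A.x i u ⊗ₜ[k] B.x i v := rfl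

/-- The contraction of the first factor. -/
noncomputable def evL (A B : Md k r) (lam : Module.Dual k A.V) : A.V ⊗[k] B.V →ₗ[k] B.V :=
  TensorProduct.lift (LinearMap.lsmul k B.V ∘ₗ lam)

theorem evL_tmul (A B : Md k r) (lam : Module.Dual k A.V) (u : A.V) (v : B.V) :
    evL A B lam (u ⊗ₜ[k] v) = lam u • v := rfl

/-- The contraction of the second factor. -/
noncomputable def evR (A B : Md k r) (mu : Module.Dual k B.V) : A.V ⊗[k] B.V →ₗ[k] A.V :=
  TensorProduct.lift (LinearMap.lsmul k A.V ∘ₗ mu).flip

theorem evR_tmul (A B : Md k r) (mu : Module.Dual k B.V) (u : A.V) (v : B.V) :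
    evR A B mu (u ⊗ₜ[k] v) = mu v • u := rfl

theorem nrm_tmul_right (A B : Md k r) (m : B.V) (hm : ∀ i, B.x i m = 0) (u : A.V) :
    (A.tens B).nrm (u ⊗ₜ[k] m) = A.nrm u ⊗ₜ[k] m := by
  have := intertw A.x (A.tens B).x ((TensorProduct.mk k A.V B.V).flip m) (by
    intro i v
    change A.x i v ⊗ₜ[k] m = (A.tens B).x i (v ⊗ₜ[k] m)
    rw [tens_x_tmul, hm, TensorProduct.tmul_zero, TensorProduct.tmul_zero, add_zero, add_zero]) u
  exact this.symm

theorem nrm_tmul_left (A B : Md k r) (n : A.V) (hn : ∀ i, A.x i n = 0) (w : B.V) :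
    (A.tens B).nrm (n ⊗ₜ[k] w) = n ⊗ₜ[k] B.nrm w := by
  have := intertw B.x (A.tens B).x (TensorProduct.mk k A.V B.V n) (by
    intro i v
    change n ⊗ₜ[k] B.x i v = (A.tens B).x i (n ⊗ₜ[k] v)
    rw [tens_x_tmul, hn, TensorProduct.zero_tmul, TensorProduct.zero_tmul, zero_add, add_zero]) w
  exact this.symm

theorem injL (A B : Md k r) {a : ℕ} (v : Fin a → A.V) (lam : Fin a → Module.Dual k A.V)
    (h : ∀ i j, lam i (A.nrm (v j)) = if i = j then 1 else 0) (m : Fin a → B.V)
    (hm : ∀ l, evL A B (lam l) ((A.tens B).nrm (∑ i, v i ⊗ₜ[k] m i)) = 0) : m = 0 := by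
  classical
  by_contra hm0
  let y : Fin r → ((Fin a → B.V) →ₗ[k] (Fin a → B.V)) := fun i =>
    LinearMap.pi (fun j => B.x i ∘ₗ LinearMap.proj j)
  have hy : ∀ i m j, y i m j = B.x i (m j) := fun _ _ _ => rfl
  obtain ⟨m', h1, h2, h3⟩ := soc y (fun i j w => by funext l; exact B.comm i j _)
    (fun i w => by funext l; exact B.sq i _)
    (fun m => ∀ l, evL A B (lam l) ((A.tens B).nrm (∑ i, v i ⊗ₜ[k] m i)) = 0) (by
      intro i m hm l
      have e1 : ∀ z : A.V ⊗[k] B.V, evL A B (lam l) (TensorProduct.map LinearMap.id (B.x i) z) =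
          B.x i (evL A B (lam l) z) := by
        intro z
        have : evL A B (lam l) ∘ₗ TensorProduct.map LinearMap.id (B.x i) =
            B.x i ∘ₗ evL A B (lam l) := by
          apply TensorProduct.ext'
          intro u w
          change lam l u • B.x i w = B.x i (lam l u • w)
          rw [map_smul]
        exact congrArg (fun T => T z) this
      have e2 : ∀ z : A.V ⊗[k] B.V, TensorProduct.map LinearMap.id (B.x i) ((A.tens B).nrm z) =
          (A.tens B).nrm (TensorProduct.map LinearMap.id (B.x i) z) := by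
        intro z
        refine intertw (A.tens B).x (A.tens B).x (TensorProduct.map LinearMap.id (B.x i)) ?_ z
        intro j z
        have : TensorProduct.map LinearMap.id (B.x i) ∘ₗ (A.tens B).x j =
            (A.tens B).x j ∘ₗ TensorProduct.map LinearMap.id (B.x i) := by
          apply TensorProduct.ext'
          intro u w
          simp only [LinearMap.comp_apply, LinearMap.add_apply, TensorProduct.map_tmul, map_add,
            LinearMap.id_apply, B.comm i j]
        exact congrArg (fun T => T z) this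
      have e3 : (∑ j, v j ⊗ₜ[k] (y i m) j) =
          TensorProduct.map LinearMap.id (B.x i) (∑ j, v j ⊗ₜ[k] m j) := by
        rw [map_sum]
        rfl
      rw [e3, ← e2, e1, hm l, map_zero]) m hm hm0
  apply h2
  funext l
  have h4 := h1 l
  rw [map_sum, map_sum] at h4
  have h5 : ∀ i, evL A B (lam l) ((A.tens B).nrm (v i ⊗ₜ[k] m' i)) =
      (if l = i then (1 : k) else 0) • m' i := by
    intro i
    rw [nrm_tmul_right A B (m' i) (fun j => congrFun (h3 j) i), evL_tmul, h]
  rw [Finset.sum_congr rfl (fun i _ => h5 i)] at h4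
  simpa using h4

theorem injR (A B : Md k r) {b : ℕ} (w : Fin b → B.V) (mu : Fin b → Module.Dual k B.V)
    (h : ∀ i j, mu i (B.nrm (w j)) = if i = j then 1 else 0) (n : Fin b → A.V)
    (hn : ∀ l, evR A B (mu l) ((A.tens B).nrm (∑ i, n i ⊗ₜ[k] w i)) = 0) : n = 0 := by
  classical
  by_contra hm0
  let y : Fin r → ((Fin b → A.V) →ₗ[k] (Fin b → A.V)) := fun i =>
    LinearMap.pi (fun j => A.x i ∘ₗ LinearMap.proj j)
  have hy : ∀ i m j, y i m j = A.x i (m j) := fun _ _ _ => rfl
  obtain ⟨m', h1, h2, h3⟩ := soc y (fun i j w => by funext l; exact A.comm i j _)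
    (fun i w => by funext l; exact A.sq i _)
    (fun n => ∀ l, evR A B (mu l) ((A.tens B).nrm (∑ i, n i ⊗ₜ[k] w i)) = 0) (by
      intro i m hm l
      have e1 : ∀ z : A.V ⊗[k] B.V, evR A B (mu l) (TensorProduct.map (A.x i) LinearMap.id z) =
          A.x i (evR A B (mu l) z) := by
        intro z
        have : evR A B (mu l) ∘ₗ TensorProduct.map (A.x i) LinearMap.id =
            A.x i ∘ₗ evR A B (mu l) := by
          apply TensorProduct.ext'
          intro u w
          change mu l w • A.x i u = A.x i (mu l w • u)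
          rw [map_smul]
        exact congrArg (fun T => T z) this
      have e2 : ∀ z : A.V ⊗[k] B.V, TensorProduct.map (A.x i) LinearMap.id ((A.tens B).nrm z) =
          (A.tens B).nrm (TensorProduct.map (A.x i) LinearMap.id z) := by
        intro z
        refine intertw (A.tens B).x (A.tens B).x (TensorProduct.map (A.x i) LinearMap.id) ?_ z
        intro j z
        have : TensorProduct.map (A.x i) LinearMap.id ∘ₗ (A.tens B).x j =
            (A.tens B).x j ∘ₗ TensorProduct.map (A.x i) LinearMap.id := by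
          apply TensorProduct.ext'
          intro u w
          simp only [LinearMap.comp_apply, LinearMap.add_apply, TensorProduct.map_tmul, map_add,
            LinearMap.id_apply, A.comm i j]
        exact congrArg (fun T => T z) this
      have e3 : (∑ j, (y i m) j ⊗ₜ[k] w j) =
          TensorProduct.map (A.x i) LinearMap.id (∑ j, m j ⊗ₜ[k] w j) := by
        rw [map_sum]
        rfl
      rw [e3, ← e2, e1, hm l, map_zero]) n hn hm0
  apply h2
  funext l
  have h4 := h1 l
  rw [map_sum, map_sum] at h4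
  have h5 : ∀ i, evR A B (mu l) ((A.tens B).nrm (m' i ⊗ₜ[k] w i)) =
      (if l = i then (1 : k) else 0) • m' i := by
    intro i
    rw [nrm_tmul_left A B (m' i) (fun j => congrFun (h3 j) i), evR_tmul, h]
  rw [Finset.sum_congr rfl (fun i _ => h5 i)] at h4
  simpa using h4

omit [CharP k 2] in
/-- Vectors and functionals dual with respect to the norm. -/
theorem exists_dual (A : Md k r) (a : ℕ)
    (ha : a = Module.finrank k (LinearMap.range A.nrm)) :
    ∃ (v : Fin a → A.V) (lam : Fin a → Module.Dual k A.V),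
      ∀ i j, lam i (A.nrm (v j)) = if i = j then 1 else 0 := by
  classical
  subst ha
  let e := Module.finBasis k (LinearMap.range A.nrm)
  have h1 : ∀ i, ∃ v, A.nrm v = (e i : A.V) := fun i => (e i).2
  choose v hv using h1
  have h2 : ∀ i, ∃ g : A.V →ₗ[k] k, g ∘ₗ (LinearMap.range A.nrm).subtype = e.coord i :=
    fun i => LinearMap.exists_extend (e.coord i)
  choose g hg using h2
  refine ⟨v, g, fun i j => ?_⟩
  have h3 : g i (A.nrm (v j)) = e.coord i (e j) := by
    rw [hv, ← hg]
    rfl
  rw [h3, Module.Basis.coord_apply, Module.Basis.repr_self, Finsupp.single_apply]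
  by_cases h : i = j
  · rw [if_pos h, if_pos h.symm]
  · rw [if_neg h, if_neg (fun h' => h h'.symm)]

omit [CharP k 2] in
/-- The largest stable subspace of a subspace of codimension `c` has codimension at most
`2 ^ r * c`. -/
theorem exists_stable (A : Md k r) (K : Submodule k A.V) (c : ℕ)
    (hc : A.dim ≤ Module.finrank k K + c) (s : Finset (Fin r)) :
    ∃ K' : Submodule k A.V, K' ≤ K ∧ (∀ i ∈ s, ∀ n ∈ K', A.x i n ∈ K') ∧
      A.dim ≤ Module.finrank k K' + 2 ^ s.card * c := by
  classical
  induction s using Finset.induction_on with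
  | empty => exact ⟨K, le_rfl, by simp, by simpa using hc⟩
  | insert j s hj ih =>
    obtain ⟨K', h1, h2, h3⟩ := ih
    refine ⟨K' ⊓ K'.comap (A.x j), inf_le_left.trans h1, ?_, ?_⟩
    · intro i hi n hn
      rw [Submodule.mem_inf, Submodule.mem_comap] at hn ⊢
      rcases Finset.mem_insert.mp hi with rfl | hi
      · exact ⟨hn.2, by rw [A.sq]; exact K'.zero_mem⟩
      · exact ⟨h2 i hi n hn.1, by rw [A.comm]; exact h2 i hi _ hn.2⟩
    · have h4 := Submodule.finrank_sup_add_finrank_inf_eq K' (K'.comap (A.x j))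
      have h5 : Module.finrank k ↥(K' ⊔ K'.comap (A.x j)) ≤ A.dim := Submodule.finrank_le _
      have h6 : A.dim ≤ Module.finrank k ↥(K'.comap (A.x j)) + 2 ^ s.card * c := by
        have h7 := LinearMap.finrank_range_add_finrank_ker (K'.mkQ ∘ₗ A.x j)
        have h8 : LinearMap.ker (K'.mkQ ∘ₗ A.x j) = K'.comap (A.x j) := by
          ext n
          simp
        have h9 : Module.finrank k (LinearMap.range (K'.mkQ ∘ₗ A.x j)) ≤
            Module.finrank k (A.V ⧸ K') := Submodule.finrank_le _
        have h10 := Submodule.finrank_quotient_add_finrank K'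
        have h11 : Module.finrank k A.V = A.dim := rfl
        rw [h8] at h7
        omega
      rw [Finset.card_insert_of_notMem hj, pow_succ]
      have h12 : 2 ^ s.card * 2 * c = 2 ^ s.card * c + 2 ^ s.card * c := by ring
      omega

omit [CharP k 2] in
/-- A stable subspace as a module. -/
abbrev sub (A : Md k r) (K : Submodule k A.V) (hK : ∀ i, ∀ n ∈ K, A.x i n ∈ K) : Md k r where
  V := K
  x i := (A.x i).restrict (hK i)
  comm i j v := Subtype.ext (A.comm i j v.1)
  sq i v := Subtype.ext (A.sq i v.1)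

/-- The rank of the norm of a tensor product. -/
theorem rank_tens (A B : Md k r) :
    Module.finrank k (LinearMap.range A.nrm) * B.dim +
      Module.finrank k (LinearMap.range B.nrm) *
        (A.dim - 2 ^ r * Module.finrank k (LinearMap.range A.nrm)) ≤
    Module.finrank k (LinearMap.range (A.tens B).nrm) := by
  classical
  obtain ⟨a, ha⟩ : ∃ a, a = Module.finrank k (LinearMap.range A.nrm) := ⟨_, rfl⟩
  obtain ⟨b, hb⟩ : ∃ b, b = Module.finrank k (LinearMap.range B.nrm) := ⟨_, rfl⟩
  obtain ⟨v, lam, hv⟩ := exists_dual A a ha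
  obtain ⟨w, mu, hw⟩ := exists_dual B b hb
  rw [← ha, ← hb]
  let Lam : A.V →ₗ[k] (Fin a → k) := LinearMap.pi lam
  obtain ⟨K, hK1, hK2, hK3⟩ := exists_stable A (LinearMap.ker Lam) a (by
    have h1 := LinearMap.finrank_range_add_finrank_ker Lam
    have h2 : Module.finrank k (LinearMap.range Lam) ≤ a := by
      have := Submodule.finrank_le (LinearMap.range Lam)
      rwa [Module.finrank_fin_fun] at this
    have h3 : Module.finrank k A.V = A.dim := rfl
    omega) Finset.univ
  have hK2' : ∀ i, ∀ n ∈ K, A.x i n ∈ K := fun i => hK2 i (Finset.mem_univ i)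
  let A0 := sub A K hK2'
  let f : A0.V ⊗[k] B.V →ₗ[k] A.V ⊗[k] B.V := TensorProduct.map K.subtype LinearMap.id
  have hf : ∀ z, f ((A0.tens B).nrm z) = (A.tens B).nrm (f z) := by
    intro z
    refine intertw (A0.tens B).x (A.tens B).x f ?_ z
    intro i z
    have : f ∘ₗ (A0.tens B).x i = (A.tens B).x i ∘ₗ f := by
      apply TensorProduct.ext'
      intro u w
      rfl
    exact congrArg (fun T => T z) this
  have hkill : ∀ l z, evL A B (lam l) (f z) = 0 := by
    intro l z
    have : evL A B (lam l) ∘ₗ f = 0 := by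
      apply TensorProduct.ext'
      intro u w
      change lam l (K.subtype u) • w = 0
      have h1 : K.subtype u ∈ LinearMap.ker Lam := hK1 u.2
      have h2 : lam l (K.subtype u) = 0 := congrFun (LinearMap.mem_ker.mp h1) l
      rw [h2, zero_smul]
    exact congrArg (fun T => T z) this
  let P1 : (Fin a → B.V) →ₗ[k] A.V ⊗[k] B.V :=
    ∑ i, (TensorProduct.mk k A.V B.V (v i)) ∘ₗ LinearMap.proj i
  have hP1 : ∀ m, P1 m = ∑ i, v i ⊗ₜ[k] m i := by
    intro m
    simp [P1, LinearMap.sum_apply]
  let P2 : (Fin b → K) →ₗ[k] A0.V ⊗[k] B.V :=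
    ∑ i, ((TensorProduct.mk k A0.V B.V).flip (w i)) ∘ₗ LinearMap.proj i
  have hP2 : ∀ n : Fin b → K, f (P2 n) = ∑ i, (n i : A.V) ⊗ₜ[k] w i := by
    intro n
    have : P2 n = ∑ i, (n i : A0.V) ⊗ₜ[k] w i := by
      simp only [P2, LinearMap.sum_apply]
      rfl
    rw [this, map_sum]
    rfl
  let Φ : ((Fin a → B.V) × (Fin b → K)) →ₗ[k] LinearMap.range (A.tens B).nrm :=
    (A.tens B).nrm.rangeRestrict ∘ₗ (P1.coprod (f ∘ₗ P2))
  have hΦ : ∀ m n, ((Φ (m, n) : LinearMap.range (A.tens B).nrm) : A.V ⊗[k] B.V) =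
      (A.tens B).nrm (P1 m) + (A.tens B).nrm (f (P2 n)) := by
    intro m n
    change (A.tens B).nrm (P1 m + f (P2 n)) = _
    rw [map_add]
  have hinj : Function.Injective Φ := by
    rw [injective_iff_map_eq_zero]
    rintro ⟨m, n⟩ h0
    have h1 : (A.tens B).nrm (P1 m) + (A.tens B).nrm (f (P2 n)) = 0 := by
      rw [← hΦ, h0]; rfl
    have h2 : m = 0 := by
      apply injL A B v lam hv m
      intro l
      have h3 := congrArg (evL A B (lam l)) h1
      rw [map_add, ← hf, hkill, add_zero, map_zero, hP1] at h3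
      exact h3
    subst h2
    have h4 : (fun i => (n i : A.V)) = 0 := by
      apply injR A B w mu hw
      intro l
      rw [map_zero, map_zero, zero_add, hP2] at h1
      rw [h1, map_zero]
    refine Prod.ext rfl ?_
    funext i
    exact Subtype.ext (congrFun h4 i)
  have hfin := LinearMap.finrank_le_finrank_of_injective hinj
  rw [Module.finrank_prod, Module.finrank_pi_fintype, Module.finrank_pi_fintype, Finset.sum_const,
    Finset.sum_const, Finset.card_univ, Finset.card_univ, Fintype.card_fin, Fintype.card_fin,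
    smul_eq_mul, smul_eq_mul] at hfin
  refine le_trans ?_ hfin
  refine Nat.add_le_add le_rfl (Nat.mul_le_mul_left b ?_)
  rw [Finset.card_univ, Fintype.card_fin] at hK3
  omega

theorem proof_coreTens : S_coreTens.{u} := by
  intro k _ _ r A B
  have h := rank_tens A B
  have hd : (A.tens B).dim = A.dim * B.dim := Module.finrank_tensorProduct
  unfold Md.core
  rw [hd]
  set a := Module.finrank k (LinearMap.range A.nrm)
  set b := Module.finrank k (LinearMap.range B.nrm)
  set R := Module.finrank k (LinearMap.range (A.tens B).nrm)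
  set q := 2 ^ r
  set X := A.dim
  set Y := B.dim
  have h1 : q * (a * Y + b * (X - q * a)) ≤ q * R := Nat.mul_le_mul_left q h
  rw [tsub_le_iff_right]
  refine le_trans ?_ (Nat.add_le_add_left h1 _)
  rcases le_or_gt (q * a) X with hA | hA
  · obtain ⟨X', hX'⟩ := Nat.exists_eq_add_of_le hA
    have e1 : X - q * a = X' := by omega
    rw [e1]
    rcases le_or_gt (q * b) Y with hB | hB
    · obtain ⟨Y', hY'⟩ := Nat.exists_eq_add_of_le hB
      have e2 : Y - q * b = Y' := by omega
      rw [e2, hX', hY']
      ring_nf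
      exact le_rfl
    · rw [hX']
      have : X' * Y ≤ X' * (q * b) := Nat.mul_le_mul_left X' hB.le
      nlinarith [this, Nat.zero_le (X' * (Y - q * b))]
  · have : X * Y ≤ (q * a) * Y := Nat.mul_le_mul_right Y hA.le
    nlinarith [this, Nat.zero_le ((X - q * a) * (Y - q * b)), Nat.zero_le (q * (b * (X - q * a)))]

end Pool.Agent.H924.Kt
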