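import Pool.Agent.H398.Kt.Iface

set_option autoImplicit false

/-! KT13 of project KT: S_double and S_hDual (helper274 for helper398) -/

open scoped TensorProduct

namespace Pool.Agent.H274.Kt

universe u

open Pool.Agent.H398.Kt

section lin

variable {k : Type u} [Field k] {U : Type u} [AddCommGroup U] [Module k U] [FiniteDimensional k U]

/-- the rank -/
noncomputable def rk (D : Module.End k U) : ℕ := Module.finrank k (LinearMap.range D)

theorem rk_ker (D : Module.End k U) : rk D + Module.finrank k (LinearMap.ker D) = Module.finrank k U :=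
  LinearMap.finrank_range_add_finrank_ker D

theorem lem_M (D V : Module.End k U) (hD : ∀ v, D (D v) = 0) (hV : ∀ v, V (V v) = 0)
    (hc : ∀ v, D (V v) = V (D v)) :
    2 * Module.finrank k (LinearMap.range D ⊔ (LinearMap.ker D).map V : Submodule k U) ≤
      Module.finrank k U := by
  obtain ⟨M, hM⟩ : ∃ M : Submodule k U, M = LinearMap.range D ⊔ (LinearMap.ker D).map V := ⟨_, rfl⟩
  rw [← hM]
  let ψ : LinearMap.ker D →ₗ[k] U ⧸ LinearMap.range D :=
    (LinearMap.range D).mkQ ∘ₗ V ∘ₗ (LinearMap.ker D).subtype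
  have h1 := LinearMap.finrank_range_add_finrank_ker ψ
  have hMel : ∀ m ∈ M, ∃ u z, D z = 0 ∧ D u + V z = m := by
    intro m hm
    rw [hM, Submodule.mem_sup] at hm
    obtain ⟨_, ⟨u, rfl⟩, _, ⟨z, hz, rfl⟩, h⟩ := hm
    exact ⟨u, z, hz, h⟩
  have hMZ : ∀ m ∈ M, D m = 0 := by
    intro m hm
    obtain ⟨u, z, hz, rfl⟩ := hMel m hm
    rw [map_add, hD, hc, hz, map_zero, add_zero]
  have h2 : Module.finrank k M ≤ Module.finrank k (LinearMap.ker ψ) := by
    let T : M →ₗ[k] LinearMap.ker ψ := LinearMap.codRestrict _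
      (LinearMap.codRestrict (LinearMap.ker D) M.subtype (fun m => hMZ m.1 m.2)) (by
        intro m
        rw [LinearMap.mem_ker]
        change (LinearMap.range D).mkQ (V m.1) = 0
        rw [Submodule.mkQ_apply, Submodule.Quotient.mk_eq_zero]
        obtain ⟨u, z, hz, h⟩ := hMel m.1 m.2
        refine ⟨V u, ?_⟩
        rw [← h, map_add, hV, add_zero, hc])
    apply LinearMap.finrank_le_finrank_of_injective (f := T)
    intro v w hvw
    exact Subtype.ext (congrArg (fun z => (z.1.1 : U)) hvw)
  have h3 : Module.finrank k M ≤ Module.finrank k (LinearMap.range ψ) + rk D := by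
    let T2 : M →ₗ[k] U ⧸ LinearMap.range D := (LinearMap.range D).mkQ ∘ₗ M.subtype
    have h4 := LinearMap.finrank_range_add_finrank_ker T2
    have h5 : Module.finrank k (LinearMap.range T2) ≤ Module.finrank k (LinearMap.range ψ) := by
      apply Submodule.finrank_mono
      rintro _ ⟨m, rfl⟩
      obtain ⟨u, z, hz, h⟩ := hMel m.1 m.2
      refine ⟨⟨z, hz⟩, ?_⟩
      change (LinearMap.range D).mkQ (V z) = (LinearMap.range D).mkQ m.1
      rw [← h, map_add]
      have h6 : (LinearMap.range D).mkQ (D u) = 0 := by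
        rw [Submodule.mkQ_apply, Submodule.Quotient.mk_eq_zero]
        exact ⟨u, rfl⟩
      rw [h6, zero_add]
    have h6 : Module.finrank k (LinearMap.ker T2) ≤ rk D := by
      let F : LinearMap.ker T2 →ₗ[k] LinearMap.range D := LinearMap.codRestrict _
        (M.subtype ∘ₗ (LinearMap.ker T2).subtype) (by
          intro m
          have h7 : (LinearMap.range D).mkQ (m.1.1) = 0 := m.2
          rwa [Submodule.mkQ_apply, Submodule.Quotient.mk_eq_zero] at h7)
      apply LinearMap.finrank_le_finrank_of_injective (f := F)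
      intro v w hvw
      exact Subtype.ext (Subtype.ext (congrArg (fun z => (z.1 : U)) hvw))
    omega
  have h4 := rk_ker D
  omega

theorem prod_le (S : Submodule k (U × U)) (R Q : Submodule k U) (hQ : ∀ x ∈ S, x.2 ∈ Q)
    (hR : ∀ x ∈ S, x.2 = 0 → x.1 ∈ R) :
    Module.finrank k S ≤ Module.finrank k R + Module.finrank k Q := by
  let T : S →ₗ[k] U := LinearMap.snd k U U ∘ₗ S.subtype
  have h1 := LinearMap.finrank_range_add_finrank_ker T
  have h2 : Module.finrank k (LinearMap.range T) ≤ Module.finrank k Q := by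
    apply Submodule.finrank_mono
    rintro _ ⟨x, rfl⟩
    exact hQ x.1 x.2
  have h3 : Module.finrank k (LinearMap.ker T) ≤ Module.finrank k R := by
    let F : LinearMap.ker T →ₗ[k] R := LinearMap.codRestrict _
      (LinearMap.fst k U U ∘ₗ S.subtype ∘ₗ (LinearMap.ker T).subtype) (by
        intro x
        exact hR x.1.1 x.1.2 x.2)
    apply LinearMap.finrank_le_finrank_of_injective (f := F)
    intro v w hvw
    refine Subtype.ext (Subtype.ext (Prod.ext ?_ ?_))
    · exact congrArg (fun z => (z.1 : U)) hvw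
    · have hv : v.1.1.2 = 0 := v.2
      have hw : w.1.1.2 = 0 := w.2
      rw [hv, hw]
  omega

/-- `(p, q) ↦ (P p + V q, P q)` -/
def tri (P V : Module.End k U) : Module.End k (U × U) :=
  (P ∘ₗ LinearMap.fst k U U + V ∘ₗ LinearMap.snd k U U).prod (P ∘ₗ LinearMap.snd k U U)

omit [FiniteDimensional k U] in
theorem tri_apply (P V : Module.End k U) (x : U × U) : tri P V x = (P x.1 + V x.2, P x.2) := rfl

theorem tri_ge (P V : Module.End k U) : 2 * rk P ≤ rk (tri P V) := by
  have h1 := prod_le (LinearMap.ker (tri P V)) (LinearMap.ker P) (LinearMap.ker P) (by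
    intro x hx
    rw [LinearMap.mem_ker, tri_apply] at hx
    exact congrArg Prod.snd hx) (by
    intro x hx hx2
    rw [LinearMap.mem_ker, tri_apply, hx2, map_zero, add_zero] at hx
    exact congrArg Prod.fst hx)
  have h2 := rk_ker P
  have h3 := rk_ker (tri P V)
  rw [Module.finrank_prod] at h3
  omega

theorem tri_le (D V : Module.End k U) : rk (tri D V) ≤
    Module.finrank k (LinearMap.range D ⊔ (LinearMap.ker D).map V : Submodule k U) + rk D := by
  refine prod_le (LinearMap.range (tri D V)) _ (LinearMap.range D) ?_ ?_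
  · rintro _ ⟨x, rfl⟩
    exact ⟨x.2, rfl⟩
  · rintro _ ⟨x, rfl⟩ hx2
    have h1 : D x.2 = 0 := hx2
    exact Submodule.add_mem_sup ⟨x.1, rfl⟩ ⟨x.2, h1, rfl⟩

theorem cone (D V W : Module.End k U) (h2 : ∀ v : U, v + v = 0) (hD : ∀ v, D (D v) = 0)
    (hV : ∀ v, V (V v) = 0) (hW : ∀ v, W (W v) = 0) (hDV : ∀ v, D (V v) = V (D v))
    (hDW : ∀ v, D (W v) = W (D v)) (hVW : ∀ v, V (W v) = W (V v)) :
    4 * rk (D + V * W) ≤ 2 * rk D + Module.finrank k U := by
  have h3 := tri_ge (D + V * W) V
  have h4 := tri_le D V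
  have h5 := lem_M D V hD hV hDV
  have h6 : rk (tri (D + V * W) V) ≤ rk (tri D V) := by
    let g : (U × U) →ₗ[k] (U × U) :=
      (LinearMap.fst k U U).prod (W ∘ₗ LinearMap.fst k U U + LinearMap.snd k U U)
    have hg : ∀ x, g x = (x.1, W x.1 + x.2) := fun x => rfl
    have hcomm : ∀ x, tri D V (g x) = g (tri (D + V * W) V x) := by
      intro x
      rw [hg, hg, tri_apply, tri_apply]
      refine Prod.ext ?_ ?_
      · change D x.1 + V (W x.1 + x.2) = D x.1 + V (W x.1) + V x.2
        rw [map_add, add_assoc]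
      · change D (W x.1 + x.2) = W (D x.1 + V (W x.1) + V x.2) + (D x.2 + V (W x.2))
        have e1 : W (V (W x.1)) = 0 := by rw [← hVW, hW, map_zero]
        have e2 : W (V x.2) + V (W x.2) = 0 := by rw [← hVW, h2]
        rw [map_add, map_add, map_add, e1, hDW, add_zero]
        have e3 : W (D x.1) + W (V x.2) + (D x.2 + V (W x.2)) =
            W (D x.1) + D x.2 + (W (V x.2) + V (W x.2)) := by abel
        rw [e3, e2, add_zero]
    let F : LinearMap.range (tri (D + V * W) V) →ₗ[k] LinearMap.range (tri D V) :=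
      LinearMap.codRestrict _ (g ∘ₗ (LinearMap.range (tri (D + V * W) V)).subtype) (by
        rintro ⟨_, ⟨x, rfl⟩⟩
        exact ⟨g x, hcomm x⟩)
    apply LinearMap.finrank_le_finrank_of_injective (f := F)
    intro v w hvw
    have h7 : g v.1 = g w.1 := congrArg (fun z => (z.1 : U × U)) hvw
    rw [hg, hg] at h7
    obtain ⟨h8, h9⟩ := Prod.mk.inj h7
    rw [h8] at h9
    exact Subtype.ext (Prod.ext h8 (add_left_cancel h9))
  omega

theorem chain {ι : Type} [DecidableEq ι] (D : Module.End k U) (V W : ι → Module.End k U)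
    (h2 : ∀ v : U, v + v = 0) (hD : D * D = 0) (hV : ∀ i, V i * V i = 0) (hW : ∀ i, W i * W i = 0)
    (hDV : ∀ i, Commute D (V i)) (hDW : ∀ i, Commute D (W i)) (hVV : ∀ i j, Commute (V i) (V j))
    (hWW : ∀ i j, Commute (W i) (W j)) (hVW : ∀ i j, Commute (V i) (W j)) (s : Finset ι) :
    (D + ∑ i ∈ s, V i * W i) * (D + ∑ i ∈ s, V i * W i) = 0 ∧
    Module.finrank k U - 2 * rk D ≤ 2 ^ s.card * (Module.finrank k U - 2 * rk (D + ∑ i ∈ s, V i * W i)) := by
  induction s using Finset.induction_on with
  | empty =>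
    rw [Finset.sum_empty, add_zero]
    refine ⟨hD, ?_⟩
    rw [Finset.card_empty, pow_zero, one_mul]
  | insert j s hj ih =>
    obtain ⟨i1, i2⟩ := ih
    obtain ⟨E, hE⟩ : ∃ E, E = D + ∑ i ∈ s, V i * W i := ⟨_, rfl⟩
    rw [← hE] at i1 i2
    have hsum : D + ∑ i ∈ insert j s, V i * W i = E + V j * W j := by
      rw [Finset.sum_insert hj, hE]
      abel
    have hEV : Commute E (V j) := by
      rw [hE]
      exact (hDV j).add_left (Commute.sum_left _ _ _ fun i _ =>
        (hVV i j).mul_left (hVW j i).symm)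
    have hEW : Commute E (W j) := by
      rw [hE]
      exact (hDW j).add_left (Commute.sum_left _ _ _ fun i _ =>
        (hVW i j).mul_left (hWW i j))
    rw [hsum]
    constructor
    · have e1 : V j * W j * (V j * W j) = 0 := by
        rw [mul_assoc, ← mul_assoc (W j), ← (hVW j j).eq, mul_assoc (V j) (W j), hW, mul_zero,
          mul_zero]
      have e2 : E * (V j * W j) = V j * W j * E := (hEV.mul_right hEW).eq
      rw [add_mul, mul_add, mul_add, i1, e1, e2, zero_add, add_zero]
      ext v
      exact h2 _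
    · have h3 := cone E (V j) (W j) h2 (fun v => congrArg (fun T => T v) i1)
        (fun v => congrArg (fun T => T v) (hV j)) (fun v => congrArg (fun T => T v) (hW j))
        (fun v => congrArg (fun T => T v) hEV.eq) (fun v => congrArg (fun T => T v) hEW.eq)
        (fun v => congrArg (fun T => T v) (hVW j j).eq)
      rw [Finset.card_insert_of_notMem hj]
      have h4 : Module.finrank k U - 2 * rk E ≤ 2 * (Module.finrank k U - 2 * rk (E + V j * W j)) := by
        omega
      calc Module.finrank k U - 2 * rk D ≤ 2 ^ s.card * (Module.finrank k U - 2 * rk E) := i2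
        _ ≤ 2 ^ s.card * (2 * (Module.finrank k U - 2 * rk (E + V j * W j))) :=
            Nat.mul_le_mul_left _ h4
        _ = _ := by ring

theorem low {H : Type u} [AddCommGroup H] [Module k H] (Δ : Module.End k U)
    (hΔ : ∀ v, Δ (Δ v) = 0) (ι : H →ₗ[k] U) (π : U →ₗ[k] H) (h1 : ∀ h, π (ι h) = h)
    (h2 : ∀ h, Δ (ι h) = 0) (h3 : ∀ v, π (Δ v) = 0) :
    Module.finrank k H + 2 * rk Δ ≤ Module.finrank k U := by
  have hinj : Function.Injective ι := fun x y h => by rw [← h1 x, ← h1 y, h]
  have hfd : FiniteDimensional k H := FiniteDimensional.of_injective ι hinj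
  let F : H × LinearMap.range Δ →ₗ[k] LinearMap.ker Δ := LinearMap.codRestrict _
    (ι.coprod (LinearMap.range Δ).subtype) (by
      rintro ⟨h, ⟨_, ⟨v, rfl⟩⟩⟩
      rw [LinearMap.mem_ker, LinearMap.coprod_apply, map_add, h2, zero_add]
      exact hΔ v)
  have hF : Function.Injective F := by
    rw [injective_iff_map_eq_zero]
    rintro ⟨h, ⟨x, hx⟩⟩ h0
    have h4 : ι h + x = 0 := congrArg (fun z => (z.1 : U)) h0
    have h5 : π x = 0 := by
      obtain ⟨v, rfl⟩ := hx
      exact h3 v
    have h6 : h = 0 := by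
      have := congrArg π h4
      rwa [map_add, h1, h5, add_zero, map_zero] at this
    rw [h6, map_zero, zero_add] at h4
    exact Prod.ext h6 (Subtype.ext h4)
  have h4 := LinearMap.finrank_le_finrank_of_injective hF
  rw [Module.finrank_prod] at h4
  have h5 := rk_ker Δ
  have h6 : Module.finrank k (LinearMap.range Δ) = rk Δ := rfl
  omega

theorem split (D : Module.End k U) :
    ∃ (H : Submodule k (U ⧸ LinearMap.range D)) (ι : H →ₗ[k] U) (π : U →ₗ[k] H),
      (∀ h, π (ι h) = h) ∧ (∀ h, D (ι h) = 0) ∧ (∀ v, π (D v) = 0) ∧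
      Module.finrank k U ≤ Module.finrank k H + 2 * rk D := by
  let j : LinearMap.ker D →ₗ[k] U ⧸ LinearMap.range D :=
    (LinearMap.range D).mkQ ∘ₗ (LinearMap.ker D).subtype
  obtain ⟨ι', hι'⟩ := LinearMap.exists_rightInverse_of_surjective j.rangeRestrict
    (LinearMap.range_rangeRestrict j)
  obtain ⟨π', hπ'⟩ := LinearMap.exists_leftInverse_of_injective (LinearMap.range j).subtype
    (Submodule.ker_subtype _)
  refine ⟨LinearMap.range j, (LinearMap.ker D).subtype ∘ₗ ι', π' ∘ₗ (LinearMap.range D).mkQ,
    fun h => ?_, fun h => (ι' h).2, fun v => ?_, ?_⟩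
  · have e1 : j.rangeRestrict (ι' h) = h := congrArg (fun T => T h) hι'
    have e2 : (LinearMap.range D).mkQ ((ι' h : LinearMap.ker D) : U) = (h : U ⧸ LinearMap.range D) :=
      congrArg Subtype.val e1
    change π' ((LinearMap.range D).mkQ ((ι' h : LinearMap.ker D) : U)) = h
    rw [e2]
    exact congrArg (fun T => T h) hπ'
  · change π' ((LinearMap.range D).mkQ (D v)) = 0
    have e1 : (LinearMap.range D).mkQ (D v) = 0 := by
      rw [Submodule.mkQ_apply, Submodule.Quotient.mk_eq_zero]
      exact ⟨v, rfl⟩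
    rw [e1, map_zero]
  · have h1 := LinearMap.finrank_range_add_finrank_ker j
    have h2 := rk_ker D
    have h3 : Module.finrank k (LinearMap.ker j) ≤ rk D := by
      let F : LinearMap.ker j →ₗ[k] LinearMap.range D := LinearMap.codRestrict _
        ((LinearMap.ker D).subtype ∘ₗ (LinearMap.ker j).subtype) (by
          intro m
          have h7 : (LinearMap.range D).mkQ (m.1.1) = 0 := m.2
          rwa [Submodule.mkQ_apply, Submodule.Quotient.mk_eq_zero] at h7)
      apply LinearMap.finrank_le_finrank_of_injective (f := F)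
      intro v w hvw
      exact Subtype.ext (Subtype.ext (congrArg (fun z => (z.1 : U)) hvw))
    omega

end lin

section tens

variable {k : Type u} [Field k] [CharP k 2] {r : ℕ}

theorem tens_op (A B : Md k r) (a : Fin r → k) :
    (A.tens B).op a = (TensorProduct.map (A.op a) LinearMap.id + TensorProduct.map LinearMap.id (B.op a)) +
      ∑ i ∈ Finset.univ, ((a i • TensorProduct.map (A.x i) LinearMap.id : Module.End k (A.V ⊗[k] B.V)) *
        (TensorProduct.map LinearMap.id (B.x i) : Module.End k (A.V ⊗[k] B.V))) := by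
  apply TensorProduct.ext'
  intro x y
  rw [Md.op_apply]
  simp only [LinearMap.add_apply, LinearMap.sum_apply, Module.End.mul_apply, LinearMap.smul_apply,
    TensorProduct.map_tmul, LinearMap.id_apply, Md.op_apply, smul_add, Finset.sum_add_distrib,
    TensorProduct.sum_tmul, TensorProduct.tmul_sum, TensorProduct.smul_tmul', TensorProduct.tmul_smul]

theorem proof_double : S_double.{u} := by
  intro k _ _ r A B a
  obtain ⟨HA, ιA, πA, a1, a2, a3, a4⟩ := split (A.op a)
  obtain ⟨HB, ιB, πB, b1, b2, b3, b4⟩ := split (B.op a)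
  obtain ⟨D0, hD0⟩ : ∃ D0 : Module.End k (A.V ⊗[k] B.V), D0 =
    TensorProduct.map (A.op a) LinearMap.id + TensorProduct.map LinearMap.id (B.op a) := ⟨_, rfl⟩
  have h2 : ∀ z : A.V ⊗[k] B.V, z + z = 0 := by
    intro z
    rw [← two_smul k z, CharTwo.two_eq_zero, zero_smul]
  obtain ⟨V, hV⟩ : ∃ V : Fin r → Module.End k (A.V ⊗[k] B.V), V = fun i =>
    a i • TensorProduct.map (A.x i) LinearMap.id := ⟨_, rfl⟩
  obtain ⟨W, hW⟩ : ∃ W : Fin r → Module.End k (A.V ⊗[k] B.V), W = fun i =>
    TensorProduct.map LinearMap.id (B.x i) := ⟨_, rfl⟩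
  have hop : (A.tens B).op a = D0 + ∑ i ∈ Finset.univ, V i * W i := by
    rw [tens_op, hD0, hV, hW]
  have hDD : D0 * D0 = 0 := by
    rw [hD0]
    apply TensorProduct.ext'
    intro x y
    simp only [Module.End.mul_apply, LinearMap.add_apply, TensorProduct.map_tmul, map_add,
      LinearMap.id_apply, Md.op_sq, TensorProduct.zero_tmul, TensorProduct.tmul_zero, zero_add,
      add_zero, LinearMap.zero_apply]
    exact h2 _
  have hch := chain D0 V W h2 hDD
    (fun i => by
      rw [hV]
      apply TensorProduct.ext'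
      intro x y
      simp only [Module.End.mul_apply, LinearMap.smul_apply, TensorProduct.map_tmul, map_smul,
        LinearMap.id_apply, A.sq, TensorProduct.zero_tmul, smul_zero, LinearMap.zero_apply])
    (fun i => by
      rw [hW]
      apply TensorProduct.ext'
      intro x y
      simp only [Module.End.mul_apply, TensorProduct.map_tmul,
        LinearMap.id_apply, B.sq, TensorProduct.tmul_zero, LinearMap.zero_apply])
    (fun i => by
      rw [hV, hD0]
      apply TensorProduct.ext'
      intro x y
      simp only [Module.End.mul_apply, LinearMap.add_apply, LinearMap.smul_apply,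
        TensorProduct.map_tmul, map_smul, map_add, smul_add, LinearMap.id_apply, Md.x_op])
    (fun i => by
      rw [hW, hD0]
      apply TensorProduct.ext'
      intro x y
      simp only [Module.End.mul_apply, LinearMap.add_apply,
        TensorProduct.map_tmul, map_add, LinearMap.id_apply, Md.x_op])
    (fun i j => by
      rw [hV]
      apply TensorProduct.ext'
      intro x y
      simp only [Module.End.mul_apply, LinearMap.smul_apply, TensorProduct.map_tmul, map_smul,
        LinearMap.id_apply, A.comm i j, smul_smul, mul_comm])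
    (fun i j => by
      rw [hW]
      apply TensorProduct.ext'
      intro x y
      simp only [Module.End.mul_apply, TensorProduct.map_tmul,
        LinearMap.id_apply, B.comm i j])
    (fun i j => by
      rw [hV, hW]
      apply TensorProduct.ext'
      intro x y
      simp only [Module.End.mul_apply, LinearMap.smul_apply, TensorProduct.map_tmul, map_smul,
        LinearMap.id_apply])
    Finset.univ
  rw [← hop, Finset.card_univ, Fintype.card_fin] at hch
  obtain ⟨ιT, hιT⟩ : ∃ f : (HA ⊗[k] HB) →ₗ[k] (A.V ⊗[k] B.V), f = TensorProduct.map ιA ιB :=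
    ⟨_, rfl⟩
  obtain ⟨πT, hπT⟩ : ∃ f : (A.V ⊗[k] B.V) →ₗ[k] (HA ⊗[k] HB), f = TensorProduct.map πA πB :=
    ⟨_, rfl⟩
  have f1 : ∀ h, πT (ιT h) = h := by
    intro h
    have e1 : πT ∘ₗ ιT = LinearMap.id := by
      rw [hιT, hπT]
      apply TensorProduct.ext'
      intro x y
      simp only [LinearMap.comp_apply, TensorProduct.map_tmul, a1, b1, LinearMap.id_apply]
    exact congrArg (fun T => T h) e1
  have f2 : ∀ h, D0 (ιT h) = 0 := by
    intro h
    have e1 : D0 ∘ₗ ιT = 0 := by
      rw [hD0, hιT]
      apply TensorProduct.ext'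
      intro x y
      simp only [LinearMap.comp_apply, LinearMap.add_apply, TensorProduct.map_tmul, a2, b2,
        LinearMap.id_apply, TensorProduct.zero_tmul, TensorProduct.tmul_zero, add_zero,
        LinearMap.zero_apply]
    exact congrArg (fun T => T h) e1
  have f3 : ∀ v, πT (D0 v) = 0 := by
    intro v
    have e1 : πT ∘ₗ D0 = 0 := by
      rw [hD0, hπT]
      apply TensorProduct.ext'
      intro x y
      simp only [LinearMap.comp_apply, LinearMap.add_apply, TensorProduct.map_tmul, map_add, a3, b3,
        LinearMap.id_apply, TensorProduct.zero_tmul, TensorProduct.tmul_zero, add_zero,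
        LinearMap.zero_apply]
    exact congrArg (fun T => T v) e1
  have hlow := low (H := HA ⊗[k] HB) D0 (fun v => congrArg (fun T => T v) hDD) ιT πT f1 f2 f3
  rw [Module.finrank_tensorProduct] at hlow
  have hA : A.h a ≤ Module.finrank k HA := by
    have e1 : A.h a = Module.finrank k A.V - 2 * rk (A.op a) := rfl
    omega
  have hB : B.h a ≤ Module.finrank k HB := by
    have e1 : B.h a = Module.finrank k B.V - 2 * rk (B.op a) := rfl
    omega
  have hT : (A.tens B).h a = Module.finrank k (A.V ⊗[k] B.V) - 2 * rk ((A.tens B).op a) := rfl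
  rw [hT]
  calc A.h a * B.h a ≤ Module.finrank k HA * Module.finrank k HB := Nat.mul_le_mul hA hB
    _ ≤ Module.finrank k (A.V ⊗[k] B.V) - 2 * rk D0 := by omega
    _ ≤ _ := hch.2

theorem proof_hDual : S_hDual.{u} := by
  intro k _ _ r N a
  have h1 : N.dual.op a = (N.op a).dualMap := by
    apply LinearMap.ext
    intro φ
    apply LinearMap.ext
    intro v
    rw [Md.op_apply, LinearMap.dualMap_apply, Md.op_apply, map_sum, LinearMap.sum_apply]
    refine Finset.sum_congr rfl fun i _ => ?_
    rw [map_smul]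
    rfl
  have h2 : N.dual.dim = N.dim := Subspace.dual_finrank_eq
  unfold Md.h
  rw [h1, h2, LinearMap.finrank_range_dualMap_eq_finrank_range]

end tens

end Pool.Agent.H274.Kt
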