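import Pool.Agent.H398.Kt.Iface

set_option autoImplicit false

namespace Pool.Agent.H224.Kt

open Pool.Agent.H398.Kt Pool.Agent.H398.Kt.Md Polynomial

universe u

/-! ### Linear algebra -/

section lin

variable {k : Type u} [Field k] {V W : Type u} [AddCommGroup V] [Module k V]
  [AddCommGroup W] [Module k W]

theorem finrank_eq_map_mkQ [FiniteDimensional k V] (R U : Submodule k V) (h : R ≤ U) :
    Module.finrank k U = Module.finrank k (U.map R.mkQ) + Module.finrank k R := by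
  have h1 := LinearMap.finrank_range_add_finrank_ker (R.mkQ.domRestrict U)
  have h2 : LinearMap.range (R.mkQ.domRestrict U) = U.map R.mkQ := LinearMap.range_domRestrict _ _
  have h3 : LinearMap.ker (R.mkQ.domRestrict U) = R.comap U.subtype := by
    ext x
    simp [LinearMap.mem_ker]
  have h4 : Module.finrank k (R.comap U.subtype) = Module.finrank k R :=
    (Submodule.comapSubtypeEquivOfLe h).finrank_eq
  rw [h2, h3, h4] at h1
  exact h1.symm

theorem aeval_intertwine (T : V →ₗ[k] W) (A : V →ₗ[k] V) (A' : W →ₗ[k] W)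
    (h : ∀ x, T (A x) = A' (T x)) (P : k[X]) (x : V) :
    T (aeval A P x) = aeval A' P (T x) := by
  have hpow : ∀ (n : ℕ) (x : V), T ((A ^ n) x) = (A' ^ n) (T x) := by
    intro n
    induction n with
    | zero => intro x; simp
    | succ n ih =>
      intro x
      rw [pow_succ, pow_succ, Module.End.mul_apply, Module.End.mul_apply, ih, h]
  induction P using Polynomial.induction_on' with
  | add p q hp hq => simp only [map_add, LinearMap.add_apply, hp, hq]
  | monomial n c =>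
    simp only [aeval_monomial, Module.algebraMap_end_eq_smul_id]
    rw [Module.End.mul_apply, Module.End.mul_apply]
    simp [hpow]

theorem finrank_ker_comp_le [FiniteDimensional k V] (S T : V →ₗ[k] V) :
    Module.finrank k (LinearMap.ker (S ∘ₗ T)) ≤
      Module.finrank k (LinearMap.ker S) + Module.finrank k (LinearMap.ker T) := by
  let U : LinearMap.ker (S ∘ₗ T) →ₗ[k] LinearMap.ker S :=
    LinearMap.codRestrict _ (T ∘ₗ (LinearMap.ker (S ∘ₗ T)).subtype) (by
      intro v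
      have := v.2
      rw [LinearMap.mem_ker] at this ⊢
      exact this)
  have h1 := LinearMap.finrank_range_add_finrank_ker U
  have h2 : Module.finrank k (LinearMap.range U) ≤ Module.finrank k (LinearMap.ker S) :=
    Submodule.finrank_le _
  have h3 : Module.finrank k (LinearMap.ker U) ≤ Module.finrank k (LinearMap.ker T) := by
    let U' : LinearMap.ker U →ₗ[k] LinearMap.ker T :=
      LinearMap.codRestrict _ ((LinearMap.ker (S ∘ₗ T)).subtype ∘ₗ (LinearMap.ker U).subtype) (by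
        intro v
        have := v.2
        rw [LinearMap.mem_ker] at this ⊢
        exact congrArg Subtype.val this)
    apply LinearMap.finrank_le_finrank_of_injective (f := U')
    intro v w hvw
    have h5 : (U' v : V) = (U' w : V) := congrArg Subtype.val hvw
    exact Subtype.ext (Subtype.ext h5)
  omega

theorem finrank_ker_prod_le [FiniteDimensional k V] (θ : Module.End k V) (L : List k) :
    Module.finrank k (LinearMap.ker (L.map (fun a => θ - a • (1 : Module.End k V))).prod) ≤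
      (L.map (fun a => Module.finrank k (LinearMap.ker (θ - a • (1 : Module.End k V))))).sum := by
  induction L with
  | nil =>
    rw [List.map_nil, List.prod_nil, List.map_nil, List.sum_nil]
    have : LinearMap.ker (1 : Module.End k V) = ⊥ := by
      ext x
      simp [LinearMap.mem_ker]
    rw [this]
    exact (finrank_bot k V).le
  | cons a L ih =>
    rw [List.map_cons, List.prod_cons, List.map_cons, List.sum_cons]
    refine (finrank_ker_comp_le (θ - a • (1 : Module.End k V))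
      (L.map (fun a => θ - a • (1 : Module.End k V))).prod).trans ?_
    omega

end lin

/-! ### The homology of `Y / f` -/

section md

variable {k : Type u} [Field k] {r : ℕ} (f α : Fin r → k)

/-- `{y | α y ∈ f Y}`. -/
def Zs (Y : Md k r) : Submodule k Y.V := (LinearMap.range (Y.op f)).comap (Y.op α)

/-- `α Y + f Y`. -/
def Bs (Y : Md k r) : Submodule k Y.V := LinearMap.range (Y.op α) ⊔ LinearMap.range (Y.op f)

theorem mem_Zs (Y : Md k r) (y : Y.V) : y ∈ Zs f α Y ↔ ∃ w, Y.op f w = Y.op α y := Iff.rfl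

theorem mem_Bs (Y : Md k r) (y : Y.V) :
    y ∈ Bs f α Y ↔ ∃ u w, Y.op α u + Y.op f w = y := by
  unfold Bs
  rw [Submodule.mem_sup]
  constructor
  · rintro ⟨_, ⟨u, rfl⟩, _, ⟨w, rfl⟩, h⟩
    exact ⟨u, w, h⟩
  · rintro ⟨u, w, h⟩
    exact ⟨_, ⟨u, rfl⟩, _, ⟨w, rfl⟩, h⟩

theorem Bs_le [CharP k 2] (Y : Md k r) : Bs f α Y ≤ Zs f α Y := by
  intro y hy
  rw [mem_Bs] at hy
  obtain ⟨u, w, rfl⟩ := hy
  rw [mem_Zs]
  refine ⟨Y.op α w, ?_⟩
  rw [map_add, op_sq, zero_add, op_comm]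

/-- `ker f = im f`. -/
def Ex (Y : Md k r) : Prop := ∀ v, Y.op f v = 0 → ∃ w, Y.op f w = v

/-- The homology. -/
abbrev Hq (Y : Md k r) : Type u := (Zs f α Y) ⧸ (Bs f α Y).comap (Zs f α Y).subtype

/-- The class of an element. -/
abbrev cl (Y : Md k r) (y : Zs f α Y) : Hq f α Y := Submodule.Quotient.mk y

theorem cl_eq (Y : Md k r) (y y' : Zs f α Y) :
    cl f α Y y = cl f α Y y' ↔ (y : Y.V) - y' ∈ Bs f α Y := by
  rw [Submodule.Quotient.eq]
  rfl

theorem cl_eq_zero (Y : Md k r) (y : Zs f α Y) :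
    cl f α Y y = 0 ↔ (y : Y.V) ∈ Bs f α Y := by
  rw [Submodule.Quotient.mk_eq_zero]
  rfl

theorem finrank_Hq [CharP k 2] (Y : Md k r) : (Y.quo f).h α = Module.finrank k (Hq f α Y) := by
  set R := LinearMap.range (Y.op f) with hR
  have hB := Bs_le f α Y
  have hRB : R ≤ Bs f α Y := le_sup_right
  have h1 := finrank_eq_map_mkQ R (Bs f α Y) hRB
  have h2 := finrank_eq_map_mkQ R (Zs f α Y) (hRB.trans hB)
  have h3 : Module.finrank k (Hq f α Y) +
      Module.finrank k ((Bs f α Y).comap (Zs f α Y).subtype) = Module.finrank k (Zs f α Y) :=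
    Submodule.finrank_quotient_add_finrank ((Bs f α Y).comap (Zs f α Y).subtype)
  have h4 : Module.finrank k ((Bs f α Y).comap (Zs f α Y).subtype) =
      Module.finrank k (Bs f α Y) := (Submodule.comapSubtypeEquivOfLe hB).finrank_eq
  have hop : ∀ v, R.mkQ (Y.op α v) = (Y.quo f).op α (R.mkQ v) :=
    fun v => op_hom (A := Y) (B := Y.quo f) R.mkQ (fun _ _ => rfl) α v
  have h5 : (Bs f α Y).map R.mkQ = LinearMap.range ((Y.quo f).op α) := by
    ext z
    constructor
    · rintro ⟨y, hy, rfl⟩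
      obtain ⟨u, w, rfl⟩ := (mem_Bs f α Y y).mp hy
      refine ⟨R.mkQ u, ?_⟩
      rw [map_add, ← hop]
      have : R.mkQ (Y.op f w) = 0 := by
        rw [Submodule.mkQ_apply, Submodule.Quotient.mk_eq_zero]
        exact ⟨w, rfl⟩
      rw [this, add_zero]
    · rintro ⟨z, rfl⟩
      obtain ⟨u, rfl⟩ := R.mkQ_surjective z
      refine ⟨Y.op α u, (mem_Bs f α Y _).mpr ⟨u, 0, by simp⟩, ?_⟩
      exact hop u
  have h6 : (Zs f α Y).map R.mkQ = LinearMap.ker ((Y.quo f).op α) := by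
    ext z
    constructor
    · rintro ⟨y, hy, rfl⟩
      rw [LinearMap.mem_ker, ← hop, Submodule.mkQ_apply, Submodule.Quotient.mk_eq_zero]
      exact hy
    · intro hz
      obtain ⟨u, rfl⟩ := R.mkQ_surjective z
      rw [LinearMap.mem_ker, ← hop, Submodule.mkQ_apply, Submodule.Quotient.mk_eq_zero] at hz
      exact ⟨u, hz, rfl⟩
  have h7 := h_add (Y.quo f) α
  have h8 : Module.finrank k (LinearMap.range ((Y.quo f).op α)) +
      Module.finrank k (LinearMap.ker ((Y.quo f).op α)) = (Y.quo f).dim :=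
    LinearMap.finrank_range_add_finrank_ker ((Y.quo f).op α)
  have h1' : Module.finrank k (Bs f α Y) =
      Module.finrank k (LinearMap.range ((Y.quo f).op α)) + Module.finrank k R := by
    rw [h5] at h1
    exact h1
  have h2' : Module.finrank k (Zs f α Y) =
      Module.finrank k (LinearMap.ker ((Y.quo f).op α)) + Module.finrank k R := by
    rw [h6] at h2
    exact h2
  rw [h4] at h3
  omega

/-- The map of homology induced by a homomorphism. -/
theorem exists_Hmap {Y C : Md k r} (g : Y.V →ₗ[k] C.V) (hg : ∀ i v, g (Y.x i v) = C.x i (g v)) :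
    ∃ G : Hq f α Y →ₗ[k] Hq f α C, ∀ (y : Zs f α Y) (z : Zs f α C), g y = z →
      G (cl f α Y y) = cl f α C z := by
  have hZ : ∀ y ∈ Zs f α Y, g y ∈ Zs f α C := by
    intro y hy
    obtain ⟨w, hw⟩ := (mem_Zs f α Y y).mp hy
    exact (mem_Zs f α C _).mpr ⟨g w, by rw [← op_hom g hg, ← op_hom g hg, hw]⟩
  have hB : (Bs f α Y).comap (Zs f α Y).subtype ≤
      ((Bs f α C).comap (Zs f α C).subtype).comap (g.restrict hZ) := by
    intro y hy
    obtain ⟨u, w, hw⟩ := (mem_Bs f α Y _).mp hy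
    refine (mem_Bs f α C _).mpr ⟨g u, g w, ?_⟩
    rw [← op_hom g hg, ← op_hom g hg, ← map_add, hw]
    rfl
  refine ⟨Submodule.mapQ _ _ (g.restrict hZ) hB, ?_⟩
  intro y z h
  rw [Submodule.mapQ_apply]
  congr 1
  exact Subtype.ext h

/-- The operator `θ`. -/
def IsTh (Y : Md k r) (θ : Module.End k (Hq f α Y)) : Prop :=
  ∀ y y₁ : Zs f α Y, Y.op f y₁ = Y.op α y → θ (cl f α Y y) = cl f α Y y₁

theorem exists_th [CharP k 2] (Y : Md k r) (hY : Ex f Y) : ∃ θ, IsTh f α Y θ := by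
  obtain ⟨σ, hσ⟩ := (Y.op f).rangeRestrict.exists_rightInverse_of_surjective
    (LinearMap.range_rangeRestrict _)
  have hσ' : ∀ z, Y.op f (σ z) = z := fun z => by
    have := congrArg (fun T => (T z : Y.V)) hσ
    exact this
  let ρ₀ : Zs f α Y →ₗ[k] LinearMap.range (Y.op f) :=
    LinearMap.codRestrict _ (Y.op α ∘ₗ (Zs f α Y).subtype) (fun y => y.2)
  have hρ₀ : ∀ y, Y.op f (σ (ρ₀ y)) = Y.op α y := fun y => hσ' _
  let ρ : Zs f α Y →ₗ[k] Zs f α Y := LinearMap.codRestrict _ (σ ∘ₗ ρ₀) (by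
    intro y
    refine (mem_Zs f α Y _).mpr (hY _ ?_)
    change Y.op f (Y.op α (σ (ρ₀ y))) = 0
    rw [op_comm, hρ₀, op_sq])
  have hρ : ∀ y, Y.op f (ρ y) = Y.op α y := hρ₀
  have key : ∀ y y₁ : Zs f α Y, Y.op f y₁ = Y.op α y → cl f α Y (ρ y) = cl f α Y y₁ := by
    intro y y₁ h
    rw [cl_eq]
    obtain ⟨w, hw⟩ := hY ((ρ y : Y.V) - y₁) (by rw [map_sub, hρ, h, sub_self])
    exact (mem_Bs f α Y _).mpr ⟨0, w, by rw [map_zero, zero_add, hw]⟩
  have hB : (Bs f α Y).comap (Zs f α Y).subtype ≤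
      ((Bs f α Y).comap (Zs f α Y).subtype).comap ρ := by
    intro y hy
    obtain ⟨u, w, hw⟩ := (mem_Bs f α Y _).mp hy
    have h1 : Y.op α w ∈ Bs f α Y := (mem_Bs f α Y _).mpr ⟨w, 0, by simp⟩
    have h2 := key y ⟨Y.op α w, Bs_le f α Y h1⟩ (by
      change Y.op f (Y.op α w) = Y.op α ((Zs f α Y).subtype y)
      rw [← hw, map_add, op_sq, zero_add, op_comm])
    have h3 : cl f α Y (ρ y) = 0 := by
      rw [h2, cl_eq_zero]
      exact h1
    exact (cl_eq_zero f α Y _).mp h3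
  refine ⟨Submodule.mapQ _ _ ρ hB, ?_⟩
  intro y y₁ h
  rw [Submodule.mapQ_apply]
  exact key y y₁ h

/-- Naturality. -/
theorem th_nat {Y C : Md k r} (g : Y.V →ₗ[k] C.V) (hg : ∀ i v, g (Y.x i v) = C.x i (g v))
    [CharP k 2] (hY : Ex f Y)
    (θ : Module.End k (Hq f α Y)) (hθ : IsTh f α Y θ) (θ' : Module.End k (Hq f α C))
    (hθ' : IsTh f α C θ') (G : Hq f α Y →ₗ[k] Hq f α C)
    (hG : ∀ (y : Zs f α Y) (z : Zs f α C), g y = z → G (cl f α Y y) = cl f α C z)
    (x : Hq f α Y) : G (θ x) = θ' (G x) := by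
  have hZ : ∀ y ∈ Zs f α Y, g y ∈ Zs f α C := by
    intro y hy
    obtain ⟨w, hw⟩ := (mem_Zs f α Y y).mp hy
    exact (mem_Zs f α C _).mpr ⟨g w, by rw [← op_hom g hg, ← op_hom g hg, hw]⟩
  obtain ⟨y, rfl⟩ := Submodule.Quotient.mk_surjective _ x
  obtain ⟨y₁, hy₁⟩ := (mem_Zs f α Y y).mp y.2
  have hy₁Z : y₁ ∈ Zs f α Y := (mem_Zs f α Y _).mpr (hY _ (by rw [op_comm, hy₁, op_sq]))
  have h1 : θ (cl f α Y y) = cl f α Y ⟨y₁, hy₁Z⟩ := hθ y ⟨y₁, hy₁Z⟩ hy₁
  have h2 : G (cl f α Y y) = cl f α C ⟨g y, hZ _ y.2⟩ := hG _ _ rfl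
  have h3 : G (cl f α Y ⟨y₁, hy₁Z⟩) = cl f α C ⟨g y₁, hZ _ hy₁Z⟩ := hG _ _ rfl
  change G (θ (cl f α Y y)) = θ' (G (cl f α Y y))
  rw [h1, h2, h3]
  refine (hθ' _ _ ?_).symm
  change C.op f (g y₁) = C.op α (g y)
  rw [← op_hom g hg, ← op_hom g hg, hy₁]

/-- Exactness in the middle. -/
theorem Hq_exact {A Y C : Md k r} (S : SES A Y C) [CharP k 2] (hC : Ex f C)
    (I : Hq f α A →ₗ[k] Hq f α Y) (G : Hq f α Y →ₗ[k] Hq f α C)
    (hI : ∀ (y : Zs f α A) (z : Zs f α Y), S.f y = z → I (cl f α A y) = cl f α Y z)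
    (hG : ∀ (y : Zs f α Y) (z : Zs f α C), S.g y = z → G (cl f α Y y) = cl f α C z)
    (x : Hq f α Y) (hx : G x = 0) : ∃ x', I x' = x := by
  obtain ⟨y, rfl⟩ := Submodule.Quotient.mk_surjective _ x
  have hZ : S.g y ∈ Zs f α C := by
    obtain ⟨w, hw⟩ := (mem_Zs f α Y y).mp y.2
    exact (mem_Zs f α C _).mpr ⟨S.g w, by rw [← op_hom S.g S.hg, ← op_hom S.g S.hg, hw]⟩
  have h1 : cl f α C ⟨S.g y, hZ⟩ = 0 := (hG y ⟨S.g y, hZ⟩ rfl).symm.trans hx
  obtain ⟨c, c', hc⟩ := (mem_Bs f α C _).mp ((cl_eq_zero f α C _).mp h1)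
  obtain ⟨u, rfl⟩ := S.surj c
  obtain ⟨w, rfl⟩ := S.surj c'
  have hc' : C.op α (S.g u) + C.op f (S.g w) = S.g y := hc
  have h2 : S.g ((y : Y.V) - (Y.op α u + Y.op f w)) = 0 := by
    rw [map_sub, map_add, op_hom S.g S.hg, op_hom S.g S.hg, hc', sub_self]
  obtain ⟨a, ha⟩ := (S.exact _).mp h2
  have hB : Y.op α u + Y.op f w ∈ Bs f α Y := (mem_Bs f α Y _).mpr ⟨u, w, rfl⟩
  have hZ2 : S.f a ∈ Zs f α Y := by
    rw [ha]
    exact Submodule.sub_mem _ y.2 (Bs_le f α Y hB)
  -- `α a ∈ f A`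
  have hZ3 : a ∈ Zs f α A := by
    obtain ⟨v, hv⟩ := (mem_Zs f α Y _).mp hZ2
    have h3 : C.op f (S.g v) = 0 := by
      rw [← op_hom S.g S.hg, hv, op_hom S.g S.hg]
      have : S.g (S.f a) = 0 := (S.exact _).mpr ⟨a, rfl⟩
      rw [this, map_zero]
    obtain ⟨c₂, hc₂⟩ := hC _ h3
    obtain ⟨v₂, rfl⟩ := S.surj c₂
    have h4 : S.g (v - Y.op f v₂) = 0 := by
      rw [map_sub, op_hom S.g S.hg, hc₂, sub_self]
    obtain ⟨a₁, ha₁⟩ := (S.exact _).mp h4
    refine (mem_Zs f α A _).mpr ⟨a₁, ?_⟩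
    have h5 : S.f (A.op f a₁ - A.op α a) = 0 := by
      rw [map_sub, op_hom S.f S.hf, op_hom S.f S.hf, ha₁, map_sub, op_sq, sub_zero, hv, sub_self]
    exact sub_eq_zero.mp (S.inj _ h5)
  refine ⟨cl f α A ⟨a, hZ3⟩, ?_⟩
  rw [hI ⟨a, hZ3⟩ ⟨S.f a, hZ2⟩ rfl]
  change cl f α Y ⟨S.f a, hZ2⟩ = cl f α Y y
  rw [cl_eq]
  change S.f a - y ∈ Bs f α Y
  rw [ha, sub_sub_cancel_left]
  exact Submodule.neg_mem _ hB

/-- The eigenspaces. -/
theorem finrank_eig_le [CharP k 2] (Y : Md k r) (hY : Ex f Y) (θ : Module.End k (Hq f α Y))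
    (hθ : IsTh f α Y θ) (a : k) :
    Module.finrank k (LinearMap.ker (θ - a • (1 : Module.End k (Hq f α Y)))) ≤
      Y.h (α + a • f) := by
  set β := Y.op (α + a • f) with hβ
  have hβa : ∀ v, β v = Y.op α v + a • Y.op f v := by
    intro v
    rw [hβ, op_add, op_smul]
    rfl
  have hkZ : ∀ v ∈ LinearMap.ker β, v ∈ Zs f α Y := by
    intro v hv
    rw [LinearMap.mem_ker, hβa] at hv
    refine (mem_Zs f α Y _).mpr ⟨-(a • v), ?_⟩
    rw [map_neg, map_smul, eq_comm, eq_neg_iff_add_eq_zero]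
    exact hv
  let Ψ : LinearMap.ker β →ₗ[k] Hq f α Y :=
    ((Bs f α Y).comap (Zs f α Y).subtype).mkQ ∘ₗ Submodule.inclusion hkZ
  have hΨ : ∀ v, Ψ v = cl f α Y ⟨v, hkZ v v.2⟩ := fun v => rfl
  have h1 := LinearMap.finrank_range_add_finrank_ker Ψ
  have hββ : ∀ v, β (β v) = 0 := fun v => op_sq Y _ v
  have h2 : Module.finrank k (LinearMap.range β) ≤ Module.finrank k (LinearMap.ker Ψ) := by
    let U : LinearMap.range β →ₗ[k] LinearMap.ker Ψ :=
      LinearMap.codRestrict _ (LinearMap.codRestrict (LinearMap.ker β)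
        (LinearMap.range β).subtype (by
          rintro ⟨_, w, rfl⟩
          exact hββ w)) (by
        rintro ⟨_, w, rfl⟩
        rw [LinearMap.mem_ker, hΨ, cl_eq_zero]
        change β w ∈ Bs f α Y
        rw [hβa]
        exact (mem_Bs f α Y _).mpr ⟨w, a • w, by rw [map_smul]⟩)
    apply LinearMap.finrank_le_finrank_of_injective (f := U)
    intro v w hvw
    exact Subtype.ext (congrArg (fun z => (z.1.1 : Y.V)) hvw)
  have h3 : LinearMap.ker (θ - a • (1 : Module.End k (Hq f α Y))) ≤ LinearMap.range Ψ := by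
    intro x hx
    obtain ⟨y, rfl⟩ := Submodule.Quotient.mk_surjective _ x
    obtain ⟨y₁, hy₁⟩ := (mem_Zs f α Y y).mp y.2
    have hy₁Z : y₁ ∈ Zs f α Y := (mem_Zs f α Y _).mpr (hY _ (by rw [op_comm, hy₁, op_sq]))
    have h4 : θ (cl f α Y y) = cl f α Y ⟨y₁, hy₁Z⟩ := hθ y ⟨y₁, hy₁Z⟩ hy₁
    have h5 : θ (cl f α Y y) = a • cl f α Y y := by
      have := LinearMap.mem_ker.mp hx
      exact sub_eq_zero.mp this
    have h6 : cl f α Y ⟨y₁, hy₁Z⟩ = cl f α Y (a • y) := by
      rw [← h4, h5]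
      rfl
    obtain ⟨w, w', hw⟩ := (mem_Bs f α Y _).mp ((cl_eq f α Y _ _).mp h6)
    have hw2 : Y.op α w + Y.op f w' = y₁ - a • (y : Y.V) := hw
    have h7 : β ((y : Y.V) - Y.op f w) = 0 := by
      have e1 : Y.op f (y₁ - a • (y : Y.V)) = Y.op f (Y.op α w) := by
        rw [← hw2, map_add, op_sq, add_zero]
      rw [map_sub, map_smul, hy₁] at e1
      rw [hβa, map_sub, map_sub, op_sq, sub_zero]
      rw [op_comm Y α f w, ← e1]
      have := two_eq Y (a • Y.op f (y : Y.V))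
      calc Y.op α (y : Y.V) - (Y.op α (y : Y.V) - a • Y.op f (y : Y.V)) + a • Y.op f (y : Y.V)
          = a • Y.op f (y : Y.V) + a • Y.op f (y : Y.V) := by abel
        _ = 0 := this
    refine ⟨⟨(y : Y.V) - Y.op f w, h7⟩, ?_⟩
    rw [hΨ]
    change cl f α Y _ = cl f α Y y
    rw [cl_eq]
    change (y : Y.V) - Y.op f w - y ∈ Bs f α Y
    rw [sub_sub_cancel_left]
    exact Submodule.neg_mem _ ((mem_Bs f α Y _).mpr ⟨0, w, by simp⟩)
  have h8 : Module.finrank k (LinearMap.ker (θ - a • (1 : Module.End k (Hq f α Y)))) ≤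
      Module.finrank k (LinearMap.range Ψ) := Submodule.finrank_mono h3
  have h9 : Y.h (α + a • f) + 2 * Module.finrank k (LinearMap.range β) = Y.dim :=
    h_add Y (α + a • f)
  have h10 : Module.finrank k (LinearMap.range β) + Module.finrank k (LinearMap.ker β) = Y.dim :=
    LinearMap.finrank_range_add_finrank_ker β
  omega

end md

/-! ### Filtrations -/

section fil

variable {k : Type u} [Field k] {r : ℕ} (f α : Fin r → k)

theorem Ex_of_h [CharP k 2] (K : Md k r) (h : K.h f = 0) : Ex f K := by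
  have h1 := h_add K f
  have h2 : Module.finrank k (LinearMap.range (K.op f)) +
      Module.finrank k (LinearMap.ker (K.op f)) = K.dim :=
    LinearMap.finrank_range_add_finrank_ker (K.op f)
  have h3 : LinearMap.range (K.op f) ≤ LinearMap.ker (K.op f) := by
    rintro _ ⟨v, rfl⟩
    exact op_sq K f v
  have h4 : LinearMap.range (K.op f) = LinearMap.ker (K.op f) :=
    Submodule.eq_of_le_of_finrank_eq h3 (by omega)
  intro v hv
  have : v ∈ LinearMap.range (K.op f) := by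
    rw [h4]
    exact hv
  exact this

theorem Ex_ses [CharP k 2] {A Y C : Md k r} (S : SES A Y C) (hA : Ex f A) (hC : Ex f C) :
    Ex f Y := by
  intro v hv
  obtain ⟨c, hc⟩ := hC (S.g v) (by rw [← op_hom S.g S.hg, hv, map_zero])
  obtain ⟨b, rfl⟩ := S.surj c
  obtain ⟨a, ha⟩ := (S.exact (v - Y.op f b)).mp (by rw [map_sub, op_hom S.g S.hg, hc, sub_self])
  obtain ⟨a', ha'⟩ := hA a (S.inj _ (by rw [op_hom S.f S.hf, ha, map_sub, hv, op_sq, sub_zero]))
  refine ⟨b + S.f a', ?_⟩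
  rw [map_add, ← op_hom S.f S.hf, ha', ha, add_sub_cancel]

theorem op_copies (m : ℕ) (K : Md k r) (a : Fin r → k) (v : (copies m K).V) (j : Fin m) :
    ((copies m K).op a v) j = K.op a (v j) :=
  op_hom (A := copies m K) (B := K) (LinearMap.proj j) (fun _ _ => rfl) a v

theorem Ex_copies {C K : Md k r} (m : ℕ) (h : C.Iso (copies m K)) (hK : Ex f K) : Ex f C := by
  obtain ⟨e, he⟩ := h
  intro v hv
  have h1 : ∀ j, K.op f (e v j) = 0 := by
    intro j
    rw [← op_copies, ← op_iso e he, hv, map_zero]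
    rfl
  choose w hw using fun j => hK _ (h1 j)
  refine ⟨e.symm w, e.injective ?_⟩
  rw [op_iso e he, LinearEquiv.apply_symm_apply]
  funext j
  rw [op_copies, hw]

theorem th_copies [CharP k 2] {C K : Md k r} (m : ℕ) (h : C.Iso (copies m K)) (hK : Ex f K)
    (θ' : Module.End k (Hq f α K)) (hθ' : IsTh f α K θ') (P : k[X]) (hP : aeval θ' P = 0)
    (θ : Module.End k (Hq f α C)) (hθ : IsTh f α C θ) : aeval θ P = 0 := by
  have hC : Ex f C := Ex_copies f m h hK
  obtain ⟨e, he⟩ := h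
  refine LinearMap.ext fun x => ?_
  rw [LinearMap.zero_apply]
  have hg : ∀ j : Fin m, ∀ i v, ((LinearMap.proj j : (copies m K).V →ₗ[k] K.V) ∘ₗ
      e.toLinearMap) (C.x i v) = K.x i (((LinearMap.proj j : (copies m K).V →ₗ[k] K.V) ∘ₗ
      e.toLinearMap) v) := by
    intro j i v
    change e (C.x i v) j = K.x i (e v j)
    rw [he]
    rfl
  obtain ⟨y, hy⟩ := Submodule.Quotient.mk_surjective _ (aeval θ P x)
  have key : ∀ j : Fin m, e y j ∈ Bs f α K := by
    intro j
    obtain ⟨G, hG⟩ := exists_Hmap f α _ (hg j)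
    have h1 := aeval_intertwine G θ θ' (th_nat f α _ (hg j) hC θ hθ θ' hθ' G hG) P x
    rw [hP, LinearMap.zero_apply, ← hy] at h1
    have hZ : e y j ∈ Zs f α K := by
      obtain ⟨w, hw⟩ := (mem_Zs f α C y).mp y.2
      refine (mem_Zs f α K _).mpr ⟨e w j, ?_⟩
      rw [← op_copies, ← op_copies, ← op_iso e he, ← op_iso e he, hw]
    have h2 := hG y ⟨e y j, hZ⟩ rfl
    exact (cl_eq_zero f α K ⟨e y j, hZ⟩).mp (h2.symm.trans h1)
  rw [← hy]
  refine (cl_eq_zero f α C y).mpr ?_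
  choose u w hw using fun j => (mem_Bs f α K _).mp (key j)
  refine (mem_Bs f α C _).mpr ⟨e.symm u, e.symm w, e.injective ?_⟩
  rw [map_add, op_iso e he, op_iso e he, LinearEquiv.apply_symm_apply,
    LinearEquiv.apply_symm_apply]
  funext j
  rw [Pi.add_apply, op_copies, op_copies, hw]

theorem fil_th [CharP k 2] (K : Md k r) (hK : Ex f K)
    (θ' : Module.End k (Hq f α K)) (hθ' : IsTh f α K θ') (P : k[X]) (hP : aeval θ' P = 0) :
    ∀ (s : ℕ) (Y : Md k r), Fil K s Y → Ex f Y ∧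
      ∀ θ : Module.End k (Hq f α Y), IsTh f α Y θ → aeval θ (P ^ s) = 0 := by
  intro s
  induction s with
  | zero =>
    intro Y hY
    have h0 : Module.finrank k Y.V = 0 := hY
    have hs : Subsingleton Y.V := Module.finrank_zero_iff.mp h0
    refine ⟨fun v _ => ⟨0, Subsingleton.elim _ _⟩, fun θ _ => LinearMap.ext fun x => ?_⟩
    have hx : ∀ z : Hq f α Y, z = 0 := by
      intro z
      obtain ⟨y, rfl⟩ := Submodule.Quotient.mk_surjective _ z
      refine (cl_eq_zero f α Y y).mpr ?_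
      rw [Subsingleton.elim (y : Y.V) 0]
      exact Submodule.zero_mem _
    rw [hx (aeval θ (P ^ 0) x), LinearMap.zero_apply]
  | succ s ih =>
    intro Y hY
    obtain ⟨A, C, m, ⟨S⟩, hA, hC⟩ := hY
    obtain ⟨hAE, hAth⟩ := ih A hA
    have hCE : Ex f C := Ex_copies f m hC hK
    have hYE : Ex f Y := Ex_ses f S hAE hCE
    refine ⟨hYE, fun θ hθ => LinearMap.ext fun x => ?_⟩
    obtain ⟨θA, hθA⟩ := exists_th f α A hAE
    obtain ⟨θC, hθC⟩ := exists_th f α C hCE
    obtain ⟨I, hI⟩ := exists_Hmap f α S.f S.hf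
    obtain ⟨G, hG⟩ := exists_Hmap f α S.g S.hg
    have h1 := aeval_intertwine G θ θC (th_nat f α S.g S.hg hYE θ hθ θC hθC G hG) P x
    rw [th_copies f α m hC hK θ' hθ' P hP θC hθC, LinearMap.zero_apply] at h1
    obtain ⟨x', hx'⟩ := Hq_exact f α S hCE I G hI hG _ h1
    rw [pow_succ, map_mul, Module.End.mul_apply, ← hx',
      ← aeval_intertwine I θA θ (th_nat f α S.f S.hf hAE θA hθA θ hθ I hI) (P ^ s) x',
      hAth θA hθA, LinearMap.zero_apply, map_zero, LinearMap.zero_apply]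

end fil

theorem proof_eigenStep : S_eigenStep.{u} := by
  intro k _ _ _ r K f α s hK
  classical
  have hKE := Ex_of_h f K hK
  obtain ⟨θ', hθ'⟩ := exists_th f α K hKE
  set Q : k[X] := (LinearMap.charpoly θ') ^ s with hQ
  have hQm : Q.Monic := (LinearMap.charpoly_monic θ').pow s
  refine ⟨Q.roots.toList.length, Q.roots.toFinset, fun Y hY => ?_⟩
  obtain ⟨hYE, hth⟩ := fil_th f α K hKE θ' hθ' (LinearMap.charpoly θ')
    (LinearMap.aeval_self_charpoly θ') s Y hY
  obtain ⟨θ, hθ⟩ := exists_th f α Y hYE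
  have h1 : aeval θ Q = 0 := hth θ hθ
  have h2 : (Q.roots.toList.map (fun a => X - C a)).prod = Q := by
    have h := (IsAlgClosed.splits Q).eq_prod_roots_of_monic hQm
    conv_rhs => rw [h, ← Multiset.coe_toList Q.roots, Multiset.map_coe, Multiset.prod_coe]
  have h3 : (Q.roots.toList.map (fun a => θ - a • (1 : Module.End k (Hq f α Y)))).prod = 0 := by
    rw [← h1]
    conv_rhs => rw [← h2]
    rw [map_list_prod, List.map_map]
    congr 1
    refine List.map_congr_left fun a _ => ?_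
    simp [Algebra.algebraMap_eq_smul_one]
  have h4 := finrank_ker_prod_le θ Q.roots.toList
  rw [h3] at h4
  have h5 : Module.finrank k (LinearMap.ker (0 : Module.End k (Hq f α Y))) =
      Module.finrank k (Hq f α Y) := by
    rw [LinearMap.ker_zero]
    exact finrank_top k _
  rw [h5] at h4
  rw [finrank_Hq]
  refine h4.trans ((List.sum_le_card_nsmul _ (∑ a ∈ Q.roots.toFinset, Y.h (α + a • f)) ?_).trans ?_)
  · intro n hn
    obtain ⟨a, ha, rfl⟩ := List.mem_map.mp hn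
    refine (finrank_eig_le f α Y hYE θ hθ a).trans ?_
    exact Finset.single_le_sum (f := fun a => Y.h (α + a • f)) (fun _ _ => Nat.zero_le _)
      (by simpa using ha)
  · simp

end Pool.Agent.H224.Kt
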