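import Pool.Agent.H398.Kt.Iface

/-!
Project KT (helper398): filtrations and quotients (`S_filQuo`).
-/

set_option autoImplicit false

namespace Pool.Agent.H747.Kt

open Pool.Agent.H398.Kt Pool.Agent.H398.Kt.Md

universe u

variable {k : Type u} [Field k] {r : ℕ}

theorem h_zero_iff [CharP k 2] (N : Md k r) (a : Fin r → k) :
    N.h a = 0 ↔ ∀ v, N.op a v = 0 → ∃ w, N.op a w = v := by
  have h1 := LinearMap.finrank_range_add_finrank_ker (N.op a)
  have h2 := h_add N a
  have h3 : Module.finrank k N.V = N.dim := rfl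
  have hle : LinearMap.range (N.op a) ≤ LinearMap.ker (N.op a) := by
    rintro _ ⟨v, rfl⟩
    exact op_sq N a v
  constructor
  · intro h v hv
    have h4 := Submodule.eq_of_le_of_finrank_eq hle (by omega)
    have h5 : v ∈ LinearMap.ker (N.op a) := hv
    rw [← h4] at h5
    exact h5
  · intro h
    have h4 : LinearMap.range (N.op a) = LinearMap.ker (N.op a) :=
      le_antisymm hle (fun v hv => h v hv)
    rw [← h4] at h1
    omega

theorem op_copies (K : Md k r) (m : ℕ) (a : Fin r → k) (v : Fin m → K.V) (j : Fin m) :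
    (copies m K).op a v j = K.op a (v j) :=
  op_hom (A := copies m K) (B := K) (LinearMap.proj j) (fun _ _ => rfl) a v

theorem h_copies [CharP k 2] (K : Md k r) (m : ℕ) (a : Fin r → k) (h : K.h a = 0) :
    (copies m K).h a = 0 := by
  rw [h_zero_iff] at h ⊢
  intro v hv
  have h1 : ∀ j, ∃ w, K.op a w = v j := by
    intro j
    apply h
    rw [← op_copies]
    exact congrFun hv j
  choose w hw using h1
  refine ⟨w, ?_⟩
  funext j
  rw [op_copies]
  exact hw j

/-- the quotient of a short exact sequence -/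
noncomputable def sesQuo [CharP k 2] {A Y C : Md k r} (S : SES A Y C) (a : Fin r → k)
    (hC : C.h a = 0) : SES (A.quo a) (Y.quo a) (C.quo a) where
  f := (LinearMap.range (A.op a)).mapQ (LinearMap.range (Y.op a)) S.f (by
    rintro _ ⟨v, rfl⟩
    exact ⟨S.f v, (op_hom S.f S.hf a v).symm⟩)
  g := (LinearMap.range (Y.op a)).mapQ (LinearMap.range (C.op a)) S.g (by
    rintro _ ⟨v, rfl⟩
    exact ⟨S.g v, (op_hom S.g S.hg a v).symm⟩)
  hf := by
    intro i v
    obtain ⟨v, rfl⟩ := Submodule.Quotient.mk_surjective _ v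
    simp only [Submodule.mapQ_apply, S.hf]
  hg := by
    intro i v
    obtain ⟨v, rfl⟩ := Submodule.Quotient.mk_surjective _ v
    simp only [Submodule.mapQ_apply, S.hg]
  inj := by
    intro v hv
    obtain ⟨v, rfl⟩ := Submodule.Quotient.mk_surjective _ v
    rw [Submodule.mapQ_apply, Submodule.Quotient.mk_eq_zero] at hv
    obtain ⟨y, hy⟩ := hv
    rw [Submodule.Quotient.mk_eq_zero]
    have h1 : C.op a (S.g y) = 0 := by
      rw [← op_hom S.g S.hg, hy]
      exact (S.exact _).mpr ⟨v, rfl⟩
    obtain ⟨c, hc⟩ := (h_zero_iff C a).mp hC _ h1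
    obtain ⟨y', rfl⟩ := S.surj c
    have h2 : S.g (y - Y.op a y') = 0 := by
      rw [map_sub, op_hom S.g S.hg, hc, sub_self]
    obtain ⟨w, hw⟩ := (S.exact _).mp h2
    refine ⟨w, ?_⟩
    have h3 : S.f (A.op a w - v) = 0 := by
      rw [map_sub, op_hom S.f S.hf, hw, map_sub, op_sq, sub_zero, hy, sub_self]
    exact sub_eq_zero.mp (S.inj _ h3)
  surj := by
    intro c
    obtain ⟨c, rfl⟩ := Submodule.Quotient.mk_surjective _ c
    obtain ⟨b, rfl⟩ := S.surj c
    exact ⟨Submodule.Quotient.mk b, rfl⟩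
  exact := by
    intro b
    obtain ⟨b, rfl⟩ := Submodule.Quotient.mk_surjective _ b
    constructor
    · intro hb
      rw [Submodule.mapQ_apply, Submodule.Quotient.mk_eq_zero] at hb
      obtain ⟨c, hc⟩ := hb
      obtain ⟨y, rfl⟩ := S.surj c
      have h2 : S.g (b - Y.op a y) = 0 := by
        rw [map_sub, op_hom S.g S.hg, hc, sub_self]
      obtain ⟨w, hw⟩ := (S.exact _).mp h2
      refine ⟨Submodule.Quotient.mk w, ?_⟩
      rw [Submodule.mapQ_apply, hw, Submodule.Quotient.eq]
      refine ⟨-y, ?_⟩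
      rw [map_neg]
      abel
    · rintro ⟨w, hw⟩
      obtain ⟨w, rfl⟩ := Submodule.Quotient.mk_surjective _ w
      rw [← hw, Submodule.mapQ_apply, Submodule.mapQ_apply, (S.exact _).mpr ⟨w, rfl⟩,
        Submodule.Quotient.mk_zero]

theorem iso_quo {A B : Md k r} (h : A.Iso B) (a : Fin r → k) : (A.quo a).Iso (B.quo a) := by
  obtain ⟨e, he⟩ := h
  have h1 : (LinearMap.range (A.op a)).map (e : A.V →ₗ[k] B.V) = LinearMap.range (B.op a) := by
    ext v
    constructor
    · rintro ⟨_, ⟨w, rfl⟩, rfl⟩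
      exact ⟨e w, (op_iso e he a w).symm⟩
    · rintro ⟨w, rfl⟩
      refine ⟨A.op a (e.symm w), ⟨_, rfl⟩, ?_⟩
      change e (A.op a (e.symm w)) = _
      rw [op_iso e he]
      simp
  refine ⟨Submodule.Quotient.equiv _ _ e h1, ?_⟩
  intro i v
  obtain ⟨v, rfl⟩ := Submodule.Quotient.mk_surjective _ v
  change Submodule.Quotient.mk (e (A.x i v)) = Submodule.Quotient.mk (B.x i (e v))
  rw [he]

theorem copies_quo (K : Md k r) (m : ℕ) (a : Fin r → k) :
    ((copies m K).quo a).Iso (copies m (K.quo a)) := by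
  let Φ : (Fin m → K.V) →ₗ[k] (Fin m → (K.quo a).V) :=
    LinearMap.pi (fun j => (LinearMap.range (K.op a)).mkQ ∘ₗ LinearMap.proj j)
  have hs : Function.Surjective Φ := by
    intro v
    have h1 : ∀ j, ∃ w : K.V, (LinearMap.range (K.op a)).mkQ w = v j := fun j =>
      Submodule.mkQ_surjective _ (v j)
    choose w hw using h1
    exact ⟨w, funext hw⟩
  have hk : LinearMap.range ((copies m K).op a) = LinearMap.ker Φ := by
    ext v
    rw [LinearMap.mem_ker]
    constructor
    · rintro ⟨w, rfl⟩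
      funext j
      change Submodule.Quotient.mk ((copies m K).op a w j) = 0
      rw [op_copies, Submodule.Quotient.mk_eq_zero]
      exact ⟨w j, rfl⟩
    · intro h
      have h1 : ∀ j, ∃ w : K.V, K.op a w = v j := by
        intro j
        have h2 := congrFun h j
        exact (Submodule.Quotient.mk_eq_zero _).mp h2
      choose w hw using h1
      refine ⟨w, funext fun j => ?_⟩
      rw [op_copies]
      exact hw j
  refine ⟨(Submodule.quotEquivOfEq _ _ hk).trans (Φ.quotKerEquivOfSurjective hs), ?_⟩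
  intro i v
  obtain ⟨v, rfl⟩ := Submodule.Quotient.mk_surjective _ v
  rfl

theorem filQuo [CharP k 2] (K : Md k r) (f : Fin r → k) (hK : K.h f = 0) (s : ℕ) :
    ∀ Y : Md k r, Fil K s Y → Y.h f = 0 ∧ Fil (K.quo f) s (Y.quo f) := by
  induction s with
  | zero =>
    intro Y hY
    have hY' : Y.dim = 0 := hY
    constructor
    · have := h_add Y f
      omega
    · change Module.finrank k (Y.V ⧸ LinearMap.range (Y.op f)) = 0
      have h1 := Submodule.finrank_quotient_le (LinearMap.range (Y.op f))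
      have h2 : Module.finrank k Y.V = 0 := hY'
      omega
  | succ s ih =>
    rintro Y ⟨A, C, m, ⟨S⟩, hA, hC⟩
    obtain ⟨h1, h2⟩ := ih A hA
    have h3 : C.h f = 0 := by
      rw [h_iso hC, h_copies K m f hK]
    refine ⟨?_, A.quo f, C.quo f, m, ⟨sesQuo S f h3⟩, h2, (iso_quo hC f).trans (copies_quo K m f)⟩
    have := S.h_le f
    omega

theorem proof_filQuo : S_filQuo.{u} := by
  intro k _ _ r K Y f s hK hY
  exact filQuo K f hK s Y hY

end Pool.Agent.H747.Kt
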