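import Pool.Agent.H398.Kt.Iface

/-!
# A module which is free over `r` linear forms is free (task KT14)
-/

set_option autoImplicit false

namespace Pool.Agent.H411.Kt

open Pool.Agent.H398.Kt Pool.Agent.H398.Kt.Md

universe u

/-- A product of `r` linear forms in `r` variables of square zero. -/
theorem prod_forms {k R : Type*} [Field k] [CommRing R] [Algebra k R] {m r : ℕ} (hm : m = r)
    (y : Fin r → R) (hy : ∀ i, y i * y i = 0) (a : Fin m → Fin r → k) :
    ∃ c : k, ∏ i, (∑ j, a i j • y j) = c • ∏ j, y j := by
  subst hm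
  classical
  rw [Finset.prod_univ_sum]
  have h : ∀ p : Fin m → Fin m, ∃ c : k, ∏ i, a i (p i) • y (p i) = c • ∏ j, y j := by
    intro p
    by_cases hp : Function.Injective p
    · have hb := Finite.injective_iff_bijective.mp hp
      refine ⟨∏ i, a i (p i), ?_⟩
      rw [Finset.prod_smul, hb.prod_comp y]
    · refine ⟨0, ?_⟩
      simp only [Function.Injective, not_forall] at hp
      obtain ⟨i, j, hij, hne⟩ := hp
      rw [zero_smul, Finset.prod_smul]
      have h0 : ∏ i, y (p i) = 0 := by
        rw [← Finset.mul_prod_erase _ _ (Finset.mem_univ i),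
          ← Finset.mul_prod_erase _ _ (Finset.mem_erase.mpr ⟨Ne.symm hne, Finset.mem_univ j⟩),
          ← mul_assoc, hij, hy, zero_mul]
      rw [h0, smul_zero]
  choose c hc using h
  refine ⟨∑ p ∈ Fintype.piFinset fun _ => Finset.univ, c p, ?_⟩
  rw [Finset.sum_smul]
  exact Finset.sum_congr rfl fun p _ => hc p

variable {k : Type u} [Field k] {r : ℕ}

/-- The product of the operators of a list of linear forms. -/
def opL (N : Md k r) (L : List (Fin r → k)) : Module.End k N.V := (L.map N.op).prod

theorem opL_cons (N : Md k r) (a : Fin r → k) (L : List (Fin r → k)) (v : N.V) :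
    opL N (a :: L) v = N.op a (opL N L v) := by
  unfold opL
  rw [List.map_cons, List.prod_cons]
  rfl

theorem opL_nrm (N : Md k r) (L : List (Fin r → k)) (hL : L.length = r) :
    ∃ c : k, opL N L = c • N.nrm := by
  have hcomm : ∀ a ∈ Set.range N.x, ∀ b ∈ Set.range N.x, a * b = b * a := by
    rintro _ ⟨i, rfl⟩ _ ⟨j, rfl⟩
    exact LinearMap.ext fun v => N.comm i j v
  let _ : CommRing (Algebra.adjoin k (Set.range N.x)) :=
    { (Algebra.adjoin k (Set.range N.x)).toRing with
      mul_comm := (Algebra.isMulCommutative_adjoin k hcomm).is_comm.comm }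
  let y : Fin r → Algebra.adjoin k (Set.range N.x) :=
    fun i => ⟨N.x i, Algebra.subset_adjoin ⟨i, rfl⟩⟩
  obtain ⟨c, hc⟩ := prod_forms hL y
    (fun i => Subtype.ext (LinearMap.ext fun v => N.sq i v)) (fun i => L[i.1])
  refine ⟨c, ?_⟩
  have h1 := congrArg (Algebra.adjoin k (Set.range N.x)).val hc
  rw [Fin.prod_univ_fun_getElem L (fun b => ∑ j, b j • y j), map_list_prod, List.map_map,
    map_smul, ← List.prod_ofFn, map_list_prod, List.map_ofFn] at h1
  have h2 : (⇑(Algebra.adjoin k (Set.range N.x)).val ∘ fun b : Fin r → k => ∑ j, b j • y j) =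
      N.op := by
    funext b
    rw [Function.comp_apply, map_sum]
    unfold Md.op
    exact Finset.sum_congr rfl fun j _ => by rw [map_smul]; rfl
  rw [h2] at h1
  exact h1

theorem quo_op (N : Md k r) (a b : Fin r → k) (v : N.V) :
    (N.quo a).op b (Submodule.Quotient.mk v) = Submodule.Quotient.mk (N.op b v) :=
  (op_hom (A := N) (B := N.quo a) (Submodule.mkQ _) (fun _ _ => rfl) b v).symm

theorem quo_opL (N : Md k r) (a : Fin r → k) (L : List (Fin r → k)) (v : N.V) :
    opL (N.quo a) L (Submodule.Quotient.mk v) = Submodule.Quotient.mk (opL N L v) := by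
  induction L with
  | nil => rfl
  | cons b L ih => rw [opL_cons, opL_cons, ih, quo_op]

theorem rank_opL [CharP k 2] (L : List (Fin r → k)) : ∀ N : Md k r, N.FrL L →
    2 ^ L.length * Module.finrank k (LinearMap.range (opL N L)) = N.dim := by
  induction L with
  | nil =>
    intro N _
    have h : LinearMap.range (opL N []) = ⊤ := by
      rw [LinearMap.range_eq_top]
      exact fun v => ⟨v, rfl⟩
    rw [h, finrank_top]
    simp [Md.dim]
  | cons a L ih =>
    intro N hN
    obtain ⟨h0, h1⟩ := hN
    have h2 := ih _ h1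
    have h3 := h_add N a
    rw [h0, zero_add] at h3
    have h4 : Module.finrank k (LinearMap.range (N.op a)) + Module.finrank k
        (LinearMap.ker (N.op a)) = N.dim := LinearMap.finrank_range_add_finrank_ker (N.op a)
    have hle : LinearMap.range (N.op a) ≤ LinearMap.ker (N.op a) := by
      rintro _ ⟨v, rfl⟩
      exact op_sq N a v
    have h5 : LinearMap.range (N.op a) = LinearMap.ker (N.op a) :=
      Submodule.eq_of_le_of_finrank_eq hle (by omega)
    let φ : (N.quo a).V →ₗ[k] N.V := (LinearMap.range (N.op a)).liftQ (N.op a) hle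
    have hφ : Function.Injective φ := by
      rw [← LinearMap.ker_eq_bot]
      exact Submodule.ker_liftQ_eq_bot _ _ _ h5.ge
    have h6 : LinearMap.range (opL N (a :: L)) =
        (LinearMap.range (opL (N.quo a) L)).map φ := by
      ext w
      constructor
      · rintro ⟨v, rfl⟩
        refine ⟨opL (N.quo a) L (Submodule.Quotient.mk v), ⟨_, rfl⟩, ?_⟩
        rw [quo_opL, opL_cons]
        rfl
      · rintro ⟨_, ⟨q, rfl⟩, rfl⟩
        obtain ⟨v, rfl⟩ := Submodule.Quotient.mk_surjective _ q
        refine ⟨v, ?_⟩
        rw [quo_opL, opL_cons]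
        rfl
    have h7 : (N.quo a).dim + Module.finrank k (LinearMap.range (N.op a)) = N.dim :=
      Submodule.finrank_quotient_add_finrank _
    have h8 : Module.finrank k (LinearMap.range (opL N (a :: L))) =
        Module.finrank k (LinearMap.range (opL (N.quo a) L)) := by
      rw [h6]
      exact (Submodule.equivMapOfInjective φ hφ _).finrank_eq.symm
    rw [h8, List.length_cons, pow_succ, mul_right_comm, h2]
    omega

theorem proof_full : S_full.{u} := by
  intro k _ _ r N L hL hN
  have h1 := rank_opL L N hN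
  obtain ⟨c, hc⟩ := opL_nrm N L hL
  have h2 : Module.finrank k (LinearMap.range (opL N L)) ≤
      Module.finrank k (LinearMap.range N.nrm) := by
    apply Submodule.finrank_mono
    rw [hc]
    rintro _ ⟨v, rfl⟩
    exact Submodule.smul_mem _ c ⟨v, rfl⟩
  unfold Md.core
  rw [hL] at h1
  have h3 := Nat.mul_le_mul_left (2 ^ r) h2
  omega

end Pool.Agent.H411.Kt
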