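import Pool.Agent.H398.Kt.Iface

/-! Project KT (helper398), task K5b (helper286): lowering the degree of a polynomial cocycle. -/

set_option autoImplicit false

namespace Pool.Agent.H286.Kt

open Pool.Agent.H398.Kt Pool.Agent.H398.Kt.Md

universe u

variable {k : Type u} [Field k] {q : ℕ}

/-! ### Cokernels -/

/-- the cokernel of a homomorphism -/
abbrev cok {A B : Md k q} (f : A.V →ₗ[k] B.V) (hf : ∀ i v, f (A.x i v) = B.x i (f v)) :
    Md k q where
  V := B.V ⧸ LinearMap.range f
  x i := (LinearMap.range f).mapQ (LinearMap.range f) (B.x i) (by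
    rintro _ ⟨v, rfl⟩
    exact ⟨A.x i v, hf i v⟩)
  comm i j v := by
    obtain ⟨v, rfl⟩ := Submodule.Quotient.mk_surjective _ v
    simp only [Submodule.mapQ_apply, B.comm i j]
  sq i v := by
    obtain ⟨v, rfl⟩ := Submodule.Quotient.mk_surjective _ v
    simp only [Submodule.mapQ_apply, B.sq i, Submodule.Quotient.mk_zero]

/-- the short exact sequence of a cokernel -/
def cokSES {A B : Md k q} (f : A.V →ₗ[k] B.V) (hf : ∀ i v, f (A.x i v) = B.x i (f v))
    (inj : ∀ a, f a = 0 → a = 0) : SES A B (cok f hf) where
  f := f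
  g := (LinearMap.range f).mkQ
  hf := hf
  hg _ _ := rfl
  inj := inj
  surj c := Submodule.mkQ_surjective _ c
  exact b := by
    rw [Submodule.mkQ_apply, Submodule.Quotient.mk_eq_zero]
    rfl

theorem ker_eq_range_of [CharP k 2] (J : Md k q) (b : Fin q → k)
    (h : ∀ v, J.op b v = 0 → v ∈ LinearMap.range (J.op b)) : J.h b = 0 := by
  have h1 := LinearMap.finrank_range_add_finrank_ker (J.op b)
  have h2 : LinearMap.ker (J.op b) = LinearMap.range (J.op b) := by
    ext v
    constructor
    · intro hv
      exact h v hv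
    · rintro ⟨w, rfl⟩
      exact op_sq J b w
  have h3 := h_add J b
  have h5 : Module.finrank k J.V = J.dim := rfl
  rw [h2] at h1
  omega

/-- Exact middle term: the two ends have the same number of trivial blocks. -/
theorem h_eq_of_ses [CharP k 2] {A B C : Md k q} (S : SES A B C) (a : Fin q → k)
    (h : ∀ v, B.op a v = 0 → v ∈ LinearMap.range (B.op a)) : C.h a = A.h a := by
  let T : LinearMap.range (B.op a) →ₗ[k] C.V := S.g ∘ₗ (LinearMap.range (B.op a)).subtype
  have h1 := LinearMap.finrank_range_add_finrank_ker T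
  have h2 : LinearMap.range T = LinearMap.range (C.op a) := by
    ext c
    constructor
    · rintro ⟨⟨_, ⟨v, rfl⟩⟩, rfl⟩
      exact ⟨S.g v, (op_hom S.g S.hg a v).symm⟩
    · rintro ⟨c, rfl⟩
      obtain ⟨b, rfl⟩ := S.surj c
      exact ⟨⟨B.op a b, ⟨b, rfl⟩⟩, op_hom S.g S.hg a b⟩
  have h3 : Module.finrank k (LinearMap.ker (A.op a)) = Module.finrank k (LinearMap.ker T) := by
    let U : LinearMap.ker (A.op a) →ₗ[k] LinearMap.ker T :=
      LinearMap.codRestrict _ (LinearMap.codRestrict (LinearMap.range (B.op a))
        (S.f ∘ₗ (LinearMap.ker (A.op a)).subtype) (by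
          rintro ⟨v, hv⟩
          apply h
          change B.op a (S.f v) = 0
          rw [← op_hom S.f S.hf a v]
          have hv' : A.op a v = 0 := hv
          rw [hv', map_zero])) (by
        intro v
        rw [LinearMap.mem_ker]
        change S.g (S.f v.1) = 0
        exact (S.exact _).mpr ⟨_, rfl⟩)
    have hU : Function.Bijective U := by
      constructor
      · intro v w hvw
        have h4 : S.f v.1 = S.f w.1 := congrArg (fun z => (z.1.1 : B.V)) hvw
        have := S.inj (v.1 - w.1) (by rw [map_sub, h4, sub_self])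
        exact Subtype.ext (sub_eq_zero.mp this)
      · rintro ⟨⟨w, hw⟩, hwT⟩
        have hg : S.g w = 0 := hwT
        obtain ⟨v, hv⟩ := (S.exact w).mp hg
        have hv0 : A.op a v = 0 := by
          apply S.inj
          rw [op_hom S.f S.hf a v, hv]
          obtain ⟨w', rfl⟩ := hw
          exact op_sq B a w'
        refine ⟨⟨v, hv0⟩, ?_⟩
        apply Subtype.ext
        apply Subtype.ext
        exact hv
    exact (LinearEquiv.ofBijective U hU).finrank_eq
  have h4 := LinearMap.finrank_range_add_finrank_ker (A.op a)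
  have h5 : Module.finrank k A.V = A.dim := rfl
  have h6 := S.dim_eq
  have h7 := h_add A a
  have h8 := h_add B a
  have h9 := h_add C a
  have h10 := ker_eq_range_of B a h
  rw [h2] at h1
  omega

/-! ### The coinduced module -/

/-- the operators of the coinduced module -/
def xc (V : Type u) [AddCommGroup V] [Module k V] (i : Fin q) :
    (Finset (Fin q) → V) →ₗ[k] (Finset (Fin q) → V) where
  toFun ψ I := if i ∈ I then 0 else ψ (insert i I)
  map_add' ψ φ := by
    funext I
    by_cases h : i ∈ I <;> simp [h]
  map_smul' c ψ := by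
    funext I
    by_cases h : i ∈ I <;> simp [h]

theorem xc_apply (V : Type u) [AddCommGroup V] [Module k V] (i : Fin q)
    (ψ : Finset (Fin q) → V) (I : Finset (Fin q)) :
    xc (k := k) V i ψ I = if i ∈ I then 0 else ψ (insert i I) := rfl

/-- the coinduced module -/
abbrev coin (Z : Md k q) : Md k q where
  V := Finset (Fin q) → Z.V
  x i := xc Z.V i
  comm i j v := by
    funext I
    simp only [xc_apply]
    by_cases hij : i = j
    · subst hij
      rfl
    · have h1 : j ∈ insert i I ↔ j ∈ I := by
        rw [Finset.mem_insert]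
        exact ⟨fun h => h.resolve_left (fun e => hij e.symm), Or.inr⟩
      have h2 : i ∈ insert j I ↔ i ∈ I := by
        rw [Finset.mem_insert]
        exact ⟨fun h => h.resolve_left hij, Or.inr⟩
      simp only [h1, h2, Finset.insert_comm i j I]
      by_cases hi : i ∈ I <;> by_cases hj : j ∈ I <;> simp [hi, hj]
  sq i v := by
    funext I
    simp only [xc_apply, Finset.mem_insert_self, if_true]
    by_cases hi : i ∈ I <;> simp [hi]

theorem coin_x (Z : Md k q) (i : Fin q) (ψ : (coin Z).V) (I : Finset (Fin q)) :
    (coin Z).x i ψ I = if i ∈ I then 0 else ψ (insert i I) := rfl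

theorem coin_exact [CharP k 2] (Z : Md k q) (b : Fin q → k) (hb : b ≠ 0) (ψ : (coin Z).V)
    (h : (coin Z).op b ψ = 0) : ψ ∈ LinearMap.range ((coin Z).op b) := by
  obtain ⟨i, hi⟩ : ∃ i, b i ≠ 0 := by
    by_contra hcon
    push Not at hcon
    exact hb (funext hcon)
  let del : (coin Z).V := fun I => if i ∈ I then ψ (I.erase i) else 0
  have key : (coin Z).op b del = b i • ψ := by
    funext I
    have e1 : (coin Z).op b del I = ∑ j, b j • ((coin Z).x j del I) := by
      rw [op_apply]
      simp only [Finset.sum_apply, Pi.smul_apply]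
    have e2 : ∀ J : Finset (Fin q), ∑ j, b j • ((coin Z).x j ψ J) = 0 := by
      intro J
      have := congrFun h J
      rw [op_apply] at this
      simp only [Finset.sum_apply, Pi.smul_apply] at this
      exact this
    rw [e1]
    by_cases hiI : i ∈ I
    · -- use the relation at `I.erase i`
      have e3 := e2 (I.erase i)
      rw [← Finset.add_sum_erase _ _ (Finset.mem_univ i)] at e3
      have e4 : (coin Z).x i ψ (I.erase i) = ψ I := by
        rw [coin_x, if_neg (Finset.notMem_erase i I), Finset.insert_erase hiI]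
      rw [e4] at e3
      rw [← Finset.add_sum_erase _ _ (Finset.mem_univ i)]
      have e5 : (coin Z).x i del I = 0 := by
        rw [coin_x, if_pos hiI]
      rw [e5, smul_zero, zero_add]
      have e6 : ∑ j ∈ Finset.univ.erase i, b j • (coin Z).x j del I =
          ∑ j ∈ Finset.univ.erase i, b j • (coin Z).x j ψ (I.erase i) := by
        apply Finset.sum_congr rfl
        intro j hj
        have hji : j ≠ i := Finset.ne_of_mem_erase hj
        congr 1
        rw [coin_x, coin_x]
        have e7 : j ∈ I.erase i ↔ j ∈ I := by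
          rw [Finset.mem_erase]
          exact ⟨fun h => h.2, fun h => ⟨hji, h⟩⟩
        by_cases hjI : j ∈ I
        · rw [if_pos hjI, if_pos (e7.2 hjI)]
        · rw [if_neg hjI, if_neg (fun h => hjI (e7.1 h))]
          change (if i ∈ insert j I then ψ ((insert j I).erase i) else 0) = _
          rw [if_pos (Finset.mem_insert_of_mem hiI), Finset.erase_insert_of_ne hji]
      rw [e6]
      change _ = b i • ψ I
      rw [eq_comm, ← sub_eq_zero, sub_eq_add_neg]
      have e9 : -(∑ j ∈ Finset.univ.erase i, b j • (coin Z).x j ψ (I.erase i)) =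
          ∑ j ∈ Finset.univ.erase i, b j • (coin Z).x j ψ (I.erase i) := by
        rw [neg_eq_iff_add_eq_zero]
        exact two_eq Z _
      rw [e9]
      exact e3
    · rw [Finset.sum_eq_single i]
      · rw [coin_x, if_neg hiI]
        change b i • (if i ∈ insert i I then ψ ((insert i I).erase i) else 0) = _
        rw [if_pos (Finset.mem_insert_self i I), Finset.erase_insert hiI]
        rfl
      · intro j _ hji
        rw [coin_x]
        by_cases hjI : j ∈ I
        · rw [if_pos hjI, smul_zero]
        · rw [if_neg hjI]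
          change b j • (if i ∈ insert j I then ψ ((insert j I).erase i) else 0) = _
          rw [if_neg, smul_zero]
          rw [Finset.mem_insert]
          rintro (h | h)
          · exact hji h.symm
          · exact hiI h
      · intro h
        exact absurd (Finset.mem_univ i) h
  refine ⟨(b i)⁻¹ • del, ?_⟩
  rw [map_smul, key, smul_smul, inv_mul_cancel₀ hi, one_smul]

/-! ### The embedding -/

theorem xcomm (Z : Md k q) (s : Set (Fin q)) :
    s.Pairwise (Function.onFun Commute (fun i => (Z.x i : Module.End k Z.V))) := by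
  intro i _ j _ _
  change (Z.x i : Module.End k Z.V) * Z.x j = Z.x j * Z.x i
  apply LinearMap.ext
  intro v
  exact Z.comm i j v

/-- the product of the operators over a set -/
noncomputable def xI (Z : Md k q) (I : Finset (Fin q)) : Module.End k Z.V :=
  I.noncommProd (fun i => (Z.x i : Module.End k Z.V)) (xcomm Z _)

theorem xI_empty (Z : Md k q) (v : Z.V) : xI Z ∅ v = v := by
  unfold xI
  rw [Finset.noncommProd_empty]
  rfl

theorem xI_insert (Z : Md k q) (I : Finset (Fin q)) (i : Fin q) (hi : i ∉ I) (v : Z.V) :
    xI Z (insert i I) v = Z.x i (xI Z I v) := by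
  unfold xI
  rw [Finset.noncommProd_insert_of_notMem _ _ _ _ hi]
  rfl

theorem xI_comm (Z : Md k q) (I : Finset (Fin q)) (i : Fin q) (v : Z.V) :
    xI Z I (Z.x i v) = Z.x i (xI Z I v) := by
  induction I using Finset.induction_on with
  | empty => rw [xI_empty, xI_empty]
  | insert j I hj ih => rw [xI_insert Z I j hj, xI_insert Z I j hj, ih, Z.comm]

theorem xI_self (Z : Md k q) (I : Finset (Fin q)) (i : Fin q) (hi : i ∈ I) (v : Z.V) :
    xI Z I (Z.x i v) = 0 := by
  rw [← Finset.insert_erase hi, xI_insert Z _ i (Finset.notMem_erase i I), xI_comm, Z.sq]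

/-- the embedding in the coinduced module -/
noncomputable def io (Z : Md k q) : Z.V →ₗ[k] (coin Z).V := LinearMap.pi (fun I => xI Z I)

theorem io_apply (Z : Md k q) (v : Z.V) (I : Finset (Fin q)) : io Z v I = xI Z I v := rfl

theorem io_hom (Z : Md k q) (i : Fin q) (v : Z.V) : io Z (Z.x i v) = (coin Z).x i (io Z v) := by
  funext I
  rw [coin_x, io_apply]
  by_cases hi : i ∈ I
  · rw [if_pos hi, xI_self Z I i hi]
  · rw [if_neg hi, io_apply, xI_insert Z I i hi, xI_comm]

theorem io_inj (Z : Md k q) (v : Z.V) (h : io Z v = 0) : v = 0 := by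
  have := congrFun h ∅
  rw [io_apply, xI_empty] at this
  exact this

/-! ### The homotopy -/

/-- the leading index -/
def Ld (m : Fin q → ℕ) (I : Finset (Fin q)) (i : Fin q) : Prop :=
  i ∈ I ∧ ∀ j < i, m j = 0 ∧ j ∉ I

theorem Ld.unique {m : Fin q → ℕ} {I : Finset (Fin q)} {i j : Fin q} (hi : Ld m I i)
    (hj : Ld m I j) : i = j := by
  rcases lt_trichotomy i j with h | h | h
  · exact absurd hi.1 (hj.2 i h).2
  · exact h
  · exact absurd hj.1 (hi.2 j h).2

open Classical in
/-- the homotopy -/
noncomputable def eta (Z : Md k q) (ξ : (Fin q → ℕ) → Z.V) (m : Fin q → ℕ) : (coin Z).V :=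
  fun I => ∑ i, if Ld m I i then io Z (ξ (Function.update m i (m i + 1))) (I.erase i) else 0

theorem eta_eq (Z : Md k q) (ξ : (Fin q → ℕ) → Z.V) (m : Fin q → ℕ) (I : Finset (Fin q))
    (i : Fin q) (h : Ld m I i) :
    eta Z ξ m I = io Z (ξ (Function.update m i (m i + 1))) (I.erase i) := by
  classical
  unfold eta
  rw [Finset.sum_eq_single i]
  · rw [if_pos h]
  · intro j _ hj
    rw [if_neg]
    intro hj'
    exact hj (hj'.unique h)
  · intro h'
    exact absurd (Finset.mem_univ i) h'

theorem eta_zero (Z : Md k q) (ξ : (Fin q → ℕ) → Z.V) (m : Fin q → ℕ) (I : Finset (Fin q))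
    (h : ∀ i, ¬ Ld m I i) : eta Z ξ m I = 0 := by
  classical
  unfold eta
  apply Finset.sum_eq_zero
  intro i _
  rw [if_neg (h i)]

theorem sum_update (m : Fin q → ℕ) (i : Fin q) (a : ℕ) :
    ∑ j, Function.update m i a j + m i = ∑ j, m j + a := by
  classical
  rw [Finset.sum_update_of_mem (Finset.mem_univ i),
    ← Finset.add_sum_erase Finset.univ m (Finset.mem_univ i), Finset.sdiff_singleton_eq_erase]
  omega

theorem eta_supp (Z : Md k q) (n : ℕ) (ξ : (Fin q → ℕ) → Z.V) (hξ : ∀ m, ∑ i, m i ≠ n + 1 → ξ m = 0)
    (m : Fin q → ℕ) (h : ∑ i, m i ≠ n) : eta Z ξ m = 0 := by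
  classical
  funext I
  unfold eta
  apply Finset.sum_eq_zero
  intro i _
  split_ifs with hL
  · rw [hξ, map_zero]
    · rfl
    · have := sum_update m i (m i + 1)
      omega
  · rfl

/-- the homotopy formula -/
theorem homotopy [CharP k 2] (Z : Md k q) (n : ℕ) (ξ : (Fin q → ℕ) → Z.V) (hξ : Coc Z (n + 1) ξ)
    (m : Fin q → ℕ) (hm : ∑ i, m i = n + 1) (I : Finset (Fin q)) :
    ∑ i, (if m i = 0 then 0 else (coin Z).x i (eta Z ξ (Function.update m i (m i - 1))) I) =
      io Z (ξ m) I := by
  classical
  -- the first index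
  have hex : ∃ j, m j ≠ 0 ∨ j ∈ I := by
    by_contra hcon
    push Not at hcon
    have : ∑ i, m i = 0 := Finset.sum_eq_zero (fun i _ => (hcon i).1)
    omega
  obtain ⟨j0, hj0, hmin⟩ : ∃ j0, (m j0 ≠ 0 ∨ j0 ∈ I) ∧ ∀ j < j0, m j = 0 ∧ j ∉ I := by
    let S : Finset (Fin q) := Finset.univ.filter (fun j => m j ≠ 0 ∨ j ∈ I)
    have hS : S.Nonempty := by
      obtain ⟨j, hj⟩ := hex
      exact ⟨j, Finset.mem_filter.mpr ⟨Finset.mem_univ _, hj⟩⟩
    refine ⟨S.min' hS, (Finset.mem_filter.mp (S.min'_mem hS)).2, fun j hj => ?_⟩
    by_contra hcon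
    have hjS : j ∈ S := by
      refine Finset.mem_filter.mpr ⟨Finset.mem_univ _, ?_⟩
      by_contra hc2
      push Not at hc2
      exact hcon ⟨hc2.1, hc2.2⟩
    exact absurd (S.min'_le j hjS) (not_le.mpr hj)
  by_cases hjI : j0 ∈ I
  · -- use the cocycle relation at `m + e_{j0}`, `I \ {j0}`
    set m' : Fin q → ℕ := Function.update m j0 (m j0 + 1) with hm'
    have hrel : ∑ i, (if m' i = 0 then 0 else
        (coin Z).x i (io Z (ξ (Function.update m' i (m' i - 1)))) (I.erase j0)) = 0 := by
      have h1 := congrArg (fun v => io Z v (I.erase j0)) (hξ.2 m')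
      simp only [map_sum, map_zero, Finset.sum_apply] at h1
      refine (Finset.sum_congr rfl ?_).trans h1
      intro i _
      by_cases hmi : m' i = 0
      · rw [if_pos hmi, if_pos hmi, map_zero]
        rfl
      · rw [if_neg hmi, if_neg hmi, io_hom]
    rw [← Finset.add_sum_erase _ _ (Finset.mem_univ j0)] at hrel
    have hm'j : m' j0 = m j0 + 1 := by rw [hm', Function.update_self]
    have h2 : Function.update m' j0 (m' j0 - 1) = m := by
      rw [hm'j, hm', Function.update_idem]
      simp
    rw [if_neg (by rw [hm'j]; omega), h2, coin_x, if_neg (Finset.notMem_erase j0 I),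
      Finset.insert_erase hjI] at hrel
    rw [← Finset.add_sum_erase _ _ (Finset.mem_univ j0)]
    have h3 : (if m j0 = 0 then (0 : Z.V) else
        (coin Z).x j0 (eta Z ξ (Function.update m j0 (m j0 - 1))) I) = 0 := by
      split_ifs
      · rfl
      · rw [coin_x, if_pos hjI]
    rw [h3, zero_add]
    have h4 : ∑ i ∈ Finset.univ.erase j0, (if m i = 0 then (0 : Z.V) else
        (coin Z).x i (eta Z ξ (Function.update m i (m i - 1))) I) =
        ∑ i ∈ Finset.univ.erase j0, (if m' i = 0 then (0 : Z.V) else
          (coin Z).x i (io Z (ξ (Function.update m' i (m' i - 1)))) (I.erase j0)) := by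
      apply Finset.sum_congr rfl
      intro i hi
      have hij : i ≠ j0 := Finset.ne_of_mem_erase hi
      have hm'i : m' i = m i := by rw [hm', Function.update_of_ne hij]
      rw [hm'i]
      by_cases hmi : m i = 0
      · rw [if_pos hmi, if_pos hmi]
      · rw [if_neg hmi, if_neg hmi, coin_x, coin_x]
        have hlt : j0 < i := by
          rcases lt_trichotomy i j0 with h | h | h
          · exact absurd (hmin i h).1 hmi
          · exact absurd h hij
          · exact h
        have e7 : i ∈ I.erase j0 ↔ i ∈ I := by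
          rw [Finset.mem_erase]
          exact ⟨fun h => h.2, fun h => ⟨hij, h⟩⟩
        by_cases hiI : i ∈ I
        · rw [if_pos hiI, if_pos (e7.2 hiI)]
        · rw [if_neg hiI, if_neg (fun h => hiI (e7.1 h))]
          have hL : Ld (Function.update m i (m i - 1)) (insert i I) j0 := by
            refine ⟨Finset.mem_insert_of_mem hjI, fun j hj => ?_⟩
            have hji : j ≠ i := (hj.trans hlt).ne
            rw [Function.update_of_ne hji]
            refine ⟨(hmin j hj).1, ?_⟩
            rw [Finset.mem_insert]
            rintro (h | h)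
            · exact hji h
            · exact (hmin j hj).2 h
          rw [eta_eq Z ξ _ _ j0 hL, Function.update_of_ne hij.symm, Finset.erase_insert_of_ne hij,
            hm', Function.update_comm hij.symm]
    rw [h4]
    have h5 : ∑ i ∈ Finset.univ.erase j0, (if m' i = 0 then (0 : Z.V) else
          (coin Z).x i (io Z (ξ (Function.update m' i (m' i - 1)))) (I.erase j0)) =
        -(io Z (ξ m) I) := by
      rw [eq_neg_iff_add_eq_zero, add_comm]
      exact hrel
    rw [h5, neg_eq_iff_add_eq_zero]
    exact two_eq Z _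
  · have hmj0 : m j0 ≠ 0 := hj0.resolve_right hjI
    rw [Finset.sum_eq_single j0]
    · rw [if_neg hmj0, coin_x, if_neg hjI]
      have hL : Ld (Function.update m j0 (m j0 - 1)) (insert j0 I) j0 := by
        refine ⟨Finset.mem_insert_self j0 I, fun j hj => ?_⟩
        rw [Function.update_of_ne hj.ne]
        refine ⟨(hmin j hj).1, ?_⟩
        rw [Finset.mem_insert]
        rintro (h | h)
        · exact hj.ne h
        · exact (hmin j hj).2 h
      rw [eta_eq Z ξ _ _ j0 hL, Function.update_self, Function.update_idem,
        Finset.erase_insert hjI]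
      have : m j0 - 1 + 1 = m j0 := by omega
      rw [this, Function.update_eq_self]
    · intro i _ hij
      by_cases hmi : m i = 0
      · rw [if_pos hmi]
      · rw [if_neg hmi, coin_x]
        by_cases hiI : i ∈ I
        · rw [if_pos hiI]
        · rw [if_neg hiI]
          apply eta_zero
          rintro l ⟨hl1, hl2⟩
          rw [Finset.mem_insert] at hl1
          have hlt : j0 < i := by
            rcases lt_trichotomy i j0 with h | h | h
            · exact absurd (hmin i h).1 hmi
            · exact absurd h hij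
            · exact h
          have hll : j0 < l := by
            rcases hl1 with h | h
            · rw [h]; exact hlt
            · rcases lt_trichotomy l j0 with h' | h' | h'
              · exact absurd h (hmin l h').2
              · rw [h'] at h; exact absurd h hjI
              · exact h'
          have := (hl2 j0 hll).1
          rw [Function.update_of_ne hij.symm] at this
          exact hmj0 this
    · intro h
      exact absurd (Finset.mem_univ j0) h

/-! ### Evaluation -/

theorem sum_shift {W : Type u} [AddCommMonoid W] (n : ℕ) (i : Fin q) (G : (Fin q → ℕ) → W) :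
    ∑ m ∈ Finset.piAntidiag Finset.univ n, G m =
      ∑ m ∈ Finset.piAntidiag Finset.univ (n + 1),
        if m i = 0 then 0 else G (Function.update m i (m i - 1)) := by
  classical
  have e : ∑ m ∈ Finset.piAntidiag Finset.univ (n + 1),
        (if m i = 0 then 0 else G (Function.update m i (m i - 1))) =
      ∑ m ∈ (Finset.piAntidiag Finset.univ (n + 1)).filter (fun m : Fin q → ℕ => m i ≠ 0),
        G (Function.update m i (m i - 1)) := by
    rw [Finset.sum_filter]
    apply Finset.sum_congr rfl
    intro m _
    by_cases h : m i = 0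
    · rw [if_pos h, if_neg (fun h' => h' h)]
    · rw [if_neg h, if_pos h]
  rw [e]
  refine Finset.sum_bij' (fun m _ => Function.update m i (m i + 1))
    (fun m _ => Function.update m i (m i - 1)) ?_ ?_ ?_ ?_ ?_
  · intro m hm
    rw [Finset.mem_piAntidiag] at hm
    rw [Finset.mem_filter, Finset.mem_piAntidiag, Function.update_self]
    have h0 := sum_update m i (m i + 1)
    have h1 : ∑ j, m j = n := hm.1
    have h2 : ∑ j, Function.update m i (m i + 1) j = n + 1 := by omega
    exact ⟨⟨h2, fun _ _ => Finset.mem_univ _⟩, by omega⟩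
  · intro m hm
    rw [Finset.mem_filter, Finset.mem_piAntidiag] at hm
    rw [Finset.mem_piAntidiag]
    have h0 := sum_update m i (m i - 1)
    have h1 : ∑ j, m j = n + 1 := hm.1.1
    have h2 := hm.2
    have h3 : ∑ j, Function.update m i (m i - 1) j = n := by omega
    exact ⟨h3, fun _ _ => Finset.mem_univ _⟩
  · intro m _
    simp only [Function.update_self, Function.update_idem]
    rw [Nat.add_sub_cancel, Function.update_eq_self]
  · intro m hm
    rw [Finset.mem_filter] at hm
    simp only [Function.update_self, Function.update_idem]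
    have h2 := hm.2
    rw [show m i - 1 + 1 = m i by omega, Function.update_eq_self]
  · intro m _
    simp only [Function.update_self, Function.update_idem]
    rw [Nat.add_sub_cancel, Function.update_eq_self]

theorem prod_shift (b : Fin q → k) (m : Fin q → ℕ) (i : Fin q) (h : m i ≠ 0) :
    b i * ∏ j, b j ^ (Function.update m i (m i - 1)) j = ∏ j, b j ^ m j := by
  classical
  rw [← Finset.mul_prod_erase Finset.univ (fun j => b j ^ (Function.update m i (m i - 1)) j)
    (Finset.mem_univ i), ← Finset.mul_prod_erase Finset.univ (fun j => b j ^ m j)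
    (Finset.mem_univ i), ← mul_assoc]
  congr 1
  · simp only [Function.update_self]
    rw [← pow_succ']
    congr 1
    omega
  · apply Finset.prod_congr rfl
    intro j hj
    rw [Function.update_of_ne (Finset.ne_of_mem_erase hj)]

theorem op_ev [CharP k 2] (Z : Md k q) (n : ℕ) (ξ : (Fin q → ℕ) → Z.V) (hξ : Coc Z (n + 1) ξ)
    (b : Fin q → k) :
    (coin Z).op b (ev (coin Z) n (eta Z ξ) b) = io Z (ev Z (n + 1) ξ b) := by
  classical
  unfold ev
  rw [op_apply]
  have h1 : ∀ i, b i • (coin Z).x i (∑ m ∈ Finset.piAntidiag Finset.univ n,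
      (∏ j, b j ^ m j) • eta Z ξ m) = ∑ m ∈ Finset.piAntidiag Finset.univ (n + 1),
        if m i = 0 then 0 else (∏ j, b j ^ m j) •
          (coin Z).x i (eta Z ξ (Function.update m i (m i - 1))) := by
    intro i
    rw [map_sum, Finset.smul_sum, sum_shift n i]
    apply Finset.sum_congr rfl
    intro m _
    by_cases h : m i = 0
    · rw [if_pos h, if_pos h]
    · rw [if_neg h, if_neg h, map_smul, smul_smul, prod_shift b m i h]
  rw [Finset.sum_congr rfl (fun i _ => h1 i), Finset.sum_comm, map_sum]
  apply Finset.sum_congr rfl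
  intro m hm
  rw [Finset.mem_piAntidiag] at hm
  rw [map_smul]
  have h2 : io Z (ξ m) = ∑ i, (if m i = 0 then 0 else
      (coin Z).x i (eta Z ξ (Function.update m i (m i - 1)))) := by
    funext I
    rw [← homotopy Z n ξ hξ m hm.1 I, Finset.sum_apply]
    apply Finset.sum_congr rfl
    intro i _
    by_cases h : m i = 0
    · rw [if_pos h, if_pos h]
      rfl
    · rw [if_neg h, if_neg h]
  rw [h2, Finset.smul_sum]
  apply Finset.sum_congr rfl
  intro i _
  by_cases h : m i = 0
  · rw [if_pos h, if_pos h, smul_zero]
  · rw [if_neg h, if_neg h]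

/-- **K5b.** -/
theorem proof_koszul : S_koszul.{u} := by
  intro k _ _ q Z b n ξ hb hξ hev
  classical
  let S := cokSES (io Z) (io_hom Z) (io_inj Z)
  have hJ : ∀ v, (coin Z).op b v = 0 → v ∈ LinearMap.range ((coin Z).op b) :=
    fun v hv => coin_exact Z b hb v hv
  refine ⟨coin Z, cok (io Z) (io_hom Z), fun m => S.g (eta Z ξ m), ⟨S⟩,
    ker_eq_range_of _ b hJ, h_eq_of_ses S b hJ, ⟨?_, ?_⟩, ?_⟩
  · intro m hm
    change S.g (eta Z ξ m) = 0
    rw [eta_supp Z n ξ hξ.1 m hm, map_zero]
  · intro m
    have h1 : ∀ i, (if m i = 0 then (0 : (cok (io Z) (io_hom Z)).V) else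
        (cok (io Z) (io_hom Z)).x i (S.g (eta Z ξ (Function.update m i (m i - 1))))) =
        S.g (if m i = 0 then 0 else
          (coin Z).x i (eta Z ξ (Function.update m i (m i - 1)))) := by
      intro i
      by_cases h : m i = 0
      · rw [if_pos h, if_pos h, map_zero]
      · rw [if_neg h, if_neg h, S.hg]
    rw [Finset.sum_congr rfl (fun i _ => h1 i), ← map_sum]
    by_cases hm : ∑ i, m i = n + 1
    · rw [S.exact]
      refine ⟨ξ m, ?_⟩
      change io Z (ξ m) = _
      funext I
      rw [← homotopy Z n ξ hξ m hm I, Finset.sum_apply]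
      apply Finset.sum_congr rfl
      intro i _
      by_cases h : m i = 0
      · rw [if_pos h, if_pos h]
        rfl
      · rw [if_neg h, if_neg h]
    · have h2 : ∑ i, (if m i = 0 then (0 : (coin Z).V) else
          (coin Z).x i (eta Z ξ (Function.update m i (m i - 1)))) = 0 := by
        apply Finset.sum_eq_zero
        intro i _
        by_cases h : m i = 0
        · rw [if_pos h]
        · rw [if_neg h, eta_supp Z n ξ hξ.1, map_zero]
          have := sum_update m i (m i - 1)
          omega
      rw [h2, map_zero]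
  · rintro ⟨c, hc⟩
    obtain ⟨j, rfl⟩ := S.surj c
    have h1 : ev (cok (io Z) (io_hom Z)) n (fun m => S.g (eta Z ξ m)) b =
        S.g (ev (coin Z) n (eta Z ξ) b) := by
      unfold ev
      rw [map_sum]
      apply Finset.sum_congr rfl
      intro m _
      rw [map_smul]
    rw [h1, ← op_hom S.g S.hg b j] at hc
    have h2 : S.g (ev (coin Z) n (eta Z ξ) b - (coin Z).op b j) = 0 := by
      rw [map_sub, hc, sub_self]
    obtain ⟨w, hw⟩ := (S.exact _).mp h2
    have hw' : io Z w = ev (coin Z) n (eta Z ξ) b - (coin Z).op b j := hw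
    apply hev
    refine ⟨w, ?_⟩
    have h3 : io Z (Z.op b w) = io Z (ev Z (n + 1) ξ b) := by
      rw [op_hom (io Z) (io_hom Z) b w, hw', map_sub, op_sq, sub_zero, op_ev Z n ξ hξ b]
    have h4 := io_inj Z (Z.op b w - ev Z (n + 1) ξ b) (by rw [map_sub, h3, sub_self])
    exact sub_eq_zero.mp h4

end Pool.Agent.H286.Kt
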