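import Pool.Agent.H398.Kt.Iface

set_option autoImplicit false
set_option linter.all false

open scoped TensorProduct

namespace Pool.Agent.H349.Kt

open Pool.Agent.H398.Kt Pool.Agent.H398.Kt.Md

universe u

section lists

variable {k V : Type u} [Field k] [AddCommGroup V] [Module k V] [FiniteDimensional k V]

theorem half_rank (W : Submodule k V) (y : V →ₗ[k] V) (hW : ∀ w ∈ W, y w ∈ W)
    (hy : ∀ v, y (y v) = 0) : 2 * Module.finrank k (W.map y) ≤ Module.finrank k W := by
  let T : W →ₗ[k] V := y ∘ₗ W.subtype
  have h1 := LinearMap.finrank_range_add_finrank_ker T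
  have h2 : LinearMap.range T = W.map y := by
    ext v
    constructor
    · rintro ⟨w, rfl⟩
      exact ⟨w.1, w.2, rfl⟩
    · rintro ⟨w, hw, rfl⟩
      exact ⟨⟨w, hw⟩, rfl⟩
  have h3 : Module.finrank k (W.map y) ≤ Module.finrank k (LinearMap.ker T) := by
    let U : (W.map y) →ₗ[k] LinearMap.ker T :=
      LinearMap.codRestrict _ (LinearMap.codRestrict W (W.map y).subtype (by
        rintro ⟨_, ⟨w, hw, rfl⟩⟩
        exact hW w hw)) (by
          rintro ⟨_, ⟨w, hw, rfl⟩⟩
          rw [LinearMap.mem_ker]
          exact hy w)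
    apply LinearMap.finrank_le_finrank_of_injective (f := U)
    intro v w hvw
    have h4 : (v : V) = (w : V) := congrArg (fun z => (z.1.1 : V)) hvw
    exact Subtype.ext h4
  rw [h2] at h1
  omega

theorem list_rank (l : List (Module.End k V)) (hsq : ∀ y ∈ l, ∀ v, y (y v) = 0)
    (hc : ∀ a ∈ l, ∀ b ∈ l, a * b = b * a) (W : Submodule k V)
    (hW : ∀ y ∈ l, ∀ w ∈ W, y w ∈ W) :
    2 ^ l.length * Module.finrank k (W.map (l.prod : V →ₗ[k] V)) ≤ Module.finrank k W := by
  induction l generalizing W with
  | nil =>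
    have h1 : W.map ((([] : List (Module.End k V)).prod : Module.End k V) : V →ₗ[k] V) = W := by
      rw [List.prod_nil]
      exact Submodule.map_id W
    rw [h1]
    simp
  | cons y l ih =>
    have hcom : Commute y l.prod := by
      apply Commute.list_prod_right
      intro x hx
      exact hc y (List.mem_cons_self ..) x (List.mem_cons_of_mem _ hx)
    have h1 : W.map (((y :: l).prod : Module.End k V) : V →ₗ[k] V) =
        (W.map y).map (l.prod : V →ₗ[k] V) := by
      rw [List.prod_cons, hcom.eq]
      exact Submodule.map_comp y (l.prod : V →ₗ[k] V) W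
    rw [h1, List.length_cons, pow_succ]
    have h2 := ih (fun z hz => hsq z (List.mem_cons_of_mem _ hz))
      (fun a ha b hb => hc a (List.mem_cons_of_mem _ ha) b (List.mem_cons_of_mem _ hb)) (W.map y)
      (by
        rintro z hz _ ⟨w, hw, rfl⟩
        refine ⟨z w, hW z (List.mem_cons_of_mem _ hz) w hw, ?_⟩
        have h3 := hc y (List.mem_cons_self ..) z (List.mem_cons_of_mem _ hz)
        exact congrArg (fun T : Module.End k V => T w) h3)
    have h4 := half_rank W y (hW y (List.mem_cons_self ..)) (hsq y (List.mem_cons_self ..))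
    calc 2 ^ l.length * 2 * Module.finrank k ((W.map y).map (l.prod : V →ₗ[k] V))
        = 2 * (2 ^ l.length * Module.finrank k ((W.map y).map (l.prod : V →ₗ[k] V))) := by ring
      _ ≤ 2 * Module.finrank k (W.map y) := Nat.mul_le_mul_left 2 h2
      _ ≤ Module.finrank k W := h4

/-- product submodule -/
def pe {W : Type u} [AddCommGroup W] [Module k W] (p : Submodule k V) (q : Submodule k W) :
    (p.prod q) ≃ₗ[k] p × q where
  toFun x := (⟨x.1.1, x.2.1⟩, ⟨x.1.2, x.2.2⟩)
  map_add' _ _ := rfl
  map_smul' _ _ := rfl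
  invFun y := ⟨(y.1.1, y.2.1), ⟨y.1.2, y.2.2⟩⟩
  left_inv _ := rfl
  right_inv _ := rfl

end lists

variable {k : Type u} [Field k] {r : ℕ}

theorem nrm_le (N : Md k r) : 2 ^ r * Module.finrank k (LinearMap.range N.nrm) ≤ N.dim := by
  have h := list_rank (k := k) (V := N.V) (List.ofFn N.x)
    (by
      intro y hy v
      obtain ⟨i, rfl⟩ := (List.mem_ofFn' _ _).1 hy
      exact N.sq i v)
    (by
      intro a ha b hb
      obtain ⟨i, rfl⟩ := (List.mem_ofFn' _ _).1 ha
      obtain ⟨j, rfl⟩ := (List.mem_ofFn' _ _).1 hb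
      apply LinearMap.ext
      intro v
      exact N.comm i j v) ⊤ (fun _ _ _ _ => Submodule.mem_top)
  rw [List.length_ofFn, Submodule.map_top, finrank_top] at h
  exact h

theorem nrm_hom {A B : Md k r} (f : A.V →ₗ[k] B.V) (hf : ∀ i v, f (A.x i v) = B.x i (f v))
    (v : A.V) : f (A.nrm v) = B.nrm (f v) := by
  have key : ∀ (L : List (Fin r)) (v : A.V), f (((L.map A.x).prod : Module.End k A.V) v) =
      ((L.map B.x).prod : Module.End k B.V) (f v) := by
    intro L
    induction L with
    | nil => intro v; rfl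
    | cons i L ih =>
      intro v
      rw [List.map_cons, List.map_cons, List.prod_cons, List.prod_cons]
      change f (A.x i (((L.map A.x).prod : Module.End k A.V) v)) =
        B.x i (((L.map B.x).prod : Module.End k B.V) (f v))
      rw [hf, ih]
  have h := key (List.finRange r) v
  rw [← List.ofFn_eq_map, ← List.ofFn_eq_map] at h
  exact h

theorem nrm_rank_ses {A B C : Md k r} (S : SES A B C) :
    Module.finrank k (LinearMap.range A.nrm) + Module.finrank k (LinearMap.range C.nrm) ≤
      Module.finrank k (LinearMap.range B.nrm) := by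
  let T : LinearMap.range B.nrm →ₗ[k] C.V := S.g ∘ₗ (LinearMap.range B.nrm).subtype
  have h1 := LinearMap.finrank_range_add_finrank_ker T
  have h2 : LinearMap.range T = LinearMap.range C.nrm := by
    ext c
    constructor
    · rintro ⟨⟨_, ⟨v, rfl⟩⟩, rfl⟩
      exact ⟨S.g v, (nrm_hom S.g S.hg v).symm⟩
    · rintro ⟨c, rfl⟩
      obtain ⟨b, rfl⟩ := S.surj c
      exact ⟨⟨B.nrm b, ⟨b, rfl⟩⟩, nrm_hom S.g S.hg b⟩
  have h3 : Module.finrank k (LinearMap.range A.nrm) ≤ Module.finrank k (LinearMap.ker T) := by
    let U : LinearMap.range A.nrm →ₗ[k] LinearMap.ker T :=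
      LinearMap.codRestrict _ (LinearMap.codRestrict (LinearMap.range B.nrm)
        (S.f ∘ₗ (LinearMap.range A.nrm).subtype) (by
          rintro ⟨_, ⟨v, rfl⟩⟩
          exact ⟨S.f v, (nrm_hom S.f S.hf v).symm⟩)) (by
        intro v
        rw [LinearMap.mem_ker]
        change S.g (S.f v.1) = 0
        exact (S.exact _).mpr ⟨_, rfl⟩)
    apply LinearMap.finrank_le_finrank_of_injective (f := U)
    intro v w hvw
    have h4 : S.f v.1 = S.f w.1 := congrArg (fun z => (z.1.1 : B.V)) hvw
    have := S.inj (v.1 - w.1) (by rw [map_sub, h4, sub_self])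
    exact Subtype.ext (sub_eq_zero.mp this)
  rw [h2] at h1
  omega

theorem nrm_prod (A B : Md k r) : (A.prod B).nrm = A.nrm.prodMap B.nrm := by
  have key : ∀ (L : List (Fin r)), (((L.map (A.prod B).x).prod : Module.End k (A.prod B).V) :
      (A.prod B).V →ₗ[k] (A.prod B).V) =
      (((L.map A.x).prod : Module.End k A.V) : A.V →ₗ[k] A.V).prodMap
        (((L.map B.x).prod : Module.End k B.V) : B.V →ₗ[k] B.V) := by
    intro L
    induction L with
    | nil => rfl
    | cons i L ih =>
      rw [List.map_cons, List.map_cons, List.map_cons, List.prod_cons, List.prod_cons,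
        List.prod_cons]
      apply LinearMap.ext
      intro v
      change (A.prod B).x i ((((L.map (A.prod B).x).prod : Module.End k (A.prod B).V) :
        (A.prod B).V →ₗ[k] (A.prod B).V) v) = _
      rw [ih]
      rfl
  have h := key (List.finRange r)
  rw [← List.ofFn_eq_map, ← List.ofFn_eq_map, ← List.ofFn_eq_map] at h
  exact h

theorem nrm_rank_iso {A B : Md k r} (h : A.Iso B) :
    Module.finrank k (LinearMap.range A.nrm) = Module.finrank k (LinearMap.range B.nrm) := by
  obtain ⟨e, he⟩ := h
  have : LinearMap.range B.nrm = (LinearMap.range A.nrm).map e.toLinearMap := by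
    ext v
    constructor
    · rintro ⟨w, rfl⟩
      refine ⟨A.nrm (e.symm w), ⟨_, rfl⟩, ?_⟩
      change e.toLinearMap (A.nrm (e.symm w)) = _
      rw [nrm_hom e.toLinearMap he]
      congr 1
      exact e.apply_symm_apply w
    · rintro ⟨_, ⟨w, rfl⟩, rfl⟩
      exact ⟨e w, (nrm_hom e.toLinearMap he w).symm⟩
  rw [this]
  exact (LinearEquiv.finrank_map_eq e _).symm

theorem proof_nrmLe : S_nrmLe.{u} := by
  intro k _ _ r N
  exact nrm_le N

theorem proof_coreSes : S_coreSes.{u} := by
  intro k _ _ r
  refine ⟨?_, ?_, ?_, ?_⟩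
  · rintro A B C ⟨S⟩
    have h1 := nrm_rank_ses S
    have h2 := S.dim_eq
    have h3 := nrm_le A
    have h4 := nrm_le B
    have h5 := nrm_le C
    have h6 := Nat.mul_le_mul_left (2 ^ r) h1
    rw [mul_add] at h6
    unfold core
    omega
  · intro A B
    have h1 : Module.finrank k (LinearMap.range (A.prod B).nrm) =
        Module.finrank k (LinearMap.range A.nrm) + Module.finrank k (LinearMap.range B.nrm) := by
      rw [nrm_prod, LinearMap.range_prodMap, (pe _ _).finrank_eq, Module.finrank_prod]
    have h2 : (A.prod B).dim = A.dim + B.dim := Module.finrank_prod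
    have h3 := nrm_le A
    have h5 := nrm_le B
    unfold core
    rw [h1, h2, mul_add]
    omega
  · intro A B h
    unfold core
    rw [dim_iso h, nrm_rank_iso h]
  · intro hr
    have h1 : (one k r).nrm = 0 := by
      have h2 : (0 : Module.End k k) ∈ List.ofFn (one k r).x := by
        rw [List.mem_ofFn']
        exact ⟨⟨0, hr⟩, rfl⟩
      exact List.prod_eq_zero h2
    unfold core
    rw [h1, LinearMap.range_zero, finrank_bot, mul_zero]
    exact Module.finrank_self k

end Pool.Agent.H349.Kt
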