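import Pool.Agent.H398.Kt.Iface

set_option autoImplicit false
set_option linter.unusedVariables false
set_option linter.unusedSimpArgs false

open scoped TensorProduct

namespace Pool.Agent.H589.Kt

open Pool.Agent.H398.Kt Pool.Agent.H398.Kt.Md

universe u

variable {k : Type u} [Field k] {r : ℕ}

theorem tens_x_tmul [CharP k 2] (A B : Md k r) (i : Fin r) (a : A.V) (b : B.V) :
    (A.tens B).x i (a ⊗ₜ[k] b) =
      (A.x i a) ⊗ₜ[k] b + a ⊗ₜ[k] (B.x i b) + (A.x i a) ⊗ₜ[k] (B.x i b) := rfl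

/-- The zero module. -/
def zeroM (k : Type u) [Field k] (r : ℕ) : Md k r where
  V := PUnit.{u + 1}
  x _ := 0
  comm _ _ _ := rfl
  sq _ _ := rfl

theorem zeroM_dim : (zeroM k r).dim = 0 := by
  show Module.finrank k PUnit.{u + 1} = 0
  exact Module.finrank_zero_of_subsingleton

theorem iso_of_dim_zero {A B : Md k r} (hA : A.dim = 0) (hB : B.dim = 0) : A.Iso B := by
  have h : Module.finrank k A.V = Module.finrank k B.V := by
    have h1 : Module.finrank k A.V = 0 := hA
    have h2 : Module.finrank k B.V = 0 := hB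
    rw [h1, h2]
  have hs : Subsingleton B.V := Module.finrank_zero_iff.mp hB
  exact ⟨LinearEquiv.ofFinrankEq A.V B.V h, fun i v => Subsingleton.elim _ _⟩

theorem Iso.prod_congr {A A' B B' : Md k r} (h : A.Iso A') (h' : B.Iso B') :
    (A.prod B).Iso (A'.prod B') := by
  obtain ⟨e, he⟩ := h
  obtain ⟨e', he'⟩ := h'
  refine ⟨e.prodCongr e', fun i v => ?_⟩
  apply Prod.ext
  · exact he i v.1
  · exact he' i v.2

/-- Equivariance of a linear map on a tensor product, checked on pure tensors. -/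
theorem equiv_of_tmul [CharP k 2] {A B C : Md k r} (e : (A.V ⊗[k] B.V) →ₗ[k] C.V)
    (i : Fin r)
    (h : ∀ a b, e ((A.x i a) ⊗ₜ[k] b + a ⊗ₜ[k] (B.x i b) + (A.x i a) ⊗ₜ[k] (B.x i b)) =
      C.x i (e (a ⊗ₜ[k] b))) (v : A.V ⊗[k] B.V) :
    e ((A.tens B).x i v) = C.x i (e v) := by
  have : e ∘ₗ (A.tens B).x i = C.x i ∘ₗ e := by
    apply TensorProduct.ext'
    intro a b
    exact h a b
  exact congrArg (fun T => T v) this

theorem Iso.tens_congr [CharP k 2] {A A' B B' : Md k r} (h : A.Iso A') (h' : B.Iso B') :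
    (A.tens B).Iso (A'.tens B') := by
  obtain ⟨e, he⟩ := h
  obtain ⟨e', he'⟩ := h'
  refine ⟨TensorProduct.congr e e', fun i v => ?_⟩
  refine equiv_of_tmul (A := A) (B := B) (C := A'.tens B')
    (TensorProduct.congr e e').toLinearMap i (fun a b => ?_) v
  show TensorProduct.congr e e' _ = (A'.tens B').x i (TensorProduct.congr e e' (a ⊗ₜ[k] b))
  rw [map_add, map_add, TensorProduct.congr_tmul, TensorProduct.congr_tmul,
    TensorProduct.congr_tmul, TensorProduct.congr_tmul, tens_x_tmul, he, he']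

theorem prod_assoc (A B C : Md k r) : ((A.prod B).prod C).Iso (A.prod (B.prod C)) :=
  ⟨LinearEquiv.prodAssoc k A.V B.V C.V, fun _ _ => rfl⟩

theorem prod_comm (A B : Md k r) : (A.prod B).Iso (B.prod A) :=
  ⟨LinearEquiv.prodComm k A.V B.V, fun _ _ => rfl⟩

theorem prod_zero (A : Md k r) : (A.prod (zeroM k r)).Iso A := by
  refine ⟨{ toFun := fun v => v.1, invFun := fun v => (v, PUnit.unit), map_add' := fun _ _ => rfl, map_smul' := fun _ _ => rfl, left_inv := fun _ => rfl, right_inv := fun _ => rfl }, fun _ _ => rfl⟩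

theorem tens_comm [CharP k 2] (A B : Md k r) : (A.tens B).Iso (B.tens A) := by
  refine ⟨TensorProduct.comm k A.V B.V, fun i v => ?_⟩
  refine equiv_of_tmul (A := A) (B := B) (C := B.tens A)
    (TensorProduct.comm k A.V B.V).toLinearMap i (fun a b => ?_) v
  show TensorProduct.comm k A.V B.V _ = (B.tens A).x i (TensorProduct.comm k A.V B.V (a ⊗ₜ[k] b))
  rw [map_add, map_add, TensorProduct.comm_tmul, TensorProduct.comm_tmul,
    TensorProduct.comm_tmul, TensorProduct.comm_tmul, tens_x_tmul]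
  abel

theorem tens_assoc [CharP k 2] (A B C : Md k r) :
    ((A.tens B).tens C).Iso (A.tens (B.tens C)) := by
  refine ⟨TensorProduct.assoc k A.V B.V C.V, fun i v => ?_⟩
  have key : (TensorProduct.assoc k A.V B.V C.V).toLinearMap ∘ₗ ((A.tens B).tens C).x i =
      (A.tens (B.tens C)).x i ∘ₗ (TensorProduct.assoc k A.V B.V C.V).toLinearMap := by
    apply TensorProduct.ext_threefold
    intro a b c
    show TensorProduct.assoc k A.V B.V C.V (((A.tens B).tens C).x i ((a ⊗ₜ[k] b) ⊗ₜ[k] c)) =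
      (A.tens (B.tens C)).x i (TensorProduct.assoc k A.V B.V C.V ((a ⊗ₜ[k] b) ⊗ₜ[k] c))
    rw [TensorProduct.assoc_tmul, tens_x_tmul (A.tens B) C, tens_x_tmul A B,
      tens_x_tmul A (B.tens C), tens_x_tmul B C]
    simp only [TensorProduct.add_tmul, TensorProduct.tmul_add, map_add, TensorProduct.assoc_tmul]
    abel
  exact congrArg (fun T => T v) key

theorem one_tens [CharP k 2] (A : Md k r) : ((one k r).tens A).Iso A := by
  refine ⟨TensorProduct.lid k A.V, fun i v => ?_⟩
  refine equiv_of_tmul (A := one k r) (B := A) (C := A)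
    (TensorProduct.lid k A.V).toLinearMap i (fun a b => ?_) v
  show TensorProduct.lid k A.V ((0 : k) ⊗ₜ[k] b + a ⊗ₜ[k] (A.x i b) + (0 : k) ⊗ₜ[k] (A.x i b)) =
    A.x i (TensorProduct.lid k A.V (a ⊗ₜ[k] b))
  rw [TensorProduct.zero_tmul, TensorProduct.zero_tmul, zero_add, add_zero,
    TensorProduct.lid_tmul, TensorProduct.lid_tmul, map_smul]

theorem tens_one [CharP k 2] (A : Md k r) : (A.tens (one k r)).Iso A :=
  (tens_comm A (one k r)).trans (one_tens A)

theorem prod_tens [CharP k 2] (C A B : Md k r) :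
    ((A.prod B).tens C).Iso ((A.tens C).prod (B.tens C)) := by
  refine ⟨TensorProduct.prodLeft k k A.V B.V C.V, fun i v => ?_⟩
  refine equiv_of_tmul (A := A.prod B) (B := C) (C := (A.tens C).prod (B.tens C))
    (TensorProduct.prodLeft k k A.V B.V C.V).toLinearMap i (fun a c => ?_) v
  obtain ⟨a, b⟩ := a
  show TensorProduct.prodLeft k k A.V B.V C.V ((A.x i a, B.x i b) ⊗ₜ[k] c +
      (a, b) ⊗ₜ[k] (C.x i c) + (A.x i a, B.x i b) ⊗ₜ[k] (C.x i c)) =
    ((A.tens C).prod (B.tens C)).x i (TensorProduct.prodLeft k k A.V B.V C.V ((a, b) ⊗ₜ[k] c))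
  rw [map_add, map_add, TensorProduct.prodLeft_tmul, TensorProduct.prodLeft_tmul,
    TensorProduct.prodLeft_tmul, TensorProduct.prodLeft_tmul]
  apply Prod.ext
  · exact (tens_x_tmul A C i a c).symm
  · exact (tens_x_tmul B C i b c).symm

theorem tens_prod [CharP k 2] (A B C : Md k r) :
    (A.tens (B.prod C)).Iso ((A.tens B).prod (A.tens C)) :=
  (tens_comm A (B.prod C)).trans ((prod_tens A B C).trans
    (Iso.prod_congr (tens_comm B A) (tens_comm C A)))

theorem dim_tens [CharP k 2] (A B : Md k r) : (A.tens B).dim = A.dim * B.dim :=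
  Module.finrank_tensorProduct

variable (k r) in
/-- Isomorphism as a setoid. -/
def isoSetoid : Setoid (Md k r) where
  r := Md.Iso
  iseqv := ⟨Md.Iso.refl, Md.Iso.symm, Md.Iso.trans⟩

variable (k r) in
/-- Isomorphism classes. -/
def IsoCl : Type (u + 1) := Quotient (isoSetoid k r)

/-- The class of a module. -/
def cls (A : Md k r) : IsoCl k r := Quotient.mk (isoSetoid k r) A

theorem cls_eq {A B : Md k r} (h : A.Iso B) : cls A = cls B := Quotient.sound h

theorem cls_exact {A B : Md k r} (h : cls A = cls B) : A.Iso B := Quotient.exact h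

theorem cls_surj (x : IsoCl k r) : ∃ A, cls A = x := Quotient.exists_rep x

/-- The semiring. -/
@[reducible] noncomputable def ringI (k : Type u) [Field k] [CharP k 2] (r : ℕ) : CommSemiring (IsoCl k r) :=
  letI : Add (IsoCl k r) :=
    ⟨Quotient.lift₂ (fun A B => cls (A.prod B)) (fun _ _ _ _ h1 h2 => cls_eq (Iso.prod_congr h1 h2))⟩
  letI : Mul (IsoCl k r) :=
    ⟨Quotient.lift₂ (fun A B => cls (A.tens B)) (fun _ _ _ _ h1 h2 => cls_eq (Iso.tens_congr h1 h2))⟩
  letI : Zero (IsoCl k r) := ⟨cls (zeroM k r)⟩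
  letI : One (IsoCl k r) := ⟨cls (one k r)⟩
  { add := (· + ·)
    mul := (· * ·)
    zero := 0
    one := 1
    add_assoc := fun x y z => by
      obtain ⟨A, rfl⟩ := cls_surj x
      obtain ⟨B, rfl⟩ := cls_surj y
      obtain ⟨C, rfl⟩ := cls_surj z
      exact cls_eq (prod_assoc A B C)
    zero_add := fun x => by
      obtain ⟨A, rfl⟩ := cls_surj x
      exact cls_eq ((prod_comm _ _).trans (prod_zero A))
    add_zero := fun x => by
      obtain ⟨A, rfl⟩ := cls_surj x
      exact cls_eq (prod_zero A)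
    add_comm := fun x y => by
      obtain ⟨A, rfl⟩ := cls_surj x
      obtain ⟨B, rfl⟩ := cls_surj y
      exact cls_eq (prod_comm A B)
    nsmul := nsmulRec
    left_distrib := fun x y z => by
      obtain ⟨A, rfl⟩ := cls_surj x
      obtain ⟨B, rfl⟩ := cls_surj y
      obtain ⟨C, rfl⟩ := cls_surj z
      exact cls_eq (tens_prod A B C)
    right_distrib := fun x y z => by
      obtain ⟨A, rfl⟩ := cls_surj x
      obtain ⟨B, rfl⟩ := cls_surj y
      obtain ⟨C, rfl⟩ := cls_surj z
      exact cls_eq (prod_tens C A B)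
    zero_mul := fun x => by
      obtain ⟨A, rfl⟩ := cls_surj x
      exact cls_eq (iso_of_dim_zero (by rw [dim_tens, zeroM_dim, zero_mul]) zeroM_dim)
    mul_zero := fun x => by
      obtain ⟨A, rfl⟩ := cls_surj x
      exact cls_eq (iso_of_dim_zero (by rw [dim_tens, zeroM_dim, mul_zero]) zeroM_dim)
    mul_assoc := fun x y z => by
      obtain ⟨A, rfl⟩ := cls_surj x
      obtain ⟨B, rfl⟩ := cls_surj y
      obtain ⟨C, rfl⟩ := cls_surj z
      exact cls_eq (tens_assoc A B C)
    one_mul := fun x => by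
      obtain ⟨A, rfl⟩ := cls_surj x
      exact cls_eq (one_tens A)
    mul_one := fun x => by
      obtain ⟨A, rfl⟩ := cls_surj x
      exact cls_eq (tens_one A)
    mul_comm := fun x y => by
      obtain ⟨A, rfl⟩ := cls_surj x
      obtain ⟨B, rfl⟩ := cls_surj y
      exact cls_eq (tens_comm A B) }

theorem proof_S_ring : S_ring.{u} := by
  intro k _ _ r
  exact ⟨IsoCl k r, ringI k r, cls, cls_surj, fun A B => ⟨cls_exact, cls_eq⟩, fun _ _ => rfl,
    fun _ _ => rfl, rfl, fun A hA => cls_eq (iso_of_dim_zero hA zeroM_dim)⟩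

end Pool.Agent.H589.Kt
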