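import Pool.Agent.H398.Kt.Iface

/-!
# Task KT6 (helper398): pullbacks, tensoring a short exact sequence, `N / aN → N → N / aN`
-/

set_option autoImplicit false

open scoped TensorProduct

namespace Pool.Agent.H415.Kt

open Pool.Agent.H398.Kt Pool.Agent.H398.Kt.Md

universe u

variable {k : Type u} [Field k] {r : ℕ}

section pull

variable {A B C A' B' : Md k r}

/-- the fibre product -/
def pullK (S : SES A B C) (S' : SES A' B' C) : Submodule k (B.V × B'.V) :=
  LinearMap.ker (S.g ∘ₗ LinearMap.fst k B.V B'.V - S'.g ∘ₗ LinearMap.snd k B.V B'.V)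

theorem mem_pullK {S : SES A B C} {S' : SES A' B' C} {z : B.V × B'.V} :
    z ∈ pullK S S' ↔ S.g z.1 = S'.g z.2 := by
  rw [pullK, LinearMap.mem_ker, LinearMap.sub_apply, sub_eq_zero]
  rfl

/-- the fibre product as a module -/
abbrev pullM (S : SES A B C) (S' : SES A' B' C) : Md k r where
  V := pullK S S'
  x i := ((B.x i).prodMap (B'.x i)).restrict (p := pullK S S') (q := pullK S S') (fun z hz => by
    rw [mem_pullK] at hz ⊢
    show S.g (B.x i z.1) = S'.g (B'.x i z.2)
    rw [S.hg, S'.hg, hz])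
  comm i j v := Subtype.ext (Prod.ext (B.comm i j v.1.1) (B'.comm i j v.1.2))
  sq i v := Subtype.ext (Prod.ext (B.sq i v.1.1) (B'.sq i v.1.2))

/-- the first sequence -/
def pullSES (S : SES A B C) (S' : SES A' B' C) : SES A (pullM S S') B' where
  f := LinearMap.codRestrict (pullK S S') (LinearMap.prod S.f (0 : A.V →ₗ[k] B'.V)) (fun a => by
    rw [mem_pullK]
    show S.g (S.f a) = S'.g 0
    rw [map_zero]
    exact (S.exact _).2 ⟨a, rfl⟩)
  g := LinearMap.snd k B.V B'.V ∘ₗ (pullK S S').subtype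
  hf i a := Subtype.ext (Prod.ext (S.hf i a) (map_zero (B'.x i)).symm)
  hg _ _ := rfl
  inj a h := S.inj a (congrArg (fun z : pullK S S' => z.1.1) h)
  surj b' := by
    obtain ⟨b, hb⟩ := S.surj (S'.g b')
    exact ⟨⟨(b, b'), mem_pullK.2 hb⟩, rfl⟩
  exact e := by
    constructor
    · intro h
      have h0 : e.1.2 = 0 := h
      have h1 : S.g e.1.1 = S'.g e.1.2 := mem_pullK.1 e.2
      rw [h0, map_zero] at h1
      obtain ⟨a, ha⟩ := (S.exact _).1 h1
      exact ⟨a, Subtype.ext (Prod.ext ha h0.symm)⟩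
    · rintro ⟨a, rfl⟩
      rfl

/-- the second sequence -/
def pullSES' (S : SES A B C) (S' : SES A' B' C) : SES A' (pullM S S') B where
  f := LinearMap.codRestrict (pullK S S') (LinearMap.prod (0 : A'.V →ₗ[k] B.V) S'.f) (fun a => by
    rw [mem_pullK]
    show S.g 0 = S'.g (S'.f a)
    rw [map_zero]
    exact ((S'.exact _).2 ⟨a, rfl⟩).symm)
  g := LinearMap.fst k B.V B'.V ∘ₗ (pullK S S').subtype
  hf i a := Subtype.ext (Prod.ext (map_zero (B.x i)).symm (S'.hf i a))
  hg _ _ := rfl
  inj a h := S'.inj a (congrArg (fun z : pullK S S' => z.1.2) h)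
  surj b := by
    obtain ⟨b', hb⟩ := S'.surj (S.g b)
    exact ⟨⟨(b, b'), mem_pullK.2 hb.symm⟩, rfl⟩
  exact e := by
    constructor
    · intro h
      have h0 : e.1.1 = 0 := h
      have h1 : S.g e.1.1 = S'.g e.1.2 := mem_pullK.1 e.2
      rw [h0, map_zero] at h1
      obtain ⟨a, ha⟩ := (S'.exact _).1 h1.symm
      exact ⟨a, Subtype.ext (Prod.ext h0.symm ha)⟩
    · rintro ⟨a, rfl⟩
      rfl

end pull

/-- K4a. Pullbacks. -/
theorem proof_pull : S_pull.{u} := by
  intro k _ _ r A B C A' B' hS hS'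
  obtain ⟨S⟩ := hS
  obtain ⟨S'⟩ := hS'
  exact ⟨pullM S S', ⟨pullSES S S'⟩, ⟨pullSES' S S'⟩⟩

theorem lTensor_x [CharP k 2] (Z : Md k r) {A B : Md k r} (f : A.V →ₗ[k] B.V)
    (hf : ∀ i v, f (A.x i v) = B.x i (f v)) (i : Fin r) (v : (Z.tens A).V) :
    LinearMap.lTensor Z.V f ((Z.tens A).x i v) = (Z.tens B).x i (LinearMap.lTensor Z.V f v) := by
  have h : LinearMap.lTensor Z.V f ∘ₗ (TensorProduct.map (Z.x i) LinearMap.id +
      TensorProduct.map LinearMap.id (A.x i) + TensorProduct.map (Z.x i) (A.x i)) =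
      (TensorProduct.map (Z.x i) LinearMap.id +
      TensorProduct.map LinearMap.id (B.x i) + TensorProduct.map (Z.x i) (B.x i)) ∘ₗ
        LinearMap.lTensor Z.V f := by
    apply TensorProduct.ext'
    intro a b
    simp only [LinearMap.comp_apply, LinearMap.add_apply, TensorProduct.map_tmul, map_add,
      LinearMap.id_apply, LinearMap.lTensor_tmul, hf]
  exact congrArg (fun T => T v) h

/-- K4c. Tensoring a short exact sequence. -/
theorem proof_tensSes : S_tensSes.{u} := by
  intro k _ _ r Z A B C hS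
  obtain ⟨S⟩ := hS
  have hfi : Function.Injective S.f := by
    intro v w hvw
    exact sub_eq_zero.mp (S.inj (v - w) (by rw [map_sub, hvw, sub_self]))
  have hfi' := Module.Flat.lTensor_preserves_injective_linearMap (M := Z.V) S.f hfi
  have hgs : Function.Surjective S.g := S.surj
  have hex : Function.Exact S.f S.g := fun b => S.exact b
  have hex' := lTensor_exact Z.V hex hgs
  exact ⟨{
    f := LinearMap.lTensor Z.V S.f
    g := LinearMap.lTensor Z.V S.g
    hf := lTensor_x Z S.f S.hf
    hg := lTensor_x Z S.g S.hg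
    inj := fun a ha => hfi' (by rw [ha, map_zero])
    surj := LinearMap.lTensor_surjective Z.V hgs
    exact := fun b => hex' b }⟩

theorem ker_eq_range [CharP k 2] (N : Md k r) (a : Fin r → k) (h : N.h a = 0) :
    LinearMap.range (N.op a) = LinearMap.ker (N.op a) := by
  have h1 := LinearMap.finrank_range_add_finrank_ker (N.op a)
  have h2 := h_add N a
  have h5 : Module.finrank k N.V = N.dim := rfl
  refine Submodule.eq_of_le_of_finrank_eq ?_ ?_
  · rintro _ ⟨v, rfl⟩
    exact op_sq N a v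
  · omega

/-- K8c. -/
theorem proof_quoSes : S_quoSes.{u} := by
  intro k _ _ r N a h
  have hk := ker_eq_range N a h
  refine ⟨{
    f := (LinearMap.range (N.op a)).liftQ (N.op a) hk.le
    g := (LinearMap.range (N.op a)).mkQ
    hf := ?_
    hg := fun i v => rfl
    inj := ?_
    surj := Submodule.Quotient.mk_surjective _
    exact := ?_ }⟩
  · intro i v
    obtain ⟨w, rfl⟩ := Submodule.Quotient.mk_surjective _ v
    show N.op a (N.x i w) = N.x i (N.op a w)
    exact (x_op N a i w).symm
  · intro v hv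
    obtain ⟨w, rfl⟩ := Submodule.Quotient.mk_surjective _ v
    have h1 : w ∈ LinearMap.ker (N.op a) := hv
    rw [← hk] at h1
    exact (Submodule.Quotient.mk_eq_zero _).2 h1
  · intro b
    constructor
    · intro hb
      have h1 : b ∈ LinearMap.range (N.op a) := (Submodule.Quotient.mk_eq_zero _).1 hb
      obtain ⟨w, hw⟩ := h1
      exact ⟨Submodule.Quotient.mk w, hw⟩
    · rintro ⟨v, rfl⟩
      obtain ⟨w, rfl⟩ := Submodule.Quotient.mk_surjective _ v
      exact (Submodule.Quotient.mk_eq_zero _).2 ⟨w, rfl⟩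

end Pool.Agent.H415.Kt
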