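import Pool.Agent.H398.Kt.Iface

/-!
# Free summands: zero core means projective, and `h_a ≤ core`
-/

set_option autoImplicit false

open scoped TensorProduct

namespace Pool.Agent.H922.Kt

universe u

open Pool.Agent.H398.Kt
open Pool.Agent.H398.Kt.Md

variable {k : Type u} [Field k] {r : ℕ}

theorem cm (N : Md k r) (s : Set (Fin r)) :
    s.Pairwise (Function.onFun Commute (fun i => (N.x i : Module.End k N.V))) :=
  fun i _ j _ _ => LinearMap.ext (N.comm i j)

/-- the product of the operators `x j`, `j ∈ I` -/
noncomputable def xI (N : Md k r) (I : Finset (Fin r)) : Module.End k N.V :=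
  I.noncommProd (fun i => (N.x i : Module.End k N.V)) (cm N _)

theorem xI_empty (N : Md k r) (v : N.V) : xI N ∅ v = v := by
  unfold xI
  rw [Finset.noncommProd_empty]
  rfl

theorem xI_insert (N : Md k r) {I : Finset (Fin r)} {j : Fin r} (hj : j ∉ I) (v : N.V) :
    xI N (insert j I) v = N.x j (xI N I v) := by
  unfold xI
  rw [Finset.noncommProd_insert_of_notMem _ _ _ _ hj]
  rfl

theorem x_xI (N : Md k r) (I : Finset (Fin r)) (j : Fin r) (v : N.V) :
    N.x j (xI N I v) = xI N I (N.x j v) := by
  induction I using Finset.induction_on with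
  | empty => rw [xI_empty, xI_empty]
  | insert l I hl ih => rw [xI_insert N hl, xI_insert N hl, N.comm, ih]

theorem x_xI_zero (N : Md k r) {I : Finset (Fin r)} {j : Fin r} (hj : j ∈ I) (v : N.V) :
    N.x j (xI N I v) = 0 := by
  rw [← Finset.insert_erase hj, xI_insert N (Finset.notMem_erase j I), N.sq]

theorem xI_xI_zero (N : Md k r) {J I : Finset (Fin r)} {l : Fin r} (hJ : l ∈ J) (hI : l ∈ I)
    (v : N.V) : xI N J (xI N I v) = 0 := by
  rw [← Finset.insert_erase hJ, xI_insert N (Finset.notMem_erase l J), x_xI,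
    x_xI_zero N hI, map_zero]

theorem xI_xI (N : Md k r) (J I : Finset (Fin r)) (h : Disjoint J I) (v : N.V) :
    xI N J (xI N I v) = xI N (J ∪ I) v := by
  induction J using Finset.induction_on with
  | empty => rw [xI_empty, Finset.empty_union]
  | insert l J hl ih =>
    rw [Finset.disjoint_insert_left] at h
    have h1 : l ∉ J ∪ I := by
      rw [Finset.mem_union]
      exact fun h2 => h2.elim hl h.1
    rw [xI_insert N hl, Finset.insert_union, xI_insert N h1, ih h.2]

theorem xI_univ (N : Md k r) : xI N Finset.univ = N.nrm := by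
  classical
  have h1 := Finset.noncommProd_toFinset (List.finRange r)
    (fun i => (N.x i : Module.End k N.V)) (cm N _) (List.nodup_finRange r)
  unfold xI Md.nrm
  rw [List.ofFn_eq_map, ← h1]
  congr 1
  simp

/-- the key computation -/
theorem xI_key (N : Md k r) (J I : Finset (Fin r)) (h : J.card ≤ I.card) (v : N.V) :
    xI N Jᶜ (xI N I v) = if I = J then N.nrm v else 0 := by
  by_cases hIJ : I = J
  · subst hIJ
    rw [if_pos rfl, xI_xI N _ _ disjoint_compl_left, Finset.union_comm,
      Finset.union_compl, xI_univ]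
  · rw [if_neg hIJ]
    have h1 : ¬ I ⊆ J := fun h2 => hIJ (Finset.eq_of_subset_of_card_le h2 h)
    obtain ⟨l, hlI, hlJ⟩ := Finset.not_subset.1 h1
    exact xI_xI_zero N (Finset.mem_compl.2 hlJ) hlI v

/-- triangular families are linearly independent -/
theorem tri {ι V : Type*} [Fintype ι] [AddCommGroup V] [Module k V] (w : ι → V) (d : ι → ℕ)
    (φ : ι → (V →ₗ[k] k)) (h1 : ∀ a b, b ≠ a → d a ≤ d b → φ a (w b) = 0)
    (h2 : ∀ a, φ a (w a) ≠ 0) : LinearIndependent k w := by
  classical
  rw [Fintype.linearIndependent_iff]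
  intro c hc
  have key : ∀ n : ℕ, ∀ a, d a = n → c a = 0 := by
    intro n
    induction n using Nat.strong_induction_on with
    | _ n ih =>
      intro a ha
      have h3 : φ a (∑ b, c b • w b) = c a * φ a (w a) := by
        rw [map_sum, Finset.sum_eq_single a]
        · rw [map_smul, smul_eq_mul]
        · intro b _ hb
          rw [map_smul, smul_eq_mul]
          rcases lt_or_ge (d b) (d a) with h4 | h4
          · rw [ih (d b) (ha ▸ h4) b rfl, zero_mul]
          · rw [h1 a b hb h4, mul_zero]
        · intro h4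
          exact absurd (Finset.mem_univ a) h4
      rw [hc, map_zero] at h3
      exact (mul_eq_zero.1 h3.symm).resolve_right (h2 a)
  exact fun a => key _ a rfl

/-- generators of the free part -/
theorem gens (N : Md k r) : ∃ (v : Fin (Module.finrank k (LinearMap.range N.nrm)) → N.V)
    (lam : Fin (Module.finrank k (LinearMap.range N.nrm)) → (N.V →ₗ[k] k)),
    ∀ i j, lam i (N.nrm (v j)) = if j = i then 1 else 0 := by
  classical
  let b := Module.finBasis k (LinearMap.range N.nrm)
  have h1 : ∀ j, ∃ v, N.nrm v = (b j : N.V) := fun j => (b j).2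
  choose v hv using h1
  have h2 : ∀ i, ∃ g : N.V →ₗ[k] k, g ∘ₗ (LinearMap.range N.nrm).subtype = b.coord i :=
    fun i => LinearMap.exists_extend (b.coord i)
  choose lam hlam using h2
  refine ⟨v, lam, fun i j => ?_⟩
  have h3 : lam i (N.nrm (v j)) = (lam i ∘ₗ (LinearMap.range N.nrm).subtype) (b j) := by
    rw [hv]
    rfl
  rw [h3, hlam, Module.Basis.coord_apply, Module.Basis.repr_self, Finsupp.single_apply]

theorem indep (N : Md k r) {ρ : ℕ} (v : Fin ρ → N.V) (lam : Fin ρ → (N.V →ₗ[k] k))
    (h : ∀ i j, lam i (N.nrm (v j)) = if j = i then 1 else 0) :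
    LinearIndependent k (fun p : Finset (Fin r) × Fin ρ => xI N p.1 (v p.2)) := by
  refine tri _ (fun p => p.1.card) (fun p => lam p.2 ∘ₗ xI N p.1ᶜ) ?_ ?_
  · rintro ⟨I, i⟩ ⟨J, j⟩ hne hcard
    simp only [LinearMap.comp_apply]
    rw [xI_key N I J hcard]
    split_ifs with h1
    · rw [h, if_neg]
      intro h2
      exact hne (Prod.ext h1 h2)
    · exact map_zero _
  · rintro ⟨I, i⟩
    simp only [LinearMap.comp_apply]
    rw [xI_key N I I le_rfl, if_pos rfl, h, if_pos rfl]
    exact one_ne_zero

theorem indep_op (N : Md k r) {ρ : ℕ} (v : Fin ρ → N.V) (lam : Fin ρ → (N.V →ₗ[k] k))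
    (h : ∀ i j, lam i (N.nrm (v j)) = if j = i then 1 else 0) (a : Fin r → k) (l : Fin r)
    (hl : a l ≠ 0) :
    LinearIndependent k (fun p : ((Finset.univ.erase l : Finset (Fin r)).powerset) × Fin ρ =>
      N.op a (xI N p.1.1 (v p.2))) := by
  classical
  have hmem : ∀ I : ((Finset.univ.erase l : Finset (Fin r)).powerset), l ∉ I.1 := by
    intro I hlI
    have h1 := Finset.mem_powerset.1 I.2 hlI
    exact Finset.notMem_erase l _ h1
  have key : ∀ (I J : ((Finset.univ.erase l : Finset (Fin r)).powerset)) (i : Fin ρ) (w : N.V),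
      I.1.card ≤ J.1.card → lam i (xI N (insert l I.1)ᶜ (N.op a (xI N J.1 w))) =
        if J = I then a l * lam i (N.nrm w) else 0 := by
    intro I J i w hcard
    rw [op_apply, map_sum, map_sum]
    have h1 : ∀ m : Fin r, lam i (xI N (insert l I.1)ᶜ (a m • N.x m (xI N J.1 w))) =
        if m = l ∧ J = I then a l * lam i (N.nrm w) else 0 := by
      intro m
      rw [map_smul, map_smul, smul_eq_mul]
      by_cases hm : m ∈ J.1
      · rw [x_xI_zero N hm, map_zero, map_zero, mul_zero, if_neg]
        rintro ⟨rfl, -⟩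
        exact hmem J hm
      · rw [← xI_insert N hm, xI_key N]
        · by_cases h2 : insert m J.1 = insert l I.1
          · have h3 : l = m := by
              have h4 : l ∈ insert m J.1 := by
                rw [h2]
                exact Finset.mem_insert_self _ _
              rcases Finset.mem_insert.1 h4 with h5 | h5
              · exact h5
              · exact absurd h5 (hmem J)
            subst h3
            have h5 : J.1 = I.1 := by
              rw [← Finset.erase_insert (hmem J), h2, Finset.erase_insert (hmem I)]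
            rw [if_pos h2, if_pos ⟨rfl, Subtype.ext h5⟩]
          · rw [if_neg h2, map_zero, mul_zero, if_neg]
            rintro ⟨rfl, rfl⟩
            exact h2 rfl
        · rw [Finset.card_insert_of_notMem hm, Finset.card_insert_of_notMem (hmem I)]
          omega
    rw [Finset.sum_congr rfl fun m _ => h1 m, Finset.sum_eq_single l]
    · simp only [true_and]
    · intro m _ hm
      rw [if_neg (fun h2 => hm h2.1)]
    · intro h2
      exact absurd (Finset.mem_univ l) h2
  refine tri _ (fun p => p.1.1.card) (fun p => lam p.2 ∘ₗ xI N (insert l p.1.1)ᶜ) ?_ ?_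
  · rintro ⟨I, i⟩ ⟨J, j⟩ hne hcard
    simp only [LinearMap.comp_apply]
    rw [key I J i _ hcard]
    split_ifs with h1
    · rw [h, if_neg, mul_zero]
      intro h2
      exact hne (Prod.ext h1 h2)
    · rfl
  · rintro ⟨I, i⟩
    simp only [LinearMap.comp_apply]
    rw [key I I i _ le_rfl, if_pos rfl, h, if_pos rfl, mul_one]
    exact hl

theorem proof_hLeCore : S_hLeCore.{u} := by
  intro k _ _ r N a ha
  classical
  obtain ⟨l, hl⟩ := Function.ne_iff.1 ha
  obtain ⟨v, lam, h⟩ := gens N
  have h1 := indep_op N v lam h a l hl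
  have h2 : Fintype.card (((Finset.univ.erase l : Finset (Fin r)).powerset) ×
      Fin (Module.finrank k (LinearMap.range N.nrm))) ≤
      Module.finrank k (LinearMap.range (N.op a)) := by
    have h3 : LinearIndependent k (fun p : ((Finset.univ.erase l : Finset (Fin r)).powerset) ×
        Fin (Module.finrank k (LinearMap.range N.nrm)) =>
        (⟨N.op a (xI N p.1.1 (v p.2)), ⟨_, rfl⟩⟩ : LinearMap.range (N.op a))) := by
      refine LinearIndependent.of_comp (LinearMap.range (N.op a)).subtype ?_
      exact h1
    exact h3.fintype_card_le_finrank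
  have hr : 0 < r := lt_of_le_of_lt (Nat.zero_le _) l.isLt
  rw [Fintype.card_prod, Fintype.card_coe, Finset.card_powerset, Fintype.card_fin,
    Finset.card_erase_of_mem (Finset.mem_univ l), Finset.card_univ, Fintype.card_fin] at h2
  have h4 : 2 ^ r = 2 * 2 ^ (r - 1) := by
    rw [← pow_succ']
    congr 1
    omega
  unfold Md.h Md.core
  refine Nat.sub_le_sub_left ?_ _
  rw [h4, mul_assoc]
  exact Nat.mul_le_mul_left 2 h2

theorem hom_xI {A B : Md k r} (g : A.V →ₗ[k] B.V) (hg : ∀ i v, g (A.x i v) = B.x i (g v))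
    (I : Finset (Fin r)) (v : A.V) : g (xI A I v) = xI B I (g v) := by
  induction I using Finset.induction_on with
  | empty => rw [xI_empty, xI_empty]
  | insert l I hl ih => rw [xI_insert A hl, xI_insert B hl, hg, ih]

theorem proof_split : S_split.{u} := by
  intro k _ _ r A E Q hQ hS
  classical
  obtain ⟨S⟩ := hS
  obtain ⟨v, lam, h⟩ := gens Q
  have h1 := indep Q v lam h
  have hcard : Fintype.card (Finset (Fin r) × Fin (Module.finrank k (LinearMap.range Q.nrm))) =
      Module.finrank k Q.V := by
    refine le_antisymm h1.fintype_card_le_finrank ?_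
    rw [Fintype.card_prod, Fintype.card_finset, Fintype.card_fin, Fintype.card_fin]
    unfold Md.core Md.dim at hQ
    omega
  let b := basisOfLinearIndependentOfCardEqFinrank' _ h1 hcard
  have hb : ∀ p, b p = xI Q p.1 (v p.2) := fun p =>
    congrFun (coe_basisOfLinearIndependentOfCardEqFinrank' _ h1 hcard) p
  choose e he using fun j => S.surj (v j)
  let s : Q.V →ₗ[k] E.V := b.constr k (fun p => xI E p.1 (e p.2))
  have hs : ∀ p : Finset (Fin r) × Fin (Module.finrank k (LinearMap.range Q.nrm)),
      s (xI Q p.1 (v p.2)) = xI E p.1 (e p.2) := by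
    intro p
    rw [← hb, Module.Basis.constr_basis]
  have hgs : ∀ q, S.g (s q) = q := by
    have h2 : S.g ∘ₗ s = LinearMap.id := by
      refine b.ext fun p => ?_
      rw [LinearMap.comp_apply, hb, hs, hom_xI S.g S.hg, he, LinearMap.id_apply]
    exact fun q => congrArg (fun T => T q) h2
  have hsx : ∀ (l : Fin r) q, s (Q.x l q) = E.x l (s q) := by
    intro l
    have h2 : s ∘ₗ Q.x l = E.x l ∘ₗ s := by
      refine b.ext fun p => ?_
      rw [LinearMap.comp_apply, LinearMap.comp_apply, hb, hs]
      by_cases hl : l ∈ p.1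
      · rw [x_xI_zero Q hl, x_xI_zero E hl, map_zero]
      · rw [← xI_insert Q hl, ← xI_insert E hl]
        exact hs (insert l p.1, p.2)
    exact fun q => congrArg (fun T => T q) h2
  let T : (A.V × Q.V) →ₗ[k] E.V := S.f.coprod s
  have hT : ∀ p, T p = S.f p.1 + s p.2 := fun p => rfl
  have hgf : ∀ a, S.g (S.f a) = 0 := fun a => (S.exact _).2 ⟨a, rfl⟩
  have hinj : Function.Injective T := by
    rw [injective_iff_map_eq_zero]
    rintro ⟨a, q⟩ h0
    rw [hT] at h0
    simp only at h0
    have h2 : q = 0 := by
      have h3 := congrArg S.g h0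
      rwa [map_add, hgf, hgs, zero_add, map_zero] at h3
    rw [h2, map_zero, add_zero] at h0
    rw [S.inj a h0, h2]
    rfl
  have hsurj : Function.Surjective T := by
    intro y
    have h2 : S.g (y - s (S.g y)) = 0 := by rw [map_sub, hgs, sub_self]
    obtain ⟨a, ha⟩ := (S.exact _).1 h2
    refine ⟨(a, S.g y), ?_⟩
    rw [hT]
    simp only
    rw [ha, sub_add_cancel]
  refine Iso.symm ⟨LinearEquiv.ofBijective T ⟨hinj, hsurj⟩, ?_⟩
  intro i p
  change T ((A.prod Q).x i p) = E.x i (T p)
  rw [hT, hT, map_add]
  change S.f (A.x i p.1) + s (Q.x i p.2) = _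
  rw [S.hf, hsx]

end Pool.Agent.H922.Kt
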