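import Pool.Agent.H398.Kt.Kt
import Pool.Agent.H398.Kt.PfRing
import Pool.Agent.H398.Kt.PfNrm
import Pool.Agent.H398.Kt.PfCoreTens
import Pool.Agent.H398.Kt.PfSplit
import Pool.Agent.H398.Kt.PfRelChar
import Pool.Agent.H398.Kt.PfSes
import Pool.Agent.H398.Kt.PfCocycle
import Pool.Agent.H398.Kt.PfKoszul
import Pool.Agent.H398.Kt.PfInfl
import Pool.Agent.H398.Kt.PfFilQuo
import Pool.Agent.H398.Kt.PfDouble
import Pool.Agent.H398.Kt.PfFull
import Pool.Agent.H398.Kt.PfLoewy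
import Pool.Agent.H398.Kt.PfBridge
import Pool.Agent.H398.Kt.PfVees
import Pool.Agent.H398.Kt.PfBase
import Pool.Agent.H398.Kt.PfEigen
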