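import Pool.Agent.H398.Kt.Defs

set_option autoImplicit false

open scoped TensorProduct

namespace Pool.Agent.H398.Kt

universe u

variable {k : Type u} [Field k] {r : ℕ}

namespace Md

theorem Iso.refl (A : Md k r) : A.Iso A := ⟨LinearEquiv.refl k A.V, fun _ _ => rfl⟩

theorem Iso.symm {A B : Md k r} (h : A.Iso B) : B.Iso A := by
  obtain ⟨e, he⟩ := h
  refine ⟨e.symm, fun i v => ?_⟩
  apply e.injective
  rw [he]; simp

theorem Iso.trans {A B C : Md k r} (h : A.Iso B) (h' : B.Iso C) : A.Iso C := by
  obtain ⟨e, he⟩ := h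
  obtain ⟨e', he'⟩ := h'
  exact ⟨e.trans e', fun i v => by simp [he, he']⟩

theorem op_comm (N : Md k r) (a b : Fin r → k) (v : N.V) :
    N.op a (N.op b v) = N.op b (N.op a v) := by
  rw [op_apply N a, op_apply N a, map_sum]
  exact Finset.sum_congr rfl (fun i _ => by rw [map_smul, x_op])

theorem op_add (N : Md k r) (a b : Fin r → k) : N.op (a + b) = N.op a + N.op b := by
  simp [op, add_smul, Finset.sum_add_distrib]

theorem op_smul (N : Md k r) (c : k) (a : Fin r → k) : N.op (c • a) = c • N.op a := by
  simp [op, Finset.smul_sum, smul_smul]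

theorem op_zero (N : Md k r) : N.op 0 = 0 := by simp [op]

theorem op_single (N : Md k r) (i : Fin r) : N.op (Pi.single i 1) = N.x i := by
  classical
  unfold op
  rw [Finset.sum_eq_single i]
  · simp
  · intro j _ hj
    simp [Pi.single_eq_of_ne hj]
  · simp

theorem two_eq [CharP k 2] (N : Md k r) (v : N.V) : v + v = 0 := by
  rw [← two_smul k v, CharTwo.two_eq_zero, zero_smul]

theorem op_sq [CharP k 2] (N : Md k r) (a : Fin r → k) (v : N.V) : N.op a (N.op a v) = 0 := by
  classical
  have key : ∀ s : Finset (Fin r), ∀ v : N.V,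
      (∑ i ∈ s, a i • N.x i) ((∑ i ∈ s, a i • N.x i) v) = 0 := by
    intro s
    induction s using Finset.induction_on with
    | empty => intro v; simp
    | insert j s hj ih =>
      intro v
      rw [Finset.sum_insert hj]
      have hc : ∀ w : N.V, (∑ i ∈ s, a i • N.x i) (N.x j w) = N.x j ((∑ i ∈ s, a i • N.x i) w) := by
        intro w
        rw [LinearMap.sum_apply, LinearMap.sum_apply, map_sum]
        exact Finset.sum_congr rfl (fun i _ => by
          rw [LinearMap.smul_apply, LinearMap.smul_apply, map_smul, N.comm])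
      simp only [LinearMap.add_apply, LinearMap.smul_apply, map_add, map_smul, hc, ih, N.sq,
        smul_zero, zero_add, add_zero]
      exact two_eq N _
  exact key Finset.univ v

theorem op_iso {A B : Md k r} (e : A.V ≃ₗ[k] B.V) (he : ∀ i v, e (A.x i v) = B.x i (e v))
    (a : Fin r → k) (v : A.V) : e (A.op a v) = B.op a (e v) := by
  rw [op_apply, op_apply, map_sum]
  exact Finset.sum_congr rfl (fun i _ => by rw [map_smul, he])

theorem op_hom {A B : Md k r} (f : A.V →ₗ[k] B.V) (hf : ∀ i v, f (A.x i v) = B.x i (f v))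
    (a : Fin r → k) (v : A.V) : f (A.op a v) = B.op a (f v) := by
  rw [op_apply, op_apply, map_sum]
  exact Finset.sum_congr rfl (fun i _ => by rw [map_smul, hf])

theorem dim_iso {A B : Md k r} (h : A.Iso B) : A.dim = B.dim := by
  obtain ⟨e, -⟩ := h
  exact e.finrank_eq

theorem rank_iso {A B : Md k r} (h : A.Iso B) (a : Fin r → k) :
    Module.finrank k (LinearMap.range (A.op a)) = Module.finrank k (LinearMap.range (B.op a)) := by
  obtain ⟨e, he⟩ := h
  have : LinearMap.range (B.op a) = (LinearMap.range (A.op a)).map e.toLinearMap := by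
    ext v
    constructor
    · rintro ⟨w, rfl⟩
      refine ⟨A.op a (e.symm w), ⟨_, rfl⟩, ?_⟩
      change e (A.op a (e.symm w)) = _
      rw [op_iso e he]; simp
    · rintro ⟨_, ⟨w, rfl⟩, rfl⟩
      exact ⟨e w, (op_iso e he a w).symm⟩
  rw [this]
  exact (LinearEquiv.finrank_map_eq e _).symm

theorem h_iso {A B : Md k r} (h : A.Iso B) (a : Fin r → k) : A.h a = B.h a := by
  unfold Md.h
  rw [dim_iso h, rank_iso h]

theorem SES.dim_eq {A B C : Md k r} (S : SES A B C) : B.dim = A.dim + C.dim := by
  have h1 := LinearMap.finrank_range_add_finrank_ker S.g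
  have h2 : Module.finrank k (LinearMap.range S.g) = C.dim := by
    rw [LinearMap.range_eq_top.mpr (fun c => S.surj c)]
    exact finrank_top k C.V
  have h3 : LinearMap.ker S.g = LinearMap.range S.f := by
    ext b
    rw [LinearMap.mem_ker, S.exact b]
    rfl
  have h4 : Module.finrank k (LinearMap.range S.f) = A.dim :=
    LinearMap.finrank_range_of_inj (fun a b hab => by
      have := S.inj (a - b) (by rw [map_sub, hab, sub_self])
      exact sub_eq_zero.mp this)
  have h5 : Module.finrank k B.V = B.dim := rfl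
  rw [h3, h4, h2, h5] at h1
  omega

/-- The rank of `∑ a_i x_i` is superadditive in short exact sequences. -/
theorem SES.rank_le {A B C : Md k r} (S : SES A B C) (a : Fin r → k) :
    Module.finrank k (LinearMap.range (A.op a)) + Module.finrank k (LinearMap.range (C.op a)) ≤
      Module.finrank k (LinearMap.range (B.op a)) := by
  let T : LinearMap.range (B.op a) →ₗ[k] C.V := S.g ∘ₗ (LinearMap.range (B.op a)).subtype
  have h1 := LinearMap.finrank_range_add_finrank_ker T
  have h2 : LinearMap.range T = LinearMap.range (C.op a) := by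
    ext c
    constructor
    · rintro ⟨⟨_, ⟨v, rfl⟩⟩, rfl⟩
      exact ⟨S.g v, (op_hom S.g S.hg a v).symm⟩
    · rintro ⟨c, rfl⟩
      obtain ⟨b, rfl⟩ := S.surj c
      exact ⟨⟨B.op a b, ⟨b, rfl⟩⟩, op_hom S.g S.hg a b⟩
  have h3 : Module.finrank k (LinearMap.range (A.op a)) ≤ Module.finrank k (LinearMap.ker T) := by
    let U : LinearMap.range (A.op a) →ₗ[k] LinearMap.ker T :=
      LinearMap.codRestrict _ (LinearMap.codRestrict (LinearMap.range (B.op a))
        (S.f ∘ₗ (LinearMap.range (A.op a)).subtype) (by
          rintro ⟨_, ⟨v, rfl⟩⟩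
          exact ⟨S.f v, (op_hom S.f S.hf a v).symm⟩)) (by
        intro v
        rw [LinearMap.mem_ker]
        change S.g (S.f v.1) = 0
        exact (S.exact _).mpr ⟨_, rfl⟩)
    apply LinearMap.finrank_le_finrank_of_injective (f := U)
    intro v w hvw
    have h4 : S.f v.1 = S.f w.1 := congrArg (fun z => (z.1.1 : B.V)) hvw
    have := S.inj (v.1 - w.1) (by rw [map_sub, h4, sub_self])
    exact Subtype.ext (sub_eq_zero.mp this)
  rw [h2] at h1
  omega

/-- `2 * rank ≤ dim`. -/
theorem two_rank_le [CharP k 2] (N : Md k r) (a : Fin r → k) :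
    2 * Module.finrank k (LinearMap.range (N.op a)) ≤ N.dim := by
  have h1 := LinearMap.finrank_range_add_finrank_ker (N.op a)
  have h2 : Module.finrank k (LinearMap.range (N.op a)) ≤
      Module.finrank k (LinearMap.ker (N.op a)) := by
    apply Submodule.finrank_mono
    rintro _ ⟨v, rfl⟩
    exact op_sq N a v
  have h5 : Module.finrank k N.V = N.dim := rfl
  omega

theorem h_add [CharP k 2] (N : Md k r) (a : Fin r → k) :
    N.h a + 2 * Module.finrank k (LinearMap.range (N.op a)) = N.dim := by
  have := two_rank_le N a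
  unfold h
  omega

theorem SES.h_le [CharP k 2] {A B C : Md k r} (S : SES A B C) (a : Fin r → k) :
    B.h a ≤ A.h a + C.h a := by
  have h1 := S.rank_le a
  have h2 := S.dim_eq
  have h3 := h_add A a
  have h4 := h_add B a
  have h5 := h_add C a
  omega

end Md

end Pool.Agent.H398.Kt
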