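import Pool.Agent.H398.Kt.Char

/-!
# The bound `φ(X) ^ 2 ≤ D * core (X ⊗ X^*)`
-/

set_option autoImplicit false
set_option linter.unusedVariables false
set_option linter.unusedSimpArgs false
set_option linter.unusedSectionVars false
set_option linter.unusedTactic false

open scoped TensorProduct

namespace Pool.Agent.H398.Kt

universe u

open Md

variable {k : Type u} [Field k] [CharP k 2] {r : ℕ}

/-- The eigenvalue lemma for a list of linear forms. -/
theorem eigen (hF : S_filQuo.{u}) (hE : S_eigenStep.{u}) [IsAlgClosed k] (s : ℕ)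
    (z : Fin r → k) (L : List (Fin r → k)) : ∀ (K : Md k r), K.FrL L →
    ∃ (C : ℕ) (S : Finset (Fin r → k)),
      (∀ a ∈ S, a - z ∈ Submodule.span k {f | f ∈ L}) ∧
      ∀ Y : Md k r, Fil K s Y → Y.FrL L ∧ (Y.quoL L).h z ≤ C * ∑ a ∈ S, Y.h a := by
  classical
  induction L with
  | nil =>
    intro K _
    refine ⟨1, {z}, fun a ha => ?_, fun Y hY => ⟨trivial, ?_⟩⟩
    · rw [Finset.mem_singleton] at ha
      rw [ha, sub_self]
      exact Submodule.zero_mem _
    · rw [Finset.sum_singleton, one_mul]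
      exact le_rfl
  | cons f L ih =>
    intro K hK
    obtain ⟨C', S', h1, h2⟩ := ih (K.quo f) hK.2
    choose D E hDE using fun α => hE k r K f α s hK.1
    refine ⟨C' * ∑ α ∈ S', D α * (E α).card,
      S'.biUnion (fun α => (E α).image (fun a => α + a • f)), fun b hb => ?_, fun Y hY => ?_⟩
    · rw [Finset.mem_biUnion] at hb
      obtain ⟨α, hα, hb⟩ := hb
      rw [Finset.mem_image] at hb
      obtain ⟨a, ha, rfl⟩ := hb
      have e1 : α + a • f - z = (α - z) + a • f := by abel
      rw [e1]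
      refine Submodule.add_mem _ ?_ ?_
      · refine Submodule.span_mono ?_ (h1 α hα)
        intro g hg
        exact List.mem_cons_of_mem _ hg
      · exact Submodule.smul_mem _ _ (Submodule.subset_span (List.mem_cons_self))
    · obtain ⟨hYf, hYq⟩ := hF k r K Y f s hK.1 hY
      obtain ⟨g1, g2⟩ := h2 (Y.quo f) hYq
      refine ⟨⟨hYf, g1⟩, ?_⟩
      change ((Y.quo f).quoL L).h z ≤ _
      refine g2.trans ?_
      rw [mul_assoc]
      refine Nat.mul_le_mul_left _ ?_
      rw [Finset.sum_mul]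
      refine Finset.sum_le_sum (fun α hα => ?_)
      refine (hDE α Y hY).trans ?_
      rw [mul_assoc]
      refine Nat.mul_le_mul_left _ ?_
      rw [← smul_eq_mul, ← Finset.sum_const]
      refine Finset.sum_le_sum (fun a ha => ?_)
      refine Finset.single_le_sum (f := fun b => Y.h b) (fun _ _ => Nat.zero_le _) ?_
      rw [Finset.mem_biUnion]
      exact ⟨α, hα, Finset.mem_image_of_mem _ ha⟩

theorem FrL_append (L : List (Fin r → k)) (z : Fin r → k) : ∀ Y : Md k r,
    Y.FrL L → (Y.quoL L).h z = 0 → Y.FrL (L ++ [z]) := by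
  induction L with
  | nil => intro Y _ h; exact ⟨h, trivial⟩
  | cons f L ih => intro Y h1 h2; exact ⟨h1.1, ih (Y.quo f) h1.2 h2⟩

theorem FrL_take (L : List (Fin r → k)) : ∀ (n : ℕ) (Y : Md k r), Y.FrL L → Y.FrL (L.take n) := by
  induction L with
  | nil => intro n Y _; rw [List.take_nil]; exact trivial
  | cons f L ih =>
    intro n Y h
    cases n with
    | zero => exact trivial
    | succ n => exact ⟨h.1, ih n _ h.2⟩

theorem quo_op_self (N : Md k r) (f : Fin r → k) : (N.quo f).op f = 0 := by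
  refine LinearMap.ext (fun v => ?_)
  obtain ⟨w, rfl⟩ := Submodule.Quotient.mk_surjective (LinearMap.range (N.op f)) v
  have h := op_hom (A := N) (B := N.quo f) (Submodule.mkQ _) (fun i v => rfl) f w
  have h2 : (N.quo f).op f (Submodule.Quotient.mk w) =
      Submodule.mkQ (LinearMap.range (N.op f)) (N.op f w) := h.symm
  rw [LinearMap.zero_apply]
  refine h2.trans ?_
  rw [Submodule.mkQ_apply, Submodule.Quotient.mk_eq_zero]
  exact ⟨w, rfl⟩

theorem quo_op_of (N : Md k r) (f g : Fin r → k) (hg : N.op g = 0) : (N.quo f).op g = 0 := by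
  refine LinearMap.ext (fun v => ?_)
  obtain ⟨w, rfl⟩ := Submodule.Quotient.mk_surjective (LinearMap.range (N.op f)) v
  have h := op_hom (A := N) (B := N.quo f) (Submodule.mkQ _) (fun i v => rfl) g w
  have h2 : (N.quo f).op g (Submodule.Quotient.mk w) =
      Submodule.mkQ (LinearMap.range (N.op f)) (N.op g w) := h.symm
  rw [LinearMap.zero_apply]
  refine h2.trans ?_
  rw [hg, LinearMap.zero_apply, map_zero]

theorem quoL_op_of (L : List (Fin r → k)) (g : Fin r → k) : ∀ N : Md k r, N.op g = 0 →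
    (N.quoL L).op g = 0 := by
  induction L with
  | nil => intro N h; exact h
  | cons f L ih => intro N h; exact ih _ (quo_op_of N f g h)

theorem quoL_op (L : List (Fin r → k)) : ∀ N : Md k r, ∀ f ∈ L, (N.quoL L).op f = 0 := by
  induction L with
  | nil => intro N f hf; exact absurd hf List.not_mem_nil
  | cons g L ih =>
    intro N f hf
    rcases List.mem_cons.mp hf with rfl | hf
    · exact quoL_op_of L f _ (quo_op_self N f)
    · exact ih _ f hf

theorem op_span (Z : Md k r) (L : List (Fin r → k)) (h : ∀ f ∈ L, Z.op f = 0)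
    (v : Fin r → k) (hv : v ∈ Submodule.span k {f | f ∈ L}) : Z.op v = 0 := by
  induction hv using Submodule.span_induction with
  | mem x hx => exact h x hx
  | zero => exact op_zero Z
  | add x y _ _ hx hy => rw [op_add, hx, hy, add_zero]
  | smul c x _ hx => rw [op_smul, hx, smul_zero]

theorem h_congr (Z : Md k r) {a b : Fin r → k} (h : Z.op a = Z.op b) : Z.h a = Z.h b := by
  unfold Md.h
  rw [h]

theorem TC.quoL_le (hQ : S_quoSes.{u}) (φ : TC k r) (L : List (Fin r → k)) :
    ∀ Y : Md k r, Y.FrL L → φ.f Y ≤ 2 ^ L.length * φ.f (Y.quoL L) := by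
  induction L with
  | nil => intro Y _; simp [Md.quoL]
  | cons f L ih =>
    intro Y hY
    have h1 := φ.ses _ _ _ (hQ k r Y f hY.1)
    have h2 := ih _ hY.2
    rw [List.length_cons, pow_succ]
    change φ.f Y ≤ 2 ^ L.length * 2 * φ.f ((Y.quo f).quoL L)
    linarith

/-- A maximal list. -/
theorem exists_maxList (hFull : S_full.{u}) (φ : TC k r) (hr : 1 ≤ r) :
    ∃ (L : List (Fin r → k)) (K : Md k r), φ.f K ≠ 0 ∧ K.FrL L ∧ L.length < r ∧
      ∀ (L' : List (Fin r → k)) (K' : Md k r), φ.f K' ≠ 0 → K'.FrL L' →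
        L'.length ≤ L.length := by
  have hlt : ∀ (L' : List (Fin r → k)) (K' : Md k r), φ.f K' ≠ 0 → K'.FrL L' → L'.length < r := by
    intro L' K' h1 h2
    by_contra h3
    rw [not_lt] at h3
    apply h1
    apply φ.of_core
    apply hFull k r K' (L'.take r)
    · rw [List.length_take]; exact min_eq_left h3
    · exact FrL_take L' r K' h2
  let P : ℕ → Prop := fun n => ∃ (L : List (Fin r → k)) (K : Md k r), φ.f K ≠ 0 ∧ K.FrL L ∧
    L.length = n
  have hP0 : P 0 := ⟨[], Md.one k r, by rw [φ.one]; exact one_ne_zero, trivial, rfl⟩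
  classical
  have h1 := Nat.findGreatest_spec (P := P) (Nat.zero_le r) hP0
  obtain ⟨L, K, a1, a2, a3⟩ := h1
  refine ⟨L, K, a1, a2, hlt L K a1 a2, fun L' K' b1 b2 => ?_⟩
  rw [a3]
  exact Nat.le_findGreatest (hlt L' K' b1 b2).le ⟨L', K', b1, b2, rfl⟩

/-- All the statements needed for the bound. -/
structure Hyp : Prop where
  ring : S_ring.{u}
  coreSes : S_coreSes.{u}
  coreTens : S_coreTens.{u}
  split : S_split.{u}
  hLeCore : S_hLeCore.{u}
  pull : S_pull.{u}
  vees : S_vees.{u}
  tensSes : S_tensSes.{u}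
  cocycle : S_cocycle.{u}
  koszul : S_koszul.{u}
  koszulZero : S_koszulZero.{u}
  filQuo : S_filQuo.{u}
  eigenStep : S_eigenStep.{u}
  double : S_double.{u}
  full : S_full.{u}
  hDual : S_hDual.{u}
  loewy : S_loewy.{u}
  hTens : S_hTens.{u}
  quoSes : S_quoSes.{u}
  infl : S_infl.{u}

/-- **The main bound.** -/
theorem TC.bound (H : Hyp.{u}) [IsAlgClosed k] (hr : 1 ≤ r) (φ : TC k r) :
    ∃ D : ℝ, 0 ≤ D ∧ ∀ X : Md k r, φ.f X ^ 2 ≤ D * (X.tens X.dual).core := by
  classical
  have : Infinite k := IsAlgClosed.instInfinite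
  obtain ⟨L, K, hK, hKL, hLr, hmax⟩ := exists_maxList H.full φ hr
  obtain ⟨s, hs⟩ := H.loewy k r
  -- modules killed by `L` with a zero rank are killed by `φ`
  have hM : ∀ (Z : Md k r) (z : Fin r → k), (∀ f ∈ L, Z.op f = 0) → Z.h z = 0 → φ.f Z = 0 := by
    intro Z z hZ hz
    obtain ⟨C, S, c1, c2⟩ := eigen H.filQuo H.eigenStep s z L K hKL
    obtain ⟨d1, d2⟩ := c2 (Z.tens K) (hs Z K)
    have d3 : ∑ a ∈ S, (Z.tens K).h a = 0 := by
      refine Finset.sum_eq_zero (fun a ha => ?_)
      have e1 : Z.h a = Z.h z := by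
        apply h_congr
        have e2 : Z.op (a - z) = 0 := op_span Z L hZ _ (c1 a ha)
        have e3 : a = (a - z) + z := by abel
        rw [e3, op_add, e2, zero_add]
      have e2 := H.hTens k r Z K a
      rw [e1, hz, mul_zero] at e2
      exact Nat.le_zero.mp e2
    rw [d3, mul_zero] at d2
    have d4 := FrL_append L z _ d1 (Nat.le_zero.mp d2)
    by_contra hne
    have d5 := hmax _ (Z.tens K) (by rw [φ.tens]; exact mul_ne_zero hne hK) d4
    rw [List.length_append, List.length_singleton] at d5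
    omega
  obtain ⟨q, P, I, i1, i2, i3, i4, i5, i6, i7, i8, i9⟩ := H.infl k r L hLr
  have hB := rankBound H.cocycle H.koszul H.koszulZero i1 (fun Z => φ.f (I Z))
    (fun A B C S => φ.ses _ _ _ (i5 A B C S))
    (fun A B C S => φ.rot H.ring H.vees H.pull H.split H.tensSes H.coreTens (i5 A B C S))
    (fun A hA => by
      rw [φ.iso _ _ (i8 A hA), φ.one])
    (fun A b hb => by
      obtain ⟨z, rfl⟩ := i2 b
      refine hM _ z (fun f hf => i7 A f hf) ?_
      rw [i6]; exact hb)
  have hW : ∀ (W : Md k r) (z : Fin r → k), (∀ f ∈ L, W.op f = 0) → φ.f W ≤ W.h z := by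
    intro W z hWL
    obtain ⟨Z, hZ⟩ := i9 W hWL
    rw [← φ.iso _ _ hZ, ← h_iso hZ z, i6]
    exact hB _ Z ⟨P z, le_rfl⟩
  -- a vector outside the span
  obtain ⟨z, hz⟩ : ∃ z : Fin r → k, z ∉ Submodule.span k {f | f ∈ L} := by
    by_contra hcon
    push Not at hcon
    have h1 : Submodule.span k {f | f ∈ L} = ⊤ := by
      rw [eq_top_iff]
      intro z _
      exact hcon z
    have h2 : Module.finrank k (Submodule.span k {f : Fin r → k | f ∈ L}) ≤ L.length := by
      have h3 : ({f : Fin r → k | f ∈ L}) = (L.toFinset : Set (Fin r → k)) := by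
        ext f; simp
      rw [h3]
      exact (finrank_span_finset_le_card (R := k) L.toFinset).trans (List.toFinset_card_le L)
    rw [h1, finrank_top, Module.finrank_fin_fun] at h2
    omega
  obtain ⟨C, S, c1, c2⟩ := eigen H.filQuo H.eigenStep s z L K hKL
  have hS0 : ∀ a ∈ S, a ≠ 0 := by
    rintro a ha rfl
    apply hz
    have h1 := c1 0 ha
    rw [zero_sub] at h1
    exact (Submodule.neg_mem_iff _).mp h1
  -- the estimate
  have key : ∀ X : Md k r, ∀ a ∈ S, ((X.h a : ℕ) : ℝ) ≤
      Real.sqrt (2 ^ r * (X.tens X.dual).core) := by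
    intro X a ha
    apply Real.le_sqrt_of_sq_le
    have h1 := H.double k r X X.dual a
    rw [H.hDual] at h1
    have h2 := H.hLeCore k r (X.tens X.dual) a (hS0 a ha)
    have h3 : X.h a * X.h a ≤ 2 ^ r * (X.tens X.dual).core :=
      h1.trans (Nat.mul_le_mul_left _ h2)
    rw [pow_two]
    exact_mod_cast h3
  have key2 : ∀ X : Md k r, φ.f X * φ.f K ≤
      2 ^ L.length * (C * (S.card * (K.dim * Real.sqrt (2 ^ r * (X.tens X.dual).core)))) := by
    intro X
    rw [← φ.tens]
    obtain ⟨d1, d2⟩ := c2 (X.tens K) (hs X K)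
    refine (φ.quoL_le H.quoSes L _ d1).trans ?_
    refine mul_le_mul_of_nonneg_left ?_ (by positivity)
    refine (hW _ z (quoL_op L _)).trans ?_
    have d3 : (((Md.quoL (X.tens K) L).h z : ℕ) : ℝ) ≤ C * ∑ a ∈ S, ((X.tens K).h a : ℝ) := by
      exact_mod_cast d2
    refine d3.trans ?_
    refine mul_le_mul_of_nonneg_left ?_ (Nat.cast_nonneg _)
    rw [← nsmul_eq_mul, ← Finset.sum_const]
    refine Finset.sum_le_sum (fun a ha => ?_)
    have d4 : (((X.tens K).h a : ℕ) : ℝ) ≤ K.dim * X.h a := by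
      exact_mod_cast H.hTens k r X K a
    exact d4.trans (mul_le_mul_of_nonneg_left (key X a ha) (Nat.cast_nonneg _))
  have hKpos : 0 < φ.f K := lt_of_le_of_ne (φ.nonneg K) (Ne.symm hK)
  refine ⟨(2 ^ L.length * (C * (S.card * K.dim))) ^ 2 * 2 ^ r / (φ.f K) ^ 2, by positivity,
    fun X => ?_⟩
  have h1 := key2 X
  have h2 : 0 ≤ φ.f X * φ.f K := mul_nonneg (φ.nonneg X) hKpos.le
  have h3 : (φ.f X * φ.f K) ^ 2 ≤
      (2 ^ L.length * (C * (S.card * (K.dim * Real.sqrt (2 ^ r * (X.tens X.dual).core))))) ^ 2 :=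
    pow_le_pow_left₀ h2 h1 2
  have h4 : Real.sqrt (2 ^ r * (X.tens X.dual).core) ^ 2 = 2 ^ r * (X.tens X.dual).core :=
    Real.sq_sqrt (by positivity)
  have h5 : (2 ^ L.length * ((C : ℝ) * (S.card * (K.dim *
      Real.sqrt (2 ^ r * (X.tens X.dual).core))))) ^ 2 =
      (2 ^ L.length * ((C : ℝ) * (S.card * K.dim))) ^ 2 *
        Real.sqrt (2 ^ r * (X.tens X.dual).core) ^ 2 := by ring
  rw [h5, h4] at h3
  rw [div_mul_eq_mul_div, le_div_iff₀ (by positivity)]
  calc φ.f X ^ 2 * φ.f K ^ 2 = (φ.f X * φ.f K) ^ 2 := by ring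
    _ ≤ _ := h3
    _ = _ := by ring

end Pool.Agent.H398.Kt
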