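import Pool.Agent.H398.Kt.Iface

/-!
# Triangular characters: existence, rotation
-/

set_option autoImplicit false
set_option linter.unusedVariables false
set_option linter.unusedSimpArgs false
set_option linter.unusedSectionVars false
set_option linter.unusedTactic false

open scoped TensorProduct

namespace Pool.Agent.H398.Kt

universe u

open Md

variable {k : Type u} [Field k] [CharP k 2] {r : ℕ}

/-- A triangular character: positive, additive, multiplicative, subadditive in short exact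
sequences, and at most the dimension of the core. -/
structure TC (k : Type u) [Field k] [CharP k 2] (r : ℕ) where
  /-- the function -/
  f : Md k r → ℝ
  nonneg : ∀ A, 0 ≤ f A
  iso : ∀ A B, A.Iso B → f A = f B
  prod : ∀ A B, f (A.prod B) = f A + f B
  tens : ∀ A B, f (A.tens B) = f A * f B
  one : f (Md.one k r) = 1
  ses : ∀ A B C, Nonempty (SES A B C) → f B ≤ f A + f C
  le : ∀ A, f A ≤ A.core

theorem SES.iso_right {A B C C' : Md k r} (S : Nonempty (SES A B C)) (h : C.Iso C') :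
    Nonempty (SES A B C') := by
  obtain ⟨S⟩ := S
  obtain ⟨e, he⟩ := h
  exact ⟨⟨S.f, e.toLinearMap ∘ₗ S.g, S.hf, fun i v => by
      change e (S.g (B.x i v)) = C'.x i (e (S.g v))
      rw [S.hg, he], S.inj, fun c => by
      obtain ⟨b, hb⟩ := S.surj (e.symm c)
      refine ⟨b, ?_⟩
      change e (S.g b) = c
      rw [hb]; simp, fun b => by
      rw [← S.exact b]
      change e (S.g b) = 0 ↔ _
      exact e.map_eq_zero_iff⟩⟩

theorem SES.iso_left {A A' B C : Md k r} (S : Nonempty (SES A B C)) (h : A.Iso A') :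
    Nonempty (SES A' B C) := by
  obtain ⟨S⟩ := S
  obtain ⟨e, he⟩ := h.symm
  refine ⟨⟨S.f ∘ₗ e.toLinearMap, S.g, fun i v => ?_, S.hg, fun a ha => ?_, S.surj, fun b => ?_⟩⟩
  · change S.f (e (A'.x i v)) = B.x i (S.f (e v))
    rw [he, S.hf]
  · have := S.inj (e a) ha
    exact e.map_eq_zero_iff.mp this
  · rw [S.exact b]
    constructor
    · rintro ⟨a, ha⟩
      refine ⟨e.symm a, ?_⟩
      change S.f (e (e.symm a)) = b
      simpa using ha
    · rintro ⟨a, ha⟩
      exact ⟨e a, ha⟩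

theorem tens_one_iso (hR : S_ring.{u}) (A : Md k r) : (A.tens (one k r)).Iso A := by
  obtain ⟨R, _, cls, h1, h2, h3, h4, h5, h6⟩ := hR k r
  rw [← h2, h4, h5, mul_one]

/-- Existence of triangular characters. -/
theorem exists_TC (hR : S_ring.{u}) (hN : S_coreSes.{u}) (hT : S_coreTens.{u})
    (hX : S_relChar.{u + 1}) (hS : S_tensSes.{u}) (hr : 1 ≤ r) (N : Md k r) (g : ℝ) (hg : 0 < g)
    (h1 : ∀ m : ℕ, g ^ m ≤ (N.pow m).core)
    (h2 : ∀ ε : ℝ, 0 < ε → ∃ m : ℕ, 0 < m ∧ ((N.pow m).core : ℝ) ≤ (g + ε) ^ m) :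
    ∃ φ : TC k r, φ.f N = g := by
  obtain ⟨R, _, cls, c1, c2, c3, c4, c5, c6⟩ := hR k r
  obtain ⟨n1, n2, n3, n4⟩ := hN k r
  choose rep hrep using c1
  have hc : ∀ A : Md k r, (rep (cls A)).core = A.core := fun A =>
    n3 _ _ ((c2 _ _).mp (hrep (cls A)))
  have hpow : ∀ m : ℕ, cls (N.pow m) = cls N ^ m := by
    intro m
    induction m with
    | zero => rw [pow_zero]; exact c5
    | succ m ih => rw [pow_succ, ← ih]; exact c4 _ _
  have hmul : ∀ x y : R, x * y = cls ((rep x).tens (rep y)) := by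
    intro x y
    rw [c4, hrep, hrep]
  have hadd : ∀ x y : R, x + y = cls ((rep x).prod (rep y)) := by
    intro x y
    rw [c3, hrep, hrep]
  obtain ⟨φ, p1, p2, p3, p4, p5, p6, p7⟩ := hX R (fun x => ((rep x).core : ℝ))
    (fun x y => ∃ A B C : Md k r, Nonempty (SES A B C) ∧ x = cls B ∧ y = cls A + cls C)
    (fun x => Nat.cast_nonneg _)
    (by
      change ((rep 1).core : ℝ) = 1
      rw [← c5, hc, n4 hr, Nat.cast_one])
    (fun x y => by
      change ((rep (x + y)).core : ℝ) = (rep x).core + (rep y).core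
      rw [hadd x y, hc, n2, Nat.cast_add])
    (fun x y => by
      change ((rep (x * y)).core : ℝ) ≤ (rep x).core * (rep y).core
      rw [hmul x y, hc]
      exact_mod_cast hT k r _ _)
    (by
      rintro x y ⟨A, B, C, S, rfl, rfl⟩
      change ((rep (cls B)).core : ℝ) ≤ (rep (cls A + cls C)).core
      rw [← c3, hc, hc, n2]
      exact_mod_cast n1 A B C S)
    (by
      rintro x y z ⟨A, B, C, S, rfl, rfl⟩
      obtain ⟨Z, rfl⟩ : ∃ Z, cls Z = z := ⟨rep z, hrep z⟩
      exact ⟨Z.tens A, Z.tens B, Z.tens C, hS k r Z A B C S, (c4 _ _).symm, by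
        rw [mul_add, c4, c4]⟩)
    (cls N) g hg
    (fun m => by
      rw [← hpow]
      change g ^ m ≤ ((rep (cls (N.pow m))).core : ℝ)
      rw [hc]
      exact h1 m)
    (fun ε hε => by
      obtain ⟨m, hm, h⟩ := h2 ε hε
      refine ⟨m, hm, ?_⟩
      rw [← hpow]
      change ((rep (cls (N.pow m))).core : ℝ) ≤ _
      rw [hc]
      exact h)
  refine ⟨⟨fun A => φ (cls A), fun A => p1 _, fun A B h => by rw [(c2 _ _).mpr h],
    fun A B => by rw [c3, p3], fun A B => by rw [c4, p4], by rw [c5, p2],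
    fun A B C S => ?_, fun A => ?_⟩, p6⟩
  · rw [← p3]
    exact p7 _ _ ⟨A, B, C, S, rfl, rfl⟩
  · have := p5 (cls A)
    rw [hc] at this
    exact this

theorem TC.foldr (φ : TC k r) (l : List (Md k r)) :
    φ.f (l.foldr Md.tens (Md.one k r)) = (l.map φ.f).prod := by
  induction l with
  | nil => simpa using φ.one
  | cons a l ih => rw [List.foldr_cons, φ.tens, ih, List.map_cons, List.prod_cons]

theorem TC.of_core (φ : TC k r) {A : Md k r} (h : A.core = 0) : φ.f A = 0 := by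
  have := φ.le A
  rw [h, Nat.cast_zero] at this
  exact le_antisymm this (φ.nonneg A)

/-- Rotation. -/
theorem TC.rot (hR : S_ring.{u}) (hV : S_vees.{u}) (hP : S_pull.{u}) (hS : S_split.{u})
    (hT : S_tensSes.{u}) (hC : S_coreTens.{u}) (φ : TC k r) {A B C : Md k r}
    (h : Nonempty (SES A B C)) : φ.f A ≤ φ.f B + φ.f C := by
  obtain ⟨V, hV1, hV2, Ω, hΩ⟩ := hV k r
  obtain ⟨P, hPdef⟩ : ∃ P : Md k r, P = (List.ofFn V).foldr Md.tens (Md.one k r) := ⟨_, rfl⟩
  rw [← hPdef] at hV2 hΩ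
  have hφP : φ.f P = 0 := φ.of_core hV2
  obtain ⟨i, hi⟩ : ∃ i, φ.f (V i) = 0 := by
    rw [hPdef, φ.foldr, List.prod_eq_zero_iff] at hφP
    rw [List.mem_map] at hφP
    obtain ⟨W, hW, hW0⟩ := hφP
    rw [List.mem_ofFn] at hW
    obtain ⟨i, rfl⟩ := hW
    exact ⟨i, hW0⟩
  have rot0 : ∀ A B C : Md k r, Nonempty (SES A B C) → φ.f A ≤ φ.f C * φ.f Ω + φ.f B := by
    intro A B C h
    have h1 : Nonempty (SES (C.tens Ω) (C.tens P) C) :=
      SES.iso_right (hT k r C _ _ _ hΩ) (tens_one_iso hR C)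
    obtain ⟨E, e1, e2⟩ := hP k r A B C _ _ h h1
    have h2 : (C.tens P).core = 0 := by
      have := hC k r C P
      rw [hV2, mul_zero] at this
      exact Nat.le_zero.mp this
    have h3 := φ.iso _ _ (hS k r A E (C.tens P) h2 e1)
    rw [φ.prod, φ.of_core h2, add_zero] at h3
    have h4 := φ.ses _ _ _ e2
    rw [φ.tens, h3] at h4
    exact h4
  have h1 : Nonempty (SES C (C.tens (V i)) C) :=
    SES.iso_left (SES.iso_right (hT k r C _ _ _ (hV1 i)) (tens_one_iso hR C)) (tens_one_iso hR C)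
  obtain ⟨E, e1, e2⟩ := hP k r A B C _ _ h h1
  have h2 := rot0 _ _ _ e1
  rw [φ.tens, hi, mul_zero, zero_mul, zero_add] at h2
  have h3 := φ.ses _ _ _ e2
  linarith

/-! ### The rank bound -/

theorem rankStep (hkz : S_koszul.{u}) (hk0 : S_koszulZero.{u}) {q : ℕ}
    (Φ : Md k q → ℝ)
    (hses : ∀ A B C, Nonempty (SES A B C) → Φ B ≤ Φ A + Φ C)
    (hrot : ∀ A B C, Nonempty (SES A B C) → Φ A ≤ Φ B + Φ C)
    (hone : ∀ A : Md k q, A.dim = 1 → Φ A ≤ 1)
    (hz : ∀ (A : Md k q) (b : Fin q → k), A.h b = 0 → Φ A = 0) (b : Fin q → k) (hb : b ≠ 0)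
    (n : ℕ) : ∀ (Z : Md k q) (ξ : (Fin q → ℕ) → Z.V), Coc Z n ξ →
      ev Z n ξ b ∉ LinearMap.range (Z.op b) →
      ∃ Z1 : Md k q, Φ Z ≤ 1 + Φ Z1 ∧ Z1.h b + 1 ≤ Z.h b := by
  induction n with
  | zero =>
    intro Z ξ h1 h2
    obtain ⟨A, Z', s1, s2, s3⟩ := hk0 k q Z b ξ h1 h2
    refine ⟨Z', ?_, s3⟩
    have := hses _ _ _ s1
    have := hone A s2
    linarith
  | succ n ih =>
    intro Z ξ h1 h2
    obtain ⟨J, Z', ξ', s1, s2, s3, s4, s5⟩ := hkz k q Z b n ξ hb h1 h2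
    obtain ⟨Z1, t1, t2⟩ := ih Z' ξ' s4 s5
    refine ⟨Z1, ?_, ?_⟩
    · have a1 := hrot _ _ _ s1
      rw [hz J b s2] at a1
      linarith
    · rw [← s3]
      exact t2

theorem exists_argmin {α : Type*} [Nonempty α] (f : α → ℕ) : ∃ a, ∀ b, f a ≤ f b := by
  have hne : (Set.range f).Nonempty := Set.range_nonempty f
  obtain ⟨a, ha⟩ := Nat.sInf_mem hne
  exact ⟨a, fun b => by rw [ha]; exact Nat.sInf_le ⟨b, rfl⟩⟩

theorem h_zero (Z : Md k r) : Z.h 0 = Z.dim := by
  have h := h_add Z 0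
  rw [op_zero, LinearMap.range_zero, finrank_bot] at h
  omega

theorem h_le_dim (Z : Md k r) (a : Fin r → k) : Z.h a ≤ Z.dim := by
  have h := h_add Z a
  omega

theorem rankBound (hcoc : S_cocycle.{u}) (hkz : S_koszul.{u}) (hk0 : S_koszulZero.{u})
    [Infinite k] {q : ℕ} (hq : 1 ≤ q) (Φ : Md k q → ℝ)
    (hses : ∀ A B C, Nonempty (SES A B C) → Φ B ≤ Φ A + Φ C)
    (hrot : ∀ A B C, Nonempty (SES A B C) → Φ A ≤ Φ B + Φ C)
    (hone : ∀ A : Md k q, A.dim = 1 → Φ A ≤ 1)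
    (hz : ∀ (A : Md k q) (b : Fin q → k), A.h b = 0 → Φ A = 0) (m : ℕ) :
    ∀ Z : Md k q, (∃ b, Z.h b ≤ m) → Φ Z ≤ m := by
  induction m with
  | zero =>
    rintro Z ⟨b, hb⟩
    rw [hz Z b (Nat.le_zero.mp hb), Nat.cast_zero]
  | succ m ih =>
    rintro Z ⟨b0, hb0⟩
    obtain ⟨b, hb⟩ := exists_argmin (fun b => Z.h b)
    by_cases hm : Z.h b ≤ m
    · have := ih Z ⟨b, hm⟩
      push_cast
      linarith
    · obtain ⟨b', hb'0, hb'⟩ : ∃ b' : Fin q → k, b' ≠ 0 ∧ ∀ c, Z.h b' ≤ Z.h c := by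
        by_cases h0 : b = 0
        · refine ⟨Pi.single ⟨0, hq⟩ 1, ?_, fun c => ?_⟩
          · intro h
            have := congrFun h ⟨0, hq⟩
            simp at this
          · have h1 := hb c
            subst h0
            change Z.h 0 ≤ Z.h c at h1
            rw [h_zero] at h1
            exact (h_le_dim Z _).trans h1
        · exact ⟨b, h0, hb⟩
      have h1 : Z.h b' = Z.h b := le_antisymm (hb' b) (hb b')
      obtain ⟨n, ξ, c1, c2⟩ := hcoc k q Z b' hb' (by omega)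
      obtain ⟨Z1, t1, t2⟩ := rankStep hkz hk0 Φ hses hrot hone hz b' hb'0 n Z ξ c1 c2
      have h2 := hb b0
      have h3 : Z.h b ≤ m + 1 := h2.trans hb0
      have := ih Z1 ⟨b', by omega⟩
      push_cast
      linarith

end Pool.Agent.H398.Kt
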