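import Pool.Agent.H398.Kt.Green

/-!
# The Adams-type character `χ` and its values
-/

set_option autoImplicit false
set_option linter.unusedVariables false
set_option linter.unusedSimpArgs false
set_option linter.unusedSectionVars false
set_option linter.unusedTactic false

open scoped TensorProduct

namespace Pool.Agent.H398.Kt

universe u v

open Pool.Agent.H398.Gam Ob

variable {k : Type u} [Field k] {G : Type v} [Group G]

variable (k G) in
/-- The first two eigenspaces of the cyclic permutation of the tensor cube. -/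
structure Eig where
  /-- eigenvalue 1 -/
  E0 : Ob k G → Ob k G
  /-- eigenvalue `ω` -/
  E1 : Ob k G → Ob k G
  iso0 : ∀ A B, A.Iso B → (E0 A).Iso (E0 B)
  iso1 : ∀ A B, A.Iso B → (E1 A).Iso (E1 B)
  cube : ∀ A, cls A * cls A * cls A = cls (E0 A) + 2 * cls (E1 A)
  prod : ∀ A B, ∃ U : IsoCl k G, cls (E0 (A.prod B)) = cls (E0 A) + cls (E0 B) + U ∧
    cls (E1 (A.prod B)) = cls (E1 A) + cls (E1 B) + U
  tens0 : ∀ A B, cls (E0 (A.tens B)) = cls (E0 A) * cls (E0 B) + 2 * (cls (E1 A) * cls (E1 B))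
  tens1 : ∀ A B, cls (E1 (A.tens B)) =
    cls (E0 A) * cls (E1 B) + cls (E1 A) * cls (E0 B) + cls (E1 A) * cls (E1 B)
  one0 : cls (E0 (one k G)) = 1
  one1 : cls (E1 (one k G)) = 0
  dual : ∀ A, cls (E1 A.dual) = cls (E1 A).dual
  parity : ∀ A, (A.dim : k) = 1 → ((E1 A).dim : k) = 0

theorem exists_eig [CharP k 2] (hE : S_eig.{u, v}) (hQ : S_cubes.{u, v}) (ω : k)
    (hω : ω ^ 2 + ω + 1 = 0) : Nonempty (Eig k G) := by
  obtain ⟨E, e1, e2, e3, e4, e5, e6, e7, e8, e9⟩ := hE k ω hω G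
  obtain ⟨q1, q2, q3, q4, q5, q6, q7, q8⟩ := hQ k G
  have h2 : (2 : k) = 0 := CharTwo.two_eq_zero
  have hm1 : (-1 : ZMod 3) = 2 := by decide
  have hneg : ∀ A : Ob k G, (E 1 (C3.cb A)).Iso (E 2 (C3.cb A)) := by
    intro A
    have h := (e1 1 _ _ (q4 A)).trans (e6 1 (C3.cb A))
    rw [hm1] at h
    exact h
  have hc2 : ∀ A : Ob k G, cls (E 2 (C3.cb A)) = cls (E 1 (C3.cb A)) := fun A =>
    (cls_eq (hneg A)).symm
  have hcube : ∀ A : Ob k G, cls A * cls A * cls A =
      cls (E 0 (C3.cb A)) + 2 * cls (E 1 (C3.cb A)) := by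
    intro A
    have h := cls_eq (e2 (C3.cb A))
    rw [← cls_add, ← cls_add, hc2] at h
    rw [cls_mul, cls_mul, h]
    ring
  refine ⟨⟨fun A => E 0 (C3.cb A), fun A => E 1 (C3.cb A), fun A B h => e1 0 _ _ (q1 A B h),
    fun A B h => e1 1 _ _ (q1 A B h), hcube, ?_, ?_, ?_, ?_, ?_, ?_, ?_⟩⟩
  · intro A B
    obtain ⟨U, hU⟩ := q2 A B
    have key : ∀ j, cls (E j (C3.cb (A.prod B))) =
        cls (E j (C3.cb A)) + cls (E j (C3.cb B)) + cls U := by
      intro j
      have h := cls_eq ((e1 j _ _ hU).trans (e3 j _ _))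
      rw [← cls_add, cls_eq (e3 j _ _), ← cls_add, cls_eq (e5 j U)] at h
      exact h
    exact ⟨cls U, key 0, key 1⟩
  · intro A B
    have h := cls_eq ((e1 0 _ _ (q3 A B)).trans (e4 0 _ _))
    have ha : (0 - 1 : ZMod 3) = 2 := by decide
    have hb : (0 - 2 : ZMod 3) = 1 := by decide
    rw [ha, hb, ← cls_add, ← cls_add, ← cls_mul, ← cls_mul, ← cls_mul, hc2, hc2] at h
    rw [h]
    ring
  · intro A B
    have h := cls_eq ((e1 1 _ _ (q3 A B)).trans (e4 1 _ _))
    have ha : (1 - 1 : ZMod 3) = 0 := by decide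
    have hb : (1 - 2 : ZMod 3) = 2 := by decide
    rw [ha, hb, ← cls_add, ← cls_add, ← cls_mul, ← cls_mul, ← cls_mul, hc2, hc2] at h
    rw [h]
    ring
  · obtain ⟨h1, h3, h4⟩ := e8 (C3.cb (one k G)) q7
    rw [cls_one]
    exact cls_eq (h1.trans q6)
  · obtain ⟨h1, h3, h4⟩ := e8 (C3.cb (one k G)) q7
    exact cls_of_dim_zero h3
  · intro A
    have h := ((e1 1 _ _ (q5 A)).trans (e6 1 _)).trans (e7 (-1) (C3.cb A))
    rw [hm1] at h
    rw [cls_eq h, ← st_cls, hc2, st_cls]
  · intro A hA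
    have h1 := e9 (C3.cb A)
    rw [q8, hA, ← dim_eq_of_iso (hneg A)] at h1
    have h3 : A.dim * A.dim * A.dim = (E 0 (C3.cb A)).dim + 2 * (E 1 (C3.cb A)).dim := by
      have h4 := dim_eq_of_iso (e2 (C3.cb A))
      rw [dim_tens, dim_tens, dim_prod, dim_prod, ← dim_eq_of_iso (hneg A)] at h4
      omega
    have h5 : ((A.dim * A.dim * A.dim : ℕ) : k) =
      (((E 0 (C3.cb A)).dim + 2 * (E 1 (C3.cb A)).dim : ℕ) : k) := by rw [h3]
    push_cast at h5
    rw [hA, h2] at h5
    linear_combination ((E 1 (C3.cb A)).dim : k) * hω - h1 - h5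

/-- A positive character as a ring homomorphism. -/
noncomputable def ph (φ : PosChar k G) : IsoCl k G →+* ℝ where
  toFun x := Quotient.lift (fun A : Ob k G => φ.f A) (fun _ _ h => φ.iso _ _ h) x
  map_one' := φ.one
  map_mul' x y := by
    obtain ⟨A, rfl⟩ := cls_surj x
    obtain ⟨B, rfl⟩ := cls_surj y
    exact φ.tens A B
  map_zero' := φ.f_zero _ zero_dim
  map_add' x y := by
    obtain ⟨A, rfl⟩ := cls_surj x
    obtain ⟨B, rfl⟩ := cls_surj y
    exact φ.prod A B

theorem ph_cls (φ : PosChar k G) (A : Ob k G) : ph φ (cls A) = φ.f A := rfl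

/-- The character `χ`. -/
noncomputable def chi (E : Eig k G) (φ : PosChar k G) : IsoCl k G →+* ℝ where
  toFun x := Quotient.lift (fun A : Ob k G => φ.f (E.E0 A) - φ.f (E.E1 A))
    (fun _ _ h => by
      change φ.f _ - φ.f _ = φ.f _ - φ.f _
      rw [φ.iso _ _ (E.iso0 _ _ h), φ.iso _ _ (E.iso1 _ _ h)]) x
  map_one' := by
    change ph φ (cls (E.E0 (one k G))) - ph φ (cls (E.E1 (one k G))) = 1
    rw [E.one0, E.one1, map_one, map_zero, sub_zero]
  map_mul' x y := by
    obtain ⟨A, rfl⟩ := cls_surj x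
    obtain ⟨B, rfl⟩ := cls_surj y
    change ph φ (cls (E.E0 (A.tens B))) - ph φ (cls (E.E1 (A.tens B))) =
      (ph φ (cls (E.E0 A)) - ph φ (cls (E.E1 A))) * (ph φ (cls (E.E0 B)) - ph φ (cls (E.E1 B)))
    rw [E.tens0, E.tens1]
    simp only [map_add, map_mul, map_ofNat]
    ring
  map_zero' := by
    change ph φ (cls (E.E0 (zero k G))) - ph φ (cls (E.E1 (zero k G))) = 0
    have h := congrArg (ph φ) (E.cube (zero k G))
    rw [← cls_zero] at h
    simp only [map_add, map_mul, map_ofNat, map_zero, mul_zero] at h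
    have h1 : 0 ≤ ph φ (cls (E.E0 (zero k G))) := φ.nonneg _
    have h3 : 0 ≤ ph φ (cls (E.E1 (zero k G))) := φ.nonneg _
    linarith
  map_add' x y := by
    obtain ⟨A, rfl⟩ := cls_surj x
    obtain ⟨B, rfl⟩ := cls_surj y
    change ph φ (cls (E.E0 (A.prod B))) - ph φ (cls (E.E1 (A.prod B))) =
      (ph φ (cls (E.E0 A)) - ph φ (cls (E.E1 A))) + (ph φ (cls (E.E0 B)) - ph φ (cls (E.E1 B)))
    obtain ⟨U, h1, h3⟩ := E.prod A B
    rw [h1, h3]
    simp only [map_add]
    ring

theorem chi_cls (E : Eig k G) (φ : PosChar k G) (A : Ob k G) :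
    chi E φ (cls A) = φ.f (E.E0 A) - φ.f (E.E1 A) := rfl

theorem cube_val (E : Eig k G) (φ : PosChar k G) (A : Ob k G) :
    φ.f A ^ 3 = φ.f (E.E0 A) + 2 * φ.f (E.E1 A) := by
  have h := congrArg (ph φ) (E.cube A)
  simp only [map_add, map_mul, map_ofNat, ph_cls] at h
  rw [← h]; ring

theorem chi_val (E : Eig k G) (φ : PosChar k G) (A : Ob k G) :
    chi E φ (cls A) = φ.f A ^ 3 - 3 * φ.f (E.E1 A) := by
  rw [chi_cls, cube_val E φ A]; ring

theorem chi_null (E : Eig k G) (φ : PosChar k G) (z : IsoCl k G) (hz : ph φ z = 0) :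
    chi E φ z = 0 := by
  obtain ⟨A, rfl⟩ := cls_surj z
  rw [ph_cls] at hz
  have h := cube_val E φ A
  rw [hz] at h
  have h1 := φ.nonneg (E.E0 A)
  have h3 := φ.nonneg (E.E1 A)
  rw [chi_cls]
  linarith

theorem chi_dual (E : Eig k G) (φ : PosChar k G) (M : Ob k G) (h : φ.f M = φ.f M.dual)
    (ht : φ.f (E.E1 M) = φ.f (E.E1 M).dual) : chi E φ (cls M.dual) = chi E φ (cls M) := by
  rw [chi_val, chi_val, ← h]
  have h1 := congrArg (ph φ) (E.dual M)
  rw [ph_cls, ph_cls] at h1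
  rw [h1, ← ht]

/-- Evaluation of the polynomial relation. -/
theorem rel_eval (f : IsoCl k G →+* ℝ) (P : Polynomial ℤ) (x z : IsoCl k G) (hP : P.Monic)
    (h : x ^ P.natDegree + ∑ j ∈ Finset.range P.natDegree,
            (((P.coeff j).toNat : ℕ) : IsoCl k G) * x ^ j =
          z + ∑ j ∈ Finset.range P.natDegree, (((-P.coeff j).toNat : ℕ) : IsoCl k G) * x ^ j) :
    Polynomial.aeval (f x) P = f z := by
  have h0 := congrArg f h
  simp only [map_add, map_mul, map_sum, map_pow, map_natCast] at h0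
  rw [Polynomial.aeval_eq_sum_range, Finset.sum_range_succ, hP.coeff_natDegree, one_smul]
  have key : ∀ j, (((P.coeff j).toNat : ℕ) : ℝ) * f x ^ j =
      P.coeff j • f x ^ j + (((-P.coeff j).toNat : ℕ) : ℝ) * f x ^ j := by
    intro j
    have h1 : ((P.coeff j).toNat : ℤ) = P.coeff j + ((-P.coeff j).toNat : ℤ) := by omega
    have h3 : (((P.coeff j).toNat : ℕ) : ℝ) = (P.coeff j : ℝ) + (((-P.coeff j).toNat : ℕ) : ℝ) := by
      have := congrArg (Int.cast : ℤ → ℝ) h1
      push_cast at this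
      exact this
    rw [h3, add_mul, zsmul_eq_mul]
  rw [Finset.sum_congr rfl (fun j _ => key j), Finset.sum_add_distrib] at h0
  linarith

/-- The values of a character on the tower. -/
theorem tower_val (φ : PosChar k G) (M X : Ob k G) (H : ℕ → Ob k G) (θ : ℝ)
    (hM : φ.f M = 2 * Real.cos θ) (hM' : φ.f M.dual = 2 * Real.cos θ)
    (r1 : cls M * cls M.dual = 1 + cls X)
    (r2 : cls X * cls M * cls X = 2 * (cls M * cls X) + cls (H 0) * cls X)
    (r2' : cls X * cls M.dual * cls X = 2 * (cls M.dual * cls X) + cls (H 0).dual * cls X)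
    (r3 : ∀ j, cls (H j) * cls (H j).dual * cls (H j) =
        2 * cls (H j) + cls (H (j + 1)) * cls (H j))
    (r3' : ∀ j, cls (H j).dual * cls (H j) * cls (H j).dual =
        2 * cls (H j).dual + cls (H (j + 1)).dual * cls (H j).dual)
    (hX : 1 < 2 * Real.cos θ) (i : ℕ)
    (hpos : ∀ j < i, Real.cos (3 * 2 ^ j * θ) ≠ 0) :
    φ.f (H i) = 2 * Real.cos (3 * 2 ^ i * θ) ∧ φ.f (H i).dual = 2 * Real.cos (3 * 2 ^ i * θ) := by
  have h1 := congrArg (ph φ) r1
  simp only [map_add, map_mul, map_ofNat, ph_cls, map_one] at h1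
  rw [hM, hM'] at h1
  have hXv : φ.f X ≠ 0 := by
    intro h0
    rw [h0] at h1
    nlinarith
  induction i with
  | zero =>
    have h3 := congrArg (ph φ) r2
    have h3' := congrArg (ph φ) r2'
    simp only [map_add, map_mul, map_ofNat, ph_cls] at h3 h3'
    rw [hM] at h3
    rw [hM'] at h3'
    have e : (3 * 2 ^ 0 * θ : ℝ) = 3 * θ := by norm_num
    rw [e, Real.cos_three_mul]
    constructor
    · apply mul_right_cancel₀ hXv
      have : φ.f X = 4 * Real.cos θ ^ 2 - 1 := by linear_combination -h1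
      rw [this] at h3 ⊢
      linear_combination -h3
    · apply mul_right_cancel₀ hXv
      have : φ.f X = 4 * Real.cos θ ^ 2 - 1 := by linear_combination -h1
      rw [this] at h3' ⊢
      linear_combination -h3'
  | succ i ih =>
    obtain ⟨a1, a2⟩ := ih (fun j hj => hpos j (by omega))
    have hne := hpos i (by omega)
    have h3 := congrArg (ph φ) (r3 i)
    have h3' := congrArg (ph φ) (r3' i)
    simp only [map_add, map_mul, map_ofNat, ph_cls] at h3 h3'
    rw [a1, a2] at h3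
    rw [a1, a2] at h3'
    have e : (3 * 2 ^ (i + 1) * θ : ℝ) = 2 * (3 * 2 ^ i * θ) := by ring
    rw [e, Real.cos_two_mul]
    constructor
    · apply mul_right_cancel₀ (mul_ne_zero two_ne_zero hne)
      linear_combination -h3
    · apply mul_right_cancel₀ (mul_ne_zero two_ne_zero hne)
      linear_combination -h3'

end Pool.Agent.H398.Kt
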