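import Mathlib

/-!
# Modules over `k[x_1, …, x_r] / (x_1 ^ 2, …, x_r ^ 2)` in characteristic two

For `k` of characteristic `2` this is the group algebra of an elementary abelian `2`-group of rank
`r`, `x_i = g_i - 1`; the tensor product is the one of the group.
-/

set_option autoImplicit false

open scoped TensorProduct

namespace Pool.Agent.H398.Kt

universe u

/-- A finite-dimensional module over `k[x_1, …, x_r] / (x_i ^ 2)`. -/
structure Md (k : Type u) [Field k] (r : ℕ) where
  /-- the underlying vector space -/
  V : Type u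
  [acg : AddCommGroup V]
  [mod : Module k V]
  [fin : FiniteDimensional k V]
  /-- the operators -/
  x : Fin r → (V →ₗ[k] V)
  comm : ∀ i j v, x i (x j v) = x j (x i v)
  sq : ∀ i v, x i (x i v) = 0

attribute [instance] Md.acg Md.mod Md.fin

variable {k : Type u} [Field k] {r : ℕ}

namespace Md

/-- The dimension. -/
noncomputable def dim (N : Md k r) : ℕ := Module.finrank k N.V

/-- The operator of the linear form `∑ a_i x_i`. -/
def op (N : Md k r) (a : Fin r → k) : N.V →ₗ[k] N.V := ∑ i, a i • N.x i

/-- The number of trivial blocks of `∑ a_i x_i`: the dimension of `ker / im`. -/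
noncomputable def h (N : Md k r) (a : Fin r → k) : ℕ :=
  N.dim - 2 * Module.finrank k (LinearMap.range (N.op a))

/-- The product of all the `x_i`. -/
def nrm (N : Md k r) : N.V →ₗ[k] N.V := (List.ofFn N.x).prod

/-- The dimension of the non-free part. -/
noncomputable def core (N : Md k r) : ℕ :=
  N.dim - 2 ^ r * Module.finrank k (LinearMap.range N.nrm)

/-- Isomorphism. -/
def Iso (A B : Md k r) : Prop := ∃ e : A.V ≃ₗ[k] B.V, ∀ i v, e (A.x i v) = B.x i (e v)

/-- A short exact sequence `0 → A → B → C → 0`. -/
structure SES (A B C : Md k r) where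
  f : A.V →ₗ[k] B.V
  g : B.V →ₗ[k] C.V
  hf : ∀ i v, f (A.x i v) = B.x i (f v)
  hg : ∀ i v, g (B.x i v) = C.x i (g v)
  inj : ∀ a, f a = 0 → a = 0
  surj : ∀ c, ∃ b, g b = c
  exact : ∀ b, g b = 0 ↔ ∃ a, f a = b

variable (k r) in
/-- The trivial one-dimensional module. -/
abbrev one : Md k r where
  V := k
  x _ := 0
  comm _ _ _ := rfl
  sq _ _ := rfl

/-- Direct sum. -/
abbrev prod (A B : Md k r) : Md k r where
  V := A.V × B.V
  x i := (A.x i).prodMap (B.x i)
  comm i j v := by
    ext
    · exact A.comm i j v.1
    · exact B.comm i j v.2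
  sq i v := by
    ext
    · exact A.sq i v.1
    · exact B.sq i v.2

/-- The direct sum of `m` copies. -/
abbrev copies (m : ℕ) (A : Md k r) : Md k r where
  V := Fin m → A.V
  x i := LinearMap.pi (fun j => A.x i ∘ₗ LinearMap.proj j)
  comm i j v := by
    funext l
    exact A.comm i j (v l)
  sq i v := by
    funext l
    exact A.sq i (v l)

/-- The dual module. -/
abbrev dual (A : Md k r) : Md k r where
  V := Module.Dual k A.V
  x i := (A.x i).dualMap
  comm i j v := by
    ext a
    change v (A.x j (A.x i a)) = v (A.x i (A.x j a))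
    rw [A.comm]
  sq i v := by
    ext a
    change v (A.x i (A.x i a)) = 0
    rw [A.sq, map_zero]

/-- The tensor product over `k`, `g_i = 1 + x_i` acting diagonally. -/
abbrev tens [CharP k 2] (A B : Md k r) : Md k r where
  V := A.V ⊗[k] B.V
  x i := TensorProduct.map (A.x i) LinearMap.id + TensorProduct.map LinearMap.id (B.x i) +
    TensorProduct.map (A.x i) (B.x i)
  comm i j v := by
    have : (TensorProduct.map (A.x i) LinearMap.id + TensorProduct.map LinearMap.id (B.x i) +
        TensorProduct.map (A.x i) (B.x i)) ∘ₗ (TensorProduct.map (A.x j) LinearMap.id +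
          TensorProduct.map LinearMap.id (B.x j) + TensorProduct.map (A.x j) (B.x j)) =
        (TensorProduct.map (A.x j) LinearMap.id + TensorProduct.map LinearMap.id (B.x j) +
        TensorProduct.map (A.x j) (B.x j)) ∘ₗ (TensorProduct.map (A.x i) LinearMap.id +
          TensorProduct.map LinearMap.id (B.x i) + TensorProduct.map (A.x i) (B.x i)) := by
      apply TensorProduct.ext'
      intro a b
      simp only [LinearMap.comp_apply, LinearMap.add_apply, TensorProduct.map_tmul, map_add,
        LinearMap.id_apply, A.comm i j, B.comm i j]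
      abel
    exact congrArg (fun T => T v) this
  sq i v := by
    have : (TensorProduct.map (A.x i) LinearMap.id + TensorProduct.map LinearMap.id (B.x i) +
        TensorProduct.map (A.x i) (B.x i)) ∘ₗ (TensorProduct.map (A.x i) LinearMap.id +
          TensorProduct.map LinearMap.id (B.x i) + TensorProduct.map (A.x i) (B.x i)) = 0 := by
      apply TensorProduct.ext'
      intro a b
      simp only [LinearMap.comp_apply, LinearMap.add_apply, TensorProduct.map_tmul, map_add,
        LinearMap.id_apply, A.sq i, B.sq i, TensorProduct.zero_tmul, TensorProduct.tmul_zero,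
        add_zero, zero_add, LinearMap.zero_apply]
      have h2 : ∀ z : A.V ⊗[k] B.V, z + z = 0 := by
        intro z
        rw [← two_smul k z, CharTwo.two_eq_zero, zero_smul]
      exact h2 _
    exact congrArg (fun T => T v) this

/-- Tensor powers. -/
noncomputable def pow [CharP k 2] (A : Md k r) : ℕ → Md k r
  | 0 => one k r
  | n + 1 => (pow A n).tens A

theorem op_apply (N : Md k r) (a : Fin r → k) (v : N.V) : N.op a v = ∑ i, a i • N.x i v := by
  simp [op, LinearMap.sum_apply]

theorem x_op (N : Md k r) (a : Fin r → k) (i : Fin r) (v : N.V) :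
    N.x i (N.op a v) = N.op a (N.x i v) := by
  rw [op_apply, op_apply, map_sum]
  exact Finset.sum_congr rfl (fun j _ => by rw [map_smul, N.comm])

/-- The quotient `N / (∑ a_i x_i) N`. -/
abbrev quo (N : Md k r) (a : Fin r → k) : Md k r where
  V := N.V ⧸ LinearMap.range (N.op a)
  x i := (LinearMap.range (N.op a)).mapQ (LinearMap.range (N.op a)) (N.x i) (by
    rintro _ ⟨v, rfl⟩
    exact ⟨N.x i v, (x_op N a i v).symm⟩)
  comm i j v := by
    obtain ⟨v, rfl⟩ := Submodule.Quotient.mk_surjective _ v
    simp only [Submodule.mapQ_apply, N.comm i j]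
  sq i v := by
    obtain ⟨v, rfl⟩ := Submodule.Quotient.mk_surjective _ v
    simp only [Submodule.mapQ_apply, N.sq i, Submodule.Quotient.mk_zero]

/-- Iterated quotients by the linear forms of a list. -/
def quoL (N : Md k r) : List (Fin r → k) → Md k r
  | [] => N
  | a :: L => quoL (N.quo a) L

/-- `N` is free over the exterior algebra of the linear forms of a list. -/
def FrL (N : Md k r) : List (Fin r → k) → Prop
  | [] => True
  | a :: L => N.h a = 0 ∧ FrL (N.quo a) L

/-- `Y` has a filtration of length `s` whose quotients are direct sums of copies of `K`. -/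
def Fil (K : Md k r) : ℕ → Md k r → Prop
  | 0, Y => Y.dim = 0
  | s + 1, Y => ∃ (A C : Md k r) (m : ℕ), Nonempty (SES A Y C) ∧ Fil K s A ∧ C.Iso (copies m K)

end Md

end Pool.Agent.H398.Kt
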