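import Pool.Agent.H398.Kt.Good

/-!
# Exclusion of `n = 3 * 2 ^ i`
-/

set_option autoImplicit false
set_option linter.unusedVariables false
set_option linter.unusedSimpArgs false
set_option linter.unusedSectionVars false
set_option linter.unusedTactic false

open scoped TensorProduct

namespace Pool.Agent.H398.Kt

universe u v

open Pool.Agent.H398.Gam Ob

theorem excl (hKs : S_ksPrime.{u, v}) (hKc : S_ksCancel.{u, v})
    (hI : S_integral.{max (u + 1) v}) (hR : S_complete.{max (u + 1) v})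
    (hT : S_towerRing.{max (u + 1) v}) (hN : S_number) (hEi : S_eig.{u, v}) (hQ : S_cubes.{u, v})
    {k : Type u} [Field k] [CharP k 2] (ω : k) (hω : ω ^ 2 + ω + 1 = 0)
    {G : Type v} [Group G] [Fintype G] (hG : ∀ g : G, g * g = 1) (M : Ob k G)
    (hodd : Odd M.dim) (i : ℕ)
    (hg : M.gamma = 2 * Real.cos (Real.pi / (3 * 2 ^ (i + 1) : ℕ))) : False := by
  have hpi := Real.pi_pos
  have h2 : (2 : k) = 0 := CharTwo.two_eq_zero
  have hdim : (M.dim : k) = 1 := by
    obtain ⟨m, hm⟩ := hodd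
    rw [hm]
    push_cast
    rw [h2]
    ring
  set θ : ℝ := Real.pi / (3 * 2 ^ (i + 1) : ℕ) with hθ
  have hn6 : 6 ≤ 3 * 2 ^ (i + 1) := by
    have : 1 ≤ 2 ^ i := Nat.one_le_two_pow
    rw [pow_succ]
    omega
  have hn6' : (6 : ℝ) ≤ (3 * 2 ^ (i + 1) : ℕ) := by exact_mod_cast hn6
  have hθ0 : 0 < θ := by positivity
  have hθ6 : θ ≤ Real.pi / 6 := div_le_div_of_nonneg_left hpi.le (by norm_num) hn6'
  have hA1 : 1 < 2 * Real.cos θ := by
    have h3 : Real.cos (Real.pi / 3) < Real.cos θ := by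
      apply Real.cos_lt_cos_of_nonneg_of_le_pi hθ0.le
      · linarith
      · linarith
    rw [Real.cos_pi_div_three] at h3
    linarith
  have hA2 : 2 * Real.cos θ < 2 := by
    have h3 : Real.cos θ < Real.cos 0 := by
      apply Real.cos_lt_cos_of_nonneg_of_le_pi le_rfl
      · linarith
      · exact hθ0
    rw [Real.cos_zero] at h3
    linarith
  have hM : ¬ M.IsProj := by
    intro h
    rw [gamma_isProj hH M h] at hg
    linarith
  have hM1 : M.dim ≠ 1 := by
    intro h1
    have h3 := gamma_pow_le hH M hM 1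
    have h4 : M.cn 1 ≤ 1 := by
      refine (coreDim_le_dim (M.pow 1)).trans ?_
      change ((one k G).tens M).dim ≤ 1
      rw [dim_tens, dim_one, h1]
    have h5 : (M.cn 1 : ℝ) ≤ 1 := by exact_mod_cast h4
    rw [pow_one, hg] at h3
    linarith
  obtain ⟨E⟩ := exists_eig (k := k) (G := G) hEi hQ ω hω
  obtain ⟨φ, p1, p2, p3⟩ := exists_good hG M (E.E1 M) hM hodd (i + 1) (by omega) hg
  obtain ⟨X, H, r1, r2, r2', r3, r3', hP⟩ := exists_rel hKc hR hT h2 M hdim hM1
  obtain ⟨P, P1, P2, hrel, P4⟩ := hP i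
  rw [hg] at p1 p2
  -- the value on the tower
  have hθi : 3 * 2 ^ i * θ = Real.pi / 2 := by
    rw [hθ]
    push_cast
    rw [pow_succ]
    field_simp
  have hpos : ∀ j < i, Real.cos (3 * 2 ^ j * θ) ≠ 0 := by
    intro j hj
    have h3 : (2 : ℝ) ^ j < 2 ^ i := pow_lt_pow_right₀ (by norm_num) hj
    have h4 : 3 * 2 ^ j * θ < Real.pi / 2 := by
      rw [← hθi]
      nlinarith
    have h5 : 0 < 3 * 2 ^ j * θ := by positivity
    exact (Real.cos_pos_of_mem_Ioo ⟨by linarith, h4⟩).ne'
  have hHi : φ.f (H i) = 0 := by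
    obtain ⟨a1, -⟩ := tower_val φ M X H θ p1 p2 r1 r2 r2' r3 r3' hA1 i hpos
    rw [a1, hθi, Real.cos_pi_div_two, mul_zero]
  have hz : ph φ (cls X * cls (H 0) * cls (H 0).dual * ∏ j ∈ Finset.range i, cls (H (j + 1))) = 0 := by
    rcases Nat.eq_zero_or_pos i with h0 | h0
    · subst h0
      simp only [map_mul, ph_cls]
      rw [hHi]
      ring
    · simp only [map_mul, map_prod, ph_cls]
      have h3 : ∏ j ∈ Finset.range i, φ.f (H (j + 1)) = 0 := by
        apply Finset.prod_eq_zero (Finset.mem_range.mpr (show i - 1 < i by omega))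
        rw [show i - 1 + 1 = i by omega]
        exact hHi
      rw [h3, mul_zero]
  -- the value of `χ`
  have hy := chi_val E φ M
  have hyd : chi E φ (cls M.dual) = chi E φ (cls M) := chi_dual E φ M (by rw [p1, p2]) p3
  have hXy : chi E φ (cls X) = chi E φ (cls M) ^ 2 - 1 := by
    have h3 := congrArg (chi E φ) r1
    rw [map_mul, map_add, map_one, hyd] at h3
    linear_combination -h3
  obtain ⟨j, hj⟩ := P4 (chi E φ (cls M)) (by
    rw [← hXy, rel_eval (chi E φ) P _ _ P1 hrel]
    exact chi_null E φ _ hz)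
  -- integrality
  have hint : IsIntegral ℤ (φ.f (E.E1 M)) := by
    have h3 := hI (IsoCl k G) (decomp_cls hKs) (fun a s t u => prime_cls hKs a s t u) (ph φ)
      (fun s => by
        obtain ⟨A, rfl⟩ := cls_surj s
        exact φ.nonneg A) (map_one _) (map_zero _) (fun s t => map_add _ _ _)
      (fun s t => map_mul _ _ _) (cls X) _ P.natDegree (fun j => (P.coeff j).toNat)
      (fun j => (-P.coeff j).toNat) P2 hz hrel (cls (E.E1 M) * cls (E.E1 M).dual)
      (cls (E.E1 M) * (st (cls (E.E0 M)) + cls (E.E1 M).dual) +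
        (cls (E.E0 M) + cls (E.E1 M)) *
          (cls (E.E1 M).dual + (st (cls (E.E0 M)) + cls (E.E1 M).dual))) 3 (by
        have c1 := E.cube M
        have c2 := congrArg st c1
        have st2 : st (2 : IsoCl k G) = 2 := by
          rw [← one_add_one_eq_two, st_add, st_one]
        rw [st_mul, st_mul, st_add, st_mul, st2, st_cls M, st_cls (E.E1 M)] at c2
        rw [← r1]
        have c3 : (cls M * cls M.dual) ^ 3 =
            (cls M * cls M * cls M) * (cls M.dual * cls M.dual * cls M.dual) := by ring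
        rw [c3, c1, c2]
        ring)
    rw [map_mul, ph_cls, ph_cls, ← p3, ← pow_two] at h3
    exact IsIntegral.of_pow (by norm_num) h3
  have hT' : φ.f (E.E1 M) = ((2 * Real.cos θ) ^ 3 - 2 * Real.cos (j * θ)) / 3 := by
    rw [p1] at hy
    rw [← hj, hy]
    ring
  have hnum := hN (i + 1) j (by omega) (by
    rw [← hθ, ← hT']
    exact hint)
  rw [← hθ] at hnum
  have hTA : φ.f (E.E1 M) = 2 * Real.cos θ := by
    rw [hT', hnum, Real.cos_three_mul]
    ring
  -- the contradiction
  have hTd : Even (E.E1 M).dim := by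
    have h3 := E.parity M hdim
    exact even_iff_two_dvd.mpr ((CharP.cast_eq_zero_iff k 2 _).mp h3)
  have : Fact (Nat.Prime 2) := ⟨Nat.prime_two⟩
  obtain ⟨l, i', c1, c2, c3, c4, c5⟩ := value 2 φ (E.E1 M) (2 * Real.cos θ) hA1.le hA2
    (by rw [← p3, hTA]; ring)
  have hl : l = 2 := l_even (k := k) _ l hTd c1 c2 c3
  rw [hl, hθ] at c5
  have h6 := cos_inj _ _ (by omega) (by rw [hl] at c4; omega) c5
  have h7 : 3 ∣ 2 ^ (i' + 1) := ⟨2 ^ (i + 1), by rw [h6, pow_succ]; ring⟩
  have h8 := Nat.Prime.dvd_of_dvd_pow Nat.prime_three h7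
  omega

/-- Base change preserves `γ`. -/
theorem gamma_base {k K : Type u} [Field k] [Field K] {G : Type v} [Group G] [Fintype G]
    (F : Ob k G → Ob K G) (f2 : ∀ A B, (F (A.tens B)).Iso ((F A).tens (F B)))
    (f4 : (F (one k G)).Iso (one K G)) (f5 : ∀ A, (F A).coreDim = A.coreDim) (M : Ob k G) :
    (F M).gamma = M.gamma := by
  have hpow : ∀ n, (F (M.pow n)).Iso ((F M).pow n) := by
    intro n
    induction n with
    | zero => exact f4
    | succ n ih => exact (f2 _ _).trans (Iso.tens_congr ih (Iso.refl _))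
  unfold gamma
  congr 1
  ext n
  rw [← coreDim_iso (hpow n), f5]

/-- **Q1 and Q2** for elementary abelian `2`-groups, modulo the interface statements. -/
theorem mainB (hKs : S_ksPrime.{u, v}) (hKc : S_ksCancel.{u, v})
    (hI : S_integral.{max (u + 1) v}) (hR : S_complete.{max (u + 1) v})
    (hT : S_towerRing.{max (u + 1) v}) (hN : S_number) (hEi : S_eig.{u, v}) (hQ : S_cubes.{u, v})
    (hB : S_obBase.{u, v})
    {k : Type u} [Field k] [CharP k 2] {G : Type v} [Group G] [Fintype G]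
    (hG : ∀ g : G, g * g = 1) (M : Ob k G) (h1 : 1 < M.gamma) (h2 : M.gamma < 2) :
    ∃ i : ℕ, 2 ≤ i ∧ M.gamma = 2 * Real.cos (Real.pi / (2 ^ i : ℕ)) := by
  obtain ⟨n, ⟨b1, b2, b3, b4⟩, hn⟩ := value_elemAb hG M h1 h2
  rcases Nat.even_or_odd M.dim with he | ho
  · obtain ⟨i, hi⟩ := b3 rfl he
    refine ⟨i, ?_, by rw [hn, hi]⟩
    by_contra hcon
    have : i = 0 ∨ i = 1 := by omega
    rcases this with h | h
    · rw [hi, h] at b1; norm_num at b1
    · rw [hi, h] at b1; norm_num at b1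
  · exfalso
    obtain ⟨i, hi⟩ := b4 rfl ho
    obtain ⟨i', rfl⟩ : ∃ i', i = i' + 1 := by
      refine ⟨i - 1, ?_⟩
      have : i ≠ 0 := by
        rintro rfl
        rw [hi] at b1
        norm_num at b1
      omega
    let K := AlgebraicClosure k
    have hK : CharP K 2 := charP_of_injective_algebraMap (FaithfulSMul.algebraMap_injective k K) 2
    obtain ⟨F, f1, f2, f3, f4, f5, f6⟩ := hB k K G hG
    obtain ⟨ω, hω⟩ : ∃ ω : K, ω ^ 2 + ω + 1 = 0 := by
      have hdeg : (Polynomial.X ^ 2 + Polynomial.X + 1 : Polynomial K).degree ≠ 0 := by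
        have : (Polynomial.X ^ 2 + Polynomial.X + 1 : Polynomial K).degree = 2 := by
          compute_degree!
        rw [this]
        decide
      obtain ⟨ω, hω⟩ := IsAlgClosed.exists_root _ hdeg
      exact ⟨ω, by simpa [Polynomial.IsRoot] using hω⟩
    exact excl hKs hKc hI hR hT hN hEi hQ ω hω hG (F M) (by rw [f6]; exact ho) i'
      (by rw [gamma_base F f2 f4 f5, hn, hi])

end Pool.Agent.H398.Kt
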