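import Pool.Agent.H398.Kt.MainA
import Pool.Agent.H398.Kt.Chi

/-!
# Good characters; exclusion of `n = 3 * 2 ^ i`
-/

set_option autoImplicit false
set_option linter.unusedVariables false
set_option linter.unusedSimpArgs false
set_option linter.unusedSectionVars false
set_option linter.unusedTactic false

open scoped TensorProduct

namespace Pool.Agent.H398.Kt

universe u v

open Pool.Agent.H398.Gam Ob

variable {k : Type u} [Field k] {G : Type v} [Group G] [Fintype G]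

theorem coreDim_le_dim (A : Ob k G) : A.coreDim ≤ A.dim :=
  coreDim_le (A := A) (B := A) (zero_isProj hH) (prod_zero A)

theorem pc_pow (φ : PosChar k G) (A : Ob k G) (n : ℕ) : φ.f (A.pow n) = φ.f A ^ n := by
  induction n with
  | zero => rw [pow_zero]; exact φ.one
  | succ n ih => rw [pow_succ, ← ih]; exact φ.tens _ _

theorem eq_of_mul_sq {a b g : ℝ} (ha : a ≤ g) (hb : b ≤ g) (hg : 0 < g) (h0 : 0 ≤ a)
    (h0' : 0 ≤ b) (h : a * b = g ^ 2) : a = g ∧ b = g := by
  constructor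
  · nlinarith
  · nlinarith

/-- The spectrum: values of a good character on `M ⊗ M^*`. -/
theorem good_vals [CharP k 2] (M : Ob k G) (hM : ¬ M.IsProj) (hodd : Odd M.dim) (i : ℕ)
    (hi : 1 ≤ i) (hg : M.gamma = 2 * Real.cos (Real.pi / (3 * 2 ^ i : ℕ))) (φ : PosChar k G)
    (hφ : ∀ A, φ.f A ≤ A.coreDim) :
    φ.f M * φ.f M.dual = M.gamma ^ 2 ∨
      φ.f M * φ.f M.dual ≤ (2 * Real.cos (Real.pi / (3 * 2 ^ (i - 1) : ℕ))) ^ 2 := by
  have hpi := Real.pi_pos
  have a1 := good_le_gamma hH φ hφ M hM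
  have a2 : φ.f M.dual ≤ M.gamma := by
    rw [← gamma_dual hH M]
    exact good_le_gamma hH φ hφ M.dual (dual_not_isProj hH M hM)
  have b1 := φ.nonneg M
  have b2 := φ.nonneg M.dual
  have hcosle : ∀ n m : ℕ, 3 ≤ n → n ≤ m → Real.cos (Real.pi / n) ≤ Real.cos (Real.pi / m) := by
    intro n m hn hnm
    have h1 : (3 : ℝ) ≤ n := by exact_mod_cast hn
    have h2 : (n : ℝ) ≤ m := by exact_mod_cast hnm
    apply Real.cos_le_cos_of_nonneg_of_le_pi
    · positivity
    · exact div_le_self hpi.le (by linarith)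
    · exact div_le_div_of_nonneg_left hpi.le (by linarith) h2
  have h3i : 3 ≤ 3 * 2 ^ (i - 1) := by
    have : 1 ≤ 2 ^ (i - 1) := Nat.one_le_two_pow
    omega
  have hA' : 1 ≤ 2 * Real.cos (Real.pi / (3 * 2 ^ (i - 1) : ℕ)) := by
    have := hcosle 3 (3 * 2 ^ (i - 1)) le_rfl h3i
    have h3 : Real.cos (Real.pi / ((3 : ℕ) : ℝ)) = 1 / 2 := by
      push_cast
      exact Real.cos_pi_div_three
    rw [h3] at this
    linarith
  have hg2 : M.gamma < 2 := by
    rw [hg]
    have h1 : Real.cos (Real.pi / (3 * 2 ^ i : ℕ)) < 1 := by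
      have h2 : 0 < (3 * 2 ^ i : ℕ) := by positivity
      have h3 : (0 : ℝ) < (3 * 2 ^ i : ℕ) := by exact_mod_cast h2
      have h4 : (3 : ℝ) ≤ (3 * 2 ^ i : ℕ) := by
        have : 3 ≤ 3 * 2 ^ i := by
          have : 1 ≤ 2 ^ i := Nat.one_le_two_pow
          omega
        exact_mod_cast this
      rw [← Real.cos_zero]
      apply Real.cos_lt_cos_of_nonneg_of_le_pi le_rfl
      · exact div_le_self hpi.le (by linarith)
      · positivity
    linarith
  have hg0 : 0 ≤ M.gamma := le_trans b1 a1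
  by_cases ht : φ.f M * φ.f M.dual < 1
  · right
    nlinarith
  · rw [not_lt] at ht
    have hsq := Real.sq_sqrt (show (0 : ℝ) ≤ φ.f M * φ.f M.dual by linarith)
    have hle : φ.f M * φ.f M.dual ≤ M.gamma ^ 2 := by nlinarith
    have hsle : Real.sqrt (φ.f M * φ.f M.dual) ≤ M.gamma := by
      rw [show M.gamma = Real.sqrt (M.gamma ^ 2) by rw [Real.sqrt_sq hg0]]
      exact Real.sqrt_le_sqrt hle
    have hs1 : 1 ≤ Real.sqrt (φ.f M * φ.f M.dual) := by
      rw [show (1 : ℝ) = Real.sqrt 1 by rw [Real.sqrt_one]]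
      exact Real.sqrt_le_sqrt ht
    have : Fact (Nat.Prime 2) := ⟨Nat.prime_two⟩
    obtain ⟨l, i', c1, c2, c3, c4, c5⟩ := value 2 φ M (Real.sqrt (φ.f M * φ.f M.dual)) hs1
      (by linarith) hsq.symm
    have hl : l = 3 := l_odd (k := k) M.dim l hodd c1 c2 c3
    rw [hl] at c5
    rcases lt_trichotomy i' i with h | h | h
    · right
      rw [← hsq, c5]
      have h1 : 3 * 2 ^ i' ≤ 3 * 2 ^ (i - 1) :=
        Nat.mul_le_mul_left _ (Nat.pow_le_pow_right (by norm_num) (by omega))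
      have h2 : 3 ≤ 3 * 2 ^ i' := by
        have : 1 ≤ 2 ^ i' := Nat.one_le_two_pow
        omega
      have h3 := hcosle _ _ h2 h1
      apply pow_le_pow_left₀
      · rw [← c5]; linarith
      · linarith
    · left
      rw [← hsq, c5, h, hg]
    · exfalso
      rw [c5, hg] at hsle
      have h1 : 3 * 2 ^ i < 3 * 2 ^ i' := by
        have := Nat.pow_lt_pow_right (a := 2) (by norm_num) h
        omega
      have h2 : 3 ≤ 3 * 2 ^ i := by
        have : 1 ≤ 2 ^ i := Nat.one_le_two_pow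
        omega
      have h3 := hcosle _ _ h2 h1.le
      have h4 : 2 * Real.cos (Real.pi / (3 * 2 ^ i : ℕ)) = 2 * Real.cos (Real.pi / (3 * 2 ^ i' : ℕ)) := by
        linarith
      have := cos_inj _ _ (by omega) (by omega) h4
      omega

/-- **Existence of a good character**, with equal values on `M`, `M^*` and on `T`, `T^*`. -/
theorem exists_good [CharP k 2] (hG : ∀ g : G, g * g = 1) (M T : Ob k G)
    (hM : ¬ M.IsProj) (hodd : Odd M.dim) (i : ℕ) (hi : 1 ≤ i)
    (hg : M.gamma = 2 * Real.cos (Real.pi / (3 * 2 ^ i : ℕ))) :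
    ∃ φ : PosChar k G, φ.f M = M.gamma ∧ φ.f M.dual = M.gamma ∧ φ.f T = φ.f T.dual := by
  have hpi := Real.pi_pos
  have hcoslt : ∀ n m : ℕ, 3 ≤ n → n < m → Real.cos (Real.pi / n) < Real.cos (Real.pi / m) := by
    intro n m hn hnm
    have h1 : (3 : ℝ) ≤ n := by exact_mod_cast hn
    have h2 : (n : ℝ) < m := by exact_mod_cast hnm
    apply Real.cos_lt_cos_of_nonneg_of_le_pi
    · positivity
    · exact div_le_self hpi.le (by linarith)
    · exact div_lt_div_of_pos_left hpi (by linarith) h2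
  have hg1 := gamma_pos hH M hM
  set A' := 2 * Real.cos (Real.pi / (3 * 2 ^ (i - 1) : ℕ)) with hA'def
  have hA'lt : A' < M.gamma := by
    rw [hA'def, hg]
    have h1 : 3 * 2 ^ (i - 1) < 3 * 2 ^ i := by
      have := Nat.pow_lt_pow_right (a := 2) (by norm_num) (show i - 1 < i by omega)
      omega
    have h2 : 3 ≤ 3 * 2 ^ (i - 1) := by
      have : 1 ≤ 2 ^ (i - 1) := Nat.one_le_two_pow
      omega
    have := hcoslt _ _ h2 h1
    linarith
  have hA'0 : 0 ≤ A' := by
    have h2 : 3 ≤ 3 * 2 ^ (i - 1) := by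
      have : 1 ≤ 2 ^ (i - 1) := Nat.one_le_two_pow
      omega
    have h3 : (3 : ℝ) ≤ (3 * 2 ^ (i - 1) : ℕ) := by exact_mod_cast h2
    have h4 : 0 ≤ Real.cos (Real.pi / (3 * 2 ^ (i - 1) : ℕ)) := by
      apply Real.cos_nonneg_of_neg_pi_div_two_le_of_le
      · have : 0 ≤ Real.pi / (3 * 2 ^ (i - 1) : ℕ) := by positivity
        linarith
      · exact div_le_div_of_nonneg_left hpi.le (by norm_num) (by linarith)
    rw [hA'def]
    linarith
  set q := (A' / M.gamma) ^ 2 with hqdef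
  have hq0 : 0 ≤ q := by positivity
  have hq1 : q < 1 := by
    rw [hqdef, sq_lt_one_iff₀ (by positivity), div_lt_one (by linarith)]
    exact hA'lt
  set τ : ℝ := (T.dim : ℝ) with hτ
  have hτ0 : 0 ≤ τ := Nat.cast_nonneg _
  obtain ⟨L, hL⟩ := exists_pow_lt_of_lt_one (show (0 : ℝ) < 1 / (1 + τ) ^ 2 by positivity) hq1
  set Y : Ob k G := (M.pow L).tens ((one k G).prod T) with hY
  have hval : ∀ ψ : PosChar k G, ψ.f Y = ψ.f M ^ L * (1 + ψ.f T) := by
    intro ψ
    rw [hY, ψ.tens, pc_pow, ψ.prod, ψ.one]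
  obtain ⟨ψ, hψ, hψM⟩ := exists_posChar hH hA hE M hM
  have hYψ : M.gamma ^ L ≤ ψ.f Y := by
    rw [hval, hψM]
    have := ψ.nonneg T
    have h1 : 0 < M.gamma ^ L := by positivity
    nlinarith
  have hYn : ¬ Y.IsProj := by
    intro h
    have h1 := good_proj hH ψ hψ Y h
    rw [h1] at hYψ
    have : 0 < M.gamma ^ L := by positivity
    linarith
  have hYγ : M.gamma ^ L ≤ Y.gamma := hYψ.trans (good_le_gamma hH ψ hψ Y hYn)
  have hYY := tens_dual_not_isProj hH Y hYn
  obtain ⟨φ, hφ, hφv⟩ := exists_posChar hH hA hE _ hYY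
  rw [gamma_tens_dual_eq hG Y hYn, φ.tens] at hφv
  have hY1 := good_le_gamma hH φ hφ Y hYn
  have hY2 : φ.f Y.dual ≤ Y.gamma := by
    rw [← gamma_dual hH Y]
    exact good_le_gamma hH φ hφ Y.dual (dual_not_isProj hH Y hYn)
  have hYpos : 0 < Y.gamma := by
    have := gamma_pos hH Y hYn
    linarith
  obtain ⟨e1, e2⟩ := eq_of_mul_sq hY1 hY2 hYpos (φ.nonneg _) (φ.nonneg _) hφv
  have f1 : φ.f Y = φ.f M ^ L * (1 + φ.f T) := hval φ
  have f2 : φ.f Y.dual = φ.f M.dual ^ L * (1 + φ.f T.dual) := by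
    have := hval φ.star
    simp only [φ.star_f] at this
    exact this
  have t1 : φ.f T ≤ τ := (hφ T).trans (by rw [hτ]; exact_mod_cast coreDim_le_dim T)
  have t2 : φ.f T.dual ≤ τ := (hφ T.dual).trans (by
    rw [hτ, ← dim_dual T]
    exact_mod_cast coreDim_le_dim T.dual)
  have t3 := φ.nonneg T
  have t4 := φ.nonneg T.dual
  have hMM : φ.f M * φ.f M.dual = M.gamma ^ 2 := by
    rcases good_vals M hM hodd i hi hg φ hφ with h | h
    · exact h
    · exfalso
      have h1 : (M.gamma ^ L) ^ 2 ≤ Y.gamma ^ 2 := pow_le_pow_left₀ (by positivity) hYγ 2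
      rw [← hφv, f1, f2] at h1
      have h2 : φ.f M ^ L * (1 + φ.f T) * (φ.f M.dual ^ L * (1 + φ.f T.dual)) =
          (φ.f M * φ.f M.dual) ^ L * ((1 + φ.f T) * (1 + φ.f T.dual)) := by ring
      rw [h2] at h1
      have h3 : (φ.f M * φ.f M.dual) ^ L ≤ (A' ^ 2) ^ L :=
        pow_le_pow_left₀ (mul_nonneg (φ.nonneg _) (φ.nonneg _)) h L
      have h4 : (1 + φ.f T) * (1 + φ.f T.dual) ≤ (1 + τ) ^ 2 := by nlinarith
      have h5 : (φ.f M * φ.f M.dual) ^ L * ((1 + φ.f T) * (1 + φ.f T.dual)) ≤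
          (A' ^ 2) ^ L * (1 + τ) ^ 2 :=
        mul_le_mul h3 h4 (by positivity) (by positivity)
      have h6 : (A' ^ 2) ^ L = q ^ L * (M.gamma ^ L) ^ 2 := by
        rw [hqdef, div_pow, div_pow, ← pow_mul, ← pow_mul, ← pow_mul, mul_comm 2 L]
        field_simp
      have h7 : q ^ L * (1 + τ) ^ 2 < 1 := by
        rw [lt_div_iff₀ (by positivity)] at hL
        exact hL
      have h8 : 0 < (M.gamma ^ L) ^ 2 := by positivity
      have h9 : (A' ^ 2) ^ L * (1 + τ) ^ 2 = (q ^ L * (1 + τ) ^ 2) * (M.gamma ^ L) ^ 2 := by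
        rw [h6]; ring
      rw [h9] at h5
      nlinarith
  have hM1 := good_le_gamma hH φ hφ M hM
  have hM2 : φ.f M.dual ≤ M.gamma := by
    rw [← gamma_dual hH M]
    exact good_le_gamma hH φ hφ M.dual (dual_not_isProj hH M hM)
  obtain ⟨g1, g2⟩ := eq_of_mul_sq hM1 hM2 (by linarith) (φ.nonneg _) (φ.nonneg _) hMM
  refine ⟨φ, g1, g2, ?_⟩
  rw [f1, g1] at e1
  rw [f2, g2] at e2
  have h10 : 0 < M.gamma ^ L := by positivity
  have h11 : M.gamma ^ L * (1 + φ.f T) = M.gamma ^ L * (1 + φ.f T.dual) := by rw [e1, e2]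
  have := mul_left_cancel₀ h10.ne' h11
  linarith

end Pool.Agent.H398.Kt
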