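import Pool.Agent.H398.Kt.Iface3

/-!
# The Green semiring: atoms, duality, the tower
-/

set_option autoImplicit false
set_option linter.unusedVariables false
set_option linter.unusedSimpArgs false
set_option linter.unusedSectionVars false
set_option linter.unusedTactic false

open scoped TensorProduct

namespace Pool.Agent.H398.Kt

universe u v

open Pool.Agent.H398.Gam Ob

variable {k : Type u} [Field k] {G : Type v} [Group G]

theorem cls_of_dim_zero {A : Ob k G} (h : A.dim = 0) : cls A = 0 :=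
  cls_eq (iso_of_dim_zero h zero_dim)

theorem dim_of_cls_zero {A : Ob k G} (h : cls A = 0) : A.dim = 0 := by
  have := dim_eq_of_iso (cls_exact h)
  rwa [zero_dim] at this

theorem atm_of_indec {N : Ob k G} (h : Indec N) : Atm (cls N) := by
  refine ⟨fun h0 => h.1 (dim_of_cls_zero h0), fun b c hbc => ?_⟩
  obtain ⟨B, rfl⟩ := cls_surj b
  obtain ⟨C, rfl⟩ := cls_surj c
  rcases h.2 B C (cls_exact hbc) with h1 | h1
  · exact Or.inl (cls_of_dim_zero h1)
  · exact Or.inr (cls_of_dim_zero h1)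

theorem indec_of_atm {N : Ob k G} (h : Atm (cls N)) : Indec N := by
  refine ⟨fun h0 => h.1 (cls_of_dim_zero h0), fun A B hAB => ?_⟩
  rcases h.2 (cls A) (cls B) (cls_eq hAB) with h1 | h1
  · exact Or.inl (dim_of_cls_zero h1)
  · exact Or.inr (dim_of_cls_zero h1)

theorem decomp_cls (hK : S_ksPrime.{u, v}) (s : IsoCl k G) :
    ∃ l : Multiset (IsoCl k G), s = l.sum ∧ ∀ a ∈ l, Atm a := by
  obtain ⟨A, rfl⟩ := cls_surj s
  obtain ⟨l, h1, h2⟩ := (hK k G).2 A
  refine ⟨(l.map cls : Multiset (IsoCl k G)), ?_, ?_⟩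
  · rw [cls_eq h2]
    clear h1 h2
    induction l with
    | nil => rfl
    | cons a l ih =>
      rw [List.foldr_cons, ← cls_add, ih, List.map_cons, ← Multiset.cons_coe, Multiset.sum_cons]
  · intro a ha
    rw [Multiset.mem_coe, List.mem_map] at ha
    obtain ⟨N, hN, rfl⟩ := ha
    exact atm_of_indec (h1 N hN)

theorem prime_cls (hK : S_ksPrime.{u, v}) (a s t u : IsoCl k G) (ha : Atm a)
    (h : a + u = s + t) : (∃ c, s = a + c) ∨ (∃ c, t = a + c) := by
  obtain ⟨N, rfl⟩ := cls_surj a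
  obtain ⟨A, rfl⟩ := cls_surj s
  obtain ⟨B, rfl⟩ := cls_surj t
  obtain ⟨U, rfl⟩ := cls_surj u
  rcases (hK k G).1 N A B U (indec_of_atm ha) (cls_exact h) with ⟨C, hC⟩ | ⟨C, hC⟩
  · exact Or.inl ⟨cls C, cls_eq hC⟩
  · exact Or.inr ⟨cls C, cls_eq hC⟩

theorem cancel_cls (hC : S_ksCancel.{u, v}) (a b c : IsoCl k G) (h : a + c = b + c) : a = b := by
  obtain ⟨A, rfl⟩ := cls_surj a
  obtain ⟨B, rfl⟩ := cls_surj b
  obtain ⟨C, rfl⟩ := cls_surj c
  exact cls_eq (hC k G A B C (cls_exact h))

/-- Duality on isomorphism classes. -/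
noncomputable def st (x : IsoCl k G) : IsoCl k G :=
  Quotient.lift (fun A : Ob k G => cls A.dual) (fun _ _ h => cls_eq (Iso.dual_congr h)) x

theorem st_cls (A : Ob k G) : st (cls A) = cls A.dual := rfl

theorem st_add (x y : IsoCl k G) : st (x + y) = st x + st y := by
  obtain ⟨A, rfl⟩ := cls_surj x
  obtain ⟨B, rfl⟩ := cls_surj y
  rw [cls_add, st_cls, st_cls, st_cls, cls_add]
  exact cls_eq (dual_prod A B).symm

theorem st_mul (x y : IsoCl k G) : st (x * y) = st x * st y := by
  obtain ⟨A, rfl⟩ := cls_surj x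
  obtain ⟨B, rfl⟩ := cls_surj y
  rw [cls_mul, st_cls, st_cls, st_cls, cls_mul]
  exact cls_eq (dual_tens A B).symm

theorem st_one : st (1 : IsoCl k G) = 1 := cls_eq dual_one

theorem st_st (x : IsoCl k G) : st (st x) = x := by
  obtain ⟨A, rfl⟩ := cls_surj x
  rw [st_cls, st_cls]
  exact cls_eq (dual_dual A).symm

/-- The next member of the tower. -/
theorem exists_next (h2 : (2 : k) = 0) (H : Ob k G) (hH : (H.dim : k) = 0) :
    ∃ H' : Ob k G, (H'.dim : k) = 0 ∧
      cls H * cls H.dual * cls H = 2 * cls H + cls H' * cls H := by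
  by_cases hd : H.dim = 0
  · refine ⟨zero k G, by rw [zero_dim, Nat.cast_zero], ?_⟩
    rw [cls_of_dim_zero hd]
    simp
  · have hc : (Fintype.card (Fin H.dim) : k) = 0 := by simpa using hH
    have St0 := Stage.first (mm H)
    rw [hc] at St0
    have hiso1 : H.Iso (ofMat (mm H)) := H.mat_iso _
    have hiso2 : H.dual.Iso (ofMat (dualMat (mm H))) := H.mat_dual_iso _
    have hB : (ofMat (mm H)).dim ≠ 0 := by
      rw [← dim_eq_of_iso hiso1]; exact hd
    obtain ⟨H', h1, h3⟩ := homology St0 hB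
    refine ⟨H', ?_, ?_⟩
    · have h4 : ((H'.dim + 2 * (one k G).dim : ℕ) : k) =
          ((Fintype.card (Fin H.dim) * (ofMat (mm H)).dim : ℕ) : k) := by rw [h1]
      push_cast at h4
      rw [hc, zero_mul, h2, zero_mul, add_zero] at h4
      exact h4
    · have e1 : cls H = cls (ofMat (mm H)) := cls_eq hiso1
      have e2 : cls H.dual = cls (ofMat (dualMat (mm H))) := cls_eq hiso2
      have e3 : cls ((ofMat (mm H)).ext (dualMat (mm H))) = cls H * cls H.dual := by
        rw [e1, e2, cls_mul]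
        exact (cls_eq (ext_iso _ _)).symm
      have h5 := cls_eq h3
      rw [← cls_mul, ← cls_add, ← cls_add, ← cls_mul, ← cls_mul, e3, ← e1] at h5
      rw [h5]
      have e4 : cls (one k G) * cls H = cls H := by rw [← cls_one, one_mul]
      rw [e4, two_mul]
      ring

/-- The tower starting with `H`. -/
theorem exists_seq (h2 : (2 : k) = 0) (H0 : Ob k G) (hH : (H0.dim : k) = 0) :
    ∃ H : ℕ → Ob k G, H 0 = H0 ∧
      ∀ j, cls (H j) * cls (H j).dual * cls (H j) = 2 * cls (H j) + cls (H (j + 1)) * cls (H j) := by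
  choose nx hn1 hn2 using fun (A : {A : Ob k G // (A.dim : k) = 0}) => exists_next h2 A.1 A.2
  let s : ℕ → {A : Ob k G // (A.dim : k) = 0} :=
    fun n => Nat.rec ⟨H0, hH⟩ (fun _ A => ⟨nx A, hn1 A⟩) n
  exact ⟨fun j => (s j).1, rfl, fun j => hn2 (s j)⟩

/-- The beginning of the tower. -/
theorem exists_start (h2 : (2 : k) = 0) (M : Ob k G) (hM : (M.dim : k) = 1) (hM1 : M.dim ≠ 1) :
    ∃ X H0 : Ob k G, (H0.dim : k) = 0 ∧ (X.dim : k) = 0 ∧ cls M * cls M.dual = 1 + cls X ∧
      cls X * cls M * cls X = 2 * (cls M * cls X) + cls H0 * cls X := by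
  have hc : (Fintype.card (Fin M.dim) : k) = 1 := by simpa using hM
  have hiso1 : M.Iso (ofMat (mm M)) := M.mat_iso _
  have hiso2 : M.dual.Iso (ofMat (dualMat (mm M))) := M.mat_dual_iso _
  obtain ⟨X, ⟨St⟩, hX⟩ := step (Stage.first (mm M)) (by rw [hc]; exact one_ne_zero)
  have hκ : ((Fintype.card (Fin M.dim) : k) - ((Fintype.card (Fin M.dim) : k))⁻¹) = 0 := by
    rw [hc, inv_one, sub_self]
  rw [hκ] at St
  have e1 : cls M = cls (ofMat (mm M)) := cls_eq hiso1
  have e2 : cls M.dual = cls (ofMat (dualMat (mm M))) := cls_eq hiso2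
  have e3 : cls ((ofMat (mm M)).ext (dualMat (mm M))) = cls M * cls M.dual := by
    rw [e1, e2, cls_mul]
    exact (cls_eq (ext_iso _ _)).symm
  have h5 : cls M * cls M.dual = 1 + cls X := by
    rw [← e3, cls_one, cls_add]
    exact cls_eq hX
  have hd := dim_eq_of_iso hX
  rw [dim_ext, dim_prod, dim_one, ← dim_eq_of_iso hiso1] at hd
  simp only [Fintype.card_fin] at hd
  have hXd : (X.dim : k) = 0 := by
    have h6 : ((M.dim * M.dim : ℕ) : k) = ((1 + X.dim : ℕ) : k) := by rw [hd]
    push_cast at h6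
    rw [hM, one_mul] at h6
    linear_combination -h6
  have hX0 : X.dim ≠ 0 := by
    intro h0
    rw [h0, add_zero] at hd
    apply hM1
    exact Nat.eq_one_of_mul_eq_one_right hd
  obtain ⟨H0, h7, h8⟩ := homology St hX0
  refine ⟨X, H0, ?_, hXd, h5, ?_⟩
  · have h9 : ((H0.dim + 2 * (ofMat (mm M)).dim : ℕ) : k) =
        ((Fintype.card (Fin M.dim) * X.dim : ℕ) : k) := by rw [h7]
    push_cast at h9
    rw [hXd, mul_zero, h2, zero_mul, add_zero] at h9
    exact h9
  · rw [dualMat_dualMat] at h8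
    have e4 : cls (X.ext (mm M)) = cls X * cls M := by
      rw [e1, cls_mul]
      exact (cls_eq (ext_iso _ _)).symm
    have h9 := cls_eq h8
    rw [← cls_mul, ← cls_add, ← cls_add, ← cls_mul, ← cls_mul, e4, ← e1] at h9
    rw [h9]
    ring

/-- **The polynomial relation** satisfied by `X`. -/
theorem exists_rel (hC : S_ksCancel.{u, v}) (hR : S_complete.{max (u + 1) v})
    (hT : S_towerRing.{max (u + 1) v}) (h2 : (2 : k) = 0) (M : Ob k G) (hM : (M.dim : k) = 1)
    (hM1 : M.dim ≠ 1) :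
    ∃ (X : Ob k G) (H : ℕ → Ob k G), cls M * cls M.dual = 1 + cls X ∧
      cls X * cls M * cls X = 2 * (cls M * cls X) + cls (H 0) * cls X ∧
      cls X * cls M.dual * cls X = 2 * (cls M.dual * cls X) + cls (H 0).dual * cls X ∧
      (∀ j, cls (H j) * cls (H j).dual * cls (H j) =
        2 * cls (H j) + cls (H (j + 1)) * cls (H j)) ∧
      (∀ j, cls (H j).dual * cls (H j) * cls (H j).dual =
        2 * cls (H j).dual + cls (H (j + 1)).dual * cls (H j).dual) ∧
      ∀ i : ℕ, ∃ P : Polynomial ℤ, P.Monic ∧ 1 ≤ P.natDegree ∧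
        (cls X) ^ P.natDegree + ∑ j ∈ Finset.range P.natDegree,
            (((P.coeff j).toNat : ℕ) : IsoCl k G) * (cls X) ^ j =
          cls X * cls (H 0) * cls (H 0).dual * ∏ j ∈ Finset.range i, cls (H (j + 1)) +
            ∑ j ∈ Finset.range P.natDegree, (((-P.coeff j).toNat : ℕ) : IsoCl k G) * (cls X) ^ j ∧
        (∀ y : ℝ, Polynomial.aeval (y ^ 2 - 1) P = 0 →
          ∃ j : ℤ, y = 2 * Real.cos (j * (Real.pi / (3 * 2 ^ (i + 1) : ℕ)))) := by
  obtain ⟨X, H0, hH0, hX, r1, r2⟩ := exists_start h2 M hM hM1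
  obtain ⟨H, rfl, r3⟩ := exists_seq h2 H0 hH0
  have hXs : st (cls X) = cls X := by
    have h := congrArg st r1
    rw [st_mul, st_add, st_one, st_cls M, ← st_cls M, st_st, st_cls M, mul_comm, r1] at h
    apply (cancel_cls hC _ _ 1 _)
    rw [add_comm _ (1 : IsoCl k G), add_comm _ (1 : IsoCl k G)]
    exact h.symm
  have st2 : st (2 : IsoCl k G) = 2 := by
    rw [← one_add_one_eq_two, st_add, st_one]
  have r2' : cls X * cls M.dual * cls X = 2 * (cls M.dual * cls X) + cls (H 0).dual * cls X := by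
    have h := congrArg st r2
    rw [st_mul, st_mul, st_add, st_mul, st_mul, st_mul, hXs, st2, st_cls, st_cls] at h
    exact h
  have r3' : ∀ j, cls (H j).dual * cls (H j) * cls (H j).dual =
        2 * cls (H j).dual + cls (H (j + 1)).dual * cls (H j).dual := by
    intro j
    have h := congrArg st (r3 j)
    rw [st_mul, st_mul, st_add, st_mul, st_mul, st2, ← st_cls (H j), st_st, st_cls (H (j + 1)),
      st_cls (H j)] at h
    exact h
  refine ⟨X, H, r1, r2, r2', r3, r3', fun i => ?_⟩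
  obtain ⟨P, p1, p2, p3, p4⟩ := hT i
  obtain ⟨R, _, ι, hι⟩ := hR (IsoCl k G) (cancel_cls hC)
  refine ⟨P, p1, p2, ?_, p4⟩
  have h := p3 R (ι (cls M)) (ι (cls M.dual)) (ι (cls X)) (fun j => ι (cls (H j)))
    (fun j => ι (cls (H j).dual))
    (by rw [← map_mul, r1, map_add, map_one])
    (by
      have := congrArg ι r2
      simpa only [map_mul, map_add, map_ofNat] using this)
    (by
      have := congrArg ι r2'
      simpa only [map_mul, map_add, map_ofNat] using this)
    (fun j _ => by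
      have := congrArg ι (r3 j)
      simpa only [map_mul, map_add, map_ofNat] using this)
    (fun j _ => by
      have := congrArg ι (r3' j)
      simpa only [map_mul, map_add, map_ofNat] using this)
  apply hι
  simp only [map_add, map_mul, map_prod, map_sum, map_pow, map_natCast]
  rw [← h, Polynomial.aeval_eq_sum_range, Finset.sum_range_succ, p1.coeff_natDegree, one_smul]
  have key : ∀ j, (((P.coeff j).toNat : ℕ) : R) * ι (cls X) ^ j =
      P.coeff j • ι (cls X) ^ j + (((-P.coeff j).toNat : ℕ) : R) * ι (cls X) ^ j := by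
    intro j
    have h1 : ((P.coeff j).toNat : ℤ) = P.coeff j + ((-P.coeff j).toNat : ℤ) := by omega
    have h3 : (((P.coeff j).toNat : ℕ) : R) = (P.coeff j : R) + (((-P.coeff j).toNat : ℕ) : R) := by
      have := congrArg (Int.cast : ℤ → R) h1
      push_cast at this
      exact this
    rw [h3, add_mul, zsmul_eq_mul]
  rw [Finset.sum_congr rfl (fun j _ => key j), Finset.sum_add_distrib]
  ring

end Pool.Agent.H398.Kt
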