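import Pool.Agent.H398.Kt.Iface
import Pool.Agent.H398.Gam.Assemble2

/-!
# Interfaces: group representations and base change
-/

set_option autoImplicit false
set_option linter.unusedVariables false

open scoped TensorProduct

namespace Pool.Agent.H398.Kt

universe u v

open Pool.Agent.H398.Gam

/-- **K9.** From representations of an elementary abelian `2`-group to `Md`. -/
def S_bridge : Prop :=
  ∀ (k : Type u) [Field k] [CharP k 2] (G : Type v) [Group G] [Fintype G],
    (∀ g : G, g * g = 1) →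
    ∃ (r : ℕ) (F : Ob k G → Md k r), (∀ A B, A.Iso B → (F A).Iso (F B)) ∧
      (∀ A B, (F (A.tens B)).Iso ((F A).tens (F B))) ∧ (∀ A, (F A.dual).Iso (F A).dual) ∧
      (F (Ob.one k G)).Iso (Md.one k r) ∧ (∀ A, (F A).core = A.coreDim) ∧
      (∀ A B, (F (A.prod B)).Iso ((F A).prod (F B))) ∧
      (∀ A, (F A).dim = A.dim) ∧ (r = 0 → ∀ A : Ob k G, A.coreDim = 0)

/-- **K10.** Base change. -/
def S_base : Prop :=
  ∀ (k K : Type u) [Field k] [Field K] [Algebra k K] [CharP k 2] [CharP K 2] (r : ℕ),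
    ∃ F : Md k r → Md K r, (∀ A B, A.Iso B → (F A).Iso (F B)) ∧
      (∀ A B, (F (A.tens B)).Iso ((F A).tens (F B))) ∧ (∀ A, (F A.dual).Iso (F A).dual) ∧
      (F (Md.one k r)).Iso (Md.one K r) ∧ (∀ A, (F A).core = A.core) ∧
      (∀ A B, (F (A.prod B)).Iso ((F A).prod (F B)))

end Pool.Agent.H398.Kt
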