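import Pool.Agent.H398.Gam.Assemble2

/-!
# Interfaces, part B: integrality of the values of characters; exclusion of `n = 3 * 2 ^ i`
-/

set_option autoImplicit false
set_option linter.unusedVariables false

open scoped TensorProduct

namespace Pool.Agent.H398.Kt

universe u v w

open Pool.Agent.H398.Gam

/-! ### B1: Krull-Schmidt -/

section

variable {k : Type u} [Field k] {G : Type v} [Group G]

/-- Indecomposable representations. -/
def Indec (N : Ob k G) : Prop :=
  N.dim ≠ 0 ∧ ∀ A B : Ob k G, N.Iso (A.prod B) → A.dim = 0 ∨ B.dim = 0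

end

/-- **B1a.** Indecomposable summands of direct sums; decompositions. -/
def S_ksPrime : Prop :=
  ∀ (k : Type u) [Field k] (G : Type v) [Group G],
    (∀ N A B U : Ob k G, Indec N → (N.prod U).Iso (A.prod B) →
      (∃ C : Ob k G, A.Iso (N.prod C)) ∨ (∃ C : Ob k G, B.Iso (N.prod C))) ∧
    (∀ A : Ob k G, ∃ l : List (Ob k G), (∀ N ∈ l, Indec N) ∧
      A.Iso (l.foldr Ob.prod (Ob.zero k G)))

/-- **B1b.** Cancellation. -/
def S_ksCancel : Prop :=
  ∀ (k : Type u) [Field k] (G : Type v) [Group G] (A B C : Ob k G),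
    (A.prod C).Iso (B.prod C) → A.Iso B

/-! ### B2: abstract algebra -/

/-- An atom of the additive monoid of a semiring. -/
def Atm {S : Type w} [CommSemiring S] (a : S) : Prop :=
  a ≠ 0 ∧ ∀ b c : S, a = b + c → b = 0 ∨ c = 0

/-- **B2a.** Integrality. -/
def S_integral : Prop :=
  ∀ (S : Type w) [CommSemiring S],
    (∀ s : S, ∃ l : Multiset S, s = l.sum ∧ ∀ a ∈ l, Atm a) →
    (∀ a s t u : S, Atm a → a + u = s + t → (∃ c, s = a + c) ∨ (∃ c, t = a + c)) →
    ∀ (φ : S → ℝ), (∀ s, 0 ≤ φ s) → φ 1 = 1 → φ 0 = 0 → (∀ s t, φ (s + t) = φ s + φ t) →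
      (∀ s t, φ (s * t) = φ s * φ t) →
    ∀ (x z : S) (D : ℕ) (a b : ℕ → ℕ), 1 ≤ D → φ z = 0 →
      x ^ D + ∑ j ∈ Finset.range D, (a j : S) * x ^ j =
        z + ∑ j ∈ Finset.range D, (b j : S) * x ^ j →
    ∀ (n n' : S) (m : ℕ), (1 + x) ^ m = n + n' → IsIntegral ℤ (φ n)

/-- **B2b.** Cancellative semirings embed into rings. -/
def S_complete : Prop :=
  ∀ (S : Type w) [CommSemiring S], (∀ a b c : S, a + c = b + c → a = b) →
    ∃ (R : Type w) (_ : CommRing R) (ι : S →+* R), Function.Injective ι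

/-- **B2c.** The tower in a ring. -/
def S_towerRing : Prop :=
  ∀ (i : ℕ), ∃ P : Polynomial ℤ, P.Monic ∧ 1 ≤ P.natDegree ∧
    (∀ (R : Type w) [CommRing R] (m m' x : R) (h h' : ℕ → R), m * m' = 1 + x →
      x * m * x = 2 * (m * x) + h 0 * x → x * m' * x = 2 * (m' * x) + h' 0 * x →
      (∀ j < i, h j * h' j * h j = 2 * h j + h (j + 1) * h j) →
      (∀ j < i, h' j * h j * h' j = 2 * h' j + h' (j + 1) * h' j) →
      Polynomial.aeval x P = x * h 0 * h' 0 * ∏ j ∈ Finset.range i, h (j + 1)) ∧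
    (∀ y : ℝ, Polynomial.aeval (y ^ 2 - 1) P = 0 →
      ∃ j : ℤ, y = 2 * Real.cos (j * (Real.pi / (3 * 2 ^ (i + 1) : ℕ))))

/-! ### B3: number theory -/

/-- **B3.** -/
def S_number : Prop :=
  ∀ (i : ℕ) (j : ℤ), 1 ≤ i →
    IsIntegral ℤ (((2 * Real.cos (Real.pi / (3 * 2 ^ i : ℕ))) ^ 3 -
      2 * Real.cos (j * (Real.pi / (3 * 2 ^ i : ℕ)))) / 3) →
    2 * Real.cos (j * (Real.pi / (3 * 2 ^ i : ℕ))) =
      2 * Real.cos (3 * (Real.pi / (3 * 2 ^ i : ℕ)))

/-! ### B4: cyclic cubes -/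

/-- A representation with a commuting operator of order three. -/
structure C3 (k : Type u) [Field k] (G : Type v) [Group G] where
  /-- the representation -/
  W : Ob k G
  /-- the operator -/
  c : W.V →ₗ[k] W.V
  eqv : ∀ g v, c (W.ρ g v) = W.ρ g (c v)
  cube : ∀ v, c (c (c v)) = v

namespace C3

variable {k : Type u} [Field k] {G : Type v} [Group G]

/-- Isomorphism. -/
def Iso (A B : C3 k G) : Prop :=
  ∃ e : A.W.V ≃ₗ[k] B.W.V, (∀ g v, e (A.W.ρ g v) = B.W.ρ g (e v)) ∧ ∀ v, e (A.c v) = B.c (e v)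

/-- Direct sum. -/
noncomputable abbrev prod (A B : C3 k G) : C3 k G where
  W := A.W.prod B.W
  c := A.c.prodMap B.c
  eqv g v := Prod.ext (A.eqv g v.1) (B.eqv g v.2)
  cube v := Prod.ext (A.cube v.1) (B.cube v.2)

/-- Tensor product. -/
noncomputable abbrev tens (A B : C3 k G) : C3 k G where
  W := A.W.tens B.W
  c := TensorProduct.map A.c B.c
  eqv g v := by
    have : (TensorProduct.map A.c B.c) ∘ₗ (TensorProduct.map (A.W.ρ g) (B.W.ρ g)) =
        (TensorProduct.map (A.W.ρ g) (B.W.ρ g)) ∘ₗ (TensorProduct.map A.c B.c) := by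
      apply TensorProduct.ext'
      intro a b
      simp only [LinearMap.comp_apply, TensorProduct.map_tmul, A.eqv, B.eqv]
    exact congrArg (fun T => T v) this
  cube v := by
    have : (TensorProduct.map A.c B.c) ∘ₗ (TensorProduct.map A.c B.c) ∘ₗ
        (TensorProduct.map A.c B.c) = LinearMap.id := by
      apply TensorProduct.ext'
      intro a b
      simp only [LinearMap.comp_apply, TensorProduct.map_tmul, A.cube, B.cube, LinearMap.id_apply]
    exact congrArg (fun T => T v) this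

/-- The inverse operator. -/
noncomputable abbrev inv (A : C3 k G) : C3 k G where
  W := A.W
  c := A.c ∘ₗ A.c
  eqv g v := by simp only [LinearMap.comp_apply, A.eqv]
  cube v := by simp only [LinearMap.comp_apply, A.cube]

/-- The dual, with the transposed operator. -/
noncomputable abbrev dual (A : C3 k G) : C3 k G where
  W := A.W.dual
  c := A.c.dualMap
  eqv g v := by
    apply LinearMap.ext
    intro a
    change v (A.W.ρ g⁻¹ (A.c a)) = v (A.c (A.W.ρ g⁻¹ a))
    rw [A.eqv]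
  cube v := by
    apply LinearMap.ext
    intro a
    change v (A.c (A.c (A.c a))) = v a
    rw [A.cube]

/-- Three copies of `U`, cyclically permuted. -/
noncomputable abbrev shift (U : Ob k G) : C3 k G where
  W := U.prod (U.prod U)
  c := (LinearMap.fst k U.V U.V ∘ₗ LinearMap.snd k U.V (U.V × U.V)).prod
    ((LinearMap.snd k U.V U.V ∘ₗ LinearMap.snd k U.V (U.V × U.V)).prod
      (LinearMap.fst k U.V (U.V × U.V)))
  eqv g v := rfl
  cube v := rfl

/-- The cube `(A ⊗ A) ⊗ A` with the cyclic permutation `a ⊗ b ⊗ c ↦ b ⊗ c ⊗ a`. -/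
noncomputable abbrev cb (A : Ob k G) : C3 k G where
  W := (A.tens A).tens A
  c := (TensorProduct.comm k A.V (A.V ⊗[k] A.V)).toLinearMap ∘ₗ
    (TensorProduct.assoc k A.V A.V A.V).toLinearMap
  eqv g v := by
    have : ((TensorProduct.comm k A.V (A.V ⊗[k] A.V)).toLinearMap ∘ₗ
        (TensorProduct.assoc k A.V A.V A.V).toLinearMap) ∘ₗ
          (TensorProduct.map (TensorProduct.map (A.ρ g) (A.ρ g)) (A.ρ g)) =
        (TensorProduct.map (TensorProduct.map (A.ρ g) (A.ρ g)) (A.ρ g)) ∘ₗ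
          ((TensorProduct.comm k A.V (A.V ⊗[k] A.V)).toLinearMap ∘ₗ
        (TensorProduct.assoc k A.V A.V A.V).toLinearMap) := by
      apply TensorProduct.ext_threefold
      intro a b c
      rfl
    exact congrArg (fun T => T v) this
  cube v := by
    have : ((TensorProduct.comm k A.V (A.V ⊗[k] A.V)).toLinearMap ∘ₗ
        (TensorProduct.assoc k A.V A.V A.V).toLinearMap) ∘ₗ
        ((TensorProduct.comm k A.V (A.V ⊗[k] A.V)).toLinearMap ∘ₗ
        (TensorProduct.assoc k A.V A.V A.V).toLinearMap) ∘ₗ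
        ((TensorProduct.comm k A.V (A.V ⊗[k] A.V)).toLinearMap ∘ₗ
        (TensorProduct.assoc k A.V A.V A.V).toLinearMap) = LinearMap.id := by
      apply TensorProduct.ext_threefold
      intro a b c
      rfl
    exact congrArg (fun T => T v) this

end C3

/-- **B4a.** Eigenspaces. -/
def S_eig : Prop :=
  ∀ (k : Type u) [Field k] [CharP k 2] (ω : k), ω ^ 2 + ω + 1 = 0 → ∀ (G : Type v) [Group G],
    ∃ E : ZMod 3 → C3 k G → Ob k G,
      (∀ j (A B : C3 k G), A.Iso B → (E j A).Iso (E j B)) ∧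
      (∀ A : C3 k G, A.W.Iso ((E 0 A).prod ((E 1 A).prod (E 2 A)))) ∧
      (∀ j (A B : C3 k G), (E j (A.prod B)).Iso ((E j A).prod (E j B))) ∧
      (∀ j (A B : C3 k G), (E j (A.tens B)).Iso (((E 0 A).tens (E j B)).prod
        (((E 1 A).tens (E (j - 1) B)).prod ((E 2 A).tens (E (j - 2) B))))) ∧
      (∀ j U, (E j (C3.shift U)).Iso U) ∧
      (∀ j (A : C3 k G), (E j A.inv).Iso (E (-j) A)) ∧
      (∀ j (A : C3 k G), (E j A.dual).Iso (E j A).dual) ∧
      (∀ A : C3 k G, (∀ v, A.c v = v) → (E 0 A).Iso A.W ∧ (E 1 A).dim = 0 ∧ (E 2 A).dim = 0) ∧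
      (∀ A : C3 k G, ((E 0 A).dim : k) + ω * (E 1 A).dim + ω ^ 2 * (E 2 A).dim =
        LinearMap.trace k A.W.V A.c)

/-- **B4b.** Cubes. -/
def S_cubes : Prop :=
  ∀ (k : Type u) [Field k] (G : Type v) [Group G],
    (∀ A B : Ob k G, A.Iso B → (C3.cb A).Iso (C3.cb B)) ∧
    (∀ A B : Ob k G, ∃ U : Ob k G, (C3.cb (A.prod B)).Iso
      (((C3.cb A).prod (C3.cb B)).prod (C3.shift U))) ∧
    (∀ A B : Ob k G, (C3.cb (A.tens B)).Iso ((C3.cb A).tens (C3.cb B))) ∧
    (∀ A : Ob k G, (C3.cb A).Iso (C3.cb A).inv) ∧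
    (∀ A : Ob k G, (C3.cb A.dual).Iso (C3.cb A).dual.inv) ∧
    ((C3.cb (Ob.one k G)).W.Iso (Ob.one k G)) ∧ (∀ v, (C3.cb (Ob.one k G)).c v = v) ∧
    (∀ A : Ob k G, LinearMap.trace k _ (C3.cb A).c = (A.dim : k))

/-! ### B5: base change -/

/-- **B5.** Base change of representations of elementary abelian `2`-groups. -/
def S_obBase : Prop :=
  ∀ (k K : Type u) [Field k] [Field K] [Algebra k K] [CharP k 2] [CharP K 2]
    (G : Type v) [Group G] [Fintype G], (∀ g : G, g * g = 1) →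
    ∃ F : Ob k G → Ob K G, (∀ A B, A.Iso B → (F A).Iso (F B)) ∧
      (∀ A B, (F (A.tens B)).Iso ((F A).tens (F B))) ∧ (∀ A, (F A.dual).Iso (F A).dual) ∧
      (F (Ob.one k G)).Iso (Ob.one K G) ∧ (∀ A, (F A).coreDim = A.coreDim) ∧
      (∀ A, (F A).dim = A.dim)

end Pool.Agent.H398.Kt
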