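import Pool.Agent.H398.Gam.Assemble2

/-!
# Interfaces, part C: reduction from finite groups to elementary abelian `2`-subgroups
-/

set_option autoImplicit false
set_option linter.unusedVariables false

open scoped TensorProduct

namespace Pool.Agent.H398.Kt

universe u v

open Pool.Agent.H398.Gam Ob

section

variable {k : Type u} [Field k] {G : Type v} [Group G]

/-- Restriction to a subgroup. -/
noncomputable abbrev res (M : Ob k G) (K : Subgroup G) : Ob k K where
  V := M.V
  ρ := M.ρ.comp K.subtype

variable (k) in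
/-- The permutation module on functions `J → k`: `(g f) j = f (g⁻¹ j)`. -/
noncomputable abbrev perm {J : Type} [Fintype J] (act : G →* Equiv.Perm J) : Ob k G where
  V := J → k
  ρ :=
    { toFun := fun g => LinearMap.funLeft k k (act g⁻¹)
      map_one' := by
        apply LinearMap.ext
        intro f
        funext j
        simp [LinearMap.funLeft]
      map_mul' := fun g h => by
        apply LinearMap.ext
        intro f
        funext j
        simp [LinearMap.funLeft, mul_inv_rev] }

/-- `C` is the permutation module of a transitive `G`-set which is not a point. -/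
def TrPerm (C : Ob k G) : Prop :=
  ∃ (J : Type) (_ : Fintype J) (_ : DecidableEq J) (act : G →* Equiv.Perm J) (j₀ : J),
    (∀ j, ∃ g, act g j₀ = j) ∧ (∃ g, act g j₀ ≠ j₀) ∧ C.Iso (perm k act)

/-- Modules with a filtration whose layers are permutation modules of nontrivial transitive
`G`-sets. -/
inductive TFil : Ob k G → Prop
  | zero (A : Ob k G) : A.dim = 0 → TFil A
  | step (A B C : Ob k G) : TFil A → Nonempty (SES A B C) → TrPerm C → TFil B

end

/-- **C1.** The dimension of the core is subadditive in short exact sequences. -/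
def S_coreSub : Prop :=
  ∀ (k : Type u) [Field k] (G : Type v) [Group G] [Fintype G] (A B C : Ob k G),
    Nonempty (SES A B C) → B.coreDim ≤ A.coreDim + C.coreDim

/-- **C2.** Restriction does not increase the dimension of the core. -/
def S_coreRes : Prop :=
  ∀ (k : Type u) [Field k] (G : Type v) [Group G] [Fintype G] (K : Subgroup G) (A : Ob k G),
    (res A K).coreDim ≤ A.coreDim

/-- **C3.** Tensoring with the permutation module of `G / K`. -/
def S_coreInd : Prop :=
  ∀ (k : Type u) [Field k] (G : Type v) [Group G] [Fintype G] (J : Type) [Fintype J]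
    [DecidableEq J] (act : G →* Equiv.Perm J) (j₀ : J) (K : Subgroup G),
    (∀ j, ∃ g, act g j₀ = j) → (∀ g, g ∈ K ↔ act g j₀ = j₀) → ∀ A : Ob k G,
      (A.tens (perm k act)).coreDim ≤ Fintype.card J * (res A K).coreDim

/-- **C4.** The Sylow `2`-subgroup. -/
def S_sylow : Prop :=
  ∀ (k : Type u) [Field k] [CharP k 2] (G : Type v) [Group G] [Fintype G],
    ∃ (Q : Subgroup G) (n : ℕ) (act : G →* Equiv.Perm (Fin n)) (j₀ : Fin n) (D : Ob k G),
      IsPGroup 2 Q ∧ (∀ j, ∃ g, act g j₀ = j) ∧ (∀ g, g ∈ Q ↔ act g j₀ = j₀) ∧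
      (perm k act).Iso ((one k G).prod D)

/-- **C5.** Triangular monomial matrices give filtrations by permutation modules. -/
def S_tri : Prop :=
  ∀ (k : Type u) [Field k] (G : Type v) [Group G] (I : Type) [Fintype I] [DecidableEq I]
    (R : G →* Matrix I I k) (N : I → ℕ) (act : G →* Equiv.Perm I),
    (∀ g b, N (act g b) = N b) →
    (∀ g b c, N b ≤ N c → R g c b = if c = act g b then 1 else 0) →
    (∀ b, ∃ g, act g b ≠ b) → TFil (ofMat R)

/-- **C6a.** Tensor induction of triangular monomial matrices. -/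
def S_wrGen : Prop :=
  ∀ (k : Type u) [Field k] (G : Type v) [Group G] (J : Type) [Fintype J]
    [DecidableEq J] (act : G →* Equiv.Perm J) (κ : G → J → ZMod 4),
    (∀ g h j, κ (g * h) j = κ g (act h j) + κ h j) → (∃ g j, act g j = j ∧ κ g j = 1) →
    ∀ (B : Type) [Fintype B] [DecidableEq B] (S : ZMod 4 → Matrix B B k) (N₀ : B → ℕ)
      (a₀ : ZMod 4 → Equiv.Perm B) (u ξ : B → k),
      S 0 = 1 → (∀ x y, S (x + y) = S x * S y) → a₀ 0 = 1 → (∀ x y, a₀ (x + y) = a₀ x * a₀ y) →
      (∀ x b, N₀ (a₀ x b) = N₀ b) →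
      (∀ x b c, N₀ b ≤ N₀ c → S x c b = if c = a₀ x b then 1 else 0) →
      (∀ x c, ∑ b, S x c b * u b = u c) → (∀ x b, ∑ c, ξ c * S x c b = ξ b) →
      ∑ b, ξ b * u b = 1 → (∀ b, a₀ 1 b ≠ b) →
    ∃ (I : Type) (_ : Fintype I) (_ : DecidableEq I) (R : G →* Matrix I I k) (N : I → ℕ)
      (act' : G →* Equiv.Perm I),
      (∀ g b, N (act' g b) = N b) ∧
      (∀ g b c, N b ≤ N c → R g c b = if c = act' g b then 1 else 0) ∧
      (∀ b, ∃ g, act' g b ≠ b) ∧ ∃ D : Ob k G, (ofMat R).Iso ((one k G).prod D)

/-- **C6b.** Tensor induction of a certain `4`-dimensional module of the cyclic group of order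
`4`, which has the trivial module as a direct summand. -/
def S_wreath : Prop :=
  ∀ (k : Type u) [Field k] [CharP k 2] (G : Type v) [Group G] (J : Type) [Fintype J]
    [DecidableEq J] (act : G →* Equiv.Perm J) (κ : G → J → ZMod 4),
    (∀ g h j, κ (g * h) j = κ g (act h j) + κ h j) → (∃ g j, act g j = j ∧ κ g j = 1) →
    ∃ (I : Type) (_ : Fintype I) (_ : DecidableEq I) (R : G →* Matrix I I k) (N : I → ℕ)
      (act' : G →* Equiv.Perm I),
      (∀ g b, N (act' g b) = N b) ∧
      (∀ g b c, N b ≤ N c → R g c b = if c = act' g b then 1 else 0) ∧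
      (∀ b, ∃ g, act' g b ≠ b) ∧ ∃ D : Ob k G, (ofMat R).Iso ((one k G).prod D)

/-- **C7.** The cocycle of the cosets of a cyclic subgroup of order `4`. -/
def S_coset : Prop :=
  ∀ (G : Type v) [Group G] [Fintype G] (s : G), orderOf s = 4 →
    ∃ (n : ℕ) (act : G →* Equiv.Perm (Fin n)) (κ : G → Fin n → ZMod 4),
      (∀ g h j, κ (g * h) j = κ g (act h j) + κ h j) ∧ ∃ g j, act g j = j ∧ κ g j = 1

end Pool.Agent.H398.Kt
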