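import Pool.Agent.H398.Kt.Bound
import Pool.Agent.H398.Kt.Iface2

/-!
# `γ(M ⊗ M^*) = γ(M) ^ 2` for elementary abelian `2`-groups
-/

set_option autoImplicit false
set_option linter.unusedVariables false
set_option linter.unusedSimpArgs false
set_option linter.unusedSectionVars false
set_option linter.unusedTactic false

open scoped TensorProduct

namespace Pool.Agent.H398.Kt

universe u v

open Pool.Agent.H398.Gam

/-- A functor from representations of `G` over `k` to `Md K r`, `K` algebraically closed. -/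
structure Brg (k : Type u) [Field k] [CharP k 2] (G : Type v) [Group G] [Fintype G]
    (K : Type u) [Field K] [CharP K 2] (r : ℕ) where
  /-- the functor -/
  T : Ob k G → Md K r
  iso : ∀ A B, A.Iso B → (T A).Iso (T B)
  tens : ∀ A B, (T (A.tens B)).Iso ((T A).tens (T B))
  dual : ∀ A, (T A.dual).Iso (T A).dual
  one : (T (Ob.one k G)).Iso (Md.one K r)
  core : ∀ A, (T A).core = A.coreDim
  prod : ∀ A B, (T (A.prod B)).Iso ((T A).prod (T B))

theorem Md.prod_congr {k : Type u} [Field k] {r : ℕ} {A A' B B' : Md k r} (h : A.Iso A')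
    (h' : B.Iso B') : (A.prod B).Iso (A'.prod B') := by
  obtain ⟨e, he⟩ := h
  obtain ⟨e', he'⟩ := h'
  refine ⟨LinearEquiv.prodCongr e e', fun i v => ?_⟩
  apply Prod.ext
  · exact he i v.1
  · exact he' i v.2

theorem Md.tens_congr {k : Type u} [Field k] [CharP k 2] {r : ℕ} (hR : S_ring.{u})
    {A A' B B' : Md k r} (h : A.Iso A') (h' : B.Iso B') : (A.tens B).Iso (A'.tens B') := by
  obtain ⟨R, _, cls, h1, h2, h3, h4, h5, h6⟩ := hR k r
  rw [← h2, h4, h4, (h2 _ _).mpr h, (h2 _ _).mpr h']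

theorem Md.dual_congr {k : Type u} [Field k] {r : ℕ} {A A' : Md k r} (h : A.Iso A') :
    A.dual.Iso A'.dual := by
  obtain ⟨e, he⟩ := h.symm
  refine ⟨e.dualMap, fun i v => ?_⟩
  apply LinearMap.ext
  intro a
  change v (A.x i (e a)) = v (e (A'.x i a))
  rw [he]

theorem exists_brg (hR : S_ring.{u}) (HB : S_bridge.{u, v}) (HBase : S_base.{u})
    (k : Type u) [Field k] [CharP k 2] (G : Type v) [Group G] [Fintype G]
    (hG : ∀ g : G, g * g = 1) (K : Type u) [Field K] [Algebra k K] [CharP K 2] :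
    ∃ r : ℕ, Nonempty (Brg k G K r) ∧ (r = 0 → ∀ A : Ob k G, A.coreDim = 0) := by
  obtain ⟨r, F, f1, f2, f3, f4, f5, f6, f7, f8⟩ := HB k G hG
  obtain ⟨B, b1, b2, b3, b4, b5, b6⟩ := HBase k K r
  refine ⟨r, ⟨⟨fun A => B (F A), fun A A' h => b1 _ _ (f1 _ _ h),
    fun A A' => (b1 _ _ (f2 A A')).trans (b2 _ _), fun A => (b1 _ _ (f3 A)).trans (b3 _),
    (b1 _ _ f4).trans b4, fun A => (b5 _).trans (f5 A),
    fun A A' => (b1 _ _ (f6 A A')).trans (b6 _ _)⟩⟩, f8⟩

section

variable {k : Type u} [Field k] [CharP k 2] {G : Type v} [Group G] [Fintype G]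
  {K : Type u} [Field K] [CharP K 2] {r : ℕ}

theorem Brg.pow (hR : S_ring.{u}) (F : Brg k G K r) (A : Ob k G) (n : ℕ) :
    (F.T (A.pow n)).Iso ((F.T A).pow n) := by
  induction n with
  | zero => exact F.one
  | succ n ih => exact (F.tens _ _).trans (Md.tens_congr hR ih (Md.Iso.refl _))

theorem TC.pow (φ : TC K r) (A : Md K r) (n : ℕ) : φ.f (A.pow n) = φ.f A ^ n := by
  induction n with
  | zero => rw [pow_zero]; exact φ.one
  | succ n ih => rw [pow_succ, ← ih]; exact φ.tens _ _

theorem coreDim_pow_dual (M : Ob k G) (n : ℕ) :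
    ((M.pow n).tens (M.pow n).dual).coreDim = (M.tens M.dual).cn n := by
  unfold Ob.cn
  apply Ob.coreDim_iso
  exact (Ob.Iso.tens_congr (Ob.Iso.refl _) (Ob.dual_pow M n).symm).trans (Ob.tens_pow _ _ _).symm

theorem cn_mul_le (M : Ob k G) (m j : ℕ) : M.cn (m * j) ≤ M.cn m ^ j := by
  induction j with
  | zero =>
    rw [mul_zero, pow_zero]
    change (Ob.one k G).coreDim ≤ 1
    have h1 : (Ob.one k G).coreDim ≤ (Ob.one k G).dim :=
      Ob.coreDim_le (A := Ob.one k G) (B := Ob.one k G) (Ob.zero_isProj hH)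
        (Ob.prod_zero (Ob.one k G))
    refine h1.trans ?_
    change Module.finrank k k ≤ 1
    rw [Module.finrank_self]
  | succ j ih =>
    rw [mul_add, mul_one, pow_succ]
    exact (Ob.cn_add_le hH M (m * j) m).trans (Nat.mul_le_mul_right _ ih)

end

/-- **KT.** -/
theorem kt (H : Hyp.{u}) (HR : S_relChar.{u + 1}) (HB : S_bridge.{u, v}) (HBase : S_base.{u})
    {k : Type u} [Field k] [CharP k 2] {G : Type v} [Group G] [Fintype G]
    (hG : ∀ g : G, g * g = 1) (M : Ob k G) (hM : ¬ M.IsProj) :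
    (M.tens M.dual).gamma = M.gamma ^ 2 := by
  have hg1 : 1 ≤ M.gamma := Ob.gamma_pos hH M hM
  have hMM := Ob.tens_dual_not_isProj hH M hM
  apply le_antisymm
  · have := Ob.gamma_tens_le hH M M.dual hM (Ob.dual_not_isProj hH M hM)
    rw [Ob.gamma_dual hH, ← pow_two] at this
    exact this
  · let K := AlgebraicClosure k
    have hK : CharP K 2 := charP_of_injective_algebraMap (FaithfulSMul.algebraMap_injective k K) 2
    obtain ⟨r, ⟨F⟩, hr0⟩ := exists_brg H.ring HB HBase k G hG K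
    have hr : 1 ≤ r := by
      by_contra hcon
      have h0 := hr0 (by omega) M
      exact hM ((Ob.coreDim_eq_zero hH M).mp h0)
    have hpow : ∀ m : ℕ, ((F.T M).pow m).core = M.cn m := by
      intro m
      rw [← (H.coreSes K r).2.2.1 _ _ (F.pow H.ring M m), F.core]
      rfl
    obtain ⟨φ, hφ⟩ := exists_TC H.ring H.coreSes H.coreTens HR H.tensSes hr (F.T M) M.gamma
      (by linarith)
      (fun m => by rw [hpow]; exact Ob.gamma_pow_le hH M hM m)
      (fun ε hε => by
        obtain ⟨m, h1, h2⟩ := Ob.cn_le_pow hH M hM ε hε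
        exact ⟨m, h1, by rw [hpow]; exact h2⟩)
    obtain ⟨D, hD0, hD⟩ := φ.bound H hr
    have key : ∀ n : ℕ, (M.gamma ^ 2) ^ n ≤ D * (M.tens M.dual).cn n := by
      intro n
      have h1 := hD (F.T (M.pow n))
      have h2 : φ.f (F.T (M.pow n)) = M.gamma ^ n := by
        rw [φ.iso _ _ (F.pow H.ring M n), φ.pow, hφ]
      have h3 : ((F.T (M.pow n)).tens (F.T (M.pow n)).dual).core = (M.tens M.dual).cn n := by
        rw [← coreDim_pow_dual, ← F.core]
        apply (H.coreSes K r).2.2.1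
        exact ((F.tens _ _).trans (Md.tens_congr H.ring (Md.Iso.refl _) (F.dual _))).symm
      rw [h2, h3] at h1
      rw [← pow_mul, mul_comm 2 n, pow_mul]
      exact h1
    apply le_of_forall_pos_le_add
    intro ε hε
    obtain ⟨m, hm, h1⟩ := Ob.cn_le_pow hH _ hMM ε hε
    have hg' : 1 ≤ (M.tens M.dual).gamma := Ob.gamma_pos hH _ hMM
    have h2 : (M.gamma ^ 2) ^ m ≤ ((M.tens M.dual).gamma + ε) ^ m := by
      apply Pool.Agent.H195.Gam.le_of_pow_le (C := D) (by positivity)
      intro j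
      rw [← pow_mul]
      refine (key (m * j)).trans (mul_le_mul_of_nonneg_left ?_ hD0)
      refine le_trans ?_ (pow_le_pow_left₀ (Nat.cast_nonneg _) h1 j)
      exact_mod_cast cn_mul_le (M.tens M.dual) m j
    exact le_of_pow_le_pow_left₀ hm.ne' (by linarith) h2

end Pool.Agent.H398.Kt
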