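import Pool.Agent.H398.Kt.All

/-!
# `γ(M ⊗ M^*) = γ(M) ^ 2` for elementary abelian `2`-groups, unconditional
-/

set_option autoImplicit false
set_option linter.unusedVariables false
set_option linter.unusedSimpArgs false
set_option linter.unusedSectionVars false

open scoped TensorProduct

namespace Pool.Agent.H398.Kt

universe u v

open Pool.Agent.H398.Gam Ob

theorem hyp : Hyp.{u} where
  ring := Pool.Agent.H589.Kt.proof_S_ring
  coreSes := Pool.Agent.H349.Kt.proof_coreSes
  coreTens := Pool.Agent.H924.Kt.proof_coreTens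
  split := Pool.Agent.H922.Kt.proof_split
  hLeCore := Pool.Agent.H922.Kt.proof_hLeCore
  pull := Pool.Agent.H415.Kt.proof_pull
  vees := Pool.Agent.H102.Kt.proof_vees
  tensSes := Pool.Agent.H415.Kt.proof_tensSes
  cocycle := Pool.Agent.H782.Kt.proof_cocycle
  koszul := Pool.Agent.H286.Kt.proof_koszul
  koszulZero := Pool.Agent.H331.Kt.proof_koszulZero
  filQuo := Pool.Agent.H747.Kt.proof_filQuo
  eigenStep := Pool.Agent.H224.Kt.proof_eigenStep
  double := Pool.Agent.H274.Kt.proof_double
  full := Pool.Agent.H411.Kt.proof_full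
  hDual := Pool.Agent.H274.Kt.proof_hDual
  loewy := Pool.Agent.H860.Kt.proof_loewy
  hTens := Pool.Agent.H860.Kt.proof_hTens
  quoSes := Pool.Agent.H415.Kt.proof_quoSes
  infl := Pool.Agent.H331.Kt.proof_infl

section

variable {k : Type u} [Field k] {G : Type v} [Group G] [Fintype G]

/-- **KT**, unconditional. -/
theorem gamma_tens_dual_eq [CharP k 2] (hG : ∀ g : G, g * g = 1) (M : Ob k G)
    (hM : ¬ M.IsProj) : (M.tens M.dual).gamma = M.gamma ^ 2 :=
  kt hyp Pool.Agent.H284.Kt.proof_relChar Pool.Agent.H308.Kt.proof_bridge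
    Pool.Agent.H249.Kt.proof_base hG M hM

theorem gamma_endo (M : Ob k G) (hM : ¬ M.IsProj) (hE : M.Endotrivial) :
    (M.tens M.dual).gamma = 1 := by
  have hMM := tens_dual_not_isProj hH M hM
  obtain ⟨φ, hφ, hv⟩ := exists_posChar hH hA Pool.Agent.H398.Gam.hE _ hMM
  obtain ⟨P, hP, hiso⟩ := hE
  rw [← hv, φ.iso _ _ hiso, φ.prod, φ.one, good_proj hH φ hφ P hP, add_zero]

/-- The values below 2. -/
theorem value_elemAb [CharP k 2] (hG : ∀ g : G, g * g = 1) (M : Ob k G) (h1 : 1 < M.gamma)
    (h2 : M.gamma < 2) : ∃ n : ℕ, IsVal 2 M.dim n ∧ M.gamma = 2 * Real.cos (Real.pi / n) := by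
  have hM : ¬ M.IsProj := by
    intro h
    rw [gamma_isProj hH M h] at h1
    linarith
  have hkt := gamma_tens_dual_eq hG M hM
  have : Fact (Nat.Prime 2) := ⟨Nat.prime_two⟩
  rcases tensDual_main 2 M hM (by rw [hkt]; nlinarith) with h | ⟨n, hn, hval⟩
  · have := gamma_endo M hM h
    rw [hkt] at this
    nlinarith
  · refine ⟨n, hn, ?_⟩
    rw [hkt] at hval
    have h4 : (4 : ℝ) ≤ n := by exact_mod_cast hn.1
    have hpi := Real.pi_pos
    have h9 : Real.pi / n ≤ Real.pi / 2 :=
      div_le_div_of_nonneg_left hpi.le (by norm_num) (by linarith)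
    have h10 : 0 ≤ Real.cos (Real.pi / n) :=
      Real.cos_nonneg_of_neg_pi_div_two_le_of_le (by
        have : 0 ≤ Real.pi / n := by positivity
        linarith) h9
    exact (sq_eq_sq₀ (by linarith) (by linarith)).mp hval

end

end Pool.Agent.H398.Kt
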