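import Pool.Agent.H398.Kt.Iface3

/-!
# Cancellative commutative semirings embed into commutative rings
-/

set_option autoImplicit false
set_option linter.all false

namespace Pool.Agent.H349.Kt

universe w

section

variable {S : Type w} [CommSemiring S]

/-- the relation of differences -/
def dst (hc : ∀ a b c : S, a + c = b + c → a = b) : Setoid (S × S) where
  r p q := p.1 + q.2 = q.1 + p.2
  iseqv := {
    refl := fun p => rfl
    symm := fun {p q} h => h.symm
    trans := by
      intro p q r h1 h2
      apply hc _ _ (q.1 + q.2)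
      have e1 : (p.1 + r.2) + (q.1 + q.2) = (p.1 + q.2) + (q.1 + r.2) := by ring
      have e2 : (r.1 + p.2) + (q.1 + q.2) = (q.1 + p.2) + (r.1 + q.2) := by ring
      rw [e1, e2, h1, h2] }

/-- the ring of differences -/
def Df (hc : ∀ a b c : S, a + c = b + c → a = b) : Type w := Quotient (dst hc)

variable (hc : ∀ a b c : S, a + c = b + c → a = b)

/-- the class of a pair -/
def Df.mk (a b : S) : Df hc := Quotient.mk (dst hc) (a, b)

theorem Df.sound {a b c d : S} (h : a + d = c + b) : Df.mk hc a b = Df.mk hc c d :=
  Quotient.sound (s := dst hc) h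

theorem Df.exact {a b c d : S} (h : Df.mk hc a b = Df.mk hc c d) : a + d = c + b :=
  Quotient.exact (s := dst hc) h

theorem Df.ind {P : Df hc → Prop} (h : ∀ a b, P (Df.mk hc a b)) (x : Df hc) : P x := by
  refine Quotient.inductionOn x ?_
  rintro ⟨a, b⟩
  exact h a b

/-- the sum -/
def Df.add (x y : Df hc) : Df hc :=
  Quotient.liftOn₂ x y (fun p q => Df.mk hc (p.1 + q.1) (p.2 + q.2)) (by
    intro p q p' q' h1 h2
    apply Df.sound
    have h1' : p.1 + p'.2 = p'.1 + p.2 := h1
    have h2' : q.1 + q'.2 = q'.1 + q.2 := h2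
    have e1 : p.1 + q.1 + (p'.2 + q'.2) = (p.1 + p'.2) + (q.1 + q'.2) := by ring
    have e2 : p'.1 + q'.1 + (p.2 + q.2) = (p'.1 + p.2) + (q'.1 + q.2) := by ring
    rw [e1, e2, h1', h2'])

/-- the opposite -/
def Df.neg (x : Df hc) : Df hc :=
  Quotient.liftOn x (fun p => Df.mk hc p.2 p.1) (by
    intro p p' h
    apply Df.sound
    have h' : p.1 + p'.2 = p'.1 + p.2 := h
    rw [add_comm p.2, add_comm p'.2, h'])

/-- the product -/
def Df.mul (x y : Df hc) : Df hc :=
  Quotient.liftOn₂ x y
    (fun p q => Df.mk hc (p.1 * q.1 + p.2 * q.2) (p.1 * q.2 + p.2 * q.1)) (by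
    intro p q p' q' h1 h2
    have h1' : p.1 + p'.2 = p'.1 + p.2 := h1
    have h2' : q.1 + q'.2 = q'.1 + q.2 := h2
    refine (Df.sound hc (c := p'.1 * q.1 + p'.2 * q.2) (d := p'.1 * q.2 + p'.2 * q.1) ?_).trans
      (Df.sound hc ?_)
    · have e1 : p.1 * q.1 + p.2 * q.2 + (p'.1 * q.2 + p'.2 * q.1) =
          (p.1 + p'.2) * q.1 + (p'.1 + p.2) * q.2 := by ring
      have e2 : p'.1 * q.1 + p'.2 * q.2 + (p.1 * q.2 + p.2 * q.1) =
          (p'.1 + p.2) * q.1 + (p.1 + p'.2) * q.2 := by ring
      rw [e1, e2, h1']
    · have e1 : p'.1 * q.1 + p'.2 * q.2 + (p'.1 * q'.2 + p'.2 * q'.1) =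
          p'.1 * (q.1 + q'.2) + p'.2 * (q'.1 + q.2) := by ring
      have e2 : p'.1 * q'.1 + p'.2 * q'.2 + (p'.1 * q.2 + p'.2 * q.1) =
          p'.1 * (q'.1 + q.2) + p'.2 * (q.1 + q'.2) := by ring
      rw [e1, e2, h2'])

instance : Add (Df hc) := ⟨Df.add hc⟩
instance : Neg (Df hc) := ⟨Df.neg hc⟩
instance : Mul (Df hc) := ⟨Df.mul hc⟩
instance : Zero (Df hc) := ⟨Df.mk hc 0 0⟩
instance : One (Df hc) := ⟨Df.mk hc 1 0⟩

theorem Df.add_mk (a b c d : S) : Df.mk hc a b + Df.mk hc c d = Df.mk hc (a + c) (b + d) := rfl
theorem Df.neg_mk (a b : S) : -Df.mk hc a b = Df.mk hc b a := rfl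
theorem Df.mul_mk (a b c d : S) :
    Df.mk hc a b * Df.mk hc c d = Df.mk hc (a * c + b * d) (a * d + b * c) := rfl
theorem Df.zero_def : (0 : Df hc) = Df.mk hc 0 0 := rfl
theorem Df.one_def : (1 : Df hc) = Df.mk hc 1 0 := rfl

/-- the ring structure -/
instance : CommRing (Df hc) where
  add := (· + ·)
  neg := Neg.neg
  mul := (· * ·)
  zero := 0
  one := 1
  nsmul := nsmulRec
  zsmul := zsmulRec
  npow := npowRec
  add_assoc x y z := by
    induction x using Df.ind with | h a b => ?_
    induction y using Df.ind with | h c d => ?_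
    induction z using Df.ind with | h e f => ?_
    simp only [Df.add_mk]
    apply Df.sound; ring
  zero_add x := by
    induction x using Df.ind with | h a b => ?_
    rw [Df.zero_def, Df.add_mk]
    apply Df.sound; ring
  add_zero x := by
    induction x using Df.ind with | h a b => ?_
    rw [Df.zero_def, Df.add_mk]
    apply Df.sound; ring
  add_comm x y := by
    induction x using Df.ind with | h a b => ?_
    induction y using Df.ind with | h c d => ?_
    simp only [Df.add_mk]
    apply Df.sound; ring
  left_distrib x y z := by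
    induction x using Df.ind with | h a b => ?_
    induction y using Df.ind with | h c d => ?_
    induction z using Df.ind with | h e f => ?_
    simp only [Df.add_mk, Df.mul_mk]
    apply Df.sound; ring
  right_distrib x y z := by
    induction x using Df.ind with | h a b => ?_
    induction y using Df.ind with | h c d => ?_
    induction z using Df.ind with | h e f => ?_
    simp only [Df.add_mk, Df.mul_mk]
    apply Df.sound; ring
  zero_mul x := by
    induction x using Df.ind with | h a b => ?_
    rw [Df.zero_def, Df.mul_mk]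
    apply Df.sound; ring
  mul_zero x := by
    induction x using Df.ind with | h a b => ?_
    rw [Df.zero_def, Df.mul_mk]
    apply Df.sound; ring
  mul_assoc x y z := by
    induction x using Df.ind with | h a b => ?_
    induction y using Df.ind with | h c d => ?_
    induction z using Df.ind with | h e f => ?_
    simp only [Df.mul_mk]
    apply Df.sound; ring
  one_mul x := by
    induction x using Df.ind with | h a b => ?_
    rw [Df.one_def, Df.mul_mk]
    apply Df.sound; ring
  mul_one x := by
    induction x using Df.ind with | h a b => ?_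
    rw [Df.one_def, Df.mul_mk]
    apply Df.sound; ring
  mul_comm x y := by
    induction x using Df.ind with | h a b => ?_
    induction y using Df.ind with | h c d => ?_
    simp only [Df.mul_mk]
    apply Df.sound; ring
  neg_add_cancel x := by
    induction x using Df.ind with | h a b => ?_
    rw [Df.neg_mk, Df.add_mk, Df.zero_def]
    apply Df.sound; ring

/-- the embedding -/
def Df.of : S →+* Df hc where
  toFun a := Df.mk hc a 0
  map_zero' := rfl
  map_one' := rfl
  map_add' a b := by
    rw [Df.add_mk]
    apply Df.sound; ring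
  map_mul' a b := by
    rw [Df.mul_mk]
    apply Df.sound; ring

theorem Df.of_injective : Function.Injective (Df.of hc) := by
  intro a b h
  have := Df.exact hc h
  simpa using this

end

theorem proof_complete : Pool.Agent.H398.Kt.S_complete.{w} := by
  intro S _ hc
  exact ⟨Df hc, inferInstance, Df.of hc, Df.of_injective hc⟩

end Pool.Agent.H349.Kt
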