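import Pool.Agent.H398.Kt.Iface3

/-!
# `proof_cubes : S_cubes` (board task 13631 for helper398): cyclic cubes of representations
-/

set_option autoImplicit false
set_option linter.unusedVariables false

open scoped TensorProduct

namespace Pool.Agent.H663.Kt

universe u v w

open Pool.Agent.H398.Gam Pool.Agent.H398.Kt

variable {k : Type u} [Field k] {G : Type v} [Group G]

theorem isoMk {A B : C3 k G} (e : A.W.V ≃ₗ[k] B.W.V)
    (h1 : ∀ g, e.toLinearMap ∘ₗ A.W.ρ g = B.W.ρ g ∘ₗ e.toLinearMap)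
    (h2 : e.toLinearMap ∘ₗ A.c = B.c ∘ₗ e.toLinearMap) : A.Iso B :=
  ⟨e, fun g v => congrArg (fun T => T v) (h1 g), fun v => congrArg (fun T => T v) h2⟩

theorem cb_congr {A B : Ob k G} (h : A.Iso B) : (C3.cb A).Iso (C3.cb B) := by
  obtain ⟨e, he⟩ := h.exists_equiv
  refine isoMk (TensorProduct.congr (TensorProduct.congr e e) e) (fun g => ?_) ?_
  · apply TensorProduct.ext_threefold
    intro a b d
    change (e (A.ρ g a) ⊗ₜ[k] e (A.ρ g b)) ⊗ₜ[k] e (A.ρ g d) =
      ((B.ρ g (e a) ⊗ₜ[k] B.ρ g (e b)) ⊗ₜ[k] B.ρ g (e d) : (B.V ⊗[k] B.V) ⊗[k] B.V)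
    rw [he, he, he]
  · apply TensorProduct.ext_threefold
    intro a b d
    rfl

theorem cb_inv (A : Ob k G) : (C3.cb A).Iso (C3.cb A).inv := by
  refine isoMk ((TensorProduct.comm k (A.V ⊗[k] A.V) A.V).trans
    ((TensorProduct.congr (LinearEquiv.refl k A.V) (TensorProduct.comm k A.V A.V)).trans
      (TensorProduct.assoc k A.V A.V A.V).symm)) (fun g => ?_) ?_
  · apply TensorProduct.ext_threefold
    intro a b d
    rfl
  · apply TensorProduct.ext_threefold
    intro a b d
    rfl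

theorem cb_dual (A : Ob k G) : (C3.cb A.dual).Iso (C3.cb A).dual.inv := by
  refine isoMk ((TensorProduct.congr (TensorProduct.dualDistribEquiv k A.V A.V)
    (LinearEquiv.refl k (Module.Dual k A.V))).trans
      (TensorProduct.dualDistribEquiv k (A.V ⊗[k] A.V) A.V)) (fun g => ?_) ?_
  · apply TensorProduct.ext_threefold
    intro f1 f2 f3
    apply TensorProduct.ext_threefold
    intro a b d
    rfl
  · apply TensorProduct.ext_threefold
    intro f1 f2 f3
    apply TensorProduct.ext_threefold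
    intro a b d
    change f2 a * f3 b * f1 d = f1 d * f2 a * f3 b
    ring

theorem cb_one_iso : ((C3.cb (Ob.one k G)).W).Iso (Ob.one k G) :=
  ((Ob.one_tens (Ob.one k G)).tens_congr (Ob.Iso.refl (Ob.one k G))).trans (Ob.one_tens (Ob.one k G))

theorem cb_one_c (v : (C3.cb (Ob.one k G)).W.V) : (C3.cb (Ob.one k G)).c v = v := by
  let ε : ((k ⊗[k] k) ⊗[k] k) ≃ₗ[k] k :=
    (TensorProduct.congr (TensorProduct.lid k k) (LinearEquiv.refl k k)).trans (TensorProduct.lid k k)
  apply ε.injective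
  have : ε.toLinearMap ∘ₗ (C3.cb (Ob.one k G)).c = ε.toLinearMap := by
    apply TensorProduct.ext_threefold
    intro a b d
    change (b * d) * a = (a * b) * d
    ring
  exact congrArg (fun T => T v) this

theorem cb_tens (A B : Ob k G) : (C3.cb (A.tens B)).Iso ((C3.cb A).tens (C3.cb B)) := by
  refine isoMk ((TensorProduct.congr (TensorProduct.tensorTensorTensorComm k A.V B.V A.V B.V)
    (LinearEquiv.refl k (A.V ⊗[k] B.V))).trans
      (TensorProduct.tensorTensorTensorComm k (A.V ⊗[k] A.V) (B.V ⊗[k] B.V) A.V B.V)) (fun g => ?_) ?_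
  · ext a b a' b' a'' b''
    rfl
  · ext a b a' b' a'' b''
    rfl

/-! ### the cube of a direct sum -/

section sum

variable (A B : Ob k G)

/-- the representation generating the free part -/
noncomputable abbrev UU : Ob k G := ((A.tens A).tens B).prod ((A.tens B).tens B)

/-- triple tensor product of maps -/
noncomputable abbrev m3 {V X Y Z : Type u} [AddCommGroup V] [Module k V] [AddCommGroup X] [Module k X]
    [AddCommGroup Y] [Module k Y] [AddCommGroup Z] [Module k Z]
    (f : V →ₗ[k] X) (g : V →ₗ[k] Y) (h : V →ₗ[k] Z) : (V ⊗[k] V) ⊗[k] V →ₗ[k] (X ⊗[k] Y) ⊗[k] Z :=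
  TensorProduct.map (TensorProduct.map f g) h

/-- the first projection to the mixed part -/
noncomputable abbrev p1 : ((A.V × B.V) ⊗[k] (A.V × B.V)) ⊗[k] (A.V × B.V) →ₗ[k]
    ((A.V ⊗[k] A.V) ⊗[k] B.V) × ((A.V ⊗[k] B.V) ⊗[k] B.V) :=
  (m3 (LinearMap.fst k A.V B.V) (LinearMap.fst k A.V B.V) (LinearMap.snd k A.V B.V)).prod
    (m3 (LinearMap.fst k A.V B.V) (LinearMap.snd k A.V B.V) (LinearMap.snd k A.V B.V))

/-- the total map -/
noncomputable abbrev TT : ((A.V × B.V) ⊗[k] (A.V × B.V)) ⊗[k] (A.V × B.V) →ₗ[k]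
    (((C3.cb A).prod (C3.cb B)).prod (C3.shift (UU A B))).W.V :=
  ((m3 (LinearMap.fst k A.V B.V) (LinearMap.fst k A.V B.V) (LinearMap.fst k A.V B.V)).prod
    (m3 (LinearMap.snd k A.V B.V) (LinearMap.snd k A.V B.V) (LinearMap.snd k A.V B.V))).prod
  ((p1 A B).prod (((p1 A B) ∘ₗ (C3.cb (A.prod B)).c).prod
    ((p1 A B) ∘ₗ ((C3.cb (A.prod B)).c ∘ₗ (C3.cb (A.prod B)).c))))

/-- rotation -/
noncomputable abbrev rot (X Y Z : Type u) [AddCommGroup X] [Module k X] [AddCommGroup Y] [Module k Y]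
    [AddCommGroup Z] [Module k Z] : (X ⊗[k] Y) ⊗[k] Z ≃ₗ[k] (Y ⊗[k] Z) ⊗[k] X :=
  (TensorProduct.assoc k X Y Z).trans (TensorProduct.comm k X (Y ⊗[k] Z))

theorem TT_inj : Function.Injective (TT A B) := by
  suffices h : ∀ v, TT A B v = 0 → v = 0 by
    intro x y hxy
    exact sub_eq_zero.1 (h (x - y) ((LinearMap.map_sub (TT A B) x y).trans (sub_eq_zero.2 hxy)))
  intro v hv
  have h1 : m3 (LinearMap.fst k A.V B.V) (LinearMap.fst k A.V B.V) (LinearMap.fst k A.V B.V) v = 0 :=
    congrArg (fun t => t.1.1) hv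
  have h2 : m3 (LinearMap.snd k A.V B.V) (LinearMap.snd k A.V B.V) (LinearMap.snd k A.V B.V) v = 0 :=
    congrArg (fun t => t.1.2) hv
  have h3 : m3 (LinearMap.fst k A.V B.V) (LinearMap.fst k A.V B.V) (LinearMap.snd k A.V B.V) v = 0 :=
    congrArg (fun t => t.2.1.1) hv
  have h4 : m3 (LinearMap.fst k A.V B.V) (LinearMap.snd k A.V B.V) (LinearMap.snd k A.V B.V) v = 0 :=
    congrArg (fun t => t.2.1.2) hv
  have h5 : m3 (LinearMap.fst k A.V B.V) (LinearMap.fst k A.V B.V) (LinearMap.snd k A.V B.V)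
      ((C3.cb (A.prod B)).c v) = 0 :=
    congrArg (fun t => t.2.2.1.1) hv
  have h6 : m3 (LinearMap.fst k A.V B.V) (LinearMap.snd k A.V B.V) (LinearMap.snd k A.V B.V)
      ((C3.cb (A.prod B)).c v) = 0 :=
    congrArg (fun t => t.2.2.1.2) hv
  have h7 : m3 (LinearMap.fst k A.V B.V) (LinearMap.fst k A.V B.V) (LinearMap.snd k A.V B.V)
      ((C3.cb (A.prod B)).c ((C3.cb (A.prod B)).c v)) = 0 :=
    congrArg (fun t => t.2.2.2.1) hv
  have h8 : m3 (LinearMap.fst k A.V B.V) (LinearMap.snd k A.V B.V) (LinearMap.snd k A.V B.V)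
      ((C3.cb (A.prod B)).c ((C3.cb (A.prod B)).c v)) = 0 :=
    congrArg (fun t => t.2.2.2.2) hv
  have r5 : m3 (LinearMap.snd k A.V B.V) (LinearMap.fst k A.V B.V) (LinearMap.fst k A.V B.V) v = 0 := by
    apply (rot (k := k) B.V A.V A.V).injective
    rw [map_zero, ← h5]
    have : (rot (k := k) B.V A.V A.V).toLinearMap ∘ₗ
        m3 (LinearMap.snd k A.V B.V) (LinearMap.fst k A.V B.V) (LinearMap.fst k A.V B.V) =
        m3 (LinearMap.fst k A.V B.V) (LinearMap.fst k A.V B.V) (LinearMap.snd k A.V B.V) ∘ₗ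
          (C3.cb (A.prod B)).c := by
      apply TensorProduct.ext_threefold
      intro a b d
      rfl
    exact congrArg (fun T => T v) this
  have r6 : m3 (LinearMap.snd k A.V B.V) (LinearMap.fst k A.V B.V) (LinearMap.snd k A.V B.V) v = 0 := by
    apply (rot (k := k) B.V A.V B.V).injective
    rw [map_zero, ← h6]
    have : (rot (k := k) B.V A.V B.V).toLinearMap ∘ₗ
        m3 (LinearMap.snd k A.V B.V) (LinearMap.fst k A.V B.V) (LinearMap.snd k A.V B.V) =
        m3 (LinearMap.fst k A.V B.V) (LinearMap.snd k A.V B.V) (LinearMap.snd k A.V B.V) ∘ₗ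
          (C3.cb (A.prod B)).c := by
      apply TensorProduct.ext_threefold
      intro a b d
      rfl
    exact congrArg (fun T => T v) this
  have r7 : m3 (LinearMap.fst k A.V B.V) (LinearMap.snd k A.V B.V) (LinearMap.fst k A.V B.V) v = 0 := by
    apply (rot (k := k) A.V B.V A.V).injective
    apply (rot (k := k) B.V A.V A.V).injective
    rw [map_zero, map_zero, ← h7]
    have : (rot (k := k) B.V A.V A.V).toLinearMap ∘ₗ (rot (k := k) A.V B.V A.V).toLinearMap ∘ₗ
        m3 (LinearMap.fst k A.V B.V) (LinearMap.snd k A.V B.V) (LinearMap.fst k A.V B.V) =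
        m3 (LinearMap.fst k A.V B.V) (LinearMap.fst k A.V B.V) (LinearMap.snd k A.V B.V) ∘ₗ
          (C3.cb (A.prod B)).c ∘ₗ (C3.cb (A.prod B)).c := by
      apply TensorProduct.ext_threefold
      intro a b d
      rfl
    exact congrArg (fun T => T v) this
  have r8 : m3 (LinearMap.snd k A.V B.V) (LinearMap.snd k A.V B.V) (LinearMap.fst k A.V B.V) v = 0 := by
    apply (rot (k := k) B.V B.V A.V).injective
    apply (rot (k := k) B.V A.V B.V).injective
    rw [map_zero, map_zero, ← h8]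
    have : (rot (k := k) B.V A.V B.V).toLinearMap ∘ₗ (rot (k := k) B.V B.V A.V).toLinearMap ∘ₗ
        m3 (LinearMap.snd k A.V B.V) (LinearMap.snd k A.V B.V) (LinearMap.fst k A.V B.V) =
        m3 (LinearMap.fst k A.V B.V) (LinearMap.snd k A.V B.V) (LinearMap.snd k A.V B.V) ∘ₗ
          (C3.cb (A.prod B)).c ∘ₗ (C3.cb (A.prod B)).c := by
      apply TensorProduct.ext_threefold
      intro a b d
      rfl
    exact congrArg (fun T => T v) this
  have key : (LinearMap.id : ((A.V × B.V) ⊗[k] (A.V × B.V)) ⊗[k] (A.V × B.V) →ₗ[k] _) =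
      TensorProduct.map (TensorProduct.map (LinearMap.inl k A.V B.V) (LinearMap.inl k A.V B.V)) (LinearMap.inl k A.V B.V) ∘ₗ
        m3 (LinearMap.fst k A.V B.V) (LinearMap.fst k A.V B.V) (LinearMap.fst k A.V B.V) +
      TensorProduct.map (TensorProduct.map (LinearMap.inr k A.V B.V) (LinearMap.inr k A.V B.V)) (LinearMap.inr k A.V B.V) ∘ₗ
        m3 (LinearMap.snd k A.V B.V) (LinearMap.snd k A.V B.V) (LinearMap.snd k A.V B.V) +
      TensorProduct.map (TensorProduct.map (LinearMap.inl k A.V B.V) (LinearMap.inl k A.V B.V)) (LinearMap.inr k A.V B.V) ∘ₗ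
        m3 (LinearMap.fst k A.V B.V) (LinearMap.fst k A.V B.V) (LinearMap.snd k A.V B.V) +
      TensorProduct.map (TensorProduct.map (LinearMap.inl k A.V B.V) (LinearMap.inr k A.V B.V)) (LinearMap.inr k A.V B.V) ∘ₗ
        m3 (LinearMap.fst k A.V B.V) (LinearMap.snd k A.V B.V) (LinearMap.snd k A.V B.V) +
      TensorProduct.map (TensorProduct.map (LinearMap.inr k A.V B.V) (LinearMap.inl k A.V B.V)) (LinearMap.inl k A.V B.V) ∘ₗ
        m3 (LinearMap.snd k A.V B.V) (LinearMap.fst k A.V B.V) (LinearMap.fst k A.V B.V) +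
      TensorProduct.map (TensorProduct.map (LinearMap.inr k A.V B.V) (LinearMap.inl k A.V B.V)) (LinearMap.inr k A.V B.V) ∘ₗ
        m3 (LinearMap.snd k A.V B.V) (LinearMap.fst k A.V B.V) (LinearMap.snd k A.V B.V) +
      TensorProduct.map (TensorProduct.map (LinearMap.inl k A.V B.V) (LinearMap.inr k A.V B.V)) (LinearMap.inl k A.V B.V) ∘ₗ
        m3 (LinearMap.fst k A.V B.V) (LinearMap.snd k A.V B.V) (LinearMap.fst k A.V B.V) +
      TensorProduct.map (TensorProduct.map (LinearMap.inr k A.V B.V) (LinearMap.inr k A.V B.V)) (LinearMap.inl k A.V B.V) ∘ₗ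
        m3 (LinearMap.snd k A.V B.V) (LinearMap.snd k A.V B.V) (LinearMap.fst k A.V B.V) := by
    apply TensorProduct.ext_threefold
    intro a b d
    have ea : a = LinearMap.inl k A.V B.V a.1 + LinearMap.inr k A.V B.V a.2 := by
      ext <;> simp
    have eb : b = LinearMap.inl k A.V B.V b.1 + LinearMap.inr k A.V B.V b.2 := by
      ext <;> simp
    have ed : d = LinearMap.inl k A.V B.V d.1 + LinearMap.inr k A.V B.V d.2 := by
      ext <;> simp
    simp only [LinearMap.id_apply, LinearMap.add_apply, LinearMap.comp_apply, TensorProduct.map_tmul,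
      LinearMap.fst_apply, LinearMap.snd_apply]
    conv_lhs => rw [ea, eb, ed]
    simp only [TensorProduct.tmul_add, TensorProduct.add_tmul]
    abel
  have := congrArg (fun T => T v) key
  simp only [LinearMap.id_apply, LinearMap.add_apply, LinearMap.comp_apply] at this
  rw [this, h1, h2, h3, h4, r5, r6, r7, r8]
  simp

theorem TT_dim : Module.finrank k (((A.V × B.V) ⊗[k] (A.V × B.V)) ⊗[k] (A.V × B.V)) =
    Module.finrank k (((C3.cb A).prod (C3.cb B)).prod (C3.shift (UU A B))).W.V := by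
  change _ = Module.finrank k ((((A.V ⊗[k] A.V) ⊗[k] A.V) × ((B.V ⊗[k] B.V) ⊗[k] B.V)) ×
    ((((A.V ⊗[k] A.V) ⊗[k] B.V) × ((A.V ⊗[k] B.V) ⊗[k] B.V)) ×
      ((((A.V ⊗[k] A.V) ⊗[k] B.V) × ((A.V ⊗[k] B.V) ⊗[k] B.V)) ×
        (((A.V ⊗[k] A.V) ⊗[k] B.V) × ((A.V ⊗[k] B.V) ⊗[k] B.V)))))
  simp only [Module.finrank_tensorProduct, Module.finrank_prod]
  ring

theorem cb_prod : (C3.cb (A.prod B)).Iso (((C3.cb A).prod (C3.cb B)).prod (C3.shift (UU A B))) := by
  refine isoMk (LinearMap.linearEquivOfInjective (TT A B) (TT_inj A B) (TT_dim A B)) (fun g => ?_) ?_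
  · apply TensorProduct.ext_threefold
    intro a b d
    rfl
  · apply TensorProduct.ext_threefold
    intro a b d
    rfl

end sum

/-! ### the trace -/

theorem cb_trace (A : Ob k G) : LinearMap.trace k _ (C3.cb A).c = (A.dim : k) := by
  let b := Module.finBasis k A.V
  let T := (b.tensorProduct b).tensorProduct b
  rw [LinearMap.trace_eq_matrix_trace k T]
  unfold Matrix.trace
  have h : ∀ i : (Fin (Module.finrank k A.V) × Fin (Module.finrank k A.V)) × Fin (Module.finrank k A.V),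
      (LinearMap.toMatrix T T (C3.cb A).c).diag i =
        if i.1.1 = i.1.2 ∧ i.1.2 = i.2 then 1 else 0 := by
    rintro ⟨⟨i, j⟩, l⟩
    rw [Matrix.diag_apply, LinearMap.toMatrix_apply]
    have e : (C3.cb A).c (T ((i, j), l)) = T ((j, l), i) := by
      simp only [T, Module.Basis.tensorProduct_apply]
      rfl
    rw [e, Module.Basis.repr_self, Finsupp.single_apply]
    congr 1
    simp only [Prod.mk.injEq, eq_iff_iff]
    constructor
    · rintro ⟨⟨h1, h2⟩, h3⟩
      exact ⟨h1.symm, h2.symm⟩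
    · rintro ⟨h1, h2⟩
      exact ⟨⟨h1.symm, h2.symm⟩, h1.trans h2⟩
  rw [Finset.sum_congr rfl (fun i _ => h i)]
  rw [Fintype.sum_prod_type, Fintype.sum_prod_type]
  have : ∀ i j : Fin (Module.finrank k A.V),
      (∑ l : Fin (Module.finrank k A.V), if i = j ∧ j = l then (1 : k) else 0) = if i = j then 1 else 0 := by
    intro i j
    by_cases hij : i = j
    · simp [hij]
    · simp [hij]
  simp only [this]
  simp
  rfl

theorem proof_cubes : S_cubes.{u, v} := by
  intro k _ G _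
  exact ⟨fun A B h => cb_congr h, fun A B => ⟨UU A B, cb_prod A B⟩, fun A B => cb_tens A B,
    fun A => cb_inv A, fun A => cb_dual A, cb_one_iso, cb_one_c, fun A => cb_trace A⟩

end Pool.Agent.H663.Kt
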