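import Pool.Agent.H398.Kt.Iface3

/-!
# B4a: eigenspaces of an operator of order three in characteristic two
-/

set_option autoImplicit false

open scoped TensorProduct

namespace Pool.Agent.H84.Kt

universe u v

open Pool.Agent.H398.Gam Pool.Agent.H398.Kt

variable {k : Type u} [Field k]

/-- Powers of the cube root of unity. -/
def mu (ω : k) (j : ZMod 3) : k := ω ^ j.val

section Scalars

variable {ω : k}

theorem om3 (hω : ω ^ 2 + ω + 1 = 0) : ω ^ 3 = 1 := by
  have h : ω ^ 3 - 1 = (ω - 1) * (ω ^ 2 + ω + 1) := by ring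
  rw [hω, mul_zero] at h
  exact sub_eq_zero.mp h

theorem mu_zero : mu ω 0 = 1 := by
  simp [mu]

theorem mu_one : mu ω 1 = ω := by
  have h : (1 : ZMod 3).val = 1 := rfl
  rw [mu, h, pow_one]

theorem mu_two : mu ω 2 = ω ^ 2 := by
  have h : (2 : ZMod 3).val = 2 := rfl
  rw [mu, h]

theorem mu_add (hω : ω ^ 2 + ω + 1 = 0) (i j : ZMod 3) : mu ω (i + j) = mu ω i * mu ω j := by
  rw [mu, ZMod.val_add, ← pow_eq_pow_mod _ (om3 hω), pow_add]
  rfl

theorem mu_cube (hω : ω ^ 2 + ω + 1 = 0) (j : ZMod 3) : mu ω j ^ 3 = 1 := by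
  rw [mu, ← pow_mul, mul_comm, pow_mul, om3 hω, one_pow]

theorem mu_neg_mul (hω : ω ^ 2 + ω + 1 = 0) (j : ZMod 3) : mu ω (-j) * mu ω j = 1 := by
  rw [← mu_add hω, neg_add_cancel, mu_zero]

theorem mu_neg (hω : ω ^ 2 + ω + 1 = 0) (j : ZMod 3) : mu ω (-j) = mu ω j ^ 2 := by
  have h1 := mu_neg_mul hω j
  have h2 := mu_cube hω j
  calc mu ω (-j) = mu ω (-j) * mu ω j ^ 3 := by rw [h2, mul_one]
    _ = (mu ω (-j) * mu ω j) * mu ω j ^ 2 := by ring
    _ = mu ω j ^ 2 := by rw [h1, one_mul]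

theorem mu_sum (hω : ω ^ 2 + ω + 1 = 0) (i : ZMod 3) (hi : i ≠ 0) :
    1 + (mu ω i + mu ω i ^ 2) = 0 := by
  have h : i = 1 ∨ i = 2 := by
    revert hi
    revert i
    decide
  rcases h with rfl | rfl
  · rw [mu_one]
    linear_combination hω
  · rw [mu_two]
    linear_combination (ω ^ 2 - ω + 1) * hω

theorem three_eq [CharP k 2] : (1 : k) + (1 + 1) = 1 := by
  have h : (2 : k) = 0 := CharTwo.two_eq_zero
  linear_combination h

end Scalars

section Lin

variable {ω : k} {V : Type*} [AddCommGroup V] [Module k V]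

/-- The projector onto an eigenspace. -/
def pr (ω : k) (c : V →ₗ[k] V) (j : ZMod 3) : V →ₗ[k] V :=
  LinearMap.id + (mu ω (-j) • c + (mu ω (-j) ^ 2) • (c ∘ₗ c))

theorem pr_apply (c : V →ₗ[k] V) (j : ZMod 3) (v : V) :
    pr ω c j v = v + (mu ω (-j) • c v + mu ω (-j) ^ 2 • c (c v)) := rfl

theorem pr_eig (hω : ω ^ 2 + ω + 1 = 0) (c : V →ₗ[k] V) (i j : ZMod 3) (v : V)
    (hv : c v = mu ω i • v) :
    pr ω c j v = (1 + (mu ω (i - j) + mu ω (i - j) ^ 2)) • v := by
  have h1 : c (c v) = (mu ω i ^ 2) • v := by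
    rw [hv, map_smul, hv, smul_smul, sq]
  have h2 : mu ω (i - j) = mu ω (-j) * mu ω i := by
    rw [← mu_add hω, neg_add_eq_sub]
  rw [pr_apply, h1, hv, h2]
  module

theorem pr_of_eig [CharP k 2] (hω : ω ^ 2 + ω + 1 = 0) (c : V →ₗ[k] V) (j : ZMod 3) (v : V)
    (hv : c v = mu ω j • v) : pr ω c j v = v := by
  rw [pr_eig hω c j j v hv, sub_self, mu_zero, one_pow, three_eq, one_smul]

theorem pr_of_ne (hω : ω ^ 2 + ω + 1 = 0) (c : V →ₗ[k] V) {i j : ZMod 3} (hij : i ≠ j) (v : V)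
    (hv : c v = mu ω i • v) : pr ω c j v = 0 := by
  rw [pr_eig hω c i j v hv, mu_sum hω _ (sub_ne_zero.mpr hij), zero_smul]

theorem c_pr (hω : ω ^ 2 + ω + 1 = 0) (c : V →ₗ[k] V) (hc : ∀ v, c (c (c v)) = v) (j : ZMod 3)
    (v : V) : c (pr ω c j v) = mu ω j • pr ω c j v := by
  have h1 := mu_neg_mul hω j
  have h2 := mu_neg hω j
  rw [pr_apply, map_add, map_add, map_smul, map_smul, hc, smul_add, smul_add, smul_smul,
    smul_smul]
  have h3 : mu ω j * mu ω (-j) = 1 := by rw [mul_comm]; exact h1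
  have h4 : mu ω j * mu ω (-j) ^ 2 = mu ω (-j) := by
    rw [sq, ← mul_assoc, h3, one_mul]
  have h5 : mu ω (-j) ^ 2 = mu ω j := by
    have := mu_neg hω (-j)
    rw [neg_neg] at this
    exact this.symm
  rw [h3, h4, one_smul, h5]
  abel

theorem pr_c (c : V →ₗ[k] V) (j : ZMod 3) (v : V) : pr ω c j (c v) = c (pr ω c j v) := by
  rw [pr_apply, pr_apply, map_add, map_add, map_smul, map_smul]

theorem pr_sum [CharP k 2] (hω : ω ^ 2 + ω + 1 = 0) (c : V →ₗ[k] V) (v : V) :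
    pr ω c 0 v + (pr ω c 1 v + pr ω c 2 v) = v := by
  have e0 : (-0 : ZMod 3) = 0 := rfl
  have e1 : (-1 : ZMod 3) = 2 := rfl
  have e2 : (-2 : ZMod 3) = 1 := rfl
  rw [pr_apply, pr_apply, pr_apply, e0, e1, e2, mu_zero, mu_one, mu_two]
  have h1 : (1 : k) + (ω ^ 2 + ω) = 0 := by linear_combination hω
  have h2 : (1 : k) + ((ω ^ 2) ^ 2 + ω ^ 2) = 0 := by linear_combination (ω ^ 2 - ω + 1) * hω
  have h3 : v + ((1 : k) • c v + (1 : k) ^ 2 • c (c v)) +
      (v + (ω ^ 2 • c v + (ω ^ 2) ^ 2 • c (c v)) + (v + (ω • c v + ω ^ 2 • c (c v)))) =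
      ((1 : k) + (1 + 1)) • v + ((1 : k) + (ω ^ 2 + ω)) • c v +
        ((1 : k) + ((ω ^ 2) ^ 2 + ω ^ 2)) • c (c v) := by
    module
  rw [h3, h1, h2, three_eq, one_smul, zero_smul, zero_smul, add_zero, add_zero]

theorem pr_comm_map {V' : Type*} [AddCommGroup V'] [Module k V'] (c : V →ₗ[k] V)
    (c' : V' →ₗ[k] V') (f : V →ₗ[k] V') (hf : ∀ v, f (c v) = c' (f v)) (j : ZMod 3) (v : V) :
    f (pr ω c j v) = pr ω c' j (f v) := by
  rw [pr_apply, pr_apply, map_add, map_add, map_smul, map_smul, hf, hf, hf]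

end Lin

section Reps

variable {G : Type v} [Group G]

theorem eig_inv (A : C3 k G) (m : k) (g : G) :
    LinearMap.ker (A.c - m • LinearMap.id) ≤
      (LinearMap.ker (A.c - m • LinearMap.id)).comap (A.W.ρ g) := by
  intro v hv
  simp only [Submodule.mem_comap, LinearMap.mem_ker, LinearMap.sub_apply, LinearMap.smul_apply,
    LinearMap.id_apply] at hv ⊢
  rw [A.eqv, ← map_smul, ← map_sub, hv, map_zero]

/-- The eigenspace. -/
noncomputable def E (ω : k) (j : ZMod 3) (A : C3 k G) : Ob k G :=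
  ⟨LinearMap.ker (A.c - mu ω j • LinearMap.id),
    A.W.ρ.subrepresentation (LinearMap.ker (A.c - mu ω j • LinearMap.id))
      (eig_inv A (mu ω j))⟩

/-- The inclusion of the eigenspace. -/
noncomputable def io (ω : k) (j : ZMod 3) (A : C3 k G) : (E ω j A).V →ₗ[k] A.W.V :=
  (LinearMap.ker (A.c - mu ω j • LinearMap.id)).subtype

variable {ω : k}

theorem io_inj (j : ZMod 3) (A : C3 k G) : Function.Injective (io ω j A) := Subtype.val_injective

theorem io_mem (j : ZMod 3) (A : C3 k G) (x : (E ω j A).V) :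
    A.c (io ω j A x) = mu ω j • io ω j A x := by
  have h : (A.c - mu ω j • LinearMap.id : A.W.V →ₗ[k] A.W.V) (io ω j A x) = 0 :=
    LinearMap.mem_ker.mp x.2
  rw [LinearMap.sub_apply, LinearMap.smul_apply, LinearMap.id_apply] at h
  exact sub_eq_zero.mp h

theorem io_ρ (j : ZMod 3) (A : C3 k G) (g : G) (x : (E ω j A).V) :
    io ω j A ((E ω j A).ρ g x) = A.W.ρ g (io ω j A x) := rfl

/-- Lift of a linear map to the eigenspace. -/
noncomputable def lft {X : Type*} [AddCommGroup X] [Module k X] (j : ZMod 3) (A : C3 k G)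
    (f : X →ₗ[k] A.W.V) (hf : ∀ x, A.c (f x) = mu ω j • f x) : X →ₗ[k] (E ω j A).V :=
  LinearMap.codRestrict (LinearMap.ker (A.c - mu ω j • LinearMap.id)) f (by
    intro x
    rw [LinearMap.mem_ker, LinearMap.sub_apply, LinearMap.smul_apply, LinearMap.id_apply, hf x,
      sub_self])

theorem io_lft {X : Type*} [AddCommGroup X] [Module k X] (j : ZMod 3) (A : C3 k G)
    (f : X →ₗ[k] A.W.V) (hf : ∀ x, A.c (f x) = mu ω j • f x) (x : X) :
    io ω j A (lft j A f hf x) = f x := rfl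

/-- The projection to the eigenspace. -/
noncomputable def pj (hω : ω ^ 2 + ω + 1 = 0) (j : ZMod 3) (A : C3 k G) :
    A.W.V →ₗ[k] (E ω j A).V :=
  lft j A (pr ω A.c j) (c_pr hω A.c A.cube j)

theorem io_pj (hω : ω ^ 2 + ω + 1 = 0) (j : ZMod 3) (A : C3 k G) (v : A.W.V) :
    io ω j A (pj hω j A v) = pr ω A.c j v := rfl

theorem pj_io [CharP k 2] (hω : ω ^ 2 + ω + 1 = 0) (j : ZMod 3) (A : C3 k G)
    (x : (E ω j A).V) : pj hω j A (io ω j A x) = x := by
  apply io_inj j A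
  rw [io_pj, pr_of_eig hω A.c j _ (io_mem j A x)]

theorem pj_io_ne (hω : ω ^ 2 + ω + 1 = 0) {i j : ZMod 3} (hij : i ≠ j) (A : C3 k G)
    (x : (E ω i A).V) : pj hω j A (io ω i A x) = 0 := by
  apply io_inj j A
  rw [io_pj, pr_of_ne hω A.c hij _ (io_mem i A x), map_zero]

theorem pj_ρ (hω : ω ^ 2 + ω + 1 = 0) (j : ZMod 3) (A : C3 k G) (g : G) (v : A.W.V) :
    pj hω j A (A.W.ρ g v) = (E ω j A).ρ g (pj hω j A v) := by
  apply io_inj j A
  rw [io_pj, io_ρ, io_pj]
  exact (pr_comm_map A.c A.c (A.W.ρ g) (fun v => (A.eqv g v).symm) j v).symm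

/-- Decompositions into three summands. -/
theorem iso3 (W X Y Z : Ob k G) (S : X.V →ₗ[k] W.V) (S' : Y.V →ₗ[k] W.V) (S'' : Z.V →ₗ[k] W.V)
    (T : W.V →ₗ[k] X.V) (T' : W.V →ₗ[k] Y.V) (T'' : W.V →ₗ[k] Z.V)
    (hT : ∀ g v, T (W.ρ g v) = X.ρ g (T v)) (hT' : ∀ g v, T' (W.ρ g v) = Y.ρ g (T' v))
    (hT'' : ∀ g v, T'' (W.ρ g v) = Z.ρ g (T'' v))
    (h1 : ∀ x, T (S x) = x) (h2 : ∀ y, T (S' y) = 0) (h3 : ∀ z, T (S'' z) = 0)
    (h1' : ∀ x, T' (S x) = 0) (h2' : ∀ y, T' (S' y) = y) (h3' : ∀ z, T' (S'' z) = 0)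
    (h1'' : ∀ x, T'' (S x) = 0) (h2'' : ∀ y, T'' (S' y) = 0) (h3'' : ∀ z, T'' (S'' z) = z)
    (hs : ∀ w, S (T w) + (S' (T' w) + S'' (T'' w)) = w) :
    ∃ e : W.V ≃ₗ[k] (X.V × (Y.V × Z.V)), (∀ w, e w = (T w, (T' w, T'' w))) ∧
      ∀ g w, e (W.ρ g w) = (X.prod (Y.prod Z)).ρ g (e w) := by
  refine ⟨LinearEquiv.ofLinearMap (T.prod (T'.prod T'')) (S.coprod (S'.coprod S'')) ?_ ?_,
    fun w => rfl, ?_⟩
  · apply LinearMap.ext
    rintro ⟨x, y, z⟩
    change ((T (S x + (S' y + S'' z)), (T' (S x + (S' y + S'' z)), T'' (S x + (S' y + S'' z)))) :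
      X.V × (Y.V × Z.V)) = (x, (y, z))
    rw [map_add T, map_add T, map_add T', map_add T', map_add T'', map_add T'', h1, h2, h3, h1',
      h2', h3', h1'', h2'', h3'']
    refine Prod.ext ?_ (Prod.ext ?_ ?_)
    · change x + (0 + 0) = x
      rw [add_zero, add_zero]
    · change 0 + (y + 0) = y
      rw [add_zero, zero_add]
    · change 0 + (0 + z) = z
      rw [zero_add, zero_add]
  · apply LinearMap.ext
    intro w
    exact hs w
  · intro g w
    change ((T (W.ρ g w), (T' (W.ρ g w), T'' (W.ρ g w))) : X.V × (Y.V × Z.V)) =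
      (X.ρ g (T w), (Y.ρ g (T' w), Z.ρ g (T'' w)))
    rw [hT, hT', hT'']

theorem E_iso (j : ZMod 3) (A B : C3 k G) (h : A.Iso B) : (E ω j A).Iso (E ω j B) := by
  obtain ⟨e, he, hc⟩ := h
  have h1 : ∀ x : (E ω j A).V, B.c ((e.toLinearMap ∘ₗ io ω j A) x) =
      mu ω j • (e.toLinearMap ∘ₗ io ω j A) x := by
    intro x
    change B.c (e (io ω j A x)) = mu ω j • e (io ω j A x)
    rw [← hc, io_mem, map_smul]
  have hc' : ∀ v, e.symm (B.c v) = A.c (e.symm v) := by
    intro v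
    apply e.injective
    rw [hc, e.apply_symm_apply, e.apply_symm_apply]
  have h2 : ∀ x : (E ω j B).V, A.c ((e.symm.toLinearMap ∘ₗ io ω j B) x) =
      mu ω j • (e.symm.toLinearMap ∘ₗ io ω j B) x := by
    intro x
    change A.c (e.symm (io ω j B x)) = mu ω j • e.symm (io ω j B x)
    rw [← hc', io_mem, map_smul]
  refine Ob.Iso.mk' (LinearEquiv.ofLinearMap (lft j B (e.toLinearMap ∘ₗ io ω j A) h1)
    (lft j A (e.symm.toLinearMap ∘ₗ io ω j B) h2) ?_ ?_) ?_
  · apply LinearMap.ext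
    intro x
    apply io_inj j B
    exact e.apply_symm_apply _
  · apply LinearMap.ext
    intro x
    apply io_inj j A
    exact e.symm_apply_apply _
  · intro g x
    apply io_inj j B
    exact he g _

theorem E_dec_aux [CharP k 2] (hω : ω ^ 2 + ω + 1 = 0) (A : C3 k G) :
    ∃ e : A.W.V ≃ₗ[k] ((E ω 0 A).V × ((E ω 1 A).V × (E ω 2 A).V)),
      (∀ w, e w = (pj hω 0 A w, (pj hω 1 A w, pj hω 2 A w))) ∧
      ∀ g w, e (A.W.ρ g w) = ((E ω 0 A).prod ((E ω 1 A).prod (E ω 2 A))).ρ g (e w) := by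
  have h01 : (0 : ZMod 3) ≠ 1 := by decide
  have h02 : (0 : ZMod 3) ≠ 2 := by decide
  have h12 : (1 : ZMod 3) ≠ 2 := by decide
  exact iso3 A.W _ _ _ (io ω 0 A) (io ω 1 A) (io ω 2 A) (pj hω 0 A) (pj hω 1 A) (pj hω 2 A)
    (pj_ρ hω 0 A) (pj_ρ hω 1 A) (pj_ρ hω 2 A)
    (pj_io hω 0 A) (pj_io_ne hω h01.symm A) (pj_io_ne hω h02.symm A)
    (pj_io_ne hω h01 A) (pj_io hω 1 A) (pj_io_ne hω h12.symm A)
    (pj_io_ne hω h02 A) (pj_io_ne hω h12 A) (pj_io hω 2 A)
    (fun w => pr_sum hω A.c w)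

theorem E_dec [CharP k 2] (hω : ω ^ 2 + ω + 1 = 0) (A : C3 k G) :
    A.W.Iso ((E ω 0 A).prod ((E ω 1 A).prod (E ω 2 A))) := by
  obtain ⟨e, -, he⟩ := E_dec_aux hω A
  exact Ob.Iso.mk' e he

theorem E_prod (j : ZMod 3) (A B : C3 k G) :
    (E ω j (A.prod B)).Iso ((E ω j A).prod (E ω j B)) := by
  have h1 : ∀ x : (E ω j (A.prod B)).V,
      A.c ((LinearMap.fst k A.W.V B.W.V ∘ₗ io ω j (A.prod B)) x) =
        mu ω j • (LinearMap.fst k A.W.V B.W.V ∘ₗ io ω j (A.prod B)) x := by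
    intro x
    exact congrArg Prod.fst (io_mem j (A.prod B) x)
  have h2 : ∀ x : (E ω j (A.prod B)).V,
      B.c ((LinearMap.snd k A.W.V B.W.V ∘ₗ io ω j (A.prod B)) x) =
        mu ω j • (LinearMap.snd k A.W.V B.W.V ∘ₗ io ω j (A.prod B)) x := by
    intro x
    exact congrArg Prod.snd (io_mem j (A.prod B) x)
  have h3 : ∀ x : (E ω j A).V × (E ω j B).V,
      (A.prod B).c (((io ω j A).prodMap (io ω j B)) x) =
        mu ω j • ((io ω j A).prodMap (io ω j B)) x := by
    intro x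
    exact Prod.ext (io_mem j A x.1) (io_mem j B x.2)
  refine Ob.Iso.mk' (LinearEquiv.ofLinearMap ((lft j A _ h1).prod (lft j B _ h2))
    (lft j (A.prod B) _ h3) ?_ ?_) ?_
  · apply LinearMap.ext
    intro x
    exact Prod.ext (io_inj j A rfl) (io_inj j B rfl)
  · apply LinearMap.ext
    intro x
    apply io_inj j (A.prod B)
    rfl
  · intro g x
    exact Prod.ext (io_inj j A rfl) (io_inj j B rfl)

/-! ### Tensor products -/

theorem map_id_pr {V V' : Type*} [AddCommGroup V] [Module k V] [AddCommGroup V'] [Module k V']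
    (c : V' →ₗ[k] V') (b : ZMod 3) (z : V ⊗[k] V') :
    TensorProduct.map (LinearMap.id : V →ₗ[k] V) (pr ω c b) z =
      pr ω (TensorProduct.map (LinearMap.id : V →ₗ[k] V) c) b z := by
  have h : TensorProduct.map (LinearMap.id : V →ₗ[k] V) (pr ω c b) =
      pr ω (TensorProduct.map (LinearMap.id : V →ₗ[k] V) c) b := by
    apply TensorProduct.ext'
    intro x y
    rw [TensorProduct.map_tmul, pr_apply, pr_apply, TensorProduct.map_tmul,
      TensorProduct.map_tmul, LinearMap.id_apply, TensorProduct.tmul_add,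
      TensorProduct.tmul_add, TensorProduct.tmul_smul, TensorProduct.tmul_smul]
    rfl
  rw [h]

theorem tens_key [CharP k 2] (hω : ω ^ 2 + ω + 1 = 0) {V V' : Type*} [AddCommGroup V]
    [Module k V] [AddCommGroup V'] [Module k V'] (c : V →ₗ[k] V) (c' : V' →ₗ[k] V')
    (hc : ∀ v, c (c (c v)) = v) (a b j : ZMod 3) (hab : a + b = j) (z : V ⊗[k] V')
    (hz : TensorProduct.map c c' z = mu ω j • z) :
    TensorProduct.map (pr ω c a) (pr ω c' b) z =
      TensorProduct.map (pr ω c a) (LinearMap.id : V' →ₗ[k] V') z := by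
  have h1 : TensorProduct.map (LinearMap.id : V →ₗ[k] V) c'
      (TensorProduct.map (pr ω c a) (LinearMap.id : V' →ₗ[k] V') z) =
      mu ω b • TensorProduct.map (pr ω c a) (LinearMap.id : V' →ₗ[k] V') z := by
    have e1 : (TensorProduct.map (LinearMap.id : V →ₗ[k] V) c') ∘ₗ
        (TensorProduct.map (pr ω c a) (LinearMap.id : V' →ₗ[k] V')) =
        mu ω (-a) • ((TensorProduct.map (pr ω c a) (LinearMap.id : V' →ₗ[k] V')) ∘ₗ
          (TensorProduct.map c c')) := by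
      apply TensorProduct.ext'
      intro x y
      rw [LinearMap.comp_apply, LinearMap.smul_apply, LinearMap.comp_apply,
        TensorProduct.map_tmul, TensorProduct.map_tmul, TensorProduct.map_tmul,
        TensorProduct.map_tmul, LinearMap.id_apply, LinearMap.id_apply, LinearMap.id_apply,
        pr_c, c_pr hω c hc, TensorProduct.smul_tmul', smul_smul, mu_neg_mul hω, one_smul]
    have e2 := LinearMap.congr_fun e1 z
    rw [LinearMap.comp_apply, LinearMap.smul_apply, LinearMap.comp_apply, hz, map_smul,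
      smul_smul, ← mu_add hω] at e2
    have e3 : -a + j = b := by rw [← hab, neg_add_cancel_left]
    rw [e3] at e2
    exact e2
  have h2 : TensorProduct.map (pr ω c a) (pr ω c' b) z =
      TensorProduct.map (LinearMap.id : V →ₗ[k] V) (pr ω c' b)
        (TensorProduct.map (pr ω c a) (LinearMap.id : V' →ₗ[k] V') z) := by
    have e1 : TensorProduct.map (pr ω c a) (pr ω c' b) =
      TensorProduct.map (LinearMap.id : V →ₗ[k] V) (pr ω c' b) ∘ₗ
        TensorProduct.map (pr ω c a) (LinearMap.id : V' →ₗ[k] V') := by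
      apply TensorProduct.ext'
      intro x y
      rw [LinearMap.comp_apply, TensorProduct.map_tmul, TensorProduct.map_tmul,
        TensorProduct.map_tmul, LinearMap.id_apply, LinearMap.id_apply]
    exact LinearMap.congr_fun e1 z
  rw [h2, map_id_pr, pr_of_eig hω _ b _ h1]

theorem tens_sum [CharP k 2] (hω : ω ^ 2 + ω + 1 = 0) {V V' : Type*} [AddCommGroup V]
    [Module k V] [AddCommGroup V'] [Module k V'] (c : V →ₗ[k] V) (c' : V' →ₗ[k] V')
    (hc : ∀ v, c (c (c v)) = v) (j : ZMod 3) (z : V ⊗[k] V')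
    (hz : TensorProduct.map c c' z = mu ω j • z) :
    TensorProduct.map (pr ω c 0) (pr ω c' j) z +
      (TensorProduct.map (pr ω c 1) (pr ω c' (j - 1)) z +
        TensorProduct.map (pr ω c 2) (pr ω c' (j - 2)) z) = z := by
  rw [tens_key hω c c' hc 0 j j (zero_add j) z hz,
    tens_key hω c c' hc 1 (j - 1) j (add_sub_cancel 1 j) z hz,
    tens_key hω c c' hc 2 (j - 2) j (add_sub_cancel 2 j) z hz]
  have e1 : TensorProduct.map (pr ω c 0) (LinearMap.id : V' →ₗ[k] V') +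
      (TensorProduct.map (pr ω c 1) (LinearMap.id : V' →ₗ[k] V') +
        TensorProduct.map (pr ω c 2) (LinearMap.id : V' →ₗ[k] V')) = LinearMap.id := by
    apply TensorProduct.ext'
    intro x y
    rw [LinearMap.add_apply, LinearMap.add_apply, TensorProduct.map_tmul,
      TensorProduct.map_tmul, TensorProduct.map_tmul, ← TensorProduct.add_tmul,
      ← TensorProduct.add_tmul, pr_sum hω]
    rfl
  exact LinearMap.congr_fun e1 z

theorem map_map_id {V V' X X' : Type*} [AddCommGroup V] [Module k V] [AddCommGroup V']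
    [Module k V'] [AddCommGroup X] [Module k X] [AddCommGroup X'] [Module k X']
    (f : X →ₗ[k] V) (g : V →ₗ[k] X) (f' : X' →ₗ[k] V') (g' : V' →ₗ[k] X')
    (h : ∀ x, g (f x) = x) (h' : ∀ x, g' (f' x) = x) (z : X ⊗[k] X') :
    TensorProduct.map g g' (TensorProduct.map f f' z) = z := by
  have e1 : (TensorProduct.map g g') ∘ₗ (TensorProduct.map f f') = LinearMap.id := by
    apply TensorProduct.ext'
    intro x y
    rw [LinearMap.comp_apply, TensorProduct.map_tmul, TensorProduct.map_tmul, h, h']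
    rfl
  exact LinearMap.congr_fun e1 z

theorem map_map_zero {V V' X X' Y Y' : Type*} [AddCommGroup V] [Module k V] [AddCommGroup V']
    [Module k V'] [AddCommGroup X] [Module k X] [AddCommGroup X'] [Module k X']
    [AddCommGroup Y] [Module k Y] [AddCommGroup Y'] [Module k Y']
    (f : X →ₗ[k] V) (g : V →ₗ[k] Y) (f' : X' →ₗ[k] V') (g' : V' →ₗ[k] Y')
    (h : ∀ x, g (f x) = 0) (z : X ⊗[k] X') :
    TensorProduct.map g g' (TensorProduct.map f f' z) = 0 := by
  have e1 : (TensorProduct.map g g') ∘ₗ (TensorProduct.map f f') = 0 := by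
    apply TensorProduct.ext'
    intro x y
    rw [LinearMap.comp_apply, TensorProduct.map_tmul, TensorProduct.map_tmul, h,
      TensorProduct.zero_tmul]
    rfl
  exact LinearMap.congr_fun e1 z

theorem map_map_comp {V V' X X' Y Y' : Type*} [AddCommGroup V] [Module k V] [AddCommGroup V']
    [Module k V'] [AddCommGroup X] [Module k X] [AddCommGroup X'] [Module k X']
    [AddCommGroup Y] [Module k Y] [AddCommGroup Y'] [Module k Y']
    (f : X →ₗ[k] V) (g : V →ₗ[k] Y) (f' : X' →ₗ[k] V') (g' : V' →ₗ[k] Y') (q : X →ₗ[k] Y)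
    (q' : X' →ₗ[k] Y') (h : ∀ x, g (f x) = q x) (h' : ∀ x, g' (f' x) = q' x) (z : X ⊗[k] X') :
    TensorProduct.map g g' (TensorProduct.map f f' z) = TensorProduct.map q q' z := by
  have e1 : (TensorProduct.map g g') ∘ₗ (TensorProduct.map f f') = TensorProduct.map q q' := by
    apply TensorProduct.ext'
    intro x y
    rw [LinearMap.comp_apply, TensorProduct.map_tmul, TensorProduct.map_tmul,
      TensorProduct.map_tmul, h, h']
  exact LinearMap.congr_fun e1 z

/-- The inclusion of a summand. -/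
noncomputable def tS (hω : ω ^ 2 + ω + 1 = 0) (A B : C3 k G) (a b j : ZMod 3)
    (hab : a + b = j) : ((E ω a A).V ⊗[k] (E ω b B).V) →ₗ[k] (E ω j (A.tens B)).V :=
  lft j (A.tens B) (TensorProduct.map (io ω a A) (io ω b B)) (by
    have e1 : (TensorProduct.map A.c B.c) ∘ₗ (TensorProduct.map (io ω a A) (io ω b B)) =
        mu ω j • (TensorProduct.map (io ω a A) (io ω b B)) := by
      apply TensorProduct.ext'
      intro x y
      rw [LinearMap.comp_apply, LinearMap.smul_apply, TensorProduct.map_tmul,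
        TensorProduct.map_tmul, io_mem, io_mem, TensorProduct.smul_tmul_smul, ← mu_add hω, hab]
    intro x
    exact LinearMap.congr_fun e1 x)

/-- The projection to a summand. -/
noncomputable def tT (hω : ω ^ 2 + ω + 1 = 0) (A B : C3 k G) (a b j : ZMod 3) :
    (E ω j (A.tens B)).V →ₗ[k] ((E ω a A).V ⊗[k] (E ω b B).V) :=
  (TensorProduct.map (pj hω a A) (pj hω b B)) ∘ₗ (io ω j (A.tens B))

theorem io_tS (hω : ω ^ 2 + ω + 1 = 0) (A B : C3 k G) (a b j : ZMod 3)
    (hab : a + b = j) (x : (E ω a A).V ⊗[k] (E ω b B).V) :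
    io ω j (A.tens B) (tS hω A B a b j hab x) =
      TensorProduct.map (io ω a A) (io ω b B) x := rfl

theorem tT_tS [CharP k 2] (hω : ω ^ 2 + ω + 1 = 0) (A B : C3 k G) (a b j : ZMod 3)
    (hab : a + b = j) (x : (E ω a A).V ⊗[k] (E ω b B).V) :
    tT hω A B a b j (tS hω A B a b j hab x) = x :=
  map_map_id (io ω a A) (pj hω a A) (io ω b B) (pj hω b B) (pj_io hω a A) (pj_io hω b B) x

theorem tT_tS_ne (hω : ω ^ 2 + ω + 1 = 0) (A B : C3 k G) (a b a' b' j : ZMod 3)
    (hab : a + b = j) (ha : a ≠ a') (x : (E ω a A).V ⊗[k] (E ω b B).V) :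
    tT hω A B a' b' j (tS hω A B a b j hab x) = 0 :=
  map_map_zero (io ω a A) (pj hω a' A) (io ω b B) (pj hω b' B) (pj_io_ne hω ha A) x

theorem tT_ρ (hω : ω ^ 2 + ω + 1 = 0) (A B : C3 k G) (a b j : ZMod 3) (g : G)
    (x : (E ω j (A.tens B)).V) :
    tT hω A B a b j ((E ω j (A.tens B)).ρ g x) =
      ((E ω a A).tens (E ω b B)).ρ g (tT hω A B a b j x) := by
  have h1 := map_map_comp (A.W.ρ g) (pj hω a A) (B.W.ρ g) (pj hω b B)
    (pj hω a A ∘ₗ A.W.ρ g) (pj hω b B ∘ₗ B.W.ρ g) (fun x => rfl) (fun x => rfl)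
    (io ω j (A.tens B) x)
  have h2 := map_map_comp (pj hω a A) ((E ω a A).ρ g) (pj hω b B) ((E ω b B).ρ g)
    (pj hω a A ∘ₗ A.W.ρ g) (pj hω b B ∘ₗ B.W.ρ g) (fun x => (pj_ρ hω a A g x).symm)
    (fun x => (pj_ρ hω b B g x).symm) (io ω j (A.tens B) x)
  exact h1.trans h2.symm

theorem E_tens [CharP k 2] (hω : ω ^ 2 + ω + 1 = 0) (j : ZMod 3) (A B : C3 k G) :
    (E ω j (A.tens B)).Iso (((E ω 0 A).tens (E ω j B)).prod
      (((E ω 1 A).tens (E ω (j - 1) B)).prod ((E ω 2 A).tens (E ω (j - 2) B)))) := by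
  have h01 : (0 : ZMod 3) ≠ 1 := by decide
  have h02 : (0 : ZMod 3) ≠ 2 := by decide
  have h12 : (1 : ZMod 3) ≠ 2 := by decide
  have hs : ∀ w : (E ω j (A.tens B)).V,
      tS hω A B 0 j j (zero_add j) (tT hω A B 0 j j w) +
        (tS hω A B 1 (j - 1) j (add_sub_cancel 1 j) (tT hω A B 1 (j - 1) j w) +
          tS hω A B 2 (j - 2) j (add_sub_cancel 2 j) (tT hω A B 2 (j - 2) j w)) = w := by
    intro w
    apply io_inj j (A.tens B)
    rw [map_add, map_add, io_tS, io_tS, io_tS]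
    have e : ∀ a b : ZMod 3, TensorProduct.map (io ω a A) (io ω b B) (tT hω A B a b j w) =
        TensorProduct.map (pr ω A.c a) (pr ω B.c b) (io ω j (A.tens B) w) := by
      intro a b
      exact map_map_comp (pj hω a A) (io ω a A) (pj hω b B) (io ω b B) (pr ω A.c a) (pr ω B.c b)
        (io_pj hω a A) (io_pj hω b B) (io ω j (A.tens B) w)
    rw [e, e, e]
    exact tens_sum hω A.c B.c A.cube j (io ω j (A.tens B) w) (io_mem j (A.tens B) w)
  obtain ⟨e, -, he⟩ := iso3 (E ω j (A.tens B)) ((E ω 0 A).tens (E ω j B))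
    ((E ω 1 A).tens (E ω (j - 1) B)) ((E ω 2 A).tens (E ω (j - 2) B))
    (tS hω A B 0 j j (zero_add j)) (tS hω A B 1 (j - 1) j (add_sub_cancel 1 j))
    (tS hω A B 2 (j - 2) j (add_sub_cancel 2 j))
    (tT hω A B 0 j j) (tT hω A B 1 (j - 1) j) (tT hω A B 2 (j - 2) j)
    (tT_ρ hω A B 0 j j) (tT_ρ hω A B 1 (j - 1) j) (tT_ρ hω A B 2 (j - 2) j)
    (tT_tS hω A B 0 j j _) (tT_tS_ne hω A B _ _ _ _ j _ h01.symm)
    (tT_tS_ne hω A B _ _ _ _ j _ h02.symm)
    (tT_tS_ne hω A B _ _ _ _ j _ h01) (tT_tS hω A B _ _ j _)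
    (tT_tS_ne hω A B _ _ _ _ j _ h12.symm)
    (tT_tS_ne hω A B _ _ _ _ j _ h02) (tT_tS_ne hω A B _ _ _ _ j _ h12)
    (tT_tS hω A B _ _ j _) hs
  exact Ob.Iso.mk' e he

/-! ### Shifts, inverses, duals, trivial operators, traces -/

theorem E_shift (hω : ω ^ 2 + ω + 1 = 0) (j : ZMod 3) (U : Ob k G) :
    (E ω j (C3.shift U)).Iso U := by
  have h1 : ∀ u : U.V, (C3.shift U).c ((LinearMap.id.prod ((mu ω j • LinearMap.id).prod
      ((mu ω j ^ 2) • LinearMap.id)) : U.V →ₗ[k] U.V × (U.V × U.V)) u) =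
      mu ω j • ((LinearMap.id.prod ((mu ω j • LinearMap.id).prod
      ((mu ω j ^ 2) • LinearMap.id)) : U.V →ₗ[k] U.V × (U.V × U.V)) u) := by
    intro u
    have h3 := mu_cube hω j
    change ((mu ω j • u, (mu ω j ^ 2 • u, u)) : U.V × (U.V × U.V)) =
      (mu ω j • u, (mu ω j • (mu ω j • u), mu ω j • (mu ω j ^ 2 • u)))
    rw [smul_smul, smul_smul, ← sq, ← pow_succ', h3, one_smul]
  refine Ob.Iso.mk' (LinearEquiv.ofLinearMap
    (LinearMap.fst k U.V (U.V × U.V) ∘ₗ io ω j (C3.shift U))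
    (lft j (C3.shift U) _ h1) ?_ ?_) ?_
  · apply LinearMap.ext
    intro u
    rfl
  · apply LinearMap.ext
    intro x
    apply io_inj j (C3.shift U)
    have h2 : (C3.shift U).c (io ω j (C3.shift U) x) = mu ω j • io ω j (C3.shift U) x :=
      io_mem j (C3.shift U) x
    change (((io ω j (C3.shift U) x).1, (mu ω j • (io ω j (C3.shift U) x).1,
      mu ω j ^ 2 • (io ω j (C3.shift U) x).1)) : U.V × (U.V × U.V)) = io ω j (C3.shift U) x
    generalize io ω j (C3.shift U) x = y at h2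
    obtain ⟨y0, y1, y2⟩ := y
    have e1 : y1 = mu ω j • y0 := congrArg Prod.fst h2
    have e2 : y2 = mu ω j • y1 := congrArg (fun z => z.2.1) h2
    change (y0, (mu ω j • y0, mu ω j ^ 2 • y0)) = (y0, (y1, y2))
    rw [e2, e1, smul_smul, sq]
  · intro g x
    rfl

theorem E_inv (hω : ω ^ 2 + ω + 1 = 0) (j : ZMod 3) (A : C3 k G) :
    (E ω j A.inv).Iso (E ω (-j) A) := by
  have h1 : ∀ x : (E ω j A.inv).V, A.c (io ω j A.inv x) = mu ω (-j) • io ω j A.inv x := by
    intro x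
    have h2 : A.c (A.c (io ω j A.inv x)) = mu ω j • io ω j A.inv x := io_mem j A.inv x
    have h3 := congrArg (fun y => mu ω (-j) • A.c y) h2
    have h4 : mu ω (-j) • A.c (A.c (A.c (io ω j A.inv x))) =
      mu ω (-j) • A.c (mu ω j • io ω j A.inv x) := h3
    rw [A.cube, map_smul, smul_smul, mu_neg_mul hω, one_smul] at h4
    exact h4.symm
  have h2 : ∀ x : (E ω (-j) A).V, A.inv.c (io ω (-j) A x) = mu ω j • io ω (-j) A x := by
    intro x
    change A.c (A.c (io ω (-j) A x)) = mu ω j • io ω (-j) A x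
    have h3 := mu_neg hω (-j)
    rw [neg_neg] at h3
    rw [io_mem, map_smul, io_mem, smul_smul, ← sq, ← h3]
  refine Ob.Iso.mk' (LinearEquiv.ofLinearMap (lft (-j) A (io ω j A.inv) h1)
    (lft j A.inv (io ω (-j) A) h2) ?_ ?_) ?_
  · apply LinearMap.ext
    intro x
    rfl
  · apply LinearMap.ext
    intro x
    rfl
  · intro g x
    rfl

theorem E_dual [CharP k 2] (hω : ω ^ 2 + ω + 1 = 0) (j : ZMod 3) (A : C3 k G) :
    (E ω j A.dual).Iso (E ω j A).dual := by
  have h1 : ∀ f : Module.Dual k (E ω j A).V,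
      A.dual.c ((pj hω j A).dualMap f) = mu ω j • (pj hω j A).dualMap f := by
    intro f
    apply LinearMap.ext
    intro v
    change f (pj hω j A (A.c v)) = mu ω j • f (pj hω j A v)
    rw [← map_smul]
    apply congrArg f
    apply io_inj j A
    rw [map_smul, io_pj, io_pj, pr_c, c_pr hω A.c A.cube]
  refine Ob.Iso.mk' (LinearEquiv.ofLinearMap ((io ω j A).dualMap ∘ₗ io ω j A.dual)
    (lft j A.dual (pj hω j A).dualMap h1) ?_ ?_) ?_
  · apply LinearMap.ext
    intro f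
    apply LinearMap.ext
    intro x
    change f (pj hω j A (io ω j A x)) = f x
    rw [pj_io]
  · apply LinearMap.ext
    intro f
    apply io_inj j A.dual
    apply LinearMap.ext
    intro v
    change (io ω j A.dual f : Module.Dual k A.W.V) (pr ω A.c j v) =
      (io ω j A.dual f : Module.Dual k A.W.V) v
    have h2 : A.dual.c (io ω j A.dual f) = mu ω j • io ω j A.dual f := io_mem j A.dual f
    generalize io ω j A.dual f = φ at h2
    have h3 : ∀ v, (φ : Module.Dual k A.W.V) (A.c v) = mu ω j * (φ : Module.Dual k A.W.V) v :=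
      fun v => LinearMap.congr_fun h2 v
    have h4 := mu_neg_mul hω j
    rw [pr_apply, map_add, map_add, map_smul, map_smul, h3, h3, h3]
    rw [smul_eq_mul, smul_eq_mul]
    have h5 : mu ω (-j) * (mu ω j * (φ : Module.Dual k A.W.V) v) =
        (φ : Module.Dual k A.W.V) v := by
      rw [← mul_assoc, h4, one_mul]
    have h6 : mu ω (-j) ^ 2 * (mu ω j * (mu ω j * (φ : Module.Dual k A.W.V) v)) =
        (φ : Module.Dual k A.W.V) v := by
      calc mu ω (-j) ^ 2 * (mu ω j * (mu ω j * (φ : Module.Dual k A.W.V) v)) =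
          (mu ω (-j) * mu ω j) * ((mu ω (-j) * mu ω j) * (φ : Module.Dual k A.W.V) v) := by ring
        _ = (φ : Module.Dual k A.W.V) v := by rw [h4, one_mul, one_mul]
    rw [h5, h6]
    have h7 : (2 : k) = 0 := CharTwo.two_eq_zero
    linear_combination ((φ : Module.Dual k A.W.V) v) * h7
  · intro g f
    rfl

theorem E_triv [CharP k 2] (hω : ω ^ 2 + ω + 1 = 0) (A : C3 k G) (h : ∀ v, A.c v = v) :
    (E ω 0 A).Iso A.W ∧ (∀ j, j ≠ 0 → (E ω j A).dim = 0) := by
  constructor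
  · have h1 : ∀ v : A.W.V, A.c ((LinearMap.id : A.W.V →ₗ[k] A.W.V) v) =
        mu ω 0 • (LinearMap.id : A.W.V →ₗ[k] A.W.V) v := by
      intro v
      rw [h, mu_zero, one_smul]
    refine Ob.Iso.mk' (LinearEquiv.ofLinearMap (io ω 0 A) (lft 0 A LinearMap.id h1) ?_ ?_) ?_
    · apply LinearMap.ext
      intro x
      rfl
    · apply LinearMap.ext
      intro x
      rfl
    · intro g x
      rfl
  · intro j hj
    have h1 : ∀ x : (E ω j A).V, x = 0 := by
      intro x
      apply io_inj j A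
      rw [map_zero]
      have h2 := io_mem j A x
      rw [h] at h2
      have h3 := mu_sum hω j hj
      generalize io ω j A x = y at h2
      have h4 : (1 + (mu ω j + mu ω j ^ 2)) • y = (1 + (1 + 1) : k) • y := by
        rw [add_smul, add_smul, add_smul, add_smul, sq, ← smul_smul, ← h2, ← h2, one_smul]
      rw [h3, zero_smul, three_eq, one_smul] at h4
      exact h4.symm
    have : Subsingleton (E ω j A).V := ⟨fun a b => by rw [h1 a, h1 b]⟩
    exact Module.finrank_zero_of_subsingleton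

theorem E_trace [CharP k 2] (hω : ω ^ 2 + ω + 1 = 0) (A : C3 k G) :
    ((E ω 0 A).dim : k) + ω * (E ω 1 A).dim + ω ^ 2 * (E ω 2 A).dim =
        LinearMap.trace k A.W.V A.c := by
  obtain ⟨e, he, -⟩ := E_dec_aux hω A
  have h1 : e.conj A.c = ((mu ω 0 • LinearMap.id : (E ω 0 A).V →ₗ[k] (E ω 0 A).V).prodMap
      ((mu ω 1 • LinearMap.id : (E ω 1 A).V →ₗ[k] (E ω 1 A).V).prodMap
        (mu ω 2 • LinearMap.id : (E ω 2 A).V →ₗ[k] (E ω 2 A).V))) := by
    have h2 : ∀ (j : ZMod 3) (w : A.W.V), pj hω j A (A.c w) = mu ω j • pj hω j A w := by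
      intro j w
      apply io_inj j A
      rw [map_smul, io_pj, io_pj, pr_c, c_pr hω A.c A.cube]
    apply LinearMap.ext
    intro y
    obtain ⟨w, rfl⟩ := e.surjective y
    rw [LinearEquiv.conj_apply_apply, e.symm_apply_apply, he, he, h2, h2, h2]
    rfl
  rw [← LinearMap.trace_conj' A.c e, h1, LinearMap.trace_prodMap', LinearMap.trace_prodMap',
    map_smul, map_smul, map_smul, LinearMap.trace_id, LinearMap.trace_id, LinearMap.trace_id,
    mu_zero, mu_one, mu_two, one_smul, smul_eq_mul, smul_eq_mul, add_assoc]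
  rfl

end Reps

theorem proof_eig : S_eig.{u, v} := by
  intro k _ _ ω hω G _
  have h1 : (1 : ZMod 3) ≠ 0 := by decide
  have h2 : (2 : ZMod 3) ≠ 0 := by decide
  exact ⟨E ω, E_iso, E_dec hω, E_prod, E_tens hω, E_shift hω, E_inv hω, E_dual hω,
    fun A h => ⟨(E_triv hω A h).1, (E_triv hω A h).2 1 h1, (E_triv hω A h).2 2 h2⟩,
    E_trace hω⟩

end Pool.Agent.H84.Kt
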