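import Pool.Agent.H398.Kt.Iface3

/-!
# KT20: integrality of a character value from a Krull-Schmidt semiring (`S_integral`)
-/

set_option autoImplicit false

open Pool.Agent.H398.Kt

namespace Pool.Agent.H670.Kt

universe w

section

variable {S : Type w} [CommSemiring S]

/-- conical: a sum which is zero has zero summands -/
theorem conical (H1 : ∀ s : S, ∃ l : Multiset S, s = l.sum ∧ ∀ a ∈ l, Atm a)
    {φ : S → ℝ} (hpos : ∀ s, 0 ≤ φ s) (h1 : φ 1 = 1) (h0 : φ 0 = 0)
    (hadd : ∀ s t, φ (s + t) = φ s + φ t) {a c : S} (ha : a ≠ 0) (h : 0 = a + c) : False := by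
  -- an atom of positive value
  have he : ∃ e : S, Atm e ∧ 0 < φ e := by
    by_contra hne
    push Not at hne
    obtain ⟨l, hl, hl2⟩ := H1 1
    have h2 : φ 1 ≤ 0 := by
      rw [hl]
      clear hl
      induction l using Multiset.induction_on with
      | empty => rw [Multiset.sum_zero, h0]
      | cons b l ih =>
        rw [Multiset.sum_cons, hadd]
        have h3 := hne b (hl2 b (Multiset.mem_cons_self b l))
        have h4 := ih fun a ha => hl2 a (Multiset.mem_cons_of_mem ha)
        linarith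
    rw [h1] at h2
    linarith
  obtain ⟨e, he1, he2⟩ := he
  have h3 : e = (e + a) + c := by rw [add_assoc, ← h, add_zero]
  rcases he1.2 _ _ h3 with h4 | h4
  · have h5 := hadd e a
    rw [h4, h0] at h5
    have := hpos a
    linarith
  · rw [h4, add_zero] at h
    exact ha h.symm

theorem mem_of_le (hcon : ∀ a c : S, a ≠ 0 → 0 = a + c → False)
    (H2 : ∀ a s t u : S, Atm a → a + u = s + t → (∃ c, s = a + c) ∨ (∃ c, t = a + c))
    {a : S} (ha : Atm a) (l : Multiset S) (hl : ∀ b ∈ l, Atm b) (h : ∃ c, l.sum = a + c) :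
    a ∈ l := by
  induction l using Multiset.induction_on with
  | empty =>
    obtain ⟨c, hc⟩ := h
    exact (hcon a c ha.1 (by rw [← hc, Multiset.sum_zero])).elim
  | cons b l ih =>
    obtain ⟨c, hc⟩ := h
    rw [Multiset.sum_cons] at hc
    rcases H2 a b l.sum c ha hc.symm with ⟨c', hc'⟩ | h'
    · rcases (hl b (Multiset.mem_cons_self b l)).2 _ _ hc' with h3 | h3
      · exact absurd h3 ha.1
      · rw [h3, add_zero] at hc'
        rw [hc']
        exact Multiset.mem_cons_self _ _
    · exact Multiset.mem_cons_of_mem (ih (fun b hb => hl b (Multiset.mem_cons_of_mem hb)) h')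

theorem le_sum (hcon : ∀ a c : S, a ≠ 0 → 0 = a + c → False)
    (H2 : ∀ a s t u : S, Atm a → a + u = s + t → (∃ c, s = a + c) ∨ (∃ c, t = a + c))
    {a : S} (ha : Atm a) {ι : Type} (s : Finset ι) (f : ι → S)
    (h : ∃ c, ∑ j ∈ s, f j = a + c) : ∃ j ∈ s, ∃ c, f j = a + c := by
  classical
  induction s using Finset.induction_on with
  | empty =>
    obtain ⟨c, hc⟩ := h
    exact (hcon a c ha.1 (by rw [← hc, Finset.sum_empty])).elim
  | insert i s hi ih =>
    obtain ⟨c, hc⟩ := h
    rw [Finset.sum_insert hi] at hc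
    rcases H2 a _ _ c ha hc.symm with h' | h'
    · exact ⟨i, Finset.mem_insert_self _ _, h'⟩
    · obtain ⟨j, hj, hj'⟩ := ih h'
      exact ⟨j, Finset.mem_insert_of_mem hj, hj'⟩

theorem le_nat (hcon : ∀ a c : S, a ≠ 0 → 0 = a + c → False)
    (H2 : ∀ a s t u : S, Atm a → a + u = s + t → (∃ c, s = a + c) ∨ (∃ c, t = a + c))
    {a : S} (ha : Atm a) (n : ℕ) (y : S) (h : ∃ c, (n : S) * y = a + c) : ∃ c, y = a + c := by
  induction n with
  | zero =>
    obtain ⟨c, hc⟩ := h
    exact (hcon a c ha.1 (by rw [← hc, Nat.cast_zero, zero_mul])).elim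
  | succ n ih =>
    obtain ⟨c, hc⟩ := h
    rw [Nat.cast_succ, add_mul, one_mul] at hc
    rcases H2 a _ _ c ha hc.symm with h' | h'
    · exact ih h'
    · exact h'

end

theorem integral_core (S : Type w) [CommSemiring S]
    (H1 : ∀ s : S, ∃ l : Multiset S, s = l.sum ∧ ∀ a ∈ l, Atm a)
    (H2 : ∀ a s t u : S, Atm a → a + u = s + t → (∃ c, s = a + c) ∨ (∃ c, t = a + c))
    (φ : S → ℝ) (hpos : ∀ s, 0 ≤ φ s) (h1 : φ 1 = 1) (h0 : φ 0 = 0)
    (hadd : ∀ s t, φ (s + t) = φ s + φ t) (hmul : ∀ s t, φ (s * t) = φ s * φ t)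
    (x z : S) (D : ℕ) (a b : ℕ → ℕ) (_hD : 1 ≤ D) (hz : φ z = 0)
    (hrel : x ^ D + ∑ j ∈ Finset.range D, (a j : S) * x ^ j =
        z + ∑ j ∈ Finset.range D, (b j : S) * x ^ j)
    (n n' : S) (m : ℕ) (hn : (1 + x) ^ m = n + n') : IsIntegral ℤ (φ n) := by
  classical
  have hcon : ∀ a c : S, a ≠ 0 → 0 = a + c → False :=
    fun a c ha h => conical H1 hpos h1 h0 hadd ha h
  -- the lattice
  set B : Set ℝ := {r | ∃ e : S, Atm e ∧ (∃ j < D, ∃ c, x ^ j = e + c) ∧ φ e = r} with hB
  set Λ : Submodule ℤ ℝ := Submodule.span ℤ B with hΛ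
  have hBfin : B.Finite := by
    choose l hl using fun j : ℕ => H1 (x ^ j)
    refine Set.Finite.subset
      ((Finset.range D).biUnion fun j => ((l j).toFinset).image φ).finite_toSet ?_
    rintro r ⟨e, he, ⟨j, hj, hc⟩, rfl⟩
    rw [Finset.mem_coe, Finset.mem_biUnion]
    refine ⟨j, Finset.mem_range.2 hj, Finset.mem_image_of_mem φ ?_⟩
    rw [Multiset.mem_toFinset]
    refine mem_of_le hcon H2 he (l j) (hl j).2 ?_
    rw [← (hl j).1]
    exact hc
  have hfg : Λ.FG := Submodule.fg_span hBfin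
  -- (3)
  have h3 : ∀ k : ℕ, ∀ e : S, Atm e → (∃ c, x ^ k = e + c) → φ e ∈ Λ := by
    intro k
    induction k using Nat.strong_induction_on with
    | _ k ih =>
      intro e he hc
      rcases Nat.lt_or_ge k D with hk | hk
      · exact Submodule.subset_span ⟨e, he, ⟨k, hk, hc⟩, rfl⟩
      · obtain ⟨c, hc⟩ := hc
        have e1 : e + (c + (∑ j ∈ Finset.range D, (a j : S) * x ^ j) * x ^ (k - D)) =
            z * x ^ (k - D) + ∑ j ∈ Finset.range D, (b j : S) * x ^ (j + (k - D)) := by
          rw [← add_assoc, ← hc]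
          have e2 : x ^ k = x ^ D * x ^ (k - D) := by rw [← pow_add, Nat.add_sub_cancel' hk]
          rw [e2, ← add_mul, hrel, add_mul, Finset.sum_mul]
          congr 1
          refine Finset.sum_congr rfl fun j _ => ?_
          rw [mul_assoc, ← pow_add]
        rcases H2 e _ _ _ he e1 with ⟨c', hc'⟩ | h'
        · have e3 : φ e + φ c' = 0 := by rw [← hadd, ← hc', hmul, hz, zero_mul]
          have e4 : φ e = 0 := by
            have := hpos e
            have := hpos c'
            linarith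
          rw [e4]
          exact Submodule.zero_mem _
        · obtain ⟨j, hj, hj'⟩ := le_sum hcon H2 he _ _ h'
          have h5 := le_nat hcon H2 he _ _ hj'
          rw [Finset.mem_range] at hj
          exact ih (j + (k - D)) (by omega) e he h5
  -- (4)
  have h4 : ∀ (N : ℕ) (c k : ℕ → ℕ) (t : S),
      (∃ r, ∑ j ∈ Finset.range N, (c j : S) * x ^ (k j) = t + r) → φ t ∈ Λ := by
    intro N c k t ht
    obtain ⟨l, hl, hl2⟩ := H1 t
    obtain ⟨r, hr⟩ := ht
    have key : ∀ e ∈ l, φ e ∈ Λ := by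
      intro e he
      have hle : ∃ r', t = e + r' := by
        refine ⟨(l.erase e).sum, ?_⟩
        rw [hl, Multiset.sum_erase he]
      obtain ⟨r', hr'⟩ := hle
      have h5 : ∃ r'', ∑ j ∈ Finset.range N, (c j : S) * x ^ (k j) = e + r'' :=
        ⟨r' + r, by rw [hr, hr', add_assoc]⟩
      obtain ⟨j, _, hj'⟩ := le_sum hcon H2 (hl2 e he) _ _ h5
      exact h3 (k j) e (hl2 e he) (le_nat hcon H2 (hl2 e he) _ _ hj')
    rw [hl]
    clear hl hl2 hr
    induction l using Multiset.induction_on with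
    | empty =>
      rw [Multiset.sum_zero, h0]
      exact Submodule.zero_mem _
    | cons e l ih =>
      rw [Multiset.sum_cons, hadd]
      exact Submodule.add_mem _ (key e (Multiset.mem_cons_self _ _))
        (ih fun e he => key e (Multiset.mem_cons_of_mem he))
  -- `1` is in the lattice
  have hone : (1 : ℝ) ∈ Λ := by
    rw [← h1]
    refine h4 1 (fun _ => 1) (fun _ => 0) 1 ⟨0, ?_⟩
    simp
  have hne : Λ ≠ ⊥ := by
    intro h
    rw [h, Submodule.mem_bot] at hone
    exact one_ne_zero hone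
  refine isIntegral_of_smul_mem_submodule Λ hne hfg (φ n) ?_
  intro r hr
  induction hr using Submodule.span_induction with
  | mem r hr =>
    obtain ⟨e, he, ⟨j, hj, c, hc⟩, rfl⟩ := hr
    rw [smul_eq_mul, ← hmul]
    refine h4 (m + 1) (fun i => m.choose i) (fun i => i + j) (n * e)
      ⟨n' * e + (n + n') * c, ?_⟩
    have e1 : (1 + x) ^ m * x ^ j = n * e + (n' * e + (n + n') * c) := by
      rw [hn, hc]
      ring
    rw [← e1, add_comm 1 x, add_pow, Finset.sum_mul]
    refine Finset.sum_congr rfl fun i _ => ?_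
    rw [one_pow, mul_one, pow_add]
    ring
  | zero =>
    rw [smul_zero]
    exact Submodule.zero_mem _
  | add r s _ _ hr hs =>
    rw [smul_add]
    exact Submodule.add_mem _ hr hs
  | smul k r _ hr =>
    rw [smul_comm]
    exact Submodule.smul_mem _ _ hr

theorem proof_integral : S_integral.{w} := by
  intro S _ H1 H2 φ hpos h1 h0 hadd hmul x z D a b hD hz hrel n n' m hn
  exact integral_core S H1 H2 φ hpos h1 h0 hadd hmul x z D a b hD hz hrel n n' m hn

end Pool.Agent.H670.Kt
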