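import Pool.Agent.H398.Kt.Iface3

/-!
# Cancellation for finite-dimensional representations (`S_ksCancel`)
-/

set_option autoImplicit false

namespace Pool.Agent.H825.Kt

open Pool.Agent.H398.Gam Pool.Agent.H398.Kt
open Pool.Agent.H398.Gam.Ob

universe u v

section

variable {k : Type u} [Field k] {G : Type v} [Group G]

/-- Complementary invariant subspaces. -/
theorem iso_of_isCompl (N : Ob k G) (U W : Submodule k N.V) (h : IsCompl U W)
    (hU : ∀ g, U ≤ U.comap (N.ρ g)) (hW : ∀ g, W ≤ W.comap (N.ρ g)) :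
    ∃ A B : Ob k G, N.Iso (A.prod B) ∧ A.dim = Module.finrank k U ∧
      B.dim = Module.finrank k W := by
  refine ⟨⟨U, N.ρ.subrepresentation U hU⟩, ⟨W, N.ρ.subrepresentation W hW⟩, ?_, rfl, rfl⟩
  apply Iso.symm
  refine Iso.mk' (Submodule.prodEquivOfIsCompl U W h) (fun g v => ?_)
  rw [Submodule.coe_prodEquivOfIsCompl', Submodule.coe_prodEquivOfIsCompl', map_add]
  rfl

/-- Fitting's lemma. -/
theorem indec_split {N : Ob k G} (hN : Indec N) (f : N.V →ₗ[k] N.V) (hf : Eqv N N f) :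
    Function.Injective f ∨ ∀ v, f v = v → v = 0 := by
  obtain ⟨n, hn1, hn⟩ : ∃ n, 1 ≤ n ∧
      IsCompl (LinearMap.ker (f ^ n)) (LinearMap.range (f ^ n)) := by
    have h := LinearMap.eventually_isCompl_ker_pow_range_pow f
    obtain ⟨n, hn⟩ := (h.and (Filter.eventually_ge_atTop 1)).exists
    exact ⟨n, hn.2, hn.1⟩
  have hpow : ∀ m, Eqv N N (f ^ m) := by
    intro m
    induction m with
    | zero => intro g v; rfl
    | succ m ih => intro g v; rw [pow_succ', Module.End.mul_apply, Module.End.mul_apply, ih, hf]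
  obtain ⟨A, B, hAB, hA, hB⟩ := iso_of_isCompl N _ _ hn
    (fun g v hv => by
      rw [Submodule.mem_comap, LinearMap.mem_ker, hpow n g v, LinearMap.mem_ker.1 hv, map_zero])
    (fun g v hv => by
      obtain ⟨w, rfl⟩ := LinearMap.mem_range.1 hv
      rw [Submodule.mem_comap, ← hpow n g w]
      exact LinearMap.mem_range_self _ _)
  rcases hN.2 A B hAB with h | h
  · left
    rw [hA, Submodule.finrank_eq_zero] at h
    rw [injective_iff_map_eq_zero]
    intro v hv
    have h1 : v ∈ LinearMap.ker (f ^ n) := by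
      rw [LinearMap.mem_ker]
      obtain ⟨m, rfl⟩ : ∃ m, n = m + 1 := ⟨n - 1, by omega⟩
      rw [pow_succ, Module.End.mul_apply, hv, map_zero]
    rw [h] at h1
    exact (Submodule.mem_bot k).1 h1
  · right
    rw [hB, Submodule.finrank_eq_zero] at h
    intro v hv
    have h1 : ∀ m, (f ^ m) v = v := by
      intro m
      induction m with
      | zero => rfl
      | succ m ih => rw [pow_succ', Module.End.mul_apply, ih, hv]
    have h2 : v ∈ LinearMap.range (f ^ n) := ⟨v, h1 n⟩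
    rw [h] at h2
    exact (Submodule.mem_bot k).1 h2

/-- Gaussian elimination. -/
theorem cancel_of_inj {N A B : Ob k G} (θ : (N.prod A).V ≃ₗ[k] (N.prod B).V)
    (hθ : ∀ g v, θ ((N.prod A).ρ g v) = (N.prod B).ρ g (θ v))
    (hinj : ∀ n : N.V, (θ ((n, 0) : N.V × A.V) : N.V × B.V).1 = 0 → n = 0) : A.Iso B := by
  obtain ⟨a, ha⟩ : ∃ a : N.V →ₗ[k] N.V, a = (LinearMap.fst k N.V B.V).comp
    ((θ : (N.V × A.V) →ₗ[k] (N.V × B.V)).comp (LinearMap.inl k N.V A.V)) := ⟨_, rfl⟩
  obtain ⟨b, hb⟩ : ∃ b : A.V →ₗ[k] N.V, b = (LinearMap.fst k N.V B.V).comp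
    ((θ : (N.V × A.V) →ₗ[k] (N.V × B.V)).comp (LinearMap.inr k N.V A.V)) := ⟨_, rfl⟩
  have ha' : ∀ n, a n = (θ ((n, 0) : N.V × A.V) : N.V × B.V).1 := fun n => by rw [ha]; rfl
  have hb' : ∀ x, b x = (θ ((0, x) : N.V × A.V) : N.V × B.V).1 := fun x => by rw [hb]; rfl
  have hainj : Function.Injective a := by
    rw [injective_iff_map_eq_zero]
    intro n hn
    exact hinj n (by rw [← ha']; exact hn)
  obtain ⟨a', haa⟩ : ∃ a' : N.V ≃ₗ[k] N.V, ∀ n, a' n = a n :=
    ⟨LinearEquiv.ofInjectiveEndo a hainj, fun n => rfl⟩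
  have eqa : ∀ g n, a (N.ρ g n) = N.ρ g (a n) := by
    intro g n
    have h1 := hθ g ((n, 0) : N.V × A.V)
    have h2 : (N.prod A).ρ g ((n, 0) : N.V × A.V) = ((N.ρ g n, 0) : N.V × A.V) := by
      change ((N.ρ g n, A.ρ g 0) : N.V × A.V) = _
      rw [map_zero]
    rw [h2] at h1
    rw [ha', h1, ha']
    rfl
  have eqb : ∀ g x, b (A.ρ g x) = N.ρ g (b x) := by
    intro g x
    have h1 := hθ g ((0, x) : N.V × A.V)
    have h2 : (N.prod A).ρ g ((0, x) : N.V × A.V) = ((0, A.ρ g x) : N.V × A.V) := by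
      change ((N.ρ g 0, A.ρ g x) : N.V × A.V) = _
      rw [map_zero]
    rw [h2] at h1
    rw [hb', h1, hb']
    rfl
  have eqa' : ∀ g n, a'.symm (N.ρ g n) = N.ρ g (a'.symm n) := by
    intro g n
    apply a'.injective
    rw [LinearEquiv.apply_symm_apply, haa, eqa, ← haa, LinearEquiv.apply_symm_apply]
  obtain ⟨j, hj⟩ : ∃ j : A.V →ₗ[k] (N.V × A.V), ∀ x, j x = (-(a'.symm (b x)), x) :=
    ⟨(-((a'.symm : N.V →ₗ[k] N.V).comp b)).prod LinearMap.id, fun x => rfl⟩
  have eqj : ∀ g x, j (A.ρ g x) = (N.prod A).ρ g (j x) := by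
    intro g x
    rw [hj, hj, eqb, eqa']
    change _ = ((N.ρ g (-(a'.symm (b x))), A.ρ g x) : N.V × A.V)
    rw [map_neg]
  obtain ⟨s, hs⟩ : ∃ s : A.V →ₗ[k] B.V, ∀ x, s x = (θ (j x) : N.V × B.V).2 :=
    ⟨(LinearMap.snd k N.V B.V).comp ((θ : (N.V × A.V) →ₗ[k] (N.V × B.V)).comp j), fun x => rfl⟩
  have hfst : ∀ x, (θ (j x) : N.V × B.V).1 = 0 := by
    intro x
    have h1 : j x = ((-(a'.symm (b x)), 0) : N.V × A.V) + ((0, x) : N.V × A.V) := by
      rw [hj, Prod.mk_add_mk, add_zero, zero_add]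
    have h2 : θ (j x) = θ ((-(a'.symm (b x)), 0) : N.V × A.V) + θ ((0, x) : N.V × A.V) := by
      rw [h1]; exact map_add θ _ _
    rw [h2, Prod.fst_add, ← ha', ← hb', map_neg, ← haa, LinearEquiv.apply_symm_apply,
      neg_add_cancel]
  have sinj : Function.Injective s := by
    rw [injective_iff_map_eq_zero]
    intro x hx
    have h1 : θ (j x) = 0 := Prod.ext (hfst x) (by rw [← hs]; exact hx)
    have h2 : j x = 0 := (LinearEquiv.map_eq_zero_iff θ).1 h1
    rw [hj] at h2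
    exact (Prod.ext_iff.1 h2).2
  have hdim : Module.finrank k A.V = Module.finrank k B.V := by
    have h1 : (N.prod A).dim = (N.prod B).dim := θ.finrank_eq
    rw [dim_prod, dim_prod] at h1
    unfold Ob.dim at h1
    omega
  refine Iso.mk' (LinearMap.linearEquivOfInjective s sinj hdim) (fun g x => ?_)
  rw [LinearMap.linearEquivOfInjective_apply, LinearMap.linearEquivOfInjective_apply, hs, hs, eqj]
  exact congrArg Prod.snd (hθ g (j x))

/-- Cancellation of an indecomposable representation. -/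
theorem cancel_indec {N A B : Ob k G} (hN : Indec N) (h : (N.prod A).Iso (N.prod B)) :
    A.Iso B := by
  obtain ⟨θ, hθ⟩ := h.exists_equiv
  have hθ' : ∀ g v, θ.symm ((N.prod B).ρ g v) = (N.prod A).ρ g (θ.symm v) := by
    intro g v
    apply θ.injective
    rw [hθ, LinearEquiv.apply_symm_apply, LinearEquiv.apply_symm_apply]
  -- the entries
  obtain ⟨a, ha⟩ : ∃ a : N.V →ₗ[k] N.V, ∀ n, a n = (θ ((n, 0) : N.V × A.V) : N.V × B.V).1 :=
    ⟨(LinearMap.fst k N.V B.V).comp
      ((θ : (N.V × A.V) →ₗ[k] (N.V × B.V)).comp (LinearMap.inl k N.V A.V)), fun n => rfl⟩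
  obtain ⟨b, hb⟩ : ∃ b : A.V →ₗ[k] N.V, ∀ x, b x = (θ ((0, x) : N.V × A.V) : N.V × B.V).1 :=
    ⟨(LinearMap.fst k N.V B.V).comp
      ((θ : (N.V × A.V) →ₗ[k] (N.V × B.V)).comp (LinearMap.inr k N.V A.V)), fun n => rfl⟩
  obtain ⟨a', ha'⟩ : ∃ a' : N.V →ₗ[k] N.V,
      ∀ n, a' n = (θ.symm ((n, 0) : N.V × B.V) : N.V × A.V).1 :=
    ⟨(LinearMap.fst k N.V A.V).comp
      ((θ.symm : (N.V × B.V) →ₗ[k] (N.V × A.V)).comp (LinearMap.inl k N.V B.V)), fun n => rfl⟩
  obtain ⟨c', hc'⟩ : ∃ c' : N.V →ₗ[k] A.V,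
      ∀ n, c' n = (θ.symm ((n, 0) : N.V × B.V) : N.V × A.V).2 :=
    ⟨(LinearMap.snd k N.V A.V).comp
      ((θ.symm : (N.V × B.V) →ₗ[k] (N.V × A.V)).comp (LinearMap.inl k N.V B.V)), fun n => rfl⟩
  have inA : ∀ g (n : N.V), (N.prod A).ρ g ((n, 0) : N.V × A.V) =
      ((N.ρ g n, 0) : N.V × A.V) := by
    intro g n
    change ((N.ρ g n, A.ρ g 0) : N.V × A.V) = _
    rw [map_zero]
  have inA' : ∀ g (x : A.V), (N.prod A).ρ g ((0, x) : N.V × A.V) =
      ((0, A.ρ g x) : N.V × A.V) := by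
    intro g n
    change ((N.ρ g 0, A.ρ g n) : N.V × A.V) = _
    rw [map_zero]
  have inB : ∀ g (n : N.V), (N.prod B).ρ g ((n, 0) : N.V × B.V) =
      ((N.ρ g n, 0) : N.V × B.V) := by
    intro g n
    change ((N.ρ g n, B.ρ g 0) : N.V × B.V) = _
    rw [map_zero]
  have eqa : ∀ g n, a (N.ρ g n) = N.ρ g (a n) := by
    intro g n
    rw [ha, ← inA, hθ, ha]
    rfl
  have eqb : ∀ g x, b (A.ρ g x) = N.ρ g (b x) := by
    intro g x
    rw [hb, ← inA', hθ, hb]
    rfl
  have eqa' : ∀ g n, a' (N.ρ g n) = N.ρ g (a' n) := by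
    intro g n
    rw [ha', ← inB, hθ', ha']
    rfl
  have eqc' : ∀ g n, c' (N.ρ g n) = A.ρ g (c' n) := by
    intro g n
    rw [hc', ← inB, hθ', hc']
    rfl
  have hid : ∀ n, a (a' n) + b (c' n) = n := by
    intro n
    have h1 : θ (θ.symm ((n, 0) : N.V × B.V)) = ((n, 0) : N.V × B.V) :=
      LinearEquiv.apply_symm_apply _ _
    have h2 : (θ.symm ((n, 0) : N.V × B.V) : N.V × A.V) =
        ((a' n, 0) : N.V × A.V) + ((0, c' n) : N.V × A.V) := by
      rw [Prod.mk_add_mk, add_zero, zero_add]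
      exact Prod.ext (ha' n).symm (hc' n).symm
    have h3 : θ (((a' n, 0) : N.V × A.V) + ((0, c' n) : N.V × A.V)) =
        θ ((a' n, 0) : N.V × A.V) + θ ((0, c' n) : N.V × A.V) := map_add θ _ _
    rw [h2, h3] at h1
    have h4 := congrArg Prod.fst h1
    rw [Prod.fst_add, ← ha, ← hb] at h4
    exact h4
  rcases indec_split hN (a.comp a') (fun g v => by
    rw [LinearMap.comp_apply, LinearMap.comp_apply, eqa', eqa]) with h1 | h1
  · -- `a` is bijective
    refine cancel_of_inj θ hθ (fun n hn => ?_)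
    rw [← ha] at hn
    have hsurj : Function.Surjective (a.comp a') :=
      LinearMap.surjective_of_injective h1
    have hs : Function.Surjective a := by
      intro y
      obtain ⟨x, hx⟩ := hsurj y
      exact ⟨a' x, hx⟩
    have hi : Function.Injective a := LinearMap.injective_iff_surjective.2 hs
    exact hi (by rw [hn, map_zero])
  · -- `b c'` is bijective
    have hw : Function.Injective (b.comp c') := by
      rw [injective_iff_map_eq_zero]
      intro n hn
      apply h1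
      have := hid n
      rw [LinearMap.comp_apply] at hn
      rw [hn, add_zero] at this
      exact this
    obtain ⟨w, hww⟩ : ∃ w : N.V ≃ₗ[k] N.V, ∀ n, w n = b (c' n) :=
      ⟨LinearEquiv.ofInjectiveEndo _ hw, fun n => rfl⟩
    have eqw : ∀ g n, w.symm (N.ρ g n) = N.ρ g (w.symm n) := by
      intro g n
      apply w.injective
      rw [LinearEquiv.apply_symm_apply, hww, eqc', eqb, ← hww, LinearEquiv.apply_symm_apply]
    obtain ⟨u, hu⟩ : ∃ u : N.V →ₗ[k] A.V, ∀ n, u n = c' (w.symm (n - a n)) :=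
      ⟨c'.comp ((w.symm : N.V →ₗ[k] N.V).comp (LinearMap.id - a)), fun n => rfl⟩
    have equ : ∀ g n, u (N.ρ g n) = A.ρ g (u n) := by
      intro g n
      rw [hu, hu, eqa, ← map_sub, eqw, eqc']
    have hbu : ∀ n, b (u n) = n - a n := by
      intro n
      rw [hu, ← hww, LinearEquiv.apply_symm_apply]
    obtain ⟨σ, hσ⟩ : ∃ σ : (N.V × A.V) ≃ₗ[k] (N.V × A.V), ∀ v, σ v = (v.1, v.2 + u v.1) := by
      refine ⟨LinearEquiv.ofLinearMap
        ((LinearMap.fst k N.V A.V).prod (LinearMap.snd k N.V A.V + u.comp (LinearMap.fst k N.V A.V)))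
        ((LinearMap.fst k N.V A.V).prod (LinearMap.snd k N.V A.V - u.comp (LinearMap.fst k N.V A.V)))
        ?_ ?_, fun v => rfl⟩
      · apply LinearMap.ext
        rintro ⟨n, x⟩
        simp
      · apply LinearMap.ext
        rintro ⟨n, x⟩
        simp
    have eqσ : ∀ g (v : N.V × A.V), σ ((N.prod A).ρ g v) = (N.prod A).ρ g (σ v) := by
      intro g v
      rw [hσ, hσ]
      change ((N.ρ g v.1, A.ρ g v.2 + u (N.ρ g v.1)) : N.V × A.V) =
        (N.ρ g v.1, A.ρ g (v.2 + u v.1))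
      rw [equ, map_add]
    refine cancel_of_inj (σ.trans θ) (fun g v => ?_) (fun n hn => ?_)
    · rw [LinearEquiv.trans_apply, LinearEquiv.trans_apply, eqσ, hθ]
    · rw [LinearEquiv.trans_apply, hσ] at hn
      have h3 : ((n, 0 + u n) : N.V × A.V) = ((n, 0) : N.V × A.V) + ((0, u n) : N.V × A.V) := by
        rw [Prod.mk_add_mk, add_zero]
      have h4 : θ (((n, 0) : N.V × A.V) + ((0, u n) : N.V × A.V)) =
          θ ((n, 0) : N.V × A.V) + θ ((0, u n) : N.V × A.V) := map_add θ _ _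
      change (θ ((n, 0 + u n) : N.V × A.V) : N.V × B.V).1 = 0 at hn
      rw [h3, h4, Prod.fst_add, ← ha, ← hb, hbu, add_sub_cancel] at hn
      exact hn

theorem cancel_aux (d : ℕ) : ∀ A B C : Ob k G, C.dim = d → (A.prod C).Iso (B.prod C) →
    A.Iso B := by
  induction d using Nat.strong_induction_on with
  | _ d ih =>
    intro A B C hd h
    by_cases h0 : C.dim = 0
    · have h1 : C.Iso (Ob.zero k G) := iso_of_dim_zero h0 zero_dim
      have h2 : ∀ X : Ob k G, X.Iso (X.prod C) := fun X =>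
        (prod_zero X).trans (Iso.prod_congr (Iso.refl X) h1.symm)
      exact (h2 A).trans (h.trans (h2 B).symm)
    · by_cases hi : Indec C
      · exact cancel_indec hi ((prod_comm _ _).trans (h.trans (prod_comm _ _)))
      · have h1 : ∃ C1 C2 : Ob k G, C.Iso (C1.prod C2) ∧ C1.dim ≠ 0 ∧ C2.dim ≠ 0 := by
          by_contra hcon
          apply hi
          refine ⟨h0, fun X Y hXY => ?_⟩
          by_contra hc
          rw [not_or] at hc
          exact hcon ⟨X, Y, hXY, hc.1, hc.2⟩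
        obtain ⟨C1, C2, hC, h1, h2⟩ := h1
        have hdim : C.dim = C1.dim + C2.dim := by
          rw [dim_eq_of_iso hC, dim_prod]
        have hX : ∀ X : Ob k G, (X.prod C).Iso ((X.prod C1).prod C2) := fun X =>
          (Iso.prod_congr (Iso.refl X) hC).trans (prod_assoc _ _ _).symm
        have h3 : ((A.prod C1).prod C2).Iso ((B.prod C1).prod C2) :=
          (hX A).symm.trans (h.trans (hX B))
        have h4 : (A.prod C1).Iso (B.prod C1) := ih C2.dim (by omega) _ _ C2 rfl h3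
        exact ih C1.dim (by omega) _ _ C1 rfl h4

end

theorem proof_ksCancel : S_ksCancel.{u, v} := by
  intro k _ G _ A B C h
  exact cancel_aux C.dim A B C rfl h

end Pool.Agent.H825.Kt
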