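import Pool.Agent.H398.Kt.Iface3

/-!
# The interface statement `S_ksPrime`: indecomposable representations are prime, decompositions exist
-/

set_option autoImplicit false

namespace Pool.Agent.H782.Kt

open Pool.Agent.H398.Gam Pool.Agent.H398.Gam.Ob Pool.Agent.H398.Kt

universe u v

variable {k : Type u} [Field k] {G : Type v} [Group G]

theorem kcomp {A B C : Ob k G} {S : B.V →ₗ[k] C.V} {T : A.V →ₗ[k] B.V} (hS : Eqv B C S)
    (hT : Eqv A B T) : Eqv A C (S ∘ₗ T) := by
  intro g v
  rw [LinearMap.comp_apply, hT, hS]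
  rfl

theorem kadd {A B : Ob k G} {S T : A.V →ₗ[k] B.V} (hS : Eqv A B S) (hT : Eqv A B T) :
    Eqv A B (S + T) := by
  intro g v
  rw [LinearMap.add_apply, hT, hS, LinearMap.add_apply, map_add]

theorem kpow {A : Ob k G} {e : A.V →ₗ[k] A.V} (he : Eqv A A e) (n : ℕ) : Eqv A A (e ^ n) := by
  induction n with
  | zero => exact fun g v => rfl
  | succ n ih =>
    rw [pow_succ]
    exact kcomp ih he

theorem ksmul {A B : Ob k G} {S : A.V →ₗ[k] B.V} (hS : Eqv A B S) (c : k) :
    Eqv A B (c • S) := by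
  intro g v
  rw [LinearMap.smul_apply, hS, LinearMap.smul_apply, map_smul]

theorem kaeval {A : Ob k G} {e : Module.End k A.V} (he : Eqv A A e) (q : Polynomial k) :
    Eqv A A (Polynomial.aeval e q) := by
  induction q using Polynomial.induction_on' with
  | add p q hp hq =>
    rw [map_add]
    exact kadd hp hq
  | monomial n a =>
    rw [Polynomial.aeval_monomial]
    have h1 : (algebraMap k (Module.End k A.V)) a * e ^ n = a • (e ^ n) := by
      rw [Algebra.smul_def]
    rw [h1]
    exact ksmul (kpow he n) a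

theorem kinl (A B : Ob k G) : Eqv A (A.prod B) (LinearMap.inl k A.V B.V) := by
  intro g v
  change ((A.ρ g v, 0) : A.V × B.V) = (A.ρ g v, B.ρ g 0)
  rw [map_zero]

theorem kinr (A B : Ob k G) : Eqv B (A.prod B) (LinearMap.inr k A.V B.V) := by
  intro g v
  change ((0, B.ρ g v) : A.V × B.V) = (A.ρ g 0, B.ρ g v)
  rw [map_zero]

/-- equivariant idempotents of indecomposable representations -/
theorem idem {N : Ob k G} (hN : Indec N) (π : N.V →ₗ[k] N.V) (hπ : Eqv N N π)
    (hi : ∀ v, π (π v) = π v) : π = 0 ∨ π = LinearMap.id := by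
  have hinv : ∀ g, LinearMap.range π ≤ (LinearMap.range π).comap (N.ρ g) := by
    rintro g _ ⟨v, rfl⟩
    exact ⟨N.ρ g v, hπ g v⟩
  let R : Ob k G := ⟨LinearMap.range π, N.ρ.subrepresentation (LinearMap.range π) hinv⟩
  let S : R.V →ₗ[k] N.V := (LinearMap.range π).subtype
  let T : N.V →ₗ[k] R.V := LinearMap.codRestrict (LinearMap.range π) π (fun v => ⟨v, rfl⟩)
  have hS : Eqv R N S := fun g v => rfl
  have hT : Eqv N R T := by
    intro g v
    apply Subtype.ext
    exact hπ g v
  have hTS : ∀ a, T (S a) = a := by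
    rintro ⟨_, ⟨v, rfl⟩⟩
    apply Subtype.ext
    exact hi v
  obtain ⟨C, I, P, hI, hP, hPI, hIP, hTI, hiso⟩ := compl R N S T hS hT hTS
  rcases hN.2 R C hiso with h | h
  · left
    have h1 : Subsingleton R.V := Module.finrank_zero_iff.mp h
    apply LinearMap.ext
    intro v
    have h2 : T v = 0 := Subsingleton.elim _ _
    exact congrArg Subtype.val h2
  · right
    have h1 : Subsingleton C.V := Module.finrank_zero_iff.mp h
    apply LinearMap.ext
    intro v
    have h2 : P v = 0 := Subsingleton.elim _ _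
    have h3 := hIP v
    rw [h2, map_zero] at h3
    exact (sub_eq_zero.mp h3.symm).symm

/-- Fitting's lemma. -/
theorem fit {N : Ob k G} (hN : Indec N) (e : Module.End k N.V) (he : Eqv N N e) :
    IsNilpotent e ∨ Function.Injective e := by
  set p := e.charpoly with hp
  have hp0 : p ≠ 0 := e.charpoly_monic.ne_zero
  have hpe : Polynomial.aeval e p = 0 := e.aeval_self_charpoly
  obtain ⟨q, hq1, hq2⟩ := Polynomial.exists_eq_pow_rootMultiplicity_mul_and_not_dvd p hp0 0
  rw [Polynomial.C_0, sub_zero] at hq1 hq2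
  set n := Polynomial.rootMultiplicity 0 p with hn
  have hcop : IsCoprime (Polynomial.X ^ (n + 1) : Polynomial k) q :=
    ((Polynomial.irreducible_X.coprime_iff_not_dvd).2 hq2).pow_left
  obtain ⟨a, b, hab⟩ := hcop
  have hidem : ∀ v, Polynomial.aeval e (a * Polynomial.X ^ (n + 1))
      (Polynomial.aeval e (a * Polynomial.X ^ (n + 1)) v) =
      Polynomial.aeval e (a * Polynomial.X ^ (n + 1)) v := by
    intro v
    have h1 : Polynomial.aeval e (a * Polynomial.X ^ (n + 1)) *
        Polynomial.aeval e (a * Polynomial.X ^ (n + 1)) =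
        Polynomial.aeval e (a * Polynomial.X ^ (n + 1)) := by
      have h2 : (a * Polynomial.X ^ (n + 1)) * (a * Polynomial.X ^ (n + 1)) =
          a * Polynomial.X ^ (n + 1) - (a * b * Polynomial.X) * p := by
        have h3 : a * Polynomial.X ^ (n + 1) = 1 - b * q := by rw [← hab]; ring
        calc (a * Polynomial.X ^ (n + 1)) * (a * Polynomial.X ^ (n + 1))
            = (a * Polynomial.X ^ (n + 1)) * (1 - b * q) := by rw [← h3]
          _ = a * Polynomial.X ^ (n + 1) - (a * b * Polynomial.X) * (Polynomial.X ^ n * q) := by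
              ring
          _ = _ := by rw [← hq1]
      rw [← map_mul, h2, map_sub, map_mul _ _ p, hpe, mul_zero, sub_zero]
    exact congrArg (fun f : Module.End k N.V => f v) h1
  rcases idem hN _ (kaeval he (a * Polynomial.X ^ (n + 1))) hidem with h0 | h0
  · left
    refine ⟨n, ?_⟩
    have h1 : Polynomial.aeval e (b * q) = 1 := by
      have := congrArg (Polynomial.aeval e) hab
      rw [map_add, h0, zero_add, map_one] at this
      exact this
    have h2 : Polynomial.aeval e (Polynomial.X ^ n * (b * q)) = 0 := by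
      have h3 : (Polynomial.X ^ n * (b * q) : Polynomial k) = b * p := by
        rw [hq1]
        ring
      rw [h3, map_mul, hpe, mul_zero]
    rw [map_mul, h1, mul_one, map_pow, Polynomial.aeval_X] at h2
    exact h2
  · right
    have h1 : Polynomial.aeval e (a * Polynomial.X ^ (n + 1)) =
        (Polynomial.aeval e (a * Polynomial.X ^ n)) * e := by
      rw [pow_succ, ← mul_assoc, map_mul, Polynomial.aeval_X]
    rw [h1] at h0
    have h2 : Function.LeftInverse (Polynomial.aeval e (a * Polynomial.X ^ n)) e := by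
      intro v
      exact congrArg (fun f : Module.End k N.V => f v) h0
    exact h2.injective

/-- the endomorphism ring is local -/
theorem loc {N : Ob k G} (hN : Indec N) (f g : Module.End k N.V) (hf : Eqv N N f)
    (hfg : ∀ v, f v + g v = v) : Function.Bijective f ∨ Function.Bijective g := by
  rcases fit hN f hf with h | h
  · right
    have h1 : IsUnit (1 - f) := h.isUnit_one_sub
    have h2 : g = 1 - f := by
      apply LinearMap.ext
      intro v
      rw [LinearMap.sub_apply, Module.End.one_apply, eq_sub_iff_add_eq, add_comm]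
      exact hfg v
    rw [← h2] at h1
    exact (Module.End.isUnit_iff g).mp h1
  · left
    exact ⟨h, LinearMap.injective_iff_surjective.mp h⟩

/-- a summand through `A` -/
theorem summ {N A : Ob k G} (S : N.V →ₗ[k] A.V) (T : A.V →ₗ[k] N.V) (hS : Eqv N A S)
    (hT : Eqv A N T) (hb : Function.Bijective (T ∘ₗ S)) : ∃ C : Ob k G, A.Iso (N.prod C) := by
  let e : N.V ≃ₗ[k] N.V := LinearEquiv.ofBijective (T ∘ₗ S) hb
  have he : ∀ v, e v = T (S v) := fun v => rfl
  have hee : Eqv N N (e.symm : N.V →ₗ[k] N.V) := by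
    intro g v
    obtain ⟨w, rfl⟩ := e.surjective v
    have h1 : N.ρ g (e w) = e (N.ρ g w) := by
      rw [he, he, hS, hT]
    rw [h1]
    simp
  obtain ⟨C, I, P, hI, hP, hPI, hIP, hTI, hiso⟩ := compl N A S ((e.symm : N.V →ₗ[k] N.V) ∘ₗ T) hS
    (kcomp hee hT) (fun a => by
      change e.symm (T (S a)) = a
      rw [← he, LinearEquiv.symm_apply_apply])
  exact ⟨C, hiso⟩

theorem prime {N A B U : Ob k G} (hN : Indec N) (h : (N.prod U).Iso (A.prod B)) :
    (∃ C : Ob k G, A.Iso (N.prod C)) ∨ (∃ C : Ob k G, B.Iso (N.prod C)) := by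
  obtain ⟨e, he⟩ := h.exists_equiv
  have hes : Eqv (A.prod B) (N.prod U) (e.symm : (A.prod B).V →ₗ[k] (N.prod U).V) := by
    intro g v
    obtain ⟨w, rfl⟩ := e.surjective v
    rw [← he]
    simp
  let i : N.V →ₗ[k] (A.V × B.V) := (e : (N.prod U).V →ₗ[k] (A.prod B).V) ∘ₗ
    LinearMap.inl k N.V U.V
  let p : (A.V × B.V) →ₗ[k] N.V := LinearMap.fst k N.V U.V ∘ₗ
    (e.symm : (A.prod B).V →ₗ[k] (N.prod U).V)
  have hi : Eqv N (A.prod B) i := kcomp (A := N) (B := N.prod U) (C := A.prod B) he (kinl N U)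
  have hp : Eqv (A.prod B) N p :=
    kcomp (A := A.prod B) (B := N.prod U) (C := N) (fun g v => rfl) hes
  have hpi : ∀ v, p (i v) = v := by
    intro v
    change (e.symm (e ((v, 0) : N.V × U.V))).1 = v
    rw [LinearEquiv.symm_apply_apply]
  let S1 : N.V →ₗ[k] A.V := LinearMap.fst k A.V B.V ∘ₗ i
  let T1 : A.V →ₗ[k] N.V := p ∘ₗ LinearMap.inl k A.V B.V
  let S2 : N.V →ₗ[k] B.V := LinearMap.snd k A.V B.V ∘ₗ i
  let T2 : B.V →ₗ[k] N.V := p ∘ₗ LinearMap.inr k A.V B.V
  have hS1 : Eqv N A S1 := kcomp (A := N) (B := A.prod B) (C := A) (fun g v => rfl) hi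
  have hS2 : Eqv N B S2 := kcomp (A := N) (B := A.prod B) (C := B) (fun g v => rfl) hi
  have hT1 : Eqv A N T1 := kcomp (A := A) (B := A.prod B) (C := N) hp (kinl A B)
  have hT2 : Eqv B N T2 := kcomp (A := B) (B := A.prod B) (C := N) hp (kinr A B)
  have hsum : ∀ v, (T1 ∘ₗ S1) v + (T2 ∘ₗ S2) v = v := by
    intro v
    change p (((i v).1, 0) : A.V × B.V) + p ((0, (i v).2) : A.V × B.V) = v
    rw [← map_add, Prod.mk_add_mk, add_zero, zero_add]
    exact hpi v
  rcases loc hN (T1 ∘ₗ S1) (T2 ∘ₗ S2) (kcomp hT1 hS1) hsum with hb | hb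
  · left
    exact summ S1 T1 hS1 hT1 hb
  · right
    exact summ S2 T2 hS2 hT2 hb

theorem foldr_append (l1 l2 : List (Ob k G)) :
    ((l1 ++ l2).foldr Ob.prod (Ob.zero k G)).Iso
      ((l1.foldr Ob.prod (Ob.zero k G)).prod (l2.foldr Ob.prod (Ob.zero k G))) := by
  induction l1 with
  | nil => exact (prod_zero _).trans (prod_comm _ _)
  | cons N l1 ih =>
    exact (Iso.prod_congr (Iso.refl N) ih).trans (prod_assoc _ _ _).symm

theorem decomp (n : ℕ) : ∀ A : Ob k G, A.dim = n → ∃ l : List (Ob k G), (∀ N ∈ l, Indec N) ∧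
    A.Iso (l.foldr Ob.prod (Ob.zero k G)) := by
  induction n using Nat.strong_induction_on with
  | _ n ih =>
    intro A hA
    by_cases h0 : A.dim = 0
    · exact ⟨[], fun N hN => absurd hN List.not_mem_nil, iso_of_dim_zero h0 zero_dim⟩
    · by_cases hI : Indec A
      · refine ⟨[A], fun N hN => ?_, prod_zero A⟩
        rw [List.mem_singleton.mp hN]
        exact hI
      · have h1 : ∃ B C : Ob k G, A.Iso (B.prod C) ∧ B.dim ≠ 0 ∧ C.dim ≠ 0 := by
          by_contra hcon
          push Not at hcon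
          apply hI
          refine ⟨h0, fun B C hBC => ?_⟩
          by_cases hB : B.dim = 0
          · exact Or.inl hB
          · exact Or.inr (hcon B C hBC hB)
        obtain ⟨B, C, hBC, hB, hC⟩ := h1
        have h2 : A.dim = B.dim + C.dim := (dim_eq_of_iso hBC).trans (dim_prod B C)
        obtain ⟨l1, hl1, e1⟩ := ih B.dim (by omega) B rfl
        obtain ⟨l2, hl2, e2⟩ := ih C.dim (by omega) C rfl
        refine ⟨l1 ++ l2, fun N hN => ?_, ?_⟩
        · rcases List.mem_append.mp hN with h | h
          · exact hl1 N h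
          · exact hl2 N h
        · exact hBC.trans ((Iso.prod_congr e1 e2).trans (foldr_append l1 l2).symm)

/-- The interface statement. -/
theorem proof_ksPrime : S_ksPrime.{u, v} := by
  intro k _ G _
  exact ⟨fun N A B U hN h => prime hN h, fun A => decomp A.dim A rfl⟩

end Pool.Agent.H782.Kt
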