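import Pool.Agent.H398.Kt.Iface3

/-! Three divides a difference of cosines only if it is zero (helper178 for helper398). -/

set_option autoImplicit false

namespace Pool.Agent.H178.Kt

open Real

/-- `2 cos (c π / M)` is an algebraic integer. -/
theorem int_cos (c : ℤ) (M : ℕ) : IsIntegral ℤ (2 * cos (c * (π / (M : ℝ)))) := by
  have h := Real.isIntegral_two_mul_cos_rat_mul_pi ((c : ℚ) / (M : ℚ))
  have e : (((c : ℚ) / (M : ℚ) : ℚ) : ℝ) * π = c * (π / (M : ℝ)) := by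
    push_cast
    ring
  rwa [e] at h

theorem not_int_rat (q : ℚ) (hq : ∀ k : ℤ, q ≠ k) : ¬ IsIntegral ℤ (q : ℝ) := by
  intro h
  have h1 : IsIntegral ℤ (q : ℚ) := by
    have h2 : IsIntegral ℤ (algebraMap ℚ ℝ q) := h
    exact (isIntegral_algebraMap_iff (FaithfulSMul.algebraMap_injective ℚ ℝ)).1 h2
  obtain ⟨k, hk⟩ := IsIntegrallyClosed.isIntegral_iff.1 h1
  apply hq k
  rw [← hk]
  rfl

theorem not_int_four_thirds : ¬ IsIntegral ℤ (4 / 3 : ℝ) := by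
  have h := not_int_rat (4 / 3) (by
    intro k hk
    have h1 : (4 : ℚ) = 3 * k := by rw [← hk]; norm_num
    have h2 : (4 : ℤ) = 3 * k := by exact_mod_cast h1
    omega)
  intro h2
  apply h
  push_cast
  exact h2

theorem not_int_one_third : ¬ IsIntegral ℤ (1 / 3 : ℝ) := by
  have h := not_int_rat (1 / 3) (by
    intro k hk
    have h1 : (1 : ℚ) = 3 * k := by rw [← hk]; norm_num
    have h2 : (1 : ℤ) = 3 * k := by exact_mod_cast h1
    omega)
  intro h2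
  apply h
  push_cast
  exact h2

/-- `2 sin γ` divides `2` if `γ = c π / 2^N`. -/
theorem sin_dvd (N : ℕ) : ∀ c : ℤ, sin (c * (π / (2 ^ N : ℕ))) ≠ 0 →
    ∃ s : ℝ, IsIntegral ℤ s ∧ 2 * sin (c * (π / (2 ^ N : ℕ))) * s = 2 := by
  induction N with
  | zero =>
    intro c h
    exfalso
    apply h
    have e : (c : ℝ) * (π / (2 ^ 0 : ℕ)) = c * π := by norm_num
    rw [e]
    exact Real.sin_int_mul_pi c
  | succ N ih =>
    intro c h
    obtain ⟨γ, hγ⟩ : ∃ γ : ℝ, γ = c * (π / (2 ^ (N + 1) : ℕ)) := ⟨_, rfl⟩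
    have h2γ : 2 * γ = c * (π / (2 ^ N : ℕ)) := by
      rw [hγ]
      push_cast
      rw [pow_succ]
      field_simp
    have hcos : IsIntegral ℤ (2 * cos γ) := by
      rw [hγ]
      exact int_cos c _
    rw [← hγ] at h ⊢
    by_cases h0 : sin (2 * γ) = 0
    · have h1 : cos γ = 0 := by
        rw [Real.sin_two_mul] at h0
        rcases mul_eq_zero.1 h0 with h2 | h2
        · rcases mul_eq_zero.1 h2 with h3 | h3
          · norm_num at h3
          · exact absurd h3 h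
        · exact h2
      have h2 := Real.sin_sq_add_cos_sq γ
      rw [h1] at h2
      have h3 : sin γ * sin γ = 1 := by nlinarith
      refine ⟨sin γ, ?_, by linear_combination 2 * h3⟩
      rcases mul_self_eq_one_iff.1 h3 with h4 | h4
      · rw [h4]; exact isIntegral_one
      · rw [h4]; exact isIntegral_one.neg
    · rw [h2γ] at h0
      obtain ⟨s, hs, hs2⟩ := ih c h0
      rw [← h2γ, Real.sin_two_mul] at hs2
      refine ⟨2 * cos γ * s, hcos.mul hs, ?_⟩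
      linear_combination hs2

/-- A nonzero difference `2 cos (aπ/2^i) - 2 cos (bπ/2^i)` divides `4`. -/
theorem diff_dvd (i : ℕ) (a b : ℤ)
    (h : 2 * cos (a * (π / (2 ^ i : ℕ))) - 2 * cos (b * (π / (2 ^ i : ℕ))) ≠ 0) :
    ∃ s : ℝ, IsIntegral ℤ s ∧
      (2 * cos (a * (π / (2 ^ i : ℕ))) - 2 * cos (b * (π / (2 ^ i : ℕ)))) * s = 4 := by
  have e1 : ((a : ℝ) * (π / (2 ^ i : ℕ)) + b * (π / (2 ^ i : ℕ))) / 2 =
      ((a + b : ℤ) : ℝ) * (π / (2 ^ (i + 1) : ℕ)) := by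
    push_cast
    rw [pow_succ]
    field_simp
  have e2 : ((a : ℝ) * (π / (2 ^ i : ℕ)) - b * (π / (2 ^ i : ℕ))) / 2 =
      ((a - b : ℤ) : ℝ) * (π / (2 ^ (i + 1) : ℕ)) := by
    push_cast
    rw [pow_succ]
    field_simp
  have hd : 2 * cos (a * (π / (2 ^ i : ℕ))) - 2 * cos (b * (π / (2 ^ i : ℕ))) =
      -((2 * sin (((a + b : ℤ) : ℝ) * (π / (2 ^ (i + 1) : ℕ)))) *
        (2 * sin (((a - b : ℤ) : ℝ) * (π / (2 ^ (i + 1) : ℕ))))) := by
    have h1 := Real.cos_sub_cos (a * (π / (2 ^ i : ℕ))) (b * (π / (2 ^ i : ℕ)))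
    rw [e1, e2] at h1
    linear_combination 2 * h1
  rw [hd] at h ⊢
  have hs1 : sin (((a + b : ℤ) : ℝ) * (π / (2 ^ (i + 1) : ℕ))) ≠ 0 := by
    intro h0
    apply h
    rw [h0]
    ring
  have hs2 : sin (((a - b : ℤ) : ℝ) * (π / (2 ^ (i + 1) : ℕ))) ≠ 0 := by
    intro h0
    apply h
    rw [h0]
    ring
  obtain ⟨s1, hi1, ht1⟩ := sin_dvd (i + 1) (a + b) hs1
  obtain ⟨s2, hi2, ht2⟩ := sin_dvd (i + 1) (a - b) hs2
  refine ⟨-(s1 * s2), (hi1.mul hi2).neg, ?_⟩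
  linear_combination (2 * sin (((a - b : ℤ) : ℝ) * (π / (2 ^ (i + 1) : ℕ))) * s2) * ht1 + 2 * ht2

/-- `4 cos² (π/2^i) - 1` is a unit for `i ≥ 1`. -/
theorem unit_aux (i : ℕ) : ∃ s : ℝ, IsIntegral ℤ s ∧
    ((2 * cos (π / (2 ^ (i + 1) : ℕ))) ^ 2 - 1) * s = 1 := by
  induction i with
  | zero =>
    refine ⟨-1, isIntegral_one.neg, ?_⟩
    have e : π / ((2 ^ (0 + 1) : ℕ) : ℝ) = π / 2 := by norm_num
    rw [e, Real.cos_pi_div_two]
    norm_num
  | succ i ih =>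
    obtain ⟨s, hs, hs1⟩ := ih
    obtain ⟨γ, hγ⟩ : ∃ γ : ℝ, γ = π / (2 ^ (i + 1 + 1) : ℕ) := ⟨_, rfl⟩
    have h2γ : 2 * γ = π / (2 ^ (i + 1) : ℕ) := by
      rw [hγ]
      push_cast
      rw [pow_succ]
      field_simp
    rw [← h2γ] at hs1
    rw [← hγ]
    have hc : IsIntegral ℤ (2 * cos (2 * γ)) := by
      have h := int_cos 1 (2 ^ (i + 1))
      rw [Int.cast_one, one_mul, ← h2γ] at h
      exact h
    refine ⟨(2 * cos (2 * γ) - 1) * s, (hc.sub isIntegral_one).mul hs, ?_⟩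
    have h2 : (2 * cos γ) ^ 2 - 1 = 1 + 2 * cos (2 * γ) := by
      rw [Real.cos_two_mul]
      ring
    rw [h2]
    linear_combination hs1

theorem number (i : ℕ) (j : ℤ) (hi : 1 ≤ i)
    (h : IsIntegral ℤ (((2 * Real.cos (Real.pi / (3 * 2 ^ i : ℕ))) ^ 3 -
      2 * Real.cos (j * (Real.pi / (3 * 2 ^ i : ℕ)))) / 3)) :
    2 * Real.cos (j * (Real.pi / (3 * 2 ^ i : ℕ))) =
      2 * Real.cos (3 * (Real.pi / (3 * 2 ^ i : ℕ))) := by
  obtain ⟨θ, hθ⟩ : ∃ θ : ℝ, θ = π / (3 * 2 ^ i : ℕ) := ⟨_, rfl⟩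
  have h3θ : 3 * θ = π / (2 ^ i : ℕ) := by
    rw [hθ]
    push_cast
    field_simp
  have hA : IsIntegral ℤ (2 * cos θ) := by
    have h := int_cos 1 (3 * 2 ^ i)
    rw [Int.cast_one, one_mul, ← hθ] at h
    exact h
  have hx : IsIntegral ℤ (2 * cos (j * θ)) := by
    rw [hθ]
    exact int_cos j _
  have hc0 : IsIntegral ℤ (2 * cos (3 * θ)) := by
    have h := int_cos 3 (3 * 2 ^ i)
    rw [← hθ] at h
    exact_mod_cast h
  rw [← hθ] at h ⊢
  obtain ⟨x, hxe⟩ : ∃ x : ℝ, x = 2 * cos (j * θ) := ⟨_, rfl⟩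
  obtain ⟨c, hce⟩ : ∃ c : ℝ, c = 2 * cos (3 * θ) := ⟨_, rfl⟩
  rw [← hxe] at h hx ⊢
  rw [← hce] at hc0 ⊢
  -- the number `w`
  obtain ⟨w, hw, hcw⟩ : ∃ w : ℝ, IsIntegral ℤ w ∧ c = x + 3 * w := by
    refine ⟨((2 * cos θ) ^ 3 - x) / 3 - 2 * cos θ, h.sub hA, ?_⟩
    have h1 := Real.cos_three_mul θ
    rw [hce]
    linear_combination 2 * h1
  -- step 1
  have hx3 : x ^ 3 - 3 * x = 2 * cos (j * (π / (2 ^ i : ℕ))) := by
    have h1 := Real.cos_three_mul (j * θ)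
    have e : 3 * (j * θ) = j * (π / (2 ^ i : ℕ)) := by rw [← h3θ]; ring
    rw [e] at h1
    rw [hxe]
    linear_combination -2 * h1
  have hc3 : c ^ 3 - 3 * c = 2 * cos ((3 : ℤ) * (π / (2 ^ i : ℕ))) := by
    have h1 := Real.cos_three_mul (3 * θ)
    have e : 3 * (3 * θ) = ((3 : ℤ) : ℝ) * (π / (2 ^ i : ℕ)) := by rw [← h3θ]; push_cast; ring
    rw [e] at h1
    rw [hce]
    linear_combination -2 * h1
  have hprod : (c ^ 3 - 3 * c) - (x ^ 3 - 3 * x) = 3 * (w * (c ^ 2 + c * x + x ^ 2 - 3)) := by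
    have e : c - x = 3 * w := by linarith
    linear_combination (c ^ 2 + c * x + x ^ 2 - 3) * e
  have hthree : IsIntegral ℤ (3 : ℝ) := by
    have := isIntegral_algebraMap (R := ℤ) (A := ℝ) (x := 3)
    simpa using this
  have hd : (c ^ 3 - 3 * c) - (x ^ 3 - 3 * x) = 0 := by
    by_contra hne
    rw [hx3, hc3] at hne
    obtain ⟨s, hs, hs4⟩ := diff_dvd i 3 j hne
    rw [← hx3, ← hc3, hprod] at hs4
    apply not_int_four_thirds
    have e : (4 / 3 : ℝ) = w * (c ^ 2 + c * x + x ^ 2 - 3) * s := by linarith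
    rw [e]
    refine (hw.mul ?_).mul hs
    exact (((hc0.pow 2).add (hc0.mul hx)).add (hx.pow 2)).sub hthree
  by_contra hne
  have h2 : c ^ 2 + c * x + x ^ 2 - 3 = 0 := by
    have e : (c - x) * (c ^ 2 + c * x + x ^ 2 - 3) = 0 := by linear_combination hd
    rcases mul_eq_zero.1 e with h3 | h3
    · exact absurd (sub_eq_zero.1 h3).symm hne
    · exact h3
  obtain ⟨i', rfl⟩ : ∃ i', i = i' + 1 := ⟨i - 1, by omega⟩
  obtain ⟨s, hs, hs1⟩ := unit_aux i'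
  rw [← h3θ, ← hce] at hs1
  have h4 : c ^ 2 - 1 = 3 * (w * (c - w)) := by
    have e : x = c - 3 * w := by linarith
    rw [e] at h2
    linear_combination h2 / 3
  rw [h4] at hs1
  apply not_int_one_third
  have e : (1 / 3 : ℝ) = w * (c - w) * s := by linarith
  rw [e]
  exact (hw.mul (hc0.sub hw)).mul hs

theorem proof_S_number : Pool.Agent.H398.Kt.S_number := fun i j hi h => number i j hi h

end Pool.Agent.H178.Kt
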