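import Pool.Agent.H398.Kt.Iface3
import Pool.Agent.H398.Kt.PfBridge
import Pool.Agent.H398.Kt.PfBase

/-!
KT26: base change of representations of elementary abelian `2`-groups (helper539, for helper398).
-/

set_option autoImplicit false

open scoped TensorProduct

namespace Pool.Agent.H539.Kt

open Pool.Agent.H398.Gam Pool.Agent.H398.Gam.Ob Pool.Agent.H398.Kt Pool.Agent.H249.Kt
  Pool.Agent.H308.Kt

universe u v

section F

variable {k : Type u} [Field k] (K : Type u) [Field K] [Algebra k K] {G : Type v} [Group G]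

/-- base change of a representation -/
noncomputable abbrev bo (A : Ob k G) : Ob K G where
  V := K ⊗[k] A.V
  ρ :=
    { toFun := fun g => (A.ρ g).baseChange K
      map_one' := by
        rw [map_one]
        exact LinearMap.baseChange_id
      map_mul' := fun g h => by
        rw [map_mul]
        exact LinearMap.baseChange_comp _ _ }

theorem bo_ρ (A : Ob k G) (g : G) : (bo K A).ρ g = (A.ρ g).baseChange K := rfl

theorem bo_iso {A B : Ob k G} (h : A.Iso B) : (bo K A).Iso (bo K B) := by
  obtain ⟨e, he⟩ := h.exists_equiv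
  refine Iso.mk' (e.baseChange k K _ _) fun g v => ?_
  refine ext_bc K ((e.baseChange k K _ _).toLinearMap ∘ₗ (A.ρ g).baseChange K)
    ((B.ρ g).baseChange K ∘ₗ (e.baseChange k K _ _).toLinearMap) (fun c v => ?_) v
  simp only [LinearMap.comp_apply, LinearMap.baseChange_tmul, LinearEquiv.coe_coe,
    LinearEquiv.baseChange_tmul, he]

theorem bo_tens (A B : Ob k G) : (bo K (A.tens B)).Iso ((bo K A).tens (bo K B)) := by
  refine Iso.mk' (TensorProduct.AlgebraTensorModule.distribBaseChange k K A.V B.V) fun g v => ?_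
  refine ext_bc K
    ((TensorProduct.AlgebraTensorModule.distribBaseChange k K A.V B.V).toLinearMap ∘ₗ
      ((A.tens B).ρ g).baseChange K)
    (((bo K A).tens (bo K B)).ρ g ∘ₗ
      (TensorProduct.AlgebraTensorModule.distribBaseChange k K A.V B.V).toLinearMap)
    (fun c v => ?_) v
  induction v using TensorProduct.induction_on with
  | zero => rw [TensorProduct.tmul_zero, map_zero, map_zero]
  | tmul a b =>
    rw [LinearMap.comp_apply, LinearMap.comp_apply, LinearMap.baseChange_tmul, tens_ρ_tmul,
      LinearEquiv.coe_coe, TensorProduct.AlgebraTensorModule.distribBaseChange_tmul,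
      TensorProduct.AlgebraTensorModule.distribBaseChange_tmul]
    rfl
  | add x y hx hy => rw [TensorProduct.tmul_add, map_add, map_add, hx, hy]

theorem bo_dual (A : Ob k G) : (bo K A.dual).Iso (bo K A).dual := by
  obtain ⟨e, he⟩ := exists_dual (k := k) K A.V
  refine Iso.mk' e fun g v => ?_
  have h : ∀ z, e z = extF K A.V z := he
  rw [h, h]
  refine ext_bc K (extF K A.V ∘ₗ (A.dual.ρ g).baseChange K)
    ((bo K A).dual.ρ g ∘ₗ extF K A.V) (fun c f => ?_) v
  refine LinearMap.ext fun w => ?_
  refine ext_bc K ((extF K A.V ∘ₗ (A.dual.ρ g).baseChange K) (c ⊗ₜ f))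
    (((bo K A).dual.ρ g ∘ₗ extF K A.V) (c ⊗ₜ f)) (fun d v => ?_) w
  rw [LinearMap.comp_apply, LinearMap.comp_apply, LinearMap.baseChange_tmul, extF_tmul]
  change _ = extF K A.V (c ⊗ₜ f) ((A.ρ g⁻¹).baseChange K (d ⊗ₜ v))
  rw [LinearMap.baseChange_tmul, extF_tmul]
  rfl

theorem bo_one : (bo K (Ob.one k G)).Iso (Ob.one K G) := by
  refine Iso.mk' (TensorProduct.AlgebraTensorModule.rid k K K) fun g v => ?_
  have h : (bo K (Ob.one k G)).ρ g = LinearMap.id := LinearMap.baseChange_id
  rw [h, LinearMap.id_apply]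
  rfl

theorem bo_dim (A : Ob k G) : (bo K A).dim = A.dim := Module.finrank_baseChange

theorem bo_core [CharP k 2] [CharP K 2] [Fintype G] (hG : ∀ g : G, g * g = 1) (A : Ob k G) :
    (bo K A).coreDim = A.coreDim := by
  have h1 : NN (bo K A) = (NN A).baseChange K := by
    apply LinearMap.ext
    intro w
    refine ext_bc K (NN (bo K A)) ((NN A).baseChange K) (fun c v => ?_) w
    rw [NN_apply, LinearMap.baseChange_tmul, NN_apply, TensorProduct.tmul_sum]
    rfl
  rw [coreDim_eq hG, coreDim_eq hG, bo_dim]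
  unfold Pool.Agent.H308.Kt.RR
  rw [h1, rank_bc]

end F

/-- **B5.** Base change. -/
theorem proof_obBase : Pool.Agent.H398.Kt.S_obBase.{u, v} := by
  intro k K _ _ _ _ _ G _ _ hG
  exact ⟨bo K, fun A B h => bo_iso K h, bo_tens K, bo_dual K, bo_one K, bo_core K hG, bo_dim K⟩

end Pool.Agent.H539.Kt
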