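import Pool.Agent.H398.Kt.Iface3

/-!
# The tower in a ring
-/

set_option autoImplicit false

namespace Pool.Agent.H922.Kt

open Polynomial

universe w

/-- the polynomial `(1 + T) (T - 2) ^ 2` -/
noncomputable def wP : ℤ[X] := (X + C 1) * (X - C 2) ^ 2

/-- the polynomials `C j` -/
noncomputable def cP : ℕ → ℤ[X]
  | 0 => wP - C 2
  | j + 1 => cP j ^ 2 - C 2

theorem wP_monic : wP.Monic := (monic_X_add_C 1).mul ((monic_X_sub_C 2).pow 2)

theorem wP_deg : 1 ≤ wP.natDegree := by
  unfold wP
  rw [(monic_X_add_C 1).natDegree_mul ((monic_X_sub_C 2).pow 2), natDegree_X_add_C]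
  omega

theorem sub_two {p : ℤ[X]} (hp : p.Monic) (hd : 1 ≤ p.natDegree) :
    (p - C 2).Monic ∧ 1 ≤ (p - C 2).natDegree := by
  refine ⟨hp.sub_of_left ?_, ?_⟩
  · refine lt_of_le_of_lt degree_C_le ?_
    exact natDegree_pos_iff_degree_pos.1 hd
  · rw [natDegree_sub_C]
    exact hd

theorem cP_monic (j : ℕ) : (cP j).Monic ∧ 1 ≤ (cP j).natDegree := by
  induction j with
  | zero => exact sub_two wP_monic wP_deg
  | succ j ih =>
    refine sub_two (ih.1.pow 2) ?_
    rw [ih.1.natDegree_pow]
    omega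

/-- the polynomial -/
noncomputable def pP (i : ℕ) : ℤ[X] := X * wP * ∏ j ∈ Finset.range i, cP j

theorem pP_monic (i : ℕ) : (pP i).Monic :=
  (monic_X.mul wP_monic).mul (monic_prod_of_monic _ _ fun j _ => (cP_monic j).1)

theorem pP_deg (i : ℕ) : 1 ≤ (pP i).natDegree := by
  unfold pP
  rw [(monic_X.mul wP_monic).natDegree_mul (monic_prod_of_monic _ _ fun j _ => (cP_monic j).1),
    monic_X.natDegree_mul wP_monic, natDegree_X]
  omega

section ring

variable {R : Type w} [CommRing R]

theorem aeval_w (x : R) : aeval x wP = (1 + x) * (x - 2) ^ 2 := by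
  simp only [wP, map_mul, map_add, map_sub, map_pow, aeval_X, map_one, map_ofNat]
  ring

theorem aeval_c0 (x : R) : aeval x (cP 0) = aeval x wP - 2 := by
  simp only [cP, map_sub, map_ofNat]

theorem aeval_cs (x : R) (j : ℕ) : aeval x (cP (j + 1)) = aeval x (cP j) ^ 2 - 2 := by
  simp only [cP, map_sub, map_pow, map_ofNat]

/-- the numbers `c j` -/
def cc (W : R) : ℕ → R
  | 0 => W - 2
  | j + 1 => cc W j ^ 2 - 2

theorem ring_part (i : ℕ) (m m' x : R) (h h' : ℕ → R) (h0 : m * m' = 1 + x)
    (h1 : x * m * x = 2 * (m * x) + h 0 * x) (h1' : x * m' * x = 2 * (m' * x) + h' 0 * x)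
    (h2 : ∀ j < i, h j * h' j * h j = 2 * h j + h (j + 1) * h j)
    (h2' : ∀ j < i, h' j * h j * h' j = 2 * h' j + h' (j + 1) * h' j) :
    aeval x (pP i) = x * h 0 * h' 0 * ∏ j ∈ Finset.range i, h (j + 1) := by
  obtain ⟨W, hW⟩ : ∃ W, W = h 0 * h' 0 := ⟨_, rfl⟩
  have e1 : h 0 * x = m * x * (x - 2) := by linear_combination -h1
  have e1' : h' 0 * x = m' * x * (x - 2) := by linear_combination -h1'
  have e2 : x * W = x * aeval x wP := by
    rw [aeval_w, hW]
    linear_combination h' 0 * e1 + m * (x - 2) * e1' + x * (x - 2) ^ 2 * h0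
  have e3 : ∀ j, x * cc W j = x * aeval x (cP j) := by
    intro j
    induction j with
    | zero =>
      rw [aeval_c0, cc]
      linear_combination e2
    | succ j ih =>
      rw [aeval_cs, cc]
      linear_combination (cc W j + aeval x (cP j)) * ih
  have e4 : ∀ n, x * ∏ j ∈ Finset.range n, cc W j = x * ∏ j ∈ Finset.range n, aeval x (cP j) := by
    intro n
    induction n with
    | zero => simp
    | succ n ih =>
      rw [Finset.prod_range_succ, Finset.prod_range_succ]
      linear_combination cc W n * ih + (∏ j ∈ Finset.range n, aeval x (cP j)) * e3 n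
  have e5 : ∀ j < i, (W * ∏ l ∈ Finset.range j, h (l + 1)) * h (j + 1) =
        (W * ∏ l ∈ Finset.range j, h (l + 1)) * cc W j ∧
      (W * ∏ l ∈ Finset.range j, h (l + 1)) * h' (j + 1) =
        (W * ∏ l ∈ Finset.range j, h (l + 1)) * cc W j := by
    intro j
    induction j with
    | zero =>
      intro hj
      have f1 := h2 0 hj
      have f2 := h2' 0 hj
      rw [Finset.prod_range_zero, mul_one, cc, hW]
      constructor
      · linear_combination -h' 0 * f1
      · linear_combination -h 0 * f2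
    | succ j ih =>
      intro hj
      obtain ⟨d1, d2⟩ := ih (by omega)
      have f1 := h2 (j + 1) hj
      have f2 := h2' (j + 1) hj
      obtain ⟨g, hg⟩ : ∃ g, g = W * ∏ l ∈ Finset.range j, h (l + 1) := ⟨_, rfl⟩
      rw [← hg] at d1 d2
      have e : W * ∏ l ∈ Finset.range (j + 1), h (l + 1) = g * h (j + 1) := by
        rw [Finset.prod_range_succ, hg, mul_assoc]
      rw [e, cc]
      have k1 : g * h (j + 1) * h' (j + 1) * h (j + 1) = g * h (j + 1) * cc W j ^ 2 := by
        linear_combination (h' (j + 1) * h (j + 1) + cc W j * h (j + 1)) * d1 -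
          (cc W j * h (j + 1)) * d1 + cc W j * h (j + 1) * d2
      constructor
      · linear_combination k1 - g * f1
      · have k2 : g * h' (j + 1) = g * h (j + 1) := d2.trans d1.symm
        linear_combination k1 - g * f2 + (h (j + 1) * h' (j + 1) - h' (j + 1 + 1) - 2) * k2
  have e6 : ∀ n ≤ i, W * ∏ l ∈ Finset.range n, h (l + 1) = W * ∏ l ∈ Finset.range n, cc W l := by
    intro n
    induction n with
    | zero => intro _; rfl
    | succ n ih =>
      intro hn
      have f1 := ih (by omega)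
      have f2 := (e5 n (by omega)).1
      rw [Finset.prod_range_succ, Finset.prod_range_succ]
      linear_combination f2 + cc W n * f1
  have e7 := e6 i le_rfl
  have e8 := e4 i
  have e9 : aeval x (pP i) = x * aeval x wP * ∏ j ∈ Finset.range i, aeval x (cP j) := by
    simp only [pP, map_mul, aeval_X, map_prod]
  rw [e9, mul_assoc x (h 0), ← hW]
  linear_combination -x * e7 - W * e8 - (∏ j ∈ Finset.range i, aeval x (cP j)) * e2

end ring

theorem big {t : ℝ} (ht : 3 < t) (j : ℕ) : 2 < aeval t (cP j) := by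
  induction j with
  | zero =>
    rw [aeval_c0, aeval_w]
    nlinarith [sq_nonneg (t - 3), mul_pos (by linarith : (0 : ℝ) < t - 3) (by linarith : (0 : ℝ) < t)]
  | succ j ih =>
    rw [aeval_cs]
    nlinarith

theorem trig (a : ℝ) (j : ℕ) :
    aeval ((2 * Real.cos a) ^ 2 - 1) (cP j) = 2 * Real.cos (6 * 2 ^ j * a) := by
  induction j with
  | zero =>
    rw [aeval_c0, aeval_w]
    have h1 : Real.cos (6 * 2 ^ 0 * a) = 2 * Real.cos (3 * a) ^ 2 - 1 := by
      rw [← Real.cos_two_mul]
      congr 1
      ring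
    rw [h1, Real.cos_three_mul]
    ring
  | succ j ih =>
    rw [aeval_cs, ih]
    have h1 : Real.cos (6 * 2 ^ (j + 1) * a) = 2 * Real.cos (6 * 2 ^ j * a) ^ 2 - 1 := by
      rw [← Real.cos_two_mul]
      congr 1
      ring
    rw [h1]
    ring

theorem root_part (i : ℕ) (y : ℝ) (hy : aeval (y ^ 2 - 1) (pP i) = 0) :
    ∃ j : ℤ, y = 2 * Real.cos (j * (Real.pi / (3 * 2 ^ (i + 1) : ℕ))) := by
  have e9 : aeval (y ^ 2 - 1) (pP i) = (y ^ 2 - 1) * aeval (y ^ 2 - 1) wP *
      ∏ j ∈ Finset.range i, aeval (y ^ 2 - 1) (cP j) := by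
    simp only [pP, map_mul, aeval_X, map_prod]
  rw [e9] at hy
  have hpi := Real.pi_pos
  have h2i : (2 : ℝ) ^ i ≠ 0 := by positivity
  have hden : ((3 * 2 ^ (i + 1) : ℕ) : ℝ) = 6 * 2 ^ i := by
    push_cast
    ring
  rw [hden]
  rcases lt_or_ge 2 |y| with hbig | hsm
  · exfalso
    have h1 : 4 < y ^ 2 := by
      rw [← sq_abs y]
      nlinarith
    have h2 : 3 < y ^ 2 - 1 := by linarith
    have h3 : 0 < aeval (y ^ 2 - 1) wP := by
      rw [aeval_w]
      have : 0 < (y ^ 2 - 1 - 2) := by linarith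
      have h4 : 0 < 1 + (y ^ 2 - 1) := by linarith
      positivity
    have h4 : 0 < ∏ j ∈ Finset.range i, aeval (y ^ 2 - 1) (cP j) :=
      Finset.prod_pos fun j _ => by linarith [big h2 j]
    have h5 : 0 < y ^ 2 - 1 := by linarith
    have h6 := mul_pos (mul_pos h5 h3) h4
    linarith
  · obtain ⟨a, ha⟩ : ∃ a, y = 2 * Real.cos a := by
      refine ⟨Real.arccos (y / 2), ?_⟩
      have h1 := abs_le.1 hsm
      rw [Real.cos_arccos (by linarith) (by linarith)]
      ring
    have key : ∀ l : ℕ, l ≤ i → Real.cos (3 * 2 ^ l * a) = 0 →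
        ∃ j : ℤ, y = 2 * Real.cos (j * (Real.pi / (6 * 2 ^ i))) := by
      intro l hl h0
      obtain ⟨m, hm⟩ := Real.cos_eq_zero_iff.1 h0
      refine ⟨(2 * m + 1) * 2 ^ (i - l), ?_⟩
      rw [ha]
      congr 2
      have h3 : (2 : ℝ) ^ i = 2 ^ (i - l) * 2 ^ l := by
        rw [← pow_add]
        congr 1
        omega
      have h4 : (2 : ℝ) ^ l ≠ 0 := by positivity
      have h5 : (2 : ℝ) ^ (i - l) ≠ 0 := by positivity
      rw [h3]
      push_cast
      field_simp
      linarith
    rcases mul_eq_zero.1 hy with h | h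
    · rcases mul_eq_zero.1 h with h | h
      · have h1 : (y - 1) * (y + 1) = 0 := by linarith
        rcases mul_eq_zero.1 h1 with h2 | h2
        · refine ⟨2 ^ (i + 1), ?_⟩
          have h3 : (((2 ^ (i + 1) : ℤ)) : ℝ) * (Real.pi / (6 * 2 ^ i)) = Real.pi / 3 := by
            push_cast
            rw [pow_succ]
            field_simp
            norm_num
          rw [h3, Real.cos_pi_div_three]
          linarith
        · refine ⟨2 ^ (i + 2), ?_⟩
          have h3 : (((2 ^ (i + 2) : ℤ)) : ℝ) * (Real.pi / (6 * 2 ^ i)) =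
              Real.pi - Real.pi / 3 := by
            push_cast
            rw [pow_succ, pow_succ]
            field_simp
            norm_num
          rw [h3, Real.cos_pi_sub, Real.cos_pi_div_three]
          linarith
      · rw [aeval_w] at h
        have h1 : (2 * Real.cos (3 * a)) ^ 2 = 0 := by
          rw [← h, Real.cos_three_mul, ha]
          ring
        have h2 : Real.cos (3 * a) = 0 := by
          have := pow_eq_zero_iff (two_ne_zero) |>.1 h1
          linarith
        refine key 0 (Nat.zero_le _) ?_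
        rw [pow_zero, mul_one]
        exact h2
    · obtain ⟨l, hl, h0⟩ := Finset.prod_eq_zero_iff.1 h
      rw [Finset.mem_range] at hl
      rw [ha, trig] at h0
      refine key (l + 1) (by omega) ?_
      have h1 : (3 * 2 ^ (l + 1) * a : ℝ) = 6 * 2 ^ l * a := by ring
      rw [h1]
      linarith

theorem proof_towerRing : Pool.Agent.H398.Kt.S_towerRing.{w} := by
  intro i
  refine ⟨pP i, pP_monic i, pP_deg i, ?_, root_part i⟩
  intro R _ m m' x h h' h0 h1 h1' h2 h2'
  exact ring_part i m m' x h h' h0 h1 h1' h2 h2'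

end Pool.Agent.H922.Kt
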