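import Pool.Agent.H398.Kt.Excl
import Pool.Agent.H398.Kt.PfKsPrime
import Pool.Agent.H398.Kt.PfKsCancel
import Pool.Agent.H398.Kt.PfIntegral
import Pool.Agent.H398.Kt.PfComplete
import Pool.Agent.H398.Kt.PfTowerRing
import Pool.Agent.H398.Kt.PfNumber
import Pool.Agent.H398.Kt.PfCubes
import Pool.Agent.H398.Kt.PfObBase
import Pool.Agent.H398.Kt.PfEig

/-!
# Q1 and Q2 for elementary abelian `2`-groups
-/

set_option autoImplicit false

namespace Pool.Agent.H398.Kt

universe u v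

open Pool.Agent.H398.Gam Ob

theorem elemAb_final {k : Type u} [Field k] [CharP k 2] {G : Type v} [Group G] [Fintype G]
    (hG : ∀ g : G, g * g = 1) (M : Ob k G) (h1 : 1 < M.gamma) (h2 : M.gamma < 2) :
    ∃ i : ℕ, 2 ≤ i ∧ M.gamma = 2 * Real.cos (Real.pi / (2 ^ i : ℕ)) :=
  mainB Pool.Agent.H782.Kt.proof_ksPrime Pool.Agent.H825.Kt.proof_ksCancel
    Pool.Agent.H670.Kt.proof_integral Pool.Agent.H349.Kt.proof_complete
    Pool.Agent.H922.Kt.proof_towerRing Pool.Agent.H178.Kt.proof_S_number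
    Pool.Agent.H84.Kt.proof_eig Pool.Agent.H663.Kt.proof_cubes Pool.Agent.H539.Kt.proof_obBase
    hG M h1 h2

end Pool.Agent.H398.Kt
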