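import Pool.Agent.H398.Kt.Iface4

/-!
Tensoring with the permutation module of `G / K`.
-/

set_option autoImplicit false
set_option linter.unusedVariables false
set_option linter.unusedSectionVars false

open scoped TensorProduct

namespace Pool.Agent.H164.Kt

universe u v

open Pool.Agent.H398.Gam Pool.Agent.H398.Kt Ob

variable {k : Type u} [Field k] {G : Type v} [Group G] {J : Type} [Fintype J] [DecidableEq J]

/-- a transitive action with the stabilizer `K` of `j₀` and representatives `t` -/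
structure TD (act : G →* Equiv.Perm J) (j₀ : J) (K : Subgroup G) (t : J → G) : Prop where
  tr : ∀ j, act (t j) j₀ = j
  st : ∀ g, g ∈ K ↔ act g j₀ = j₀

variable {act : G →* Equiv.Perm J} {j₀ : J} {K : Subgroup G} {t : J → G}

theorem act_inv_act (act : G →* Equiv.Perm J) (g : G) (j : J) : act g⁻¹ (act g j) = j := by
  rw [← Equiv.Perm.mul_apply, ← map_mul, inv_mul_cancel, map_one, Equiv.Perm.one_apply]

theorem act_act_inv (act : G →* Equiv.Perm J) (g : G) (j : J) : act g (act g⁻¹ j) = j := by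
  rw [← Equiv.Perm.mul_apply, ← map_mul, mul_inv_cancel, map_one, Equiv.Perm.one_apply]

theorem TD.inv (D : TD act j₀ K t) (j : J) : act (t j)⁻¹ j = j₀ := by
  have h := act_inv_act act (t j) j₀
  rwa [D.tr] at h

theorem kp_mem (D : TD act j₀ K t) (g : G) (j : J) : (t j)⁻¹ * g * t (act g⁻¹ j) ∈ K := by
  rw [D.st, map_mul, map_mul, Equiv.Perm.mul_apply, Equiv.Perm.mul_apply, D.tr, act_act_inv, D.inv]

/-- the cocycle -/
def kp (D : TD act j₀ K t) (g : G) (j : J) : K := ⟨(t j)⁻¹ * g * t (act g⁻¹ j), kp_mem D g j⟩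

theorem kp_one (D : TD act j₀ K t) (j : J) : kp D 1 j = 1 := by
  apply Subtype.ext
  change (t j)⁻¹ * 1 * t (act 1⁻¹ j) = 1
  rw [inv_one, map_one, Equiv.Perm.one_apply, mul_one, inv_mul_cancel]

theorem act_mul_inv (act : G →* Equiv.Perm J) (g h : G) (j : J) :
    act (g * h)⁻¹ j = act h⁻¹ (act g⁻¹ j) := by
  rw [mul_inv_rev, map_mul, Equiv.Perm.mul_apply]

theorem kp_mul (D : TD act j₀ K t) (g h : G) (j : J) :
    kp D (g * h) j = kp D g j * kp D h (act g⁻¹ j) := by
  apply Subtype.ext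
  change (t j)⁻¹ * (g * h) * t (act (g * h)⁻¹ j) =
    ((t j)⁻¹ * g * t (act g⁻¹ j)) * ((t (act g⁻¹ j))⁻¹ * h * t (act h⁻¹ (act g⁻¹ j)))
  rw [act_mul_inv]
  group

/-- the induced module -/
noncomputable def indRep (D : TD act j₀ K t) (Y : Ob k K) : Representation k G (J → Y.V) where
  toFun g := LinearMap.pi fun j => Y.ρ (kp D g j) ∘ₗ LinearMap.proj (act g⁻¹ j)
  map_one' := by
    apply LinearMap.ext
    intro f
    funext j
    change Y.ρ (kp D 1 j) (f (act 1⁻¹ j)) = f j
    rw [kp_one, map_one, inv_one, map_one, Equiv.Perm.one_apply, Module.End.one_apply]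
  map_mul' g h := by
    apply LinearMap.ext
    intro f
    funext j
    change Y.ρ (kp D (g * h) j) (f (act (g * h)⁻¹ j)) =
      Y.ρ (kp D g j) (Y.ρ (kp D h (act g⁻¹ j)) (f (act h⁻¹ (act g⁻¹ j))))
    rw [kp_mul, act_mul_inv, map_mul, Module.End.mul_apply]

/-- the induced module -/
noncomputable abbrev ind (D : TD act j₀ K t) (Y : Ob k K) : Ob k G where
  V := J → Y.V
  ρ := indRep D Y

theorem ind_ρ (D : TD act j₀ K t) (Y : Ob k K) (g : G) (f : J → Y.V) (j : J) :
    (ind D Y).ρ g f j = Y.ρ (kp D g j) (f (act g⁻¹ j)) := rfl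

theorem dim_ind (D : TD act j₀ K t) (Y : Ob k K) : (ind D Y).dim = Fintype.card J * Y.dim := by
  change Module.finrank k (J → Y.V) = _
  rw [Module.finrank_pi_fintype]
  simp [dim]

theorem ind_prod (D : TD act j₀ K t) (Y B P : Ob k K) (h : Y.Iso (B.prod P)) :
    (ind D Y).Iso ((ind D B).prod (ind D P)) := by
  obtain ⟨e, he⟩ := h.exists_equiv
  let E : (J → Y.V) ≃ₗ[k] (J → B.V) × (J → P.V) :=
    { toFun := fun f => (fun j => (e (f j)).1, fun j => (e (f j)).2)
      map_add' := fun f g => by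
        apply Prod.ext
        · funext j
          simp
        · funext j
          simp
      map_smul' := fun c f => by
        apply Prod.ext
        · funext j
          simp
        · funext j
          simp
      invFun := fun p j => e.symm (p.1 j, p.2 j)
      left_inv := fun f => by
        funext j
        simp
      right_inv := fun p => by
        apply Prod.ext
        · funext j
          simp
        · funext j
          simp }
  refine Iso.mk' (A := ind D Y) (B := (ind D B).prod (ind D P)) E (fun g f => ?_)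
  apply Prod.ext
  · funext j
    change (e (Y.ρ (kp D g j) (f (act g⁻¹ j)))).1 = B.ρ (kp D g j) (e (f (act g⁻¹ j))).1
    rw [he]
    rfl
  · funext j
    change (e (Y.ρ (kp D g j) (f (act g⁻¹ j)))).2 = P.ρ (kp D g j) (e (f (act g⁻¹ j))).2
    rw [he]
    rfl

/-- the action of an element as an equivalence -/
noncomputable def actE (A : Ob k G) (g : G) : A.V ≃ₗ[k] A.V :=
  LinearEquiv.ofLinearMap (A.ρ g) (A.ρ g⁻¹)
    (by rw [← Module.End.mul_eq_comp, ← map_mul, mul_inv_cancel, map_one]; rfl)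
    (by rw [← Module.End.mul_eq_comp, ← map_mul, inv_mul_cancel, map_one]; rfl)

theorem tens_iso (D : TD act j₀ K t) (A : Ob k G) :
    (A.tens (perm k act)).Iso (ind D (res A K)) := by
  refine Iso.tens_mk (A := A) (B := perm k act) (C := ind D (res A K))
    ((TensorProduct.piScalarRight k k A.V J).trans (LinearEquiv.piCongrRight fun j => actE A (t j)⁻¹))
    (fun g a b => ?_)
  have h1 : ∀ (x : A.V) (y : J → k) (j : J),
      ((TensorProduct.piScalarRight k k A.V J).trans (LinearEquiv.piCongrRight fun j => actE A (t j)⁻¹))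
        (x ⊗ₜ[k] y : A.V ⊗[k] (J → k)) j = A.ρ (t j)⁻¹ (y j • x) := fun x y j => rfl
  funext j
  rw [h1]
  change A.ρ (t j)⁻¹ (b (act g⁻¹ j) • A.ρ g a) = A.ρ ((kp D g j : K) : G)
    (((TensorProduct.piScalarRight k k A.V J).trans (LinearEquiv.piCongrRight fun j => actE A (t j)⁻¹))
        (a ⊗ₜ[k] b : A.V ⊗[k] (J → k)) (act g⁻¹ j))
  rw [h1]
  change A.ρ (t j)⁻¹ (b (act g⁻¹ j) • A.ρ g a) = A.ρ ((t j)⁻¹ * g * t (act g⁻¹ j))
    (A.ρ (t (act g⁻¹ j))⁻¹ (b (act g⁻¹ j) • a))
  rw [← Module.End.mul_apply (A.ρ ((t j)⁻¹ * g * t (act g⁻¹ j))), ← map_mul, mul_inv_cancel_right, map_smul,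
    map_smul, map_mul, Module.End.mul_apply]

theorem ind_proj [Fintype G] (D : TD act j₀ K t) (P : Ob k K) (hP : P.IsProj) : (ind D P).IsProj := by
  classical
  let _ : Fintype K := Fintype.ofFinite K
  obtain ⟨θ, hθ⟩ := (isProj_iff hH P).1 hP
  rw [isProj_iff hH]
  refine ⟨LinearMap.pi fun j => if j = j₀ then θ ∘ₗ LinearMap.proj j₀ else 0, fun f => ?_⟩
  funext j
  rw [Finset.sum_apply]
  change f j = ∑ g : G, P.ρ (kp D g j)
    ((LinearMap.pi fun j => if j = j₀ then θ ∘ₗ LinearMap.proj j₀ else (0 : (J → P.V) →ₗ[k] P.V))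
      ((ind D P).ρ g⁻¹ f) (act g⁻¹ j))
  have h1 : ∀ g : G, P.ρ (kp D g j)
      ((LinearMap.pi fun j => if j = j₀ then θ ∘ₗ LinearMap.proj j₀ else (0 : (J → P.V) →ₗ[k] P.V))
        ((ind D P).ρ g⁻¹ f) (act g⁻¹ j)) =
      if act g⁻¹ j = j₀ then P.ρ (kp D g j) (θ (P.ρ (kp D g j)⁻¹ (f j))) else 0 := by
    intro g
    rw [LinearMap.pi_apply]
    by_cases hg : act g⁻¹ j = j₀
    · rw [if_pos hg, if_pos hg, LinearMap.comp_apply, LinearMap.proj_apply, ind_ρ]
      have h2 : act (g⁻¹)⁻¹ j₀ = j := by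
        rw [inv_inv, ← hg, act_act_inv]
      have h3 : kp D g⁻¹ j₀ = (kp D g j)⁻¹ := by
        apply Subtype.ext
        change (t j₀)⁻¹ * g⁻¹ * t (act (g⁻¹)⁻¹ j₀) = ((t j)⁻¹ * g * t (act g⁻¹ j))⁻¹
        rw [h2, hg]
        group
      rw [h2, h3]
    · rw [if_neg hg, if_neg hg, LinearMap.zero_apply, map_zero]
  rw [Finset.sum_congr rfl fun g _ => h1 g, ← Finset.sum_filter]
  conv_lhs => rw [← LinearMap.id_apply (R := k) (f j), hθ (f j)]
  symm
  refine Finset.sum_bij' (fun g _ => kp D g j) (fun (h : K) _ => t j * (h : G) * (t j₀)⁻¹) ?_ ?_ ?_ ?_ ?_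
  · intro g _
    exact Finset.mem_univ _
  · intro h _
    rw [Finset.mem_filter]
    refine ⟨Finset.mem_univ _, ?_⟩
    have h2 : (t j * (h : G) * (t j₀)⁻¹)⁻¹ = t j₀ * (h : G)⁻¹ * (t j)⁻¹ := by group
    rw [h2, map_mul, map_mul, Equiv.Perm.mul_apply, Equiv.Perm.mul_apply, D.inv,
      (D.st _).1 (K.inv_mem h.2), D.tr]
  · intro g hg
    have hg' := (Finset.mem_filter.1 hg).2
    change t j * ((t j)⁻¹ * g * t (act g⁻¹ j)) * (t j₀)⁻¹ = g
    rw [hg']
    group
  · intro h _
    apply Subtype.ext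
    have h2 : act (t j * (h : G) * (t j₀)⁻¹)⁻¹ j = j₀ := by
      have h2 : (t j * (h : G) * (t j₀)⁻¹)⁻¹ = t j₀ * (h : G)⁻¹ * (t j)⁻¹ := by group
      rw [h2, map_mul, map_mul, Equiv.Perm.mul_apply, Equiv.Perm.mul_apply, D.inv,
        (D.st _).1 (K.inv_mem h.2), D.tr]
    change (t j)⁻¹ * (t j * (h : G) * (t j₀)⁻¹) * t (act (t j * (h : G) * (t j₀)⁻¹)⁻¹ j) = (h : G)
    rw [h2]
    group
  · intro g _
    rfl

theorem proof_coreInd : S_coreInd.{u, v} := by
  intro k _ G _ _ J _ _ act j₀ K htr hst A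
  choose t ht using htr
  have D : TD act j₀ K t := ⟨ht, hst⟩
  let _ : Fintype K := Fintype.ofFinite K
  obtain ⟨B, P, hP, h1, h2⟩ := exists_core hH (res A K)
  rw [← h2, ← dim_ind D B]
  exact coreDim_le (ind_proj D P hP) ((tens_iso D A).trans (ind_prod D _ B P h1))

end Pool.Agent.H164.Kt
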