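import Pool.Agent.H398.Kt.Iface4

set_option autoImplicit false

/-!
# C2. Restriction does not increase the dimension of the core
-/

namespace Pool.Agent.H725.Kt

universe u v

open Pool.Agent.H398.Gam Pool.Agent.H398.Kt
open Pool.Agent.H398.Gam.Ob

variable {k : Type u} [Field k] {G : Type v} [Group G]

/-- every element of `G` is uniquely `h * t⁻¹`, `h` in the subgroup and `t` in a left transversal -/
theorem bij (K : Subgroup G) :
    Function.Bijective (fun q : K × (G ⧸ K) => (q.1 : G) * (Quotient.out q.2)⁻¹) := by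
  have hmk : ∀ (h : K) (c : G ⧸ K), (QuotientGroup.mk (Quotient.out c * (h : G)⁻¹) : G ⧸ K) = c := by
    intro h c
    rw [QuotientGroup.mk_mul_of_mem _ (K.inv_mem h.2)]
    exact QuotientGroup.out_eq' c
  constructor
  · rintro ⟨h, c⟩ ⟨h', c'⟩ he
    replace he : (h : G) * (Quotient.out c)⁻¹ = (h' : G) * (Quotient.out c')⁻¹ := he
    have h1 : Quotient.out c * (h : G)⁻¹ = Quotient.out c' * (h' : G)⁻¹ := by
      have := congrArg (fun x : G => x⁻¹) he
      simpa only [mul_inv_rev, inv_inv] using this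
    have h2 : c = c' := by
      rw [← hmk h c, ← hmk h' c', h1]
    subst h2
    have h3 : (h : G) = h' := mul_right_cancel he
    rw [Subtype.ext h3]
  · intro g
    have h1 : (QuotientGroup.mk g⁻¹ : G ⧸ K) =
        QuotientGroup.mk (Quotient.out (QuotientGroup.mk g⁻¹ : G ⧸ K)) :=
      (QuotientGroup.out_eq' _).symm
    have h2 := QuotientGroup.eq.1 h1
    rw [inv_inv] at h2
    exact ⟨(⟨_, h2⟩, QuotientGroup.mk g⁻¹), by simp⟩

theorem isTr_res [Fintype G] (K : Subgroup G) [Fintype K] {P : Ob k G}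
    (h : IsTr P P LinearMap.id) : IsTr (res P K) (res P K) LinearMap.id := by
  classical
  obtain ⟨θ, hθ⟩ := h
  have : Fintype (G ⧸ K) := Fintype.ofFinite _
  refine ⟨∑ c : G ⧸ K, (P.ρ (Quotient.out c)⁻¹) ∘ₗ θ ∘ₗ (P.ρ (Quotient.out c)), fun v => ?_⟩
  have h1 := hθ v
  rw [← (bij K).sum_comp (fun g => P.ρ g (θ (P.ρ g⁻¹ v))), Fintype.sum_prod_type] at h1
  refine h1.trans (Finset.sum_congr rfl fun h _ => ?_)
  show _ = P.ρ (h : G) ((∑ c : G ⧸ K, (P.ρ (Quotient.out c)⁻¹) ∘ₗ θ ∘ₗ (P.ρ (Quotient.out c)))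
    (P.ρ ((h : G)⁻¹) v))
  rw [LinearMap.sum_apply, map_sum]
  refine Finset.sum_congr rfl fun c _ => ?_
  show P.ρ ((h : G) * (Quotient.out c)⁻¹) (θ (P.ρ ((h : G) * (Quotient.out c)⁻¹)⁻¹ v)) =
    P.ρ (h : G) (P.ρ (Quotient.out c)⁻¹ (θ (P.ρ (Quotient.out c) (P.ρ ((h : G)⁻¹) v))))
  rw [mul_inv_rev, inv_inv, map_mul, map_mul]
  rfl

theorem isProj_res [Fintype G] (K : Subgroup G) {P : Ob k G} (h : P.IsProj) :
    (res P K).IsProj := by
  classical
  have : Fintype K := Fintype.ofFinite _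
  exact (hH k K (res P K)).2 (isTr_res K ((hH k G P).1 h))

theorem proof_coreRes : S_coreRes.{u, v} := by
  intro k _ G _ _ K A
  obtain ⟨B, P, hP, hi, hd⟩ := exists_core hH A
  obtain ⟨e, he⟩ := hi.exists_equiv
  have h1 : (res A K).Iso ((res B K).prod (res P K)) :=
    Iso.mk' (A := res A K) (B := (res B K).prod (res P K)) e (fun g v => he (g : G) v)
  have h2 := coreDim_le (isProj_res K hP) h1
  have h3 : (res B K).dim = B.dim := rfl
  rw [h3, hd] at h2
  exact h2

end Pool.Agent.H725.Kt
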