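import Pool.Agent.H398.Kt.Iface4

/-!
The core is subadditive in short exact sequences (by helper375 for helper398).
-/

set_option autoImplicit false
set_option linter.unusedVariables false
set_option linter.unusedSectionVars false

open scoped TensorProduct

namespace Pool.Agent.H375.Kt

open Pool.Agent.H398.Gam Pool.Agent.H398.Gam.Ob Pool.Agent.H398.Kt

universe u v

variable {k : Type u} [Field k] {G : Type v} [Group G] [Fintype G]

/-- the relative trace of a linear map -/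
noncomputable def trL (A B : Ob k G) (θ : A.V →ₗ[k] B.V) : A.V →ₗ[k] B.V :=
  ∑ g, (B.ρ g) ∘ₗ θ ∘ₗ (A.ρ g⁻¹)

theorem trL_apply (A B : Ob k G) (θ : A.V →ₗ[k] B.V) (v : A.V) :
    trL A B θ v = ∑ g, B.ρ g (θ (A.ρ g⁻¹ v)) := by
  unfold trL
  rw [LinearMap.sum_apply]
  rfl

theorem trL_eqv (A B : Ob k G) (θ : A.V →ₗ[k] B.V) : Eqv A B (trL A B θ) := by
  intro h v
  rw [trL_apply, trL_apply, map_sum]
  refine Fintype.sum_equiv (Equiv.mulLeft h⁻¹) _ _ fun g => ?_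
  have e1 : A.ρ g⁻¹ (A.ρ h v) = A.ρ (h⁻¹ * g)⁻¹ v := by
    rw [mul_inv_rev, inv_inv, map_mul, Module.End.mul_apply]
  have e2 : B.ρ h (B.ρ (h⁻¹ * g) (θ (A.ρ (h⁻¹ * g)⁻¹ v))) = B.ρ g (θ (A.ρ (h⁻¹ * g)⁻¹ v)) := by
    rw [← Module.End.mul_apply, ← map_mul, mul_inv_cancel_left]
  rw [Equiv.coe_mulLeft, e2, e1]

/-- relatively injective modules are injective -/
theorem exists_retr {P W : Ob k G} (hP : IsTr P P LinearMap.id) (i : P.V →ₗ[k] W.V)
    (hi : Eqv P W i) (hinj : Function.Injective i) :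
    ∃ r : W.V →ₗ[k] P.V, Eqv W P r ∧ ∀ p, r (i p) = p := by
  obtain ⟨θ, hθ⟩ := hP
  obtain ⟨l, hl⟩ := LinearMap.exists_leftInverse_of_injective i (LinearMap.ker_eq_bot.2 hinj)
  have hl' : ∀ p, l (i p) = p := fun p => congrArg (fun T => T p) hl
  refine ⟨trL W P (θ ∘ₗ l), trL_eqv _ _ _, fun p => ?_⟩
  rw [trL_apply]
  have h1 := hθ p
  rw [LinearMap.id_apply] at h1
  rw [h1]
  refine Finset.sum_congr rfl fun g _ => ?_
  rw [LinearMap.comp_apply, ← hi, hl', ← h1]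

/-- relatively projective modules are projective -/
theorem exists_sect {Q W : Ob k G} (hQ : IsTr Q Q LinearMap.id) (q : W.V →ₗ[k] Q.V)
    (hq : Eqv W Q q) (hsurj : Function.Surjective q) :
    ∃ s : Q.V →ₗ[k] W.V, Eqv Q W s ∧ ∀ y, q (s y) = y := by
  obtain ⟨θ, hθ⟩ := hQ
  obtain ⟨m, hm⟩ := LinearMap.exists_rightInverse_of_surjective q (LinearMap.range_eq_top.2 hsurj)
  have hm' : ∀ y, q (m y) = y := fun y => congrArg (fun T => T y) hm
  refine ⟨trL Q W (m ∘ₗ θ), trL_eqv _ _ _, fun y => ?_⟩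
  rw [trL_apply, map_sum]
  have h1 := hθ y
  rw [LinearMap.id_apply] at h1
  rw [h1]
  refine Finset.sum_congr rfl fun g _ => ?_
  rw [hq, LinearMap.comp_apply, hm', ← h1]

theorem symm_eqv {A B : Ob k G} (e : A.V ≃ₗ[k] B.V) (he : ∀ g v, e (A.ρ g v) = B.ρ g (e v))
    (g : G) (v : B.V) : e.symm (B.ρ g v) = A.ρ g (e.symm v) := by
  apply e.injective
  rw [he]
  simp

theorem main (H : S_higman.{u, v}) (A B C : Ob k G) (s : SES A B C) :
    B.coreDim ≤ A.coreDim + C.coreDim := by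
  obtain ⟨A₀, P, hP, hA, hdA⟩ := exists_core H A
  obtain ⟨C₀, Q, hQ, hC, hdC⟩ := exists_core H C
  have hPt := (isProj_iff H P).1 hP
  have hQt := (isProj_iff H Q).1 hQ
  obtain ⟨e, he⟩ := hA.exists_equiv
  obtain ⟨e', he'⟩ := hC.exists_equiv
  -- the embedding of `P`
  let f : P.V →ₗ[k] A.V := e.symm.toLinearMap ∘ₗ LinearMap.inr k A₀.V P.V
  have hf : Eqv P A f := by
    intro g p
    change e.symm ((0, P.ρ g p) : A₀.V × P.V) = A.ρ g (e.symm ((0, p) : A₀.V × P.V))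
    rw [← symm_eqv e he]
    congr 1
    change ((0, P.ρ g p) : A₀.V × P.V) = (A₀.ρ g 0, P.ρ g p)
    rw [map_zero]
  have hfi : Function.Injective f := by
    intro p p' hpp
    have h1 : ((0, p) : A₀.V × P.V) = (0, p') := e.symm.injective hpp
    exact congrArg Prod.snd h1
  let i : P.V →ₗ[k] B.V := s.α ∘ₗ f
  have hi : Eqv P B i := by
    intro g p
    change s.α (f (P.ρ g p)) = B.ρ g (s.α (f p))
    rw [hf, s.hα]
  have hii : Function.Injective i := s.inj.comp hfi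
  -- the projection to `Q`
  let q : B.V →ₗ[k] Q.V := LinearMap.snd k C₀.V Q.V ∘ₗ e'.toLinearMap ∘ₗ s.β
  have hq : Eqv B Q q := by
    intro g b
    change (e' (s.β (B.ρ g b)) : C₀.V × Q.V).2 = Q.ρ g (e' (s.β b) : C₀.V × Q.V).2
    rw [s.hβ, he']
    rfl
  have hqs : Function.Surjective q := by
    intro y
    obtain ⟨c, hc⟩ := e'.surjective ((0, y) : C₀.V × Q.V)
    obtain ⟨b, hb⟩ := s.surj c
    refine ⟨b, ?_⟩
    change (e' (s.β b) : C₀.V × Q.V).2 = y
    rw [hb, hc]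
  have hqi : ∀ p, q (i p) = 0 := by
    intro p
    have h1 : s.β (s.α (f p)) = 0 := (s.ex _).2 ⟨f p, rfl⟩
    change (e' (s.β (s.α (f p))) : C₀.V × Q.V).2 = 0
    rw [h1, map_zero]
    rfl
  obtain ⟨r, hr, hri⟩ := exists_retr hPt i hi hii
  obtain ⟨t, ht, hqt⟩ := exists_sect hQt q hq hqs
  obtain ⟨B₂, -, -, -, -, -, -, -, hiso⟩ := compl (P.prod Q) B (i.coprod t)
    ((r - r ∘ₗ t ∘ₗ q).prod q) (by
      rintro g ⟨p, y⟩
      change i (P.ρ g p) + t (Q.ρ g y) = B.ρ g (i p + t y)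
      rw [hi, ht, map_add]) (by
      intro g b
      change ((r (B.ρ g b) - r (t (q (B.ρ g b))), q (B.ρ g b)) : P.V × Q.V) =
        (P.ρ g (r b - r (t (q b))), Q.ρ g (q b))
      rw [hq, ht, hr, hr, map_sub]) (by
      rintro ⟨p, y⟩
      change ((r (i p + t y) - r (t (q (i p + t y))), q (i p + t y)) : P.V × Q.V) = (p, y)
      rw [map_add q, hqi, hqt, zero_add, map_add, hri, add_sub_cancel_right])
  have h1 : B.coreDim ≤ B₂.dim :=
    coreDim_le (isProj_prod H hP hQ) (hiso.trans (prod_comm _ _))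
  have h2 := s.dim_eq
  have h3 := dim_eq_of_iso hA
  have h4 := dim_eq_of_iso hC
  have h5 := dim_eq_of_iso hiso
  rw [dim_prod] at h3 h4 h5
  rw [dim_prod] at h5
  omega

/-- **C1.** -/
theorem proof_coreSub : S_coreSub.{u, v} := by
  intro k _ G _ _ A B C hs
  obtain ⟨s⟩ := hs
  exact main hH A B C s

end Pool.Agent.H375.Kt
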