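import Pool.Agent.H398.Kt.Iface4

/-!
# The cocycle of the cosets of a cyclic subgroup of order four
-/

set_option autoImplicit false

universe v

namespace Pool.Agent.H139.Kt

open Pool.Agent.H398.Kt

/-- An additive coordinate on the cyclic group generated by an element of order `4`. -/
theorem exists_lam {G : Type v} [Group G] (s : G) (hs : orderOf s = 4) :
    ∃ lam : G → ZMod 4, (∀ a b : G, a ∈ Subgroup.zpowers s → b ∈ Subgroup.zpowers s →
      lam (a * b) = lam a + lam b) ∧ lam s = 1 := by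
  classical
  have key : ∀ m n : ℤ, s ^ m = s ^ n → ((m : ZMod 4) = (n : ZMod 4)) := by
    intro m n h
    have h1 := (zpow_eq_zpow_iff_modEq (x := s) (m := m) (n := n)).1 h
    rw [hs] at h1
    exact (ZMod.intCast_eq_intCast_iff m n 4).2 h1
  refine ⟨fun a => if h : ∃ m : ℤ, s ^ m = a then ((h.choose : ℤ) : ZMod 4) else 0, ?_, ?_⟩
  · intro a b ha hb
    obtain ⟨m, hm⟩ := Subgroup.mem_zpowers_iff.1 ha
    obtain ⟨n, hn⟩ := Subgroup.mem_zpowers_iff.1 hb
    have h1 : ∃ m : ℤ, s ^ m = a := ⟨m, hm⟩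
    have h2 : ∃ m : ℤ, s ^ m = b := ⟨n, hn⟩
    have h3 : ∃ m : ℤ, s ^ m = a * b := ⟨m + n, by rw [zpow_add, hm, hn]⟩
    simp only [dif_pos h1, dif_pos h2, dif_pos h3]
    rw [← Int.cast_add]
    apply key
    rw [h3.choose_spec, zpow_add, h1.choose_spec, h2.choose_spec]
  · have h1 : ∃ m : ℤ, s ^ m = s := ⟨1, zpow_one s⟩
    simp only [dif_pos h1]
    have h2 := key h1.choose 1 (by rw [h1.choose_spec, zpow_one])
    rw [h2, Int.cast_one]

theorem proof_coset : S_coset.{v} := by
  intro G _ _ s hs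
  classical
  obtain ⟨lam, hlam, hs1⟩ := exists_lam s hs
  obtain ⟨n, ⟨e⟩⟩ := Finite.exists_equiv_fin (G ⧸ Subgroup.zpowers s)
  have hmem : ∀ (g : G) (x : G ⧸ Subgroup.zpowers s),
      ((g • x).out)⁻¹ * g * x.out ∈ Subgroup.zpowers s := by
    intro g x
    rw [mul_assoc, ← QuotientGroup.eq]
    rw [QuotientGroup.out_eq', ← smul_eq_mul, ← MulAction.Quotient.smul_coe,
      QuotientGroup.out_eq']
  let act : G →* Equiv.Perm (Fin n) :=
    { toFun := fun g => (e.symm.trans (MulAction.toPerm g)).trans e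
      map_one' := by
        ext i
        simp
      map_mul' := fun g h => by
        ext i
        simp [mul_smul] }
  have hact : ∀ g i, e.symm (act g i) = g • e.symm i := by
    intro g i
    show e.symm (e (g • e.symm i)) = _
    rw [Equiv.symm_apply_apply]
  refine ⟨n, act, fun g i => lam (((e.symm (act g i)).out)⁻¹ * g * (e.symm i).out), ?_, s,
    e ((1 : G) : G ⧸ Subgroup.zpowers s), ?_, ?_⟩
  · intro g h i
    show lam (((e.symm (act (g * h) i)).out)⁻¹ * (g * h) * (e.symm i).out)
      = lam (((e.symm (act g (act h i))).out)⁻¹ * g * (e.symm (act h i)).out)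
        + lam (((e.symm (act h i)).out)⁻¹ * h * (e.symm i).out)
    rw [← hlam]
    · congr 1
      rw [map_mul]
      show ((e.symm (act g (act h i))).out)⁻¹ * (g * h) * (e.symm i).out = _
      group
    · rw [hact g]
      exact hmem _ _
    · rw [hact h]
      exact hmem _ _
  · apply e.symm.injective
    rw [hact, Equiv.symm_apply_apply, MulAction.Quotient.smul_coe, smul_eq_mul, mul_one]
    rw [QuotientGroup.eq, mul_one]
    exact inv_mem (Subgroup.mem_zpowers s)
  · show lam (((e.symm (act s (e ((1 : G) : G ⧸ Subgroup.zpowers s)))).out)⁻¹ * s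
      * (e.symm (e ((1 : G) : G ⧸ Subgroup.zpowers s))).out) = 1
    have h1 : s • ((1 : G) : G ⧸ Subgroup.zpowers s) = ((1 : G) : G ⧸ Subgroup.zpowers s) := by
      rw [MulAction.Quotient.smul_coe, smul_eq_mul, mul_one]
      rw [QuotientGroup.eq, mul_one]
      exact inv_mem (Subgroup.mem_zpowers s)
    rw [hact, Equiv.symm_apply_apply, h1]
    have h2 : (((1 : G) : G ⧸ Subgroup.zpowers s)).out ∈ Subgroup.zpowers s := by
      have h3 := QuotientGroup.out_eq' ((1 : G) : G ⧸ Subgroup.zpowers s)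
      have h4 := (QuotientGroup.eq.1 h3.symm)
      rw [inv_one, one_mul] at h4
      exact h4
    obtain ⟨m, hm⟩ := Subgroup.mem_zpowers_iff.1 h2
    rw [← hm]
    have h5 : (s ^ m)⁻¹ * s * s ^ m = s := by group
    rw [h5, hs1]

end Pool.Agent.H139.Kt
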