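import Pool.Agent.H398.Kt.Iface4

/-!
Project Kt (helper398), task KT30 (helper501): the trivial module is a direct summand of the permutation module
of `G / Q`, `Q` a Sylow `2`-subgroup, in characteristic `2`.
-/

set_option autoImplicit false
set_option linter.unusedVariables false

open scoped TensorProduct

namespace Pool.Agent.H501.Kt

universe u v

open Pool.Agent.H398.Gam Ob Pool.Agent.H398.Kt

theorem odd_cast {k : Type u} [Field k] [CharP k 2] {n : ℕ} (h : ¬ 2 ∣ n) : (n : k) = 1 := by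
  obtain ⟨m, hm⟩ : ∃ m, n = 2 * m + 1 := ⟨n / 2, by omega⟩
  have h2 : ((2 : ℕ) : k) = 0 := CharP.cast_eq_zero k 2
  rw [hm, Nat.cast_add, Nat.cast_mul, h2, zero_mul, zero_add, Nat.cast_one]

theorem perm_split {k : Type u} [Field k] [CharP k 2] {G : Type v} [Group G] {n : ℕ} (hn : ¬ 2 ∣ n)
    (act : G →* Equiv.Perm (Fin n)) :
    ∃ D : Ob k G, (perm k act).Iso ((one k G).prod D) := by
  let S : (one k G).V →ₗ[k] (perm k act).V := LinearMap.pi (fun _ => LinearMap.id)
  let T : (perm k act).V →ₗ[k] (one k G).V := ∑ j, LinearMap.proj j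
  have hSa : ∀ (a : k) (j : Fin n), S a j = a := fun _ _ => rfl
  have hTa : ∀ f : Fin n → k, T f = ∑ j, f j := by
    intro f
    change (∑ j, (LinearMap.proj j : (Fin n → k) →ₗ[k] k)) f = _
    rw [LinearMap.sum_apply]
    rfl
  have hS : Eqv (one k G) (perm k act) S := by
    intro g a
    funext j
    rfl
  have hT : Eqv (perm k act) (one k G) T := by
    intro g f
    change T (fun j => f (act g⁻¹ j)) = T f
    rw [hTa, hTa]
    exact Equiv.sum_comp (act g⁻¹) f
  have hST : ∀ a, T (S a) = a := by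
    intro a
    rw [hTa]
    change ∑ j : Fin n, a = a
    rw [Finset.sum_const, Finset.card_univ, Fintype.card_fin, nsmul_eq_mul, odd_cast hn, one_mul]
  obtain ⟨C, I, P, -, -, -, -, -, h⟩ := compl (one k G) (perm k act) S T hS hT hST
  exact ⟨C, h⟩

theorem proof_sylow : S_sylow.{u, v} := by
  intro k _ _ G _ _
  classical
  have : Fact (Nat.Prime 2) := ⟨Nat.prime_two⟩
  let Q : Sylow 2 G := default
  let e : (G ⧸ (Q : Subgroup G)) ≃ Fin (Nat.card (G ⧸ (Q : Subgroup G))) := Finite.equivFin _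
  let act : G →* Equiv.Perm (Fin (Nat.card (G ⧸ (Q : Subgroup G)))) :=
    (e.permCongrHom.toMonoidHom).comp (MulAction.toPermHom G (G ⧸ (Q : Subgroup G)))
  have hact : ∀ g j, act g j = e (g • e.symm j) := fun _ _ => rfl
  have hact0 : ∀ g : G, act g (e (QuotientGroup.mk 1)) = e (QuotientGroup.mk g) := by
    intro g
    rw [hact, e.symm_apply_apply]
    change e (QuotientGroup.mk (g * 1)) = _
    rw [mul_one]
  have hn : ¬ 2 ∣ Nat.card (G ⧸ (Q : Subgroup G)) := Q.not_dvd_index
  obtain ⟨D, hD⟩ := perm_split (k := k) hn act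
  refine ⟨(Q : Subgroup G), _, act, e (QuotientGroup.mk 1), D, Q.isPGroup', ?_, ?_, hD⟩
  · intro j
    obtain ⟨g, hg⟩ := QuotientGroup.mk_surjective (e.symm j)
    refine ⟨g, ?_⟩
    rw [hact0, hg, e.apply_symm_apply]
  · intro g
    rw [hact0, e.apply_eq_iff_eq, eq_comm, QuotientGroup.eq, inv_one, one_mul]

end Pool.Agent.H501.Kt
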