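import Pool.Agent.H398.Kt.Iface4

/-!
# Triangular monomial matrices give filtrations by permutation modules
-/

set_option autoImplicit false
set_option linter.unusedVariables false

open scoped TensorProduct

namespace Pool.Agent.H955.Kt

universe u v

open Pool.Agent.H398.Gam Ob Pool.Agent.H398.Kt

section

variable {k : Type u} [Field k] {G : Type v} [Group G]

theorem ofMat_rho {I : Type} [Fintype I] [DecidableEq I] (R : G →* Matrix I I k) (g : G)
    (f : I → k) (j : I) : ((ofMat R).ρ g f : I → k) j = ∑ l, R g j l * f l :=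
  ext_ρ (one k G) R g f j

theorem perm_rho {J : Type} [Fintype J] (act : G →* Equiv.Perm J) (g : G)
    (f : J → k) (j : J) : ((perm k act).ρ g f : J → k) j = f (act g⁻¹ j) := rfl

/-- the restriction of an action to a stable subset -/
def actP {I : Type} (act : G →* Equiv.Perm I) (p : I → Prop) (hp : ∀ g c, p (act g c) ↔ p c) :
    G →* Equiv.Perm {c // p c} where
  toFun g := (act g).subtypePerm (fun c => hp g c)
  map_one' := by
    ext c
    simp
  map_mul' g h := by
    ext c
    simp

theorem actP_val {I : Type} (act : G →* Equiv.Perm I) (p : I → Prop)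
    (hp : ∀ g c, p (act g c) ↔ p c) (g : G) (c : {c // p c}) :
    ((actP act p hp g c : {c // p c}) : I) = act g c := rfl

/-- the submatrix on a subset -/
def subR {I : Type} [Fintype I] [DecidableEq I] (R : G →* Matrix I I k) (p : I → Prop)
    [DecidablePred p] (h0 : ∀ g b c, ¬ p b → p c → R g c b = 0) :
    G →* Matrix {c // ¬ p c} {c // ¬ p c} k where
  toFun g := (R g).submatrix Subtype.val Subtype.val
  map_one' := by
    rw [map_one]
    exact Matrix.submatrix_one _ Subtype.val_injective
  map_mul' g h := by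
    rw [map_mul]
    ext c b
    rw [Matrix.submatrix_apply, Matrix.mul_apply, Matrix.mul_apply,
      ← Fintype.sum_subtype_add_sum_subtype p (fun a => R g c a * R h a b)]
    have h1 : ∑ i : {x // p x}, R g c.1 i.1 * R h i.1 b.1 = 0 :=
      Finset.sum_eq_zero fun i _ => by rw [h0 h b.1 i.1 b.2 i.2, mul_zero]
    rw [h1, zero_add]
    rfl

theorem tri_aux (n : ℕ) : ∀ (I : Type) [Fintype I] [DecidableEq I]
    (R : G →* Matrix I I k) (N : I → ℕ) (act : G →* Equiv.Perm I),
    (∀ g b, N (act g b) = N b) →
    (∀ g b c, N b ≤ N c → R g c b = if c = act g b then 1 else 0) →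
    (∀ b, ∃ g, act g b ≠ b) → Fintype.card I = n → TFil (ofMat R) := by
  induction n using Nat.strong_induction_on with
  | _ n ih =>
  intro I _ _ R N act hN hR hfix hcard
  classical
  rcases isEmpty_or_nonempty I with hI | hI
  · apply TFil.zero
    change Module.finrank k (I → k) = 0
    rw [Module.finrank_pi, Fintype.card_eq_zero]
  obtain ⟨b0, hb0⟩ := Finite.exists_max N
  let O : I → Prop := fun c => ∃ g, act g b0 = c
  have hON : ∀ a c, O c → N a ≤ N c := by
    rintro a c ⟨g, rfl⟩
    rw [hN]
    exact hb0 a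
  have hOs : ∀ g c, O (act g c) ↔ O c := by
    intro g c
    constructor
    · rintro ⟨h, hh⟩
      refine ⟨g⁻¹ * h, ?_⟩
      rw [map_mul, Equiv.Perm.mul_apply, hh, ← Equiv.Perm.mul_apply, ← map_mul, inv_mul_cancel,
        map_one, Equiv.Perm.one_apply]
    · rintro ⟨h, hh⟩
      refine ⟨g * h, ?_⟩
      rw [map_mul, Equiv.Perm.mul_apply, hh]
  have hOb0 : O b0 := ⟨1, by rw [map_one, Equiv.Perm.one_apply]⟩
  have h0 : ∀ g b c, ¬ O b → O c → R g c b = 0 := by
    intro g b c hb hc
    rw [hR g b c (hON b c hc), if_neg]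
    rintro rfl
    exact hb ((hOs g b).1 hc)
  let R' := subR R O h0
  let act' := actP act (fun c => ¬ O c) (fun g c => not_congr (hOs g c))
  let actO := actP act O hOs
  have hTr : TrPerm (perm k actO) := by
    refine ⟨{c // O c}, inferInstance, inferInstance, actO, ⟨b0, hOb0⟩, ?_, ?_, Iso.refl _⟩
    · rintro ⟨c, g, hg⟩
      exact ⟨g, Subtype.ext hg⟩
    · obtain ⟨g, hg⟩ := hfix b0
      exact ⟨g, fun h => hg (congrArg Subtype.val h)⟩
  have hA : TFil (ofMat R') := by
    refine ih (Fintype.card {c // ¬ O c}) ?_ {c // ¬ O c} R' (fun c => N c.1) act' ?_ ?_ ?_ rfl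
    · rw [← hcard]
      exact Fintype.card_subtype_lt (x := b0) (not_not.2 hOb0)
    · intro g b
      exact hN g b.1
    · intro g b c hbc
      have h1 := hR g b.1 c.1 hbc
      change R g c.1 b.1 = _
      rw [h1]
      by_cases hc : c = act' g b
      · have h2 : c.1 = act g b.1 := congrArg Subtype.val hc
        rw [if_pos hc, if_pos h2]
      · have h2 : ¬ c.1 = act g b.1 := fun h => hc (Subtype.ext h)
        rw [if_neg hc, if_neg h2]
    · intro b
      obtain ⟨g, hg⟩ := hfix b.1
      exact ⟨g, fun h => hg (congrArg Subtype.val h)⟩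
  let α : ({c // ¬ O c} → k) →ₗ[k] (I → k) :=
    { toFun := fun f c => if h : ¬ O c then f ⟨c, h⟩ else 0
      map_add' := by
        intro f g
        funext c
        by_cases h : ¬ O c
        · simp only [dif_pos h, Pi.add_apply]
        · simp only [dif_neg h, Pi.add_apply, add_zero]
      map_smul' := by
        intro a f
        funext c
        by_cases h : ¬ O c
        · simp only [dif_pos h, Pi.smul_apply, RingHom.id_apply]
        · simp only [dif_neg h, Pi.smul_apply, RingHom.id_apply, smul_zero] }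
  have hα1 : ∀ f (c : {c // ¬ O c}), α f c.1 = f c := fun f c => dif_pos c.2
  have hα2 : ∀ f (c : {c // O c}), α f c.1 = 0 := fun f c => dif_neg (not_not.2 c.2)
  let β : (I → k) →ₗ[k] ({c // O c} → k) := LinearMap.funLeft k k Subtype.val
  have hβ : ∀ f (c : {c // O c}), β f c = f c.1 := fun f c => rfl
  refine TFil.step (ofMat R') (ofMat R) (perm k actO) hA ⟨⟨α, β, ?_, ?_, ?_, ?_, ?_⟩⟩ hTr
  · intro g f
    funext c
    refine Eq.trans ?_ (ofMat_rho R g (α f) c).symm
    rw [← Fintype.sum_subtype_add_sum_subtype O (fun a => R g c a * α f a)]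
    have h1 : ∑ i : {x // O x}, R g c i.1 * α f i.1 = 0 :=
      Finset.sum_eq_zero fun i _ => by rw [hα2, mul_zero]
    rw [h1, zero_add]
    by_cases hc : O c
    · refine (hα2 _ ⟨c, hc⟩).trans (Eq.symm ?_)
      exact Finset.sum_eq_zero fun i _ => by rw [h0 g i.1 c i.2 hc, zero_mul]
    · refine (hα1 _ ⟨c, hc⟩).trans ?_
      refine (ofMat_rho R' g f ⟨c, hc⟩).trans ?_
      refine Finset.sum_congr rfl fun i _ => ?_
      rw [hα1]
      rfl
  · intro g f
    funext c
    refine (hβ _ c).trans ((ofMat_rho R g f c.1).trans ?_)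
    refine Eq.trans ?_ (perm_rho actO g (β f) c).symm
    rw [hβ, actP_val]
    have h1 : ∀ l, R g c.1 l * f l = if l = act g⁻¹ c.1 then f l else 0 := by
      intro l
      rw [hR g l c.1 (hON l c.1 c.2)]
      by_cases hl : l = act g⁻¹ c.1
      · rw [if_pos hl, if_pos, one_mul]
        rw [hl, ← Equiv.Perm.mul_apply, ← map_mul, mul_inv_cancel, map_one, Equiv.Perm.one_apply]
      · rw [if_neg hl, if_neg, zero_mul]
        intro h
        apply hl
        rw [h, ← Equiv.Perm.mul_apply, ← map_mul, inv_mul_cancel, map_one, Equiv.Perm.one_apply]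
    rw [Finset.sum_congr rfl fun l _ => h1 l, Finset.sum_ite_eq' Finset.univ, if_pos (Finset.mem_univ _)]
  · intro f f' hff
    funext c
    have h1 := congrFun hff c.1
    rwa [hα1, hα1] at h1
  · exact LinearMap.funLeft_surjective_of_injective k k _ Subtype.val_injective
  · intro f
    constructor
    · intro h
      refine ⟨fun c => f c.1, ?_⟩
      funext c
      by_cases hc : O c
      · refine (hα2 _ ⟨c, hc⟩).trans ?_
        exact (congrFun h ⟨c, hc⟩).symm
      · exact hα1 _ ⟨c, hc⟩
    · rintro ⟨a, rfl⟩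
      funext c
      exact hα2 a c

end

theorem proof_tri : S_tri.{u, v} := by
  intro k _ G _ I _ _ R N act hN hR hfix
  exact tri_aux (Fintype.card I) I R N act hN hR hfix rfl

end Pool.Agent.H955.Kt
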