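import Pool.Agent.H398.Kt.Iface4

/-!
# C6a: tensor induction of triangular monomial matrices
-/

set_option autoImplicit false
set_option linter.unusedVariables false
set_option linter.unusedSectionVars false

namespace Pool.Agent.H50.Kt

universe u v

open Pool.Agent.H398.Gam Pool.Agent.H398.Gam.Ob Pool.Agent.H398.Kt

section

variable {k : Type u} [Field k] {G : Type v} [Group G] {J : Type} [Fintype J] [DecidableEq J]
variable {B : Type} [Fintype B] [DecidableEq B]

theorem prod_sum_fun (F : J → B → k) : ∏ j, ∑ x, F j x = ∑ d : J → B, ∏ j, F j (d j) := by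
  rw [Finset.prod_univ_sum, Fintype.piFinset_univ]

theorem kap_one {act : G →* Equiv.Perm J} {κ : G → J → ZMod 4}
    (hκ : ∀ g h j, κ (g * h) j = κ g (act h j) + κ h j) (j : J) : κ 1 j = 0 := by
  have h := hκ 1 1 j
  rw [map_one, mul_one, Equiv.Perm.one_apply] at h
  exact (add_eq_left.mp h.symm)

/-- The matrices of the tensor induced representation. -/
def Rm (act : G →* Equiv.Perm J) (κ : G → J → ZMod 4) (S : ZMod 4 → Matrix B B k) (g : G) :
    Matrix (J → B) (J → B) k :=
  fun c b => ∏ j, S (κ g j) (c (act g j)) (b j)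

theorem Rm_one {act : G →* Equiv.Perm J} {κ : G → J → ZMod 4}
    (hκ : ∀ g h j, κ (g * h) j = κ g (act h j) + κ h j) {S : ZMod 4 → Matrix B B k}
    (hS0 : S 0 = 1) : Rm act κ S 1 = 1 := by
  ext c b
  rw [Matrix.one_apply]
  change (∏ j, S (κ 1 j) (c (act 1 j)) (b j)) = _
  by_cases h : c = b
  · rw [if_pos h]
    apply Finset.prod_eq_one
    intro j _
    rw [kap_one hκ, hS0, map_one, Equiv.Perm.one_apply, h, Matrix.one_apply_eq]
  · rw [if_neg h]
    obtain ⟨j, hj⟩ := Function.ne_iff.mp h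
    apply Finset.prod_eq_zero (Finset.mem_univ j)
    rw [kap_one hκ, hS0, map_one, Equiv.Perm.one_apply, Matrix.one_apply_ne hj]

theorem Rm_mul {act : G →* Equiv.Perm J} {κ : G → J → ZMod 4}
    (hκ : ∀ g h j, κ (g * h) j = κ g (act h j) + κ h j) {S : ZMod 4 → Matrix B B k}
    (hS : ∀ x y, S (x + y) = S x * S y) (g h : G) :
    Rm act κ S (g * h) = Rm act κ S g * Rm act κ S h := by
  ext c b
  rw [Matrix.mul_apply]
  change (∏ i, S (κ (g * h) i) (c (act (g * h) i)) (b i)) =
    ∑ d : J → B, (∏ j, S (κ g j) (c (act g j)) (d j)) * ∏ i, S (κ h i) (d (act h i)) (b i)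
  have h1 : ∀ i, S (κ (g * h) i) (c (act (g * h) i)) (b i) =
      ∑ x, S (κ g (act h i)) (c (act g (act h i))) x * S (κ h i) x (b i) := by
    intro i
    rw [hκ, hS, Matrix.mul_apply, map_mul, Equiv.Perm.mul_apply]
  rw [Finset.prod_congr rfl (fun i _ => h1 i),
    prod_sum_fun (fun i x => S (κ g (act h i)) (c (act g (act h i))) x * S (κ h i) x (b i))]
  symm
  rw [← Equiv.sum_comp (Equiv.arrowCongr (act h) (Equiv.refl B))]
  refine Finset.sum_congr rfl (fun d _ => ?_)
  rw [← Equiv.prod_comp (act h) (fun j => S (κ g j) (c (act g j))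
    ((Equiv.arrowCongr (act h) (Equiv.refl B)) d j)), ← Finset.prod_mul_distrib]
  refine Finset.prod_congr rfl (fun i _ => ?_)
  simp [Equiv.arrowCongr]

/-- The matrix representation. -/
def Rh {act : G →* Equiv.Perm J} {κ : G → J → ZMod 4}
    (hκ : ∀ g h j, κ (g * h) j = κ g (act h j) + κ h j) {S : ZMod 4 → Matrix B B k}
    (hS0 : S 0 = 1) (hS : ∀ x y, S (x + y) = S x * S y) : G →* Matrix (J → B) (J → B) k where
  toFun := Rm act κ S
  map_one' := Rm_one hκ hS0
  map_mul' := Rm_mul hκ hS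

/-- The permutation. -/
def ap (act : G →* Equiv.Perm J) (κ : G → J → ZMod 4) (a₀ : ZMod 4 → Equiv.Perm B) (g : G) :
    Equiv.Perm (J → B) :=
  Equiv.piCongr (W := fun _ => B) (Z := fun _ => B) (act g) (fun j => a₀ (κ g j))

theorem ap_apply (act : G →* Equiv.Perm J) (κ : G → J → ZMod 4) (a₀ : ZMod 4 → Equiv.Perm B)
    (g : G) (b : J → B) (j : J) : ap act κ a₀ g b (act g j) = a₀ (κ g j) (b j) :=
  Equiv.piCongr_apply_apply (W := fun _ => B) (Z := fun _ => B) (act g)
    (fun j => a₀ (κ g j)) b j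

theorem eq_ap_iff (act : G →* Equiv.Perm J) (κ : G → J → ZMod 4) (a₀ : ZMod 4 → Equiv.Perm B)
    (g : G) (b c : J → B) : c = ap act κ a₀ g b ↔ ∀ j, c (act g j) = a₀ (κ g j) (b j) := by
  constructor
  · intro h j
    rw [h, ap_apply]
  · intro h
    funext i
    obtain ⟨j, rfl⟩ := (act g).surjective i
    rw [h, ap_apply]

/-- The action on functions. -/
def ah {act : G →* Equiv.Perm J} {κ : G → J → ZMod 4}
    (hκ : ∀ g h j, κ (g * h) j = κ g (act h j) + κ h j) {a₀ : ZMod 4 → Equiv.Perm B}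
    (h0 : a₀ 0 = 1) (ha : ∀ x y, a₀ (x + y) = a₀ x * a₀ y) : G →* Equiv.Perm (J → B) where
  toFun := ap act κ a₀
  map_one' := by
    apply Equiv.ext
    intro b
    refine ((eq_ap_iff act κ a₀ 1 b b).mpr ?_).symm
    intro j
    rw [kap_one hκ, h0, map_one, Equiv.Perm.one_apply, Equiv.Perm.one_apply]
  map_mul' g h := by
    apply Equiv.ext
    intro b
    refine ((eq_ap_iff act κ a₀ (g * h) b _).mpr ?_).symm
    intro j
    rw [Equiv.Perm.mul_apply, map_mul, Equiv.Perm.mul_apply, ap_apply, ap_apply, hκ, ha,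
      Equiv.Perm.mul_apply]

theorem N_ap {act : G →* Equiv.Perm J} {κ : G → J → ZMod 4} {a₀ : ZMod 4 → Equiv.Perm B}
    {N₀ : B → ℕ} (hN : ∀ x b, N₀ (a₀ x b) = N₀ b) (g : G) (b : J → B) :
    ∑ j, N₀ (ap act κ a₀ g b j) = ∑ j, N₀ (b j) := by
  rw [← Equiv.sum_comp (act g)]
  refine Finset.sum_congr rfl (fun j _ => ?_)
  rw [ap_apply, hN]

theorem tri {act : G →* Equiv.Perm J} {κ : G → J → ZMod 4} {a₀ : ZMod 4 → Equiv.Perm B}
    {N₀ : B → ℕ} {S : ZMod 4 → Matrix B B k} (hN : ∀ x b, N₀ (a₀ x b) = N₀ b)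
    (hT : ∀ x b c, N₀ b ≤ N₀ c → S x c b = if c = a₀ x b then 1 else 0)
    (g : G) (b c : J → B) (hbc : ∑ j, N₀ (b j) ≤ ∑ j, N₀ (c j)) :
    Rm act κ S g c b = if c = ap act κ a₀ g b then 1 else 0 := by
  change (∏ j, S (κ g j) (c (act g j)) (b j)) = _
  by_cases h : c = ap act κ a₀ g b
  · rw [if_pos h]
    apply Finset.prod_eq_one
    intro j _
    rw [h, ap_apply, hT _ _ _ (le_of_eq (hN _ _).symm), if_pos rfl]
  · rw [if_neg h]
    by_contra hne
    apply h
    have hne' : ∀ j, S (κ g j) (c (act g j)) (b j) ≠ 0 := by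
      intro j hj
      exact hne (Finset.prod_eq_zero (Finset.mem_univ j) hj)
    have hge : ∀ j, N₀ (b j) ≤ N₀ (c (act g j)) → c (act g j) = a₀ (κ g j) (b j) := by
      intro j hj
      by_contra hcon
      apply hne' j
      rw [hT _ _ _ hj, if_neg hcon]
    have hle : ∀ j, N₀ (c (act g j)) ≤ N₀ (b j) := by
      intro j
      rcases Nat.lt_or_ge (N₀ (c (act g j))) (N₀ (b j)) with hlt | hle
      · exact hlt.le
      · rw [hge j hle, hN]
    have hsum : ∑ j, N₀ (c (act g j)) = ∑ j, N₀ (c j) :=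
      Equiv.sum_comp (act g) (fun j => N₀ (c j))
    have hall : ∀ j, N₀ (c (act g j)) = N₀ (b j) := by
      by_contra hcon
      push Not at hcon
      obtain ⟨j, hj⟩ := hcon
      have hlt : ∑ j, N₀ (c (act g j)) < ∑ j, N₀ (b j) :=
        Finset.sum_lt_sum (fun i _ => hle i) ⟨j, Finset.mem_univ j, lt_of_le_of_ne (hle j) hj⟩
      rw [hsum] at hlt
      exact absurd hbc (not_le.mpr hlt)
    exact (eq_ap_iff act κ a₀ g b c).mpr (fun j => hge j (hall j).ge)

theorem R_mul_U {act : G →* Equiv.Perm J} {κ : G → J → ZMod 4} {S : ZMod 4 → Matrix B B k}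
    {u : B → k} (hu : ∀ x c, ∑ b, S x c b * u b = u c) (g : G) (c : J → B) :
    ∑ b, Rm act κ S g c b * ∏ j, u (b j) = ∏ j, u (c j) := by
  have h1 : ∀ b : J → B, Rm act κ S g c b * ∏ j, u (b j) =
      ∏ j, (S (κ g j) (c (act g j)) (b j) * u (b j)) := by
    intro b
    rw [Finset.prod_mul_distrib]
    rfl
  rw [Finset.sum_congr rfl (fun b _ => h1 b),
    ← prod_sum_fun (fun j x => S (κ g j) (c (act g j)) x * u x)]
  rw [Finset.prod_congr rfl (fun j _ => hu (κ g j) (c (act g j)))]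
  exact Equiv.prod_comp (act g) (fun j => u (c j))

theorem X_mul_R {act : G →* Equiv.Perm J} {κ : G → J → ZMod 4} {S : ZMod 4 → Matrix B B k}
    {ξ : B → k} (hξ : ∀ x b, ∑ c, ξ c * S x c b = ξ b) (g : G) (b : J → B) :
    ∑ c, (∏ j, ξ (c j)) * Rm act κ S g c b = ∏ j, ξ (b j) := by
  have h0 : ∀ c : J → B, (∏ j, ξ (c j)) * Rm act κ S g c b =
      ∏ j, (ξ (c (act g j)) * S (κ g j) (c (act g j)) (b j)) := by
    intro c
    rw [Finset.prod_mul_distrib, Equiv.prod_comp (act g) (fun j => ξ (c j))]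
    rfl
  rw [Finset.sum_congr rfl (fun c _ => h0 c)]
  rw [← Equiv.sum_comp (Equiv.arrowCongr (act g) (Equiv.refl B))]
  have h1 : ∀ c : J → B, (∏ j, (ξ ((Equiv.arrowCongr (act g) (Equiv.refl B)) c (act g j)) *
      S (κ g j) ((Equiv.arrowCongr (act g) (Equiv.refl B)) c (act g j)) (b j))) =
      ∏ j, (ξ (c j) * S (κ g j) (c j) (b j)) := by
    intro c
    refine Finset.prod_congr rfl (fun j _ => ?_)
    simp [Equiv.arrowCongr]
  rw [Finset.sum_congr rfl (fun c _ => h1 c),
    ← prod_sum_fun (fun j x => ξ x * S (κ g j) x (b j))]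
  exact Finset.prod_congr rfl (fun j _ => hξ (κ g j) (b j))

theorem X_mul_U {u ξ : B → k} (h : ∑ b, ξ b * u b = 1) :
    ∑ b : J → B, (∏ j, ξ (b j)) * ∏ j, u (b j) = 1 := by
  have h1 : ∀ b : J → B, (∏ j, ξ (b j)) * ∏ j, u (b j) = ∏ j, (ξ (b j) * u (b j)) := by
    intro b
    rw [Finset.prod_mul_distrib]
  rw [Finset.sum_congr rfl (fun b _ => h1 b), ← prod_sum_fun (fun (_ : J) x => ξ x * u x)]
  rw [Finset.prod_congr rfl (fun j _ => h)]
  simp

/-- A matrix representation with an invariant vector and an invariant functional. -/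
theorem one_summand {I : Type} [Fintype I] [DecidableEq I] (R : G →* Matrix I I k) (U X : I → k)
    (hU : ∀ g c, ∑ b, R g c b * U b = U c) (hX : ∀ g b, ∑ c, X c * R g c b = X b)
    (hXU : ∑ b, X b * U b = 1) : ∃ D : Ob k G, (ofMat R).Iso ((one k G).prod D) := by
  let Sm : (one k G).V →ₗ[k] (ofMat R).V :=
    { toFun := fun (c : k) => (fun i => c * U i : I → k)
      map_add' := by
        intro a b
        funext i
        exact add_mul _ _ _
      map_smul' := by
        intro a b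
        funext i
        exact mul_assoc _ _ _ }
  let Tm : (ofMat R).V →ₗ[k] (one k G).V :=
    { toFun := fun (f : I → k) => (∑ b, X b * f b : k)
      map_add' := by
        intro f f'
        change (∑ b, X b * ((f : I → k) b + (f' : I → k) b) : k) = (∑ b, X b * (f : I → k) b) +
          (∑ b, X b * (f' : I → k) b)
        rw [← Finset.sum_add_distrib]
        exact Finset.sum_congr rfl (fun b _ => mul_add _ _ _)
      map_smul' := by
        intro a f
        change (∑ b, X b * ((a : k) * (f : I → k) b) : k) = a * (∑ b, X b * (f : I → k) b)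
        rw [Finset.mul_sum]
        exact Finset.sum_congr rfl (fun b _ => mul_left_comm _ _ _) }
  have hρ : ∀ (g : G) (f : I → k) (i : I),
      ((ofMat R).ρ g f : I → k) i = ∑ l, R g i l * f l := fun g f i => ext_ρ (one k G) R g f i
  have hS : Eqv (one k G) (ofMat R) Sm := by
    intro g c
    funext i
    refine Eq.trans ?_ (hρ g (fun i => (c : k) * U i) i).symm
    change (c : k) * U i = ∑ l, R g i l * ((c : k) * U l)
    rw [← hU g i, Finset.mul_sum]
    exact Finset.sum_congr rfl (fun b _ => mul_left_comm _ _ _)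
  have hT : Eqv (ofMat R) (one k G) Tm := by
    intro g f
    have h1 : Tm ((ofMat R).ρ g f) = ∑ c, X c * ∑ l, R g c l * (f : I → k) l :=
      Finset.sum_congr rfl (fun c _ => congrArg (fun y => X c * y) (hρ g f c))
    refine h1.trans ?_
    change (∑ c, X c * ∑ l, R g c l * (f : I → k) l : k) = ∑ b, X b * (f : I → k) b
    have h2 : ∀ c, X c * ∑ l, R g c l * (f : I → k) l = ∑ l, (X c * R g c l) * (f : I → k) l := by
      intro c
      rw [Finset.mul_sum]
      exact Finset.sum_congr rfl (fun b _ => (mul_assoc _ _ _).symm)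
    rw [Finset.sum_congr rfl (fun c _ => h2 c), Finset.sum_comm]
    refine Finset.sum_congr rfl (fun b _ => ?_)
    rw [← Finset.sum_mul, hX]
  have hTS : ∀ c, Tm (Sm c) = c := by
    intro c
    change (∑ b, X b * ((c : k) * U b) : k) = c
    have h2 : ∀ b, X b * ((c : k) * U b) = (c : k) * (X b * U b) := fun b => mul_left_comm _ _ _
    rw [Finset.sum_congr rfl (fun b _ => h2 b), ← Finset.mul_sum, hXU, mul_one]
  obtain ⟨D, I', P, -, -, -, -, -, hiso⟩ := compl (one k G) (ofMat R) Sm Tm hS hT hTS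
  exact ⟨D, hiso⟩

end

/-- **C6a.** -/
theorem proof_wrGen : S_wrGen.{u, v} := by
  intro k _ G _ J _ _ act κ hκ hfix B _ _ S N₀ a₀ u ξ hS0 hS ha0 ha hN hT hu hξ hξu ha1
  refine ⟨J → B, inferInstance, inferInstance, Rh hκ hS0 hS, fun b => ∑ j, N₀ (b j),
    ah hκ ha0 ha, fun g b => N_ap hN g b, fun g b c hbc => tri hN hT g b c hbc, ?_, ?_⟩
  · intro b
    obtain ⟨g, j, hgj, hκ1⟩ := hfix
    refine ⟨g, fun h => ?_⟩
    have h1 := ap_apply act κ a₀ g b j
    rw [hgj, hκ1] at h1
    have h2 : ap act κ a₀ g b j = b j := congrFun h j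
    exact ha1 (b j) (h1.symm.trans h2)
  · exact one_summand (Rh hκ hS0 hS) (fun b => ∏ j, u (b j)) (fun b => ∏ j, ξ (b j))
      (fun g c => R_mul_U hu g c) (fun g b => X_mul_R hξ g b) (X_mul_U hξu)

end Pool.Agent.H50.Kt
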