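import Pool.Agent.H398.Kt.Iface4

/-!
# C6b: the concrete module of the cyclic group of order four
-/

set_option autoImplicit false

namespace Pool.Agent.H264.Kt

universe u v

open Pool.Agent.H398.Gam Ob Pool.Agent.H398.Kt

/-- the matrices of the four elements; basis `a, a', b, b'` -/
def Mz (x : ZMod 4) : Fin 4 → Fin 4 → ZMod 2 :=
  (![![![1, 0, 0, 0], ![0, 1, 0, 0], ![0, 0, 1, 0], ![0, 0, 0, 1]],
     ![![0, 1, 0, 1], ![1, 0, 0, 1], ![0, 0, 0, 1], ![0, 0, 1, 0]],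
     ![![1, 0, 1, 1], ![0, 1, 1, 1], ![0, 0, 1, 0], ![0, 0, 0, 1]],
     ![![0, 1, 1, 0], ![1, 0, 1, 0], ![0, 0, 0, 1], ![0, 0, 1, 0]]] :
    Fin 4 → Fin 4 → Fin 4 → ZMod 2) x

/-- the involution of the basis -/
def sg : Equiv.Perm (Fin 4) := ⟨![1, 0, 3, 2], ![1, 0, 3, 2], by decide, by decide⟩

/-- the permutations of the basis -/
def az (x : ZMod 4) : Equiv.Perm (Fin 4) := (![1, sg, 1, sg] : Fin 4 → Equiv.Perm (Fin 4)) x

/-- the layers -/
def Nz : Fin 4 → ℕ := ![0, 0, 1, 1]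

def uz : Fin 4 → ZMod 2 := ![1, 0, 1, 1]

def xz : Fin 4 → ZMod 2 := ![1, 1, 0, 0]

theorem Mz_zero : ∀ c b : Fin 4, Mz 0 c b = if c = b then 1 else 0 := by decide

theorem Mz_add : ∀ x y : ZMod 4, ∀ c b : Fin 4, Mz (x + y) c b =
    Mz x c 0 * Mz y 0 b + Mz x c 1 * Mz y 1 b + Mz x c 2 * Mz y 2 b + Mz x c 3 * Mz y 3 b := by
  decide

theorem az_add : ∀ x y : ZMod 4, az (x + y) = az x * az y := by decide

theorem Nz_az : ∀ (x : ZMod 4) (b : Fin 4), Nz (az x b) = Nz b := by decide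

theorem Mz_tri : ∀ (x : ZMod 4) (b c : Fin 4), Nz b ≤ Nz c →
    Mz x c b = if c = az x b then 1 else 0 := by decide

theorem Mz_u : ∀ (x : ZMod 4) (c : Fin 4),
    Mz x c 0 * uz 0 + Mz x c 1 * uz 1 + Mz x c 2 * uz 2 + Mz x c 3 * uz 3 = uz c := by decide

theorem Mz_x : ∀ (x : ZMod 4) (b : Fin 4),
    xz 0 * Mz x 0 b + xz 1 * Mz x 1 b + xz 2 * Mz x 2 b + xz 3 * Mz x 3 b = xz b := by decide

theorem xu : xz 0 * uz 0 + xz 1 * uz 1 + xz 2 * uz 2 + xz 3 * uz 3 = 1 := by decide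

theorem az_one : ∀ b : Fin 4, az 1 b ≠ b := by decide

theorem proof_wreath (H : S_wrGen.{u, v}) : S_wreath.{u, v} := by
  intro k _ _ G _ J _ _ act κ hκ hex
  let f : ZMod 2 →+* k := ZMod.castHom (dvd_refl 2) k
  refine H k G J act κ hκ hex (Fin 4) (fun x => Matrix.of fun c b => f (Mz x c b)) Nz az (fun b => f (uz b))
    (fun b => f (xz b)) ?_ ?_ rfl az_add Nz_az ?_ ?_ ?_ ?_ az_one
  · ext c b
    rw [Matrix.of_apply, Mz_zero, Matrix.one_apply]
    split_ifs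
    · exact map_one f
    · exact map_zero f
  · intro x y
    ext c b
    rw [Matrix.of_apply, Matrix.mul_apply, Fin.sum_univ_four, Mz_add]
    simp only [Matrix.of_apply, map_add, map_mul]
  · intro x b c hbc
    rw [Matrix.of_apply, Mz_tri x b c hbc]
    split_ifs
    · exact map_one f
    · exact map_zero f
  · intro x c
    rw [Fin.sum_univ_four, ← Mz_u x c]
    simp only [Matrix.of_apply, map_add, map_mul]
  · intro x b
    rw [Fin.sum_univ_four, ← Mz_x x b]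
    simp only [Matrix.of_apply, map_add, map_mul]
  · rw [Fin.sum_univ_four]
    have h := congrArg f xu
    rw [map_one] at h
    rw [← h]
    simp only [map_add, map_mul]

end Pool.Agent.H264.Kt
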