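import Pool.Agent.H398.Kt.Red2
import Pool.Agent.H398.Kt.MainB
import Pool.Agent.H398.Kt.PfCoset
import Pool.Agent.H398.Kt.PfCoreInd
import Pool.Agent.H398.Kt.PfWreath
import Pool.Agent.H398.Kt.PfCoreSub
import Pool.Agent.H398.Kt.PfSylow
import Pool.Agent.H398.Kt.PfWrGen
import Pool.Agent.H398.Kt.PfCoreRes
import Pool.Agent.H398.Kt.PfTri

/-!
# Characteristic 2: Q1 and Q2 for all finite groups
-/

set_option autoImplicit false

namespace Pool.Agent.H398.Kt

universe u v

open scoped TensorProduct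

open Pool.Agent.H398.Gam Ob

/-- `γ_G(M)` is attained on an elementary abelian `2`-subgroup (characteristic 2). -/
theorem elemAb_attained {k : Type u} [Field k] [CharP k 2] (G : Type v) [Group G] [Fintype G]
    (M : Ob k G) (hM : ¬ M.IsProj) :
    ∃ (E : Type v) (_ : Group E) (_ : Fintype E) (f : E →* G),
      Function.Injective f ∧ (∀ e : E, e * e = 1) ∧ M.gamma = (pull M f).gamma ∧
        ∀ N : Ob k G, (pull N f).gamma ≤ N.gamma :=
  exists_elemAb Pool.Agent.H375.Kt.proof_coreSub Pool.Agent.H725.Kt.proof_coreRes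
    Pool.Agent.H164.Kt.proof_coreInd Pool.Agent.H501.Kt.proof_sylow
    Pool.Agent.H955.Kt.proof_tri
    (Pool.Agent.H264.Kt.proof_wreath Pool.Agent.H50.Kt.proof_wrGen)
    Pool.Agent.H139.Kt.proof_coset (Nat.card G) G M hM rfl

/-- **Q1 and Q2 in characteristic 2.** -/
theorem charTwo_final {k : Type u} [Field k] [CharP k 2] (G : Type v) [Group G] [Fintype G]
    (M : Ob k G) (h1 : 1 < M.gamma) (h2 : M.gamma < 2) :
    ∃ i : ℕ, 2 ≤ i ∧ M.gamma = 2 * Real.cos (Real.pi / (2 ^ i : ℕ)) := by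
  have hM : ¬ M.IsProj := by
    intro hp
    rw [gamma_isProj hH M hp] at h1
    linarith
  obtain ⟨E, _, _, f, _, hE, hγ, _⟩ := elemAb_attained G M hM
  rw [hγ] at h1 h2 ⊢
  exact elemAb_final hE (pull M f) h1 h2

theorem gamma_congr {k : Type u} [Field k] {G : Type v} [Group G] [Fintype G] {A B : Ob k G}
    (h : A.Iso B) : A.gamma = B.gamma := by
  unfold gamma
  congr 1
  ext n
  rw [coreDim_iso (pow_congr h n)]

/-- `γ(M ⊗ M^*) = γ(M) ^ 2` in characteristic 2. -/
theorem tensDual_two {k : Type u} [Field k] [CharP k 2] (G : Type v) [Group G] [Fintype G]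
    (M : Ob k G) (hM : ¬ M.IsProj) : (M.tens M.dual).gamma = M.gamma ^ 2 := by
  apply le_antisymm
  · have := gamma_tens_le hH M M.dual hM (dual_not_isProj hH M hM)
    rw [gamma_dual hH, ← pow_two] at this
    exact this
  · obtain ⟨E, _, _, f, _, hE, hγ, hN⟩ := elemAb_attained G M hM
    have hMf : ¬ (pull M f).IsProj := by
      intro hp
      have h1 := gamma_pos hH M hM
      rw [hγ, gamma_isProj hH _ hp] at h1
      linarith
    have h1 := gamma_tens_dual_eq hE (pull M f) hMf
    rw [hγ, ← h1]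
    have h3 : (pull M f).dual.Iso (pull M.dual f) := by
      refine Iso.mk' (LinearEquiv.refl k (Module.Dual k M.V)) (fun e φ => ?_)
      change φ ∘ₗ (M.ρ (f e⁻¹)) = φ ∘ₗ (M.ρ (f e)⁻¹)
      rw [map_inv]
    have h2 : ((pull M f).tens (pull M f).dual).Iso (pull (M.tens M.dual) f) := by
      refine (Iso.tens_congr (Iso.refl _) h3).trans ?_
      exact Iso.mk' (LinearEquiv.refl k (M.V ⊗[k] Module.Dual k M.V)) (fun _ _ => rfl)
    rw [gamma_congr h2]
    exact hN _

end Pool.Agent.H398.Kt
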