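import Pool.Agent.H398.Kt.Iface

/-!
# K8a, K8b: uniform filtrations of `X ⊗ K` by copies of `K` (helper860, for helper398)
-/

set_option autoImplicit false

open scoped TensorProduct

namespace Pool.Agent.H860.Kt

universe u

open Pool.Agent.H398.Kt Pool.Agent.H398.Kt.Md

variable {k : Type u} [Field k] {r : ℕ}

/-! ### submodules, quotients, pullbacks -/

/-- The submodule given by a stable subspace. -/
abbrev subM (N : Md k r) (W : Submodule k N.V) (hW : ∀ i, ∀ v ∈ W, N.x i v ∈ W) : Md k r where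
  V := W
  x i := (N.x i).restrict (hW i)
  comm i j v := Subtype.ext (N.comm i j v)
  sq i v := Subtype.ext (N.sq i v)

/-- The quotient by a stable subspace. -/
abbrev quoM (N : Md k r) (W : Submodule k N.V) (hW : ∀ i, ∀ v ∈ W, N.x i v ∈ W) : Md k r where
  V := N.V ⧸ W
  x i := W.mapQ W (N.x i) (hW i)
  comm i j v := by
    obtain ⟨v, rfl⟩ := Submodule.Quotient.mk_surjective _ v
    simp only [Submodule.mapQ_apply, N.comm i j]
  sq i v := by
    obtain ⟨v, rfl⟩ := Submodule.Quotient.mk_surjective _ v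
    simp only [Submodule.mapQ_apply, N.sq i, Submodule.Quotient.mk_zero]

/-- The short exact sequence of a stable subspace. -/
def sesSub (N : Md k r) (W : Submodule k N.V) (hW : ∀ i, ∀ v ∈ W, N.x i v ∈ W) :
    SES (subM N W hW) N (quoM N W hW) where
  f := W.subtype
  g := W.mkQ
  hf _ _ := rfl
  hg _ _ := rfl
  inj a h := Subtype.ext h
  surj := Submodule.mkQ_surjective W
  exact b := by
    rw [Submodule.mkQ_apply, Submodule.Quotient.mk_eq_zero]
    constructor
    · intro h
      exact ⟨⟨b, h⟩, rfl⟩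
    · rintro ⟨a, rfl⟩
      exact a.2

theorem eqLocus_stable {Y C D : Md k r} (g : Y.V →ₗ[k] D.V) (f : C.V →ₗ[k] D.V)
    (hg : ∀ i v, g (Y.x i v) = D.x i (g v)) (hf : ∀ i v, f (C.x i v) = D.x i (f v)) :
    ∀ i, ∀ v ∈ LinearMap.eqLocus (g ∘ₗ LinearMap.fst k Y.V C.V) (f ∘ₗ LinearMap.snd k Y.V C.V),
      (Y.prod C).x i v ∈
        LinearMap.eqLocus (g ∘ₗ LinearMap.fst k Y.V C.V) (f ∘ₗ LinearMap.snd k Y.V C.V) := by
  rintro i ⟨y, c⟩ h
  rw [LinearMap.mem_eqLocus] at h ⊢
  have h1 : g y = f c := h
  change g (Y.x i y) = f (C.x i c)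
  rw [hg, hf, h1]

/-- The pullback. -/
abbrev pb {Y C D : Md k r} (g : Y.V →ₗ[k] D.V) (f : C.V →ₗ[k] D.V)
    (hg : ∀ i v, g (Y.x i v) = D.x i (g v)) (hf : ∀ i v, f (C.x i v) = D.x i (f v)) : Md k r :=
  subM (Y.prod C)
    (LinearMap.eqLocus (g ∘ₗ LinearMap.fst k Y.V C.V) (f ∘ₗ LinearMap.snd k Y.V C.V))
    (eqLocus_stable g f hg hf)

theorem pb_ses_left {A Y C C₁ C₂ : Md k r} (S : SES A Y C) (T : SES C₁ C C₂) :
    Nonempty (SES A (pb S.g T.f S.hg T.hf) C₁) := by
  refine ⟨{ f := LinearMap.codRestrict _ (LinearMap.inl k Y.V C₁.V ∘ₗ S.f) ?_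
            g := LinearMap.snd k Y.V C₁.V ∘ₗ Submodule.subtype _
            hf := ?_
            hg := fun _ _ => rfl
            inj := ?_
            surj := ?_
            exact := ?_ }⟩
  · intro a
    rw [LinearMap.mem_eqLocus]
    change S.g (S.f a) = T.f 0
    rw [map_zero]
    exact (S.exact _).2 ⟨a, rfl⟩
  · intro i v
    apply Subtype.ext
    apply Prod.ext
    · exact S.hf i v
    · exact (map_zero (C₁.x i)).symm
  · intro a h
    have h1 := congrArg (fun z => z.1.1) h
    exact S.inj a h1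
  · intro c
    obtain ⟨y, hy⟩ := S.surj (T.f c)
    exact ⟨⟨(y, c), hy⟩, rfl⟩
  · rintro ⟨⟨y, c⟩, h⟩
    have h1 : S.g y = T.f c := h
    constructor
    · intro h2
      have h3 : c = 0 := h2
      subst h3
      rw [map_zero] at h1
      obtain ⟨a, ha⟩ := (S.exact y).1 h1
      exact ⟨a, Subtype.ext (Prod.ext ha rfl)⟩
    · rintro ⟨a, ha⟩
      have h2 := congrArg (fun z => z.1.2) ha
      exact h2.symm

theorem pb_ses_right {A Y C C₁ C₂ : Md k r} (S : SES A Y C) (T : SES C₁ C C₂) :
    Nonempty (SES (pb S.g T.f S.hg T.hf) Y C₂) := by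
  refine ⟨{ f := LinearMap.fst k Y.V C₁.V ∘ₗ Submodule.subtype _
            g := T.g ∘ₗ S.g
            hf := fun _ _ => rfl
            hg := ?_
            inj := ?_
            surj := ?_
            exact := ?_ }⟩
  · intro i v
    change T.g (S.g (Y.x i v)) = C₂.x i (T.g (S.g v))
    rw [S.hg, T.hg]
  · rintro ⟨⟨y, c⟩, h⟩ h2
    have h1 : S.g y = T.f c := h
    have h3 : y = 0 := h2
    subst h3
    rw [map_zero] at h1
    have h4 : c = 0 := T.inj c h1.symm
    subst h4
    rfl
  · intro c
    obtain ⟨b, rfl⟩ := T.surj c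
    obtain ⟨y, rfl⟩ := S.surj b
    exact ⟨y, rfl⟩
  · intro y
    constructor
    · intro h
      obtain ⟨c, hc⟩ := (T.exact (S.g y)).1 h
      exact ⟨⟨(y, c), hc.symm⟩, rfl⟩
    · rintro ⟨⟨⟨y', c⟩, h⟩, rfl⟩
      have h1 : S.g y' = T.f c := h
      change T.g (S.g y') = 0
      rw [h1]
      exact (T.exact _).2 ⟨c, rfl⟩

/-! ### filtrations -/

/-- Transport of a short exact sequence. -/
theorem ses_iso {A B B' C : Md k r} (S : SES A B C) (h : B.Iso B') : Nonempty (SES A B' C) := by
  obtain ⟨e, he⟩ := h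
  have he' : ∀ i v, e.symm (B'.x i v) = B.x i (e.symm v) := by
    intro i v
    apply e.injective
    rw [he, e.apply_symm_apply, e.apply_symm_apply]
  refine ⟨{ f := e.toLinearMap ∘ₗ S.f
            g := S.g ∘ₗ e.symm.toLinearMap
            hf := ?_
            hg := ?_
            inj := ?_
            surj := ?_
            exact := ?_ }⟩
  · intro i v
    change e (S.f (A.x i v)) = B'.x i (e (S.f v))
    rw [S.hf, he]
  · intro i v
    change S.g (e.symm (B'.x i v)) = C.x i (S.g (e.symm v))
    rw [he', S.hg]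
  · intro a ha
    exact S.inj a (e.map_eq_zero_iff.1 ha)
  · intro c
    obtain ⟨b, rfl⟩ := S.surj c
    refine ⟨e b, ?_⟩
    change S.g (e.symm (e b)) = S.g b
    rw [e.symm_apply_apply]
  · intro b
    change S.g (e.symm b) = 0 ↔ _
    rw [S.exact]
    constructor
    · rintro ⟨a, ha⟩
      refine ⟨a, ?_⟩
      change e (S.f a) = b
      rw [ha, e.apply_symm_apply]
    · rintro ⟨a, ha⟩
      refine ⟨a, ?_⟩
      have h1 : e (S.f a) = b := ha
      rw [← h1, e.symm_apply_apply]

theorem fil_iso {K A B : Md k r} (s : ℕ) (hA : Fil K s A) (h : A.Iso B) : Fil K s B := by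
  cases s with
  | zero =>
    change B.dim = 0
    rw [← dim_iso h]
    exact hA
  | succ s =>
    obtain ⟨A', C, m, ⟨S⟩, h1, h2⟩ := hA
    exact ⟨A', C, m, ses_iso S h, h1, h2⟩

theorem iso_of_zero {A Y C : Md k r} (S : SES A Y C) (hC : C.dim = 0) : A.Iso Y := by
  have hsub : Subsingleton C.V := Module.finrank_zero_iff.1 hC
  have hinj : Function.Injective S.f := by
    intro a b hab
    have := S.inj (a - b) (by rw [map_sub, hab, sub_self])
    exact sub_eq_zero.mp this
  have hsurj : Function.Surjective S.f := fun b =>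
    (S.exact b).1 (Subsingleton.elim _ _)
  exact ⟨LinearEquiv.ofBijective S.f ⟨hinj, hsurj⟩, S.hf⟩

/-- Concatenation of filtrations. -/
theorem concat {K A : Md k r} {s : ℕ} (hA : Fil K s A) : ∀ (t : ℕ) (Y C : Md k r),
    Nonempty (SES A Y C) → Fil K t C → Fil K (s + t) Y := by
  intro t
  induction t with
  | zero =>
    rintro Y C ⟨S⟩ hC
    exact fil_iso s hA (iso_of_zero S hC)
  | succ t ih =>
    rintro Y C ⟨S⟩ ⟨C₁, C₂, m, ⟨T⟩, h1, h2⟩
    exact ⟨pb S.g T.f S.hg T.hf, C₂, m, pb_ses_right S T,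
      ih _ C₁ (pb_ses_left S T) h1, h2⟩

/-! ### tensor products -/

theorem exact' {A B C : Md k r} (S : SES A B C) : Function.Exact S.f S.g := fun b => S.exact b

theorem inj' {A B C : Md k r} (S : SES A B C) : Function.Injective S.f := by
  intro a b hab
  have := S.inj (a - b) (by rw [map_sub, hab, sub_self])
  exact sub_eq_zero.mp this

theorem tensR [CharP k 2] {A B C : Md k r} (K : Md k r) (S : SES A B C) :
    Nonempty (SES (A.tens K) (B.tens K) (C.tens K)) := by
  refine ⟨{ f := S.f.rTensor K.V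
            g := S.g.rTensor K.V
            hf := ?_
            hg := ?_
            inj := ?_
            surj := LinearMap.rTensor_surjective K.V S.surj
            exact := ?_ }⟩
  · intro i v
    have : (S.f.rTensor K.V) ∘ₗ (A.tens K).x i = (B.tens K).x i ∘ₗ (S.f.rTensor K.V) := by
      apply TensorProduct.ext'
      intro a b
      simp only [LinearMap.comp_apply, LinearMap.add_apply, TensorProduct.map_tmul, map_add,
        LinearMap.id_apply, LinearMap.rTensor_tmul, S.hf]
    exact congrArg (fun T => T v) this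
  · intro i v
    have : (S.g.rTensor K.V) ∘ₗ (B.tens K).x i = (C.tens K).x i ∘ₗ (S.g.rTensor K.V) := by
      apply TensorProduct.ext'
      intro a b
      simp only [LinearMap.comp_apply, LinearMap.add_apply, TensorProduct.map_tmul, map_add,
        LinearMap.id_apply, LinearMap.rTensor_tmul, S.hg]
    exact congrArg (fun T => T v) this
  · intro a ha
    exact Module.Flat.rTensor_preserves_injective_linearMap S.f (inj' S)
      (ha.trans (map_zero _).symm)
  · intro b
    exact rTensor_exact K.V (exact' S) S.surj b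

/-- Commutativity of the tensor product. -/
theorem tens_comm [CharP k 2] (A B : Md k r) : (A.tens B).Iso (B.tens A) := by
  refine ⟨TensorProduct.comm k A.V B.V, ?_⟩
  intro i v
  have : (TensorProduct.comm k A.V B.V).toLinearMap ∘ₗ (A.tens B).x i =
      (B.tens A).x i ∘ₗ (TensorProduct.comm k A.V B.V).toLinearMap := by
    apply TensorProduct.ext'
    intro a b
    simp only [LinearMap.comp_apply, LinearMap.add_apply, TensorProduct.map_tmul, map_add,
      LinearMap.id_apply, LinearEquiv.coe_coe, TensorProduct.comm_tmul]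
    abel
  exact congrArg (fun T => T v) this

/-- A trivial module tensored with `K`. -/
theorem tens_trivial [CharP k 2] (X K : Md k r) (hX : ∀ i v, X.x i v = 0) :
    (X.tens K).Iso (copies X.dim K) := by
  let e : X.V ⊗[k] K.V ≃ₗ[k] (Fin X.dim → K.V) :=
    (TensorProduct.equivFinsuppOfBasisLeft (Module.finBasis k X.V)).trans
      (Finsupp.linearEquivFunOnFinite k K.V (Fin X.dim))
  have he : ∀ a b, e (a ⊗ₜ b) = fun j => (Module.finBasis k X.V).repr a j • b := by
    intro a b
    funext j
    exact TensorProduct.equivFinsuppOfBasisLeft_apply_tmul_apply (Module.finBasis k X.V) a b j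
  refine ⟨e, ?_⟩
  intro i v
  have : e.toLinearMap ∘ₗ (X.tens K).x i = (copies X.dim K).x i ∘ₗ e.toLinearMap := by
    apply TensorProduct.ext'
    intro a b
    simp only [LinearMap.comp_apply, LinearMap.add_apply, TensorProduct.map_tmul, map_add,
      LinearMap.id_apply, LinearEquiv.coe_coe, hX, TensorProduct.zero_tmul, map_zero, zero_add,
      add_zero, he]
    funext j
    exact (map_smul (K.x i) _ b).symm
  exact congrArg (fun T => T v) this

/-! ### the induction -/

/-- Induction on the number of operators. -/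
theorem principle (P : ℕ → Md k r → Prop) (h0 : ∀ X : Md k r, (∀ i v, X.x i v = 0) → P 0 X)
    (h1 : ∀ (i : ℕ) (A X C : Md k r), Nonempty (SES A X C) → P i A → P i C → P (i + 1) X) :
    ∀ i, i ≤ r → ∀ X : Md k r, (∀ j : Fin r, i ≤ (j : ℕ) → ∀ v, X.x j v = 0) → P i X := by
  intro i
  induction i with
  | zero =>
    intro _ X hX
    exact h0 X fun j v => hX j (Nat.zero_le _) v
  | succ i ih =>
    intro hi X hX
    let l : Fin r := ⟨i, hi⟩
    have hW : ∀ j, ∀ v ∈ LinearMap.range (X.x l), X.x j v ∈ LinearMap.range (X.x l) := by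
      rintro j _ ⟨v, rfl⟩
      exact ⟨X.x j v, X.comm l j v⟩
    refine h1 i (subM X (LinearMap.range (X.x l)) hW) X (quoM X (LinearMap.range (X.x l)) hW)
      ⟨sesSub X _ hW⟩ (ih (Nat.le_of_succ_le hi) _ ?_) (ih (Nat.le_of_succ_le hi) _ ?_)
    · rintro j hj ⟨_, ⟨v, rfl⟩⟩
      apply Subtype.ext
      change X.x j (X.x l v) = 0
      rcases Nat.eq_or_lt_of_le hj with h | h
      · have hjl : j = l := Fin.ext h.symm
        rw [hjl, X.sq]
      · exact hX j h _
    · intro j hj v
      obtain ⟨v, rfl⟩ := Submodule.Quotient.mk_surjective _ v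
      change Submodule.Quotient.mk (X.x j v) = 0
      rw [Submodule.Quotient.mk_eq_zero]
      rcases Nat.eq_or_lt_of_le hj with h | h
      · have hjl : j = l := Fin.ext h.symm
        rw [hjl]
        exact ⟨v, rfl⟩
      · rw [hX j h v]
        exact Submodule.zero_mem _

theorem principle' (P : ℕ → Md k r → Prop) (h0 : ∀ X : Md k r, (∀ i v, X.x i v = 0) → P 0 X)
    (h1 : ∀ (i : ℕ) (A X C : Md k r), Nonempty (SES A X C) → P i A → P i C → P (i + 1) X)
    (X : Md k r) : P r X :=
  principle P h0 h1 r le_rfl X fun j hj => absurd j.2 (Nat.not_lt.2 hj)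

/-- The zero module. -/
abbrev zeroM (k : Type u) [Field k] (r : ℕ) : Md k r where
  V := PUnit.{u + 1}
  x _ := 0
  comm _ _ _ := rfl
  sq _ _ := rfl

theorem zero_ses (Y : Md k r) : Nonempty (SES (zeroM k r) Y Y) :=
  ⟨{ f := 0
     g := LinearMap.id
     hf := fun i _ => (map_zero (Y.x i)).symm
     hg := fun _ _ => rfl
     inj := fun _ _ => rfl
     surj := fun c => ⟨c, rfl⟩
     exact := fun b => ⟨fun h => ⟨0, h.symm⟩, fun ⟨_, h⟩ => h.symm⟩ }⟩

/-- **K8a.** -/
theorem proof_loewy : S_loewy.{u} := by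
  intro k _ _ r
  refine ⟨2 ^ r, fun X K => ?_⟩
  refine principle' (fun i X => Fil K (2 ^ i) (X.tens K)) ?_ ?_ X
  · intro X hX
    refine ⟨zeroM k r, X.tens K, X.dim, zero_ses _, ?_, tens_trivial X K hX⟩
    change Module.finrank k PUnit.{u + 1} = 0
    exact Module.finrank_zero_of_subsingleton
  · rintro i A X C ⟨S⟩ hA hC
    have h := concat hA (2 ^ i) (X.tens K) (C.tens K) (tensR K S) hC
    have h2 : 2 ^ i + 2 ^ i = 2 ^ (i + 1) := by ring
    rw [h2] at h
    exact h

/-- `m + 1` copies. -/
theorem copies_ses (m : ℕ) (A : Md k r) : Nonempty (SES (copies m A) (copies (m + 1) A) A) := by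
  refine ⟨{ f := LinearMap.pi (Fin.cases 0 (fun j => LinearMap.proj j))
            g := LinearMap.proj 0
            hf := ?_
            hg := fun _ _ => rfl
            inj := ?_
            surj := fun c => ⟨fun _ => c, rfl⟩
            exact := ?_ }⟩
  · intro i v
    funext j
    refine Fin.cases ?_ (fun j => ?_) j
    · exact (map_zero (A.x i)).symm
    · rfl
  · intro a ha
    funext j
    exact congrFun ha j.succ
  · intro b
    constructor
    · intro h
      refine ⟨fun j => b j.succ, ?_⟩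
      funext j
      refine Fin.cases ?_ (fun j => ?_) j
      · exact h.symm
      · rfl
    · rintro ⟨a, rfl⟩
      rfl

theorem h_copies [CharP k 2] (m : ℕ) (A : Md k r) (a : Fin r → k) :
    (copies m A).h a ≤ m * A.h a := by
  induction m with
  | zero =>
    have h1 : (copies 0 A).dim = 0 := Module.finrank_zero_of_subsingleton
    have h2 := h_add (copies 0 A) a
    omega
  | succ m ih =>
    obtain ⟨S⟩ := copies_ses m A
    have h1 := S.h_le a
    calc (copies (m + 1) A).h a ≤ (copies m A).h a + A.h a := h1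
      _ ≤ m * A.h a + A.h a := Nat.add_le_add_right ih _
      _ = (m + 1) * A.h a := by ring

/-- **K8b.** -/
theorem proof_hTens : S_hTens.{u} := by
  intro k _ _ r Z K a
  have key : (K.tens Z).h a ≤ K.dim * Z.h a := by
    refine principle' (fun _ X => (X.tens Z).h a ≤ X.dim * Z.h a) ?_ ?_ K
    · intro X hX
      rw [h_iso (tens_trivial X Z hX)]
      exact h_copies _ _ _
    · rintro _ A X C ⟨S⟩ hA hC
      obtain ⟨T⟩ := tensR Z S
      calc (X.tens Z).h a ≤ (A.tens Z).h a + (C.tens Z).h a := T.h_le a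
        _ ≤ A.dim * Z.h a + C.dim * Z.h a := Nat.add_le_add hA hC
        _ = X.dim * Z.h a := by rw [S.dim_eq, add_mul]
  rw [h_iso (tens_comm Z K)]
  exact key

end Pool.Agent.H860.Kt
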