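import Pool.Agent.H398.Kt.Iface4
import Pool.Agent.H398.Kt.PfRelChar

/-!
# Reduction from finite groups to elementary abelian `2`-subgroups
-/

set_option autoImplicit false
set_option linter.unusedVariables false
set_option linter.unusedSimpArgs false
set_option linter.unusedSectionVars false

open scoped TensorProduct

namespace Pool.Agent.H398.Kt

universe u v

open Pool.Agent.H398.Gam Ob

section

variable {k : Type u} [Field k] {G : Type v} [Group G]

theorem res_pow (M : Ob k G) (K : Subgroup G) (n : ℕ) :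
    ((res M K).pow n).Iso (res (M.pow n) K) := by
  induction n with
  | zero => exact Iso.mk' (LinearEquiv.refl k k) (fun _ _ => rfl)
  | succ n ih =>
    refine (Iso.tens_congr ih (Iso.refl _)).trans ?_
    exact Iso.mk' (LinearEquiv.refl k ((M.pow n).V ⊗[k] M.V)) (fun _ _ => rfl)

variable [Fintype G]

theorem res_cn_le (hR : S_coreRes.{u, v}) (M : Ob k G) (K : Subgroup G) (n : ℕ) :
    (res M K).cn n ≤ M.cn n := by
  classical
  have : Fintype K := Fintype.ofFinite K
  unfold cn
  rw [coreDim_iso (res_pow M K n)]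
  exact hR k G K _

/-- A uniform comparison of the cores gives an inequality of the growth rates. -/
theorem gamma_le_of_cn (M : Ob k G) (K : Subgroup G) (hM : ¬ M.IsProj) (c D : ℝ) (hc : 0 < c)
    (h : ∀ n : ℕ, M.gamma ^ n * c ≤ D * (res M K).cn n) : M.gamma ≤ (res M K).gamma := by
  classical
  have hg1 : 1 ≤ M.gamma := gamma_pos hH M hM
  have : Fintype K := Fintype.ofFinite K
  have hMK : ¬ (res M K).IsProj := by
    intro hp
    have h1 := h 1
    have h2 : (res M K).cn 1 = 0 := by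
      have hp1 : ((res M K).pow 1).IsProj := isProj_iso hH (one_tens (res M K)).symm hp
      exact (coreDim_eq_zero hH _).mpr hp1
    rw [h2, pow_one, Nat.cast_zero, mul_zero] at h1
    nlinarith
  have hg' : 1 ≤ (res M K).gamma := gamma_pos hH _ hMK
  have hD : 0 ≤ D := by
    by_contra hD
    push Not at hD
    have h0 := h 0
    have h1 : (0 : ℝ) ≤ (res M K).cn 0 := Nat.cast_nonneg _
    rw [pow_zero, one_mul] at h0
    nlinarith
  apply le_of_forall_pos_le_add
  intro ε hε
  obtain ⟨m, hm, h1⟩ := cn_le_pow hH _ hMK ε hε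
  have h2 : M.gamma ^ m ≤ ((res M K).gamma + ε) ^ m := by
    apply Pool.Agent.H195.Gam.le_of_pow_le (C := D / c) (by positivity)
    intro j
    have h3 := h (m * j)
    have h4 : ((res M K).cn (m * j) : ℝ) ≤ (((res M K).gamma + ε) ^ m) ^ j := by
      refine le_trans ?_ (pow_le_pow_left₀ (Nat.cast_nonneg _) h1 j)
      have h5 : ∀ j : ℕ, (res M K).cn (m * j) ≤ (res M K).cn m ^ j := by
        intro j
        induction j with
        | zero =>
          rw [mul_zero, pow_zero]
          refine (coreDim_le (P := zero k K) (zero_isProj hH) (prod_zero _)).trans ?_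
          change Module.finrank k k ≤ 1
          rw [Module.finrank_self]
        | succ j ih =>
          rw [mul_add, mul_one, pow_succ]
          exact (cn_add_le hH (res M K) (m * j) m).trans (Nat.mul_le_mul_right _ ih)
      exact_mod_cast h5 j
    rw [← pow_mul]
    rw [div_mul_eq_mul_div, le_div_iff₀ hc]
    refine h3.trans ?_
    rw [← pow_mul] at h4
    rw [← pow_mul]
    exact mul_le_mul_of_nonneg_left h4 hD
  exact le_of_pow_le_pow_left₀ hm.ne' (by linarith) h2

/-- Monotone characters. -/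
theorem exists_mchar (hS : S_coreSub.{u, v}) (M : Ob k G) (hM : ¬ M.IsProj) :
    ∃ φ : PosChar k G, (∀ A, φ.f A ≤ A.coreDim) ∧ φ.f M = M.gamma ∧
      ∀ A B C : Ob k G, Nonempty (SES A B C) → φ.f B ≤ φ.f A + φ.f C := by
  obtain ⟨φ, h0, h1, hadd, hmul, hle, ha, hrel⟩ :=
    Pool.Agent.H284.Kt.proof_relChar (IsoCl k G) cc
    (fun x y => ∃ A B C : Ob k G, Nonempty (SES A B C) ∧ x = cls B ∧ y = cls A + cls C)
    (fun x => by
      obtain ⟨A, rfl⟩ := cls_surj x
      exact Nat.cast_nonneg _)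
    (by
      rw [cls_one, cc_cls, one_coreDim hH M hM, Nat.cast_one])
    (fun x y => by
      obtain ⟨A, rfl⟩ := cls_surj x
      obtain ⟨B, rfl⟩ := cls_surj y
      rw [cls_add, cc_cls, cc_cls, cc_cls, hA k G A B, Nat.cast_add])
    (fun x y => by
      obtain ⟨A, rfl⟩ := cls_surj x
      obtain ⟨B, rfl⟩ := cls_surj y
      rw [cls_mul, cc_cls, cc_cls, cc_cls]
      exact_mod_cast coreDim_tens_le hH A B)
    (by
      rintro x y ⟨A, B, C, hs, rfl, rfl⟩
      rw [cls_add, cc_cls, cc_cls, hA k G A C]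
      exact_mod_cast hS k G A B C hs)
    (by
      rintro x y z ⟨A, B, C, ⟨s⟩, rfl, rfl⟩
      obtain ⟨Z, rfl⟩ := cls_surj z
      exact ⟨A.tens Z, B.tens Z, C.tens Z, ⟨s.tens Z⟩, cls_eq (tens_comm Z B),
        cls_eq ((tens_comm Z (A.prod C)).trans (prod_tens Z A C))⟩)
    (cls M) M.gamma (by linarith [gamma_pos hH M hM])
    (fun m => by rw [← cls_pow]; exact gamma_pow_le hH M hM m)
    (fun ε hε => by
      obtain ⟨m, hm, h⟩ := cn_le_pow hH M hM ε hε
      exact ⟨m, hm, by rw [← cls_pow]; exact h⟩)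
  refine ⟨⟨fun A => φ (cls A), fun A => h0 _, fun A B h => congrArg φ (cls_eq h),
    fun A B => hadd (cls A) (cls B), fun A B => hmul (cls A) (cls B), h1⟩, fun A => hle _, ha, ?_⟩
  intro A B C hs
  have h2 := hrel (cls B) (cls A + cls C) ⟨A, B, C, hs, rfl, rfl⟩
  rw [hadd] at h2
  exact h2

theorem PosChar.pow (φ : PosChar k G) (A : Ob k G) (n : ℕ) : φ.f (A.pow n) = φ.f A ^ n := by
  induction n with
  | zero => rw [pow_zero]; exact φ.one
  | succ n ih =>
    rw [pow_succ, ← ih]
    exact φ.tens _ _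

theorem le_of_perm (hI : S_coreInd.{u, v}) (M : Ob k G) (hM : ¬ M.IsProj) (φ : PosChar k G)
    (h1 : ∀ A, φ.f A ≤ A.coreDim) (h2 : φ.f M = M.gamma) (J : Type) [Fintype J] [DecidableEq J]
    (act : G →* Equiv.Perm J) (j₀ : J) (K : Subgroup G) (ht : ∀ j, ∃ g, act g j₀ = j)
    (hK : ∀ g, g ∈ K ↔ act g j₀ = j₀) (hpos : 0 < φ.f (perm k act)) :
    M.gamma ≤ (res M K).gamma := by
  classical
  have : Fintype K := Fintype.ofFinite K
  refine gamma_le_of_cn M K hM (φ.f (perm k act)) (Fintype.card J) hpos (fun n => ?_)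
  have h3 : M.gamma ^ n * φ.f (perm k act) = φ.f ((M.pow n).tens (perm k act)) := by
    rw [φ.tens, PosChar.pow, h2]
  rw [h3]
  refine (h1 _).trans ?_
  have h4 := hI k G J act j₀ K ht hK (M.pow n)
  have h5 : (res M K).cn n = (res (M.pow n) K).coreDim := coreDim_iso (res_pow M K n)
  rw [h5]
  exact_mod_cast h4

theorem TFil.zero_of (φ : PosChar k G)
    (hsub : ∀ A B C : Ob k G, Nonempty (SES A B C) → φ.f B ≤ φ.f A + φ.f C)
    (h : ∀ C : Ob k G, TrPerm C → φ.f C = 0) {D : Ob k G} (hD : TFil D) : φ.f D = 0 := by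
  induction hD with
  | zero A hA => exact φ.f_zero A hA
  | step A B C hA hs hC ih =>
    apply le_antisymm _ (φ.nonneg B)
    have := hsub A B C hs
    rw [ih, h C hC] at this
    linarith

/-- Descent to a proper subgroup. -/
theorem descent [CharP k 2] (hS : S_coreSub.{u, v}) (hI : S_coreInd.{u, v}) (hT : S_tri.{u, v})
    (hW : S_wreath.{u, v}) (hC : S_coset.{v}) (M : Ob k G) (hM : ¬ M.IsProj) (s : G)
    (hs : orderOf s = 4) : ∃ K : Subgroup G, K ≠ ⊤ ∧ M.gamma ≤ (res M K).gamma := by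
  classical
  obtain ⟨φ, h1, h2, hsub⟩ := exists_mchar hS M hM
  obtain ⟨n, act, κ, hκ, hfix⟩ := hC G s hs
  obtain ⟨I, _, _, R, N, act', a1, a2, a3, D, hD⟩ := hW k G (Fin n) act κ hκ hfix
  have hF : TFil (ofMat R) := hT k G I R N act' a1 a2 a3
  by_contra hcon
  push Not at hcon
  have h3 : ∀ C : Ob k G, TrPerm C → φ.f C = 0 := by
    rintro C ⟨J, _, _, aj, j₀, t1, ⟨g, hg⟩, hiso⟩
    by_contra hne
    have hpos : 0 < φ.f (perm k aj) := by
      rw [← φ.iso _ _ hiso]
      exact lt_of_le_of_ne (φ.nonneg C) (Ne.symm hne)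
    let K : Subgroup G :=
      { carrier := {g | aj g j₀ = j₀}
        mul_mem' := by
          intro a b ha hb
          simp only [Set.mem_ofPred_eq, map_mul, Equiv.Perm.mul_apply] at ha hb ⊢
          rw [hb, ha]
        one_mem' := by simp
        inv_mem' := by
          intro a ha
          simp only [Set.mem_ofPred_eq, map_inv] at ha ⊢
          rw [Equiv.Perm.inv_eq_iff_eq, ha] }
    have hK : ∀ g, g ∈ K ↔ aj g j₀ = j₀ := fun g => Iff.rfl
    have hne : K ≠ ⊤ := by
      intro hK'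
      apply hg
      have : g ∈ K := by rw [hK']; exact Subgroup.mem_top g
      exact this
    exact absurd (le_of_perm hI M hM φ h1 h2 J aj j₀ K t1 hK hpos) (not_le.mpr (hcon K hne))
  have h4 := TFil.zero_of φ hsub h3 hF
  rw [φ.iso _ _ hD, φ.prod, φ.one] at h4
  have := φ.nonneg D
  linarith

theorem descent_sylow [CharP k 2] (hI : S_coreInd.{u, v}) (hY : S_sylow.{u, v}) (M : Ob k G)
    (hM : ¬ M.IsProj) : ∃ K : Subgroup G, IsPGroup 2 K ∧ M.gamma ≤ (res M K).gamma := by
  classical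
  obtain ⟨φ, h1, h2⟩ := exists_posChar hH hA hE M hM
  obtain ⟨Q, n, act, j₀, D, b1, b2, b3, b4⟩ := hY k G
  refine ⟨Q, b1, le_of_perm hI M hM φ h1 h2 (Fin n) act j₀ Q b2 b3 ?_⟩
  rw [φ.iso _ _ b4, φ.prod, φ.one]
  have := φ.nonneg D
  linarith

end

end Pool.Agent.H398.Kt
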