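import Pool.Agent.H398.Kt.Red

/-!
# Reduction from finite groups to elementary abelian `2`-subgroups, the induction
-/

set_option autoImplicit false
set_option linter.unusedVariables false
set_option linter.unusedSimpArgs false
set_option linter.unusedSectionVars false

open scoped TensorProduct

namespace Pool.Agent.H398.Kt

universe u v

open Pool.Agent.H398.Gam Ob

/-- Restriction along a homomorphism. -/
noncomputable abbrev pull {k : Type u} [Field k] {G E : Type v} [Group G] [Group E] (M : Ob k G)
    (f : E →* G) : Ob k E where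
  V := M.V
  ρ := M.ρ.comp f

section

variable {k : Type u} [Field k] {G : Type v} [Group G] [Fintype G]

theorem gamma_res_le (hR : S_coreRes.{u, v}) (M : Ob k G) (K : Subgroup G) (hM : ¬ M.IsProj)
    (hMK : ¬ (res M K).IsProj) : (res M K).gamma ≤ M.gamma := by
  classical
  have : Fintype K := Fintype.ofFinite K
  refine le_of_tendsto_of_tendsto' (gamma_tendsto' hH _ hMK) (gamma_tendsto' hH _ hM) (fun n => ?_)
  apply Real.rpow_le_rpow (Nat.cast_nonneg _) _ (by positivity)
  exact_mod_cast res_cn_le hR M K n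

theorem res_not_isProj (M : Ob k G) (K : Subgroup G) (hM : ¬ M.IsProj)
    (h : M.gamma ≤ (res M K).gamma) : ¬ (res M K).IsProj := by
  classical
  have : Fintype K := Fintype.ofFinite K
  intro hp
  have h1 := gamma_isProj hH _ hp
  have h2 := gamma_pos hH M hM
  rw [h1] at h
  linarith

theorem gamma_res_le' (hR : S_coreRes.{u, v}) (N : Ob k G) (K : Subgroup G) :
    (res N K).gamma ≤ N.gamma := by
  classical
  have : Fintype K := Fintype.ofFinite K
  by_cases hNK : (res N K).IsProj
  · rw [gamma_isProj hH _ hNK]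
    by_cases hN : N.IsProj
    · rw [gamma_isProj hH _ hN]
    · linarith [gamma_pos hH N hN]
  · refine gamma_res_le hR N K (fun hN => hNK ?_) hNK
    have h1 := hR k G K N
    rw [(coreDim_eq_zero hH N).mpr hN] at h1
    exact (coreDim_eq_zero hH _).mp (Nat.le_zero.mp h1)

theorem exists_order_four (h2 : IsPGroup 2 G) (g : G) (hg : g * g ≠ 1) :
    ∃ s : G, orderOf s = 4 := by
  obtain ⟨a, ha⟩ := (IsPGroup.iff_orderOf.mp h2) g
  have ha2 : 2 ≤ a := by
    by_contra hcon
    apply hg
    have h1 : orderOf g ∣ 2 := by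
      rw [ha]
      have : a ≤ 1 := by omega
      exact (pow_dvd_pow 2 this).trans (by norm_num)
    have h3 := orderOf_dvd_iff_pow_eq_one.mp h1
    rwa [pow_two] at h3
  obtain ⟨b, rfl⟩ := Nat.exists_eq_add_of_le ha2
  refine ⟨g ^ (2 ^ b), ?_⟩
  rw [orderOf_pow, ha]
  have h1 : Nat.gcd (2 ^ (2 + b)) (2 ^ b) = 2 ^ b :=
    Nat.gcd_eq_right (pow_dvd_pow 2 (by omega))
  rw [h1, pow_add, Nat.mul_div_cancel _ (by positivity)]
  norm_num

end

/-- `γ_G(M)` is attained on an elementary abelian `2`-subgroup. -/
theorem exists_elemAb (hS : S_coreSub.{u, v}) (hR : S_coreRes.{u, v}) (hI : S_coreInd.{u, v})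
    (hY : S_sylow.{u, v}) (hT : S_tri.{u, v}) (hW : S_wreath.{u, v}) (hC : S_coset.{v})
    {k : Type u} [Field k] [CharP k 2] (n : ℕ) :
    ∀ (G : Type v) [Group G] [Fintype G] (M : Ob k G), ¬ M.IsProj → Nat.card G = n →
      ∃ (E : Type v) (_ : Group E) (_ : Fintype E) (f : E →* G),
        Function.Injective f ∧ (∀ e : E, e * e = 1) ∧ M.gamma = (pull M f).gamma ∧
        ∀ N : Ob k G, (pull N f).gamma ≤ N.gamma := by
  induction n using Nat.strong_induction_on with
  | _ n ih =>
    intro G _ _ M hM hn
    classical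
    by_cases hall : ∀ g : G, g * g = 1
    · exact ⟨G, inferInstance, inferInstance, MonoidHom.id G, Function.injective_id, hall, rfl,
        fun N => le_refl _⟩
    · push Not at hall
      obtain ⟨g, hg⟩ := hall
      have hK : ∃ K : Subgroup G, K ≠ ⊤ ∧ M.gamma ≤ (res M K).gamma := by
        by_cases h2 : IsPGroup 2 G
        · obtain ⟨s, hs⟩ := exists_order_four h2 g hg
          exact descent hS hI hT hW hC M hM s hs
        · obtain ⟨K, hK1, hK2⟩ := descent_sylow hI hY M hM
          refine ⟨K, ?_, hK2⟩
          rintro rfl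
          exact h2 (hK1.of_equiv Subgroup.topEquiv)
      obtain ⟨K, hK1, hK2⟩ := hK
      have hMK := res_not_isProj M K hM hK2
      have heq : M.gamma = (res M K).gamma := le_antisymm hK2 (gamma_res_le hR M K hM hMK)
      have hcard : Nat.card K < n := by
        rw [← hn]
        have h3 : Nat.card K ≤ Nat.card G := Subgroup.card_le_card_group K
        refine lt_of_le_of_ne h3 (fun h4 => hK1 ?_)
        exact Subgroup.eq_top_of_card_eq K h4
      have : Fintype K := Fintype.ofFinite K
      obtain ⟨E, i1, i2, f, hf, hE, hγ, hN⟩ := ih (Nat.card K) hcard K (res M K) hMK rfl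
      exact ⟨E, i1, i2, K.subtype.comp f, (Subtype.val_injective).comp hf, hE, heq.trans hγ,
        fun N => (hN (res N K)).trans (gamma_res_le' hR N K)⟩

end Pool.Agent.H398.Kt
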