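import Pool.Agent.H398.Kt.MainC

/-!
# Direct summands of tensor powers, characteristic 2: `γ` is an algebraic integer
-/

set_option autoImplicit false
set_option linter.unusedVariables false
set_option linter.unusedSimpArgs false
set_option linter.unusedSectionVars false
set_option linter.unusedTactic false

namespace Pool.Agent.H398.Kt

universe u v w

open scoped TensorProduct
open Pool.Agent.H398.Gam Ob

/-- The polynomials `X - 2`, `(X - 2) ^ 2 - 2`, ... -/
noncomputable def qq : ℕ → Polynomial ℤ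
  | 0 => Polynomial.X - Polynomial.C 2
  | (j + 1) => qq j ^ 2 - Polynomial.C 2

theorem qq_monic (j : ℕ) : (qq j).Monic ∧ 1 ≤ (qq j).natDegree := by
  induction j with
  | zero =>
    exact ⟨Polynomial.monic_X_sub_C 2, by
      rw [qq, Polynomial.natDegree_X_sub_C]⟩
  | succ j ih =>
    have h1 : (qq j ^ 2).Monic := ih.1.pow 2
    have h2 : (qq j ^ 2).natDegree = 2 * (qq j).natDegree := ih.1.natDegree_pow 2
    have h3 : (Polynomial.C (2 : ℤ)).degree < (qq j ^ 2).degree := by
      refine lt_of_le_of_lt Polynomial.degree_C_le ?_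
      rw [Polynomial.degree_eq_natDegree h1.ne_zero, h2]
      have : 0 < 2 * (qq j).natDegree := by omega
      exact_mod_cast this
    refine ⟨h1.sub_of_left h3, ?_⟩
    rw [qq, Polynomial.natDegree_sub_C, h2]
    omega

theorem aeval_qq_zero {R : Type w} [CommRing R] (y : R) : Polynomial.aeval y (qq 0) = y - 2 := by
  rw [qq, map_sub, Polynomial.aeval_X, Polynomial.aeval_C, map_ofNat]

theorem aeval_qq_succ {R : Type w} [CommRing R] (y : R) (i : ℕ) :
    Polynomial.aeval y (qq (i + 1)) = Polynomial.aeval y (qq i) ^ 2 - 2 := by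
  rw [qq, map_sub, map_pow, Polynomial.aeval_C, map_ofNat]

theorem ring_tower {R : Type w} [CommRing R] (h h' : ℕ → R)
    (hr : ∀ j, h j * h' j * h j = 2 * h j + h (j + 1) * h j)
    (hr' : ∀ j, h' j * h j * h' j = 2 * h' j + h' (j + 1) * h' j) (i : ℕ) :
    (h 0 * h' 0 * ∏ j ∈ Finset.range i, h (j + 1) =
      h 0 * h' 0 * ∏ j ∈ Finset.range i, Polynomial.aeval (h 0 * h' 0) (qq j)) ∧
    (h 0 * h' 0 * ∏ j ∈ Finset.range i, Polynomial.aeval (h 0 * h' 0) (qq j)) * h (i + 1) =
      (h 0 * h' 0 * ∏ j ∈ Finset.range i, Polynomial.aeval (h 0 * h' 0) (qq j)) *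
        Polynomial.aeval (h 0 * h' 0) (qq i) ∧
    (h 0 * h' 0 * ∏ j ∈ Finset.range i, Polynomial.aeval (h 0 * h' 0) (qq j)) * h' (i + 1) =
      (h 0 * h' 0 * ∏ j ∈ Finset.range i, Polynomial.aeval (h 0 * h' 0) (qq j)) *
        Polynomial.aeval (h 0 * h' 0) (qq i) := by
  induction i with
  | zero =>
    have e : Polynomial.aeval (h 0 * h' 0) (qq 0) = h 0 * h' 0 - 2 := aeval_qq_zero _
    refine ⟨rfl, ?_, ?_⟩
    · rw [Finset.prod_range_zero, mul_one, e]
      linear_combination (-h' 0) * hr 0
    · rw [Finset.prod_range_zero, mul_one, e]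
      linear_combination (-h 0) * hr' 0
  | succ i ih =>
    obtain ⟨a1, a2, a3⟩ := ih
    have e : Polynomial.aeval (h 0 * h' 0) (qq (i + 1)) =
        Polynomial.aeval (h 0 * h' 0) (qq i) ^ 2 - 2 := aeval_qq_succ _ _
    rw [Finset.prod_range_succ, Finset.prod_range_succ, e]
    set y := h 0 * h' 0 with hy
    set A := y * ∏ j ∈ Finset.range i, Polynomial.aeval y (qq j) with hA
    set q := Polynomial.aeval y (qq i) with hq
    have b1 : y * ((∏ j ∈ Finset.range i, h (j + 1)) * h (i + 1)) = A * h (i + 1) := by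
      rw [← mul_assoc, a1]
    have b2 : y * ((∏ j ∈ Finset.range i, Polynomial.aeval y (qq j)) * q) = A * q := by
      rw [← mul_assoc, ← hA]
    refine ⟨?_, ?_, ?_⟩
    · rw [b1, b2, a2]
    · rw [b2]
      linear_combination (h' (i + 1) * h (i + 1) - 2 - h (i + 2) + q * h (i + 1)) * a2 * 0 +
        (-h (i + 2)) * a2 - A * hr (i + 1) + (h' (i + 1) * h (i + 1) - 2) * a2 +
        (q * h (i + 1)) * a3 + (q ^ 2) * a2
    · rw [b2]
      linear_combination (-h' (i + 2)) * a3 - A * hr' (i + 1) + (h (i + 1) * h' (i + 1) - 2) * a3 +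
        (q * h' (i + 1)) * a2 + (q ^ 2) * a3

theorem real_vanish (h h' : ℕ → ℝ) (h0 : ∀ j, 0 ≤ h j)
    (hr : ∀ j, h j * h' j * h j = 2 * h j + h (j + 1) * h j)
    (hr' : ∀ j, h' j * h j * h' j = 2 * h' j + h' (j + 1) * h' j) (hs : h 0 * h' 0 < 4) :
    ∃ i : ℕ, h 0 * h' 0 * ∏ j ∈ Finset.range i, h (j + 1) = 0 := by
  by_contra hcon
  push Not at hcon
  have hq : ∀ i, 0 < Polynomial.aeval (h 0 * h' 0) (qq i) := by
    intro i
    obtain ⟨a1, a2, a3⟩ := ring_tower h h' hr hr' i
    have b1 := hcon i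
    rw [a1] at b1
    have b2 := mul_left_cancel₀ b1 a2
    rw [← b2]
    refine lt_of_le_of_ne (h0 _) (fun h1 => ?_)
    apply hcon (i + 1)
    rw [Finset.prod_range_succ, ← h1, mul_zero, mul_zero]
  have hd : ∀ i, 2 ^ i * (2 - Polynomial.aeval (h 0 * h' 0) (qq 0)) ≤
      2 - Polynomial.aeval (h 0 * h' 0) (qq i) := by
    intro i
    induction i with
    | zero => simp
    | succ i ih =>
      have e : Polynomial.aeval (h 0 * h' 0) (qq (i + 1)) =
          Polynomial.aeval (h 0 * h' 0) (qq i) ^ 2 - 2 := aeval_qq_succ _ _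
      have h1 := hq i
      have h2 : 0 < 2 - Polynomial.aeval (h 0 * h' 0) (qq 0) := by
        have e0 : Polynomial.aeval (h 0 * h' 0) (qq 0) = h 0 * h' 0 - 2 := aeval_qq_zero _
        rw [e0]; linarith
      have h3 : 0 < 2 - Polynomial.aeval (h 0 * h' 0) (qq i) := lt_of_lt_of_le (by positivity) ih
      rw [e, pow_succ]
      nlinarith
  have h2 : 0 < 2 - Polynomial.aeval (h 0 * h' 0) (qq 0) := by
    have e0 : Polynomial.aeval (h 0 * h' 0) (qq 0) = h 0 * h' 0 - 2 := aeval_qq_zero _
    rw [e0]; linarith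
  obtain ⟨n, hn⟩ := pow_unbounded_of_one_lt (2 / (2 - Polynomial.aeval (h 0 * h' 0) (qq 0)))
    (show (1 : ℝ) < 2 by norm_num)
  rw [div_lt_iff₀ h2] at hn
  have h3 := hd n
  have h4 := hq n
  linarith

section

variable {k : Type u} [Field k] {G : Type v} [Group G]

/-- A polynomial relation in a semiring which embeds into a ring. -/
theorem rel_descend {S : Type w} [CommSemiring S] {R : Type w} [CommRing R] (ι : S →+* R)
    (hι : Function.Injective ι) (P : Polynomial ℤ) (hP : P.Monic) (x z : S)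
    (h : Polynomial.aeval (ι x) P = ι z) :
    x ^ P.natDegree + ∑ j ∈ Finset.range P.natDegree, (((P.coeff j).toNat : ℕ) : S) * x ^ j =
      z + ∑ j ∈ Finset.range P.natDegree, (((-P.coeff j).toNat : ℕ) : S) * x ^ j := by
  apply hι
  simp only [map_add, map_mul, map_prod, map_sum, map_pow, map_natCast]
  rw [← h, Polynomial.aeval_eq_sum_range, Finset.sum_range_succ, hP.coeff_natDegree, one_smul]
  have key : ∀ j, (((P.coeff j).toNat : ℕ) : R) * ι x ^ j =
      P.coeff j • ι x ^ j + (((-P.coeff j).toNat : ℕ) : R) * ι x ^ j := by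
    intro j
    have h1 : ((P.coeff j).toNat : ℤ) = P.coeff j + ((-P.coeff j).toNat : ℤ) := by omega
    have h3 : (((P.coeff j).toNat : ℕ) : R) = (P.coeff j : R) + (((-P.coeff j).toNat : ℕ) : R) := by
      have := congrArg (Int.cast : ℤ → R) h1
      push_cast at this
      exact this
    rw [h3, add_mul, zsmul_eq_mul]
  rw [Finset.sum_congr rfl (fun j _ => key j), Finset.sum_add_distrib]
  ring

/-- The polynomial relation satisfied by `M ⊗ M^*`, for `M` of even dimension. -/
theorem exists_rel_even (hC : S_ksCancel.{u, v}) (hR : S_complete.{max (u + 1) v})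
    (h2 : (2 : k) = 0) (M : Ob k G) (hM : (M.dim : k) = 0) (φ : PosChar k G)
    (hs : φ.f M * φ.f M.dual < 4) :
    ∃ (P : Polynomial ℤ) (z : IsoCl k G), P.Monic ∧ 1 ≤ P.natDegree ∧ ph φ z = 0 ∧
      (cls M * cls M.dual) ^ P.natDegree + ∑ j ∈ Finset.range P.natDegree,
            (((P.coeff j).toNat : ℕ) : IsoCl k G) * (cls M * cls M.dual) ^ j =
          z + ∑ j ∈ Finset.range P.natDegree,
            (((-P.coeff j).toNat : ℕ) : IsoCl k G) * (cls M * cls M.dual) ^ j := by
  obtain ⟨H, rfl, r3⟩ := exists_seq h2 M hM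
  have st2 : st (2 : IsoCl k G) = 2 := by
    rw [← one_add_one_eq_two, st_add, st_one]
  have r3' : ∀ j, cls (H j).dual * cls (H j) * cls (H j).dual =
        2 * cls (H j).dual + cls (H (j + 1)).dual * cls (H j).dual := by
    intro j
    have h := congrArg st (r3 j)
    rw [st_mul, st_mul, st_add, st_mul, st_mul, st2, ← st_cls (H j), st_st, st_cls (H (j + 1)),
      st_cls (H j)] at h
    exact h
  obtain ⟨i, hi⟩ := real_vanish (fun j => φ.f (H j)) (fun j => φ.f (H j).dual)
    (fun j => φ.nonneg _)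
    (fun j => by
      have := congrArg (ph φ) (r3 j)
      rw [map_mul, map_mul, map_add, map_mul, map_mul, map_ofNat] at this
      exact this)
    (fun j => by
      have := congrArg (ph φ) (r3' j)
      rw [map_mul, map_mul, map_add, map_mul, map_mul, map_ofNat] at this
      exact this) hs
  obtain ⟨R, _, ι, hι⟩ := hR (IsoCl k G) (cancel_cls hC)
  have hmon : (∏ j ∈ Finset.range i, qq j).Monic :=
    Polynomial.monic_prod_of_monic _ _ (fun j _ => (qq_monic j).1)
  refine ⟨Polynomial.X * ∏ j ∈ Finset.range i, qq j,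
    cls (H 0) * cls (H 0).dual * ∏ j ∈ Finset.range i, cls (H (j + 1)),
    Polynomial.monic_X.mul hmon, ?_, ?_, ?_⟩
  · rw [Polynomial.monic_X.natDegree_mul hmon, Polynomial.natDegree_X]
    omega
  · rw [map_mul, map_mul, map_prod]
    exact hi
  · refine rel_descend ι hι _ (Polynomial.monic_X.mul hmon) _ _ ?_
    obtain ⟨a1, a2, a3⟩ := ring_tower (fun j => ι (cls (H j))) (fun j => ι (cls (H j).dual))
      (fun j => by
        have := congrArg ι (r3 j)
        rw [map_mul, map_mul, map_add, map_mul, map_mul, map_ofNat] at this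
        exact this)
      (fun j => by
        have := congrArg ι (r3' j)
        rw [map_mul, map_mul, map_add, map_mul, map_mul, map_ofNat] at this
        exact this) i
    rw [map_mul, map_prod, Polynomial.aeval_X, map_mul ι, map_mul ι, map_prod ι, map_mul ι]
    exact a1.symm

end

theorem endo_of_odd {k : Type u} [Field k] [CharP k 2] (G : Type v) [Group G] [Fintype G]
    (M : Ob k G) (hM : ¬ M.IsProj) (h2 : M.gamma < 2) (hodd : Odd M.dim) : M.Endotrivial := by
  have : Fact (Nat.Prime 2) := ⟨Nat.prime_two⟩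
  have hpi := Real.pi_pos
  rcases tensDual_main 2 M hM (gamma_tensDual_lt M hM h2) with h | ⟨n, ⟨b1, b2, b3, b4⟩, hv⟩
  · exact h
  · exfalso
    obtain ⟨i, hi⟩ := b4 rfl hodd
    rw [tensDual_two G M hM] at hv
    have hn : (4 : ℝ) ≤ n := by exact_mod_cast b1
    have hc : Real.cos (Real.pi / 4) ≤ Real.cos (Real.pi / n) := by
      apply Real.cos_le_cos_of_nonneg_of_le_pi (by positivity)
      · linarith
      · exact div_le_div_of_nonneg_left hpi.le (by norm_num) hn
    rw [Real.cos_pi_div_four] at hc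
    have hs : (1 : ℝ) < Real.sqrt 2 := by
      rw [Real.lt_sqrt (by norm_num)]
      norm_num
    have hg0 := gamma_pos hH M hM
    have h3 : M.gamma = 2 * Real.cos (Real.pi / n) := by
      apply (sq_eq_sq₀ (by linarith) (by linarith)).mp hv
    obtain ⟨i', hi', hv'⟩ := charTwo_final G M (by rw [h3]; linarith) h2
    have h5 := cos_inj n (2 ^ i') (by omega) Nat.one_le_two_pow (by rw [← h3, hv'])
    have h7 : 3 ∣ 2 ^ i' := ⟨2 ^ i, by rw [← h5, hi]⟩
    have h8 := Nat.Prime.dvd_of_dvd_pow Nat.prime_three h7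
    omega

theorem summ_integral {k : Type u} [Field k] [CharP k 2] (G : Type v) [Group G] [Fintype G]
    (M N N' : Ob k G) (a b : ℕ) (h2 : M.gamma < 2)
    (hiso : ((M.pow a).tens (M.dual.pow b)).Iso (N.prod N')) : IsIntegral ℤ N.gamma := by
  by_cases hN : N.IsProj
  · rw [gamma_isProj hH N hN]
    exact isIntegral_zero
  have hNN := tens_dual_not_isProj hH N hN
  obtain ⟨φ, hφ, hφv⟩ := exists_posChar hH hA hE _ hNN
  rw [tensDual_two G N hN] at hφv
  have hg1 := gamma_pos hH N hN
  -- the class of `N ⊗ N^*` is a summand of a power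
  have hpow : ∀ (A : Ob k G) (n : ℕ), cls (A.pow n) = cls A ^ n := by
    intro A n
    induction n with
    | zero => rw [pow_zero]; rfl
    | succ n ih => rw [pow_succ, ← ih, cls_mul]; rfl
  have hq : cls M ^ a * cls M.dual ^ b = cls N + cls N' := by
    have := cls_eq hiso
    rw [← cls_mul, ← cls_add, hpow, hpow] at this
    exact this
  have stpow : ∀ (x : IsoCl k G) (n : ℕ), st (x ^ n) = st x ^ n := by
    intro x n
    induction n with
    | zero => rw [pow_zero, pow_zero, st_one]
    | succ n ih => rw [pow_succ, pow_succ, st_mul, ih]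
  have hq' : cls M.dual ^ a * cls M ^ b = cls N.dual + st (cls N') := by
    have := congrArg st hq
    rw [st_mul, stpow, stpow, st_add, ← st_cls M, st_st, st_cls N] at this
    exact this
  obtain ⟨rest, hrest⟩ : ∃ rest : IsoCl k G,
      (cls M * cls M.dual) ^ (a + b) = cls N * cls N.dual + rest := by
    refine ⟨cls N * st (cls N') + cls N' * (cls N.dual + st (cls N')), ?_⟩
    have e : (cls M * cls M.dual) ^ (a + b) =
        (cls M ^ a * cls M.dual ^ b) * (cls M.dual ^ a * cls M ^ b) := by ring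
    rw [e, hq, hq']
    ring
  have hval : ph φ (cls N * cls N.dual) = N.gamma ^ 2 := by
    rw [map_mul, ph_cls, ph_cls, ← φ.tens]
    exact hφv
  have hle : N.gamma ^ 2 ≤ (φ.f M * φ.f M.dual) ^ (a + b) := by
    have h3 := congrArg (ph φ) hrest
    rw [map_pow, map_mul, map_add, hval, ph_cls, ph_cls] at h3
    have h4 : 0 ≤ ph φ rest := by
      obtain ⟨A, rfl⟩ := cls_surj rest
      exact φ.nonneg A
    linarith
  by_cases hy : φ.f M * φ.f M.dual ≤ 1
  · have h3 : (φ.f M * φ.f M.dual) ^ (a + b) ≤ 1 :=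
      pow_le_one₀ (mul_nonneg (φ.nonneg _) (φ.nonneg _)) hy
    have h4 : N.gamma = 1 := by nlinarith
    rw [h4]
    exact isIntegral_one
  · rw [not_le] at hy
    have hM : ¬ M.IsProj := by
      intro h
      rw [good_proj hH φ hφ M h, zero_mul] at hy
      linarith
    have c1 := good_le_gamma hH φ hφ M hM
    have c2 : φ.f M.dual ≤ M.gamma := by
      rw [← gamma_dual hH M]
      exact good_le_gamma hH φ hφ M.dual (dual_not_isProj hH M hM)
    have hs : φ.f M * φ.f M.dual < 4 := by
      have d1 := φ.nonneg M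
      have d2 := φ.nonneg M.dual
      nlinarith
    have h20 : (2 : k) = 0 := CharTwo.two_eq_zero
    have heven : (M.dim : k) = 0 := by
      rcases Nat.even_or_odd M.dim with h | h
      · obtain ⟨m, hm⟩ := h
        rw [hm, ← two_mul]
        push_cast
        rw [h20, zero_mul]
      · exfalso
        obtain ⟨P, hP, hPi⟩ := endo_of_odd G M hM h2 h
        have h3 : φ.f M * φ.f M.dual = 1 := by
          rw [← φ.tens, φ.iso _ _ hPi, φ.prod, φ.one, good_proj hH φ hφ P hP, add_zero]
        linarith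
    obtain ⟨P, z, P1, P2, hz, hrel⟩ := exists_rel_even Pool.Agent.H825.Kt.proof_ksCancel
      Pool.Agent.H349.Kt.proof_complete h20 M heven φ hs
    have h3 := Pool.Agent.H670.Kt.proof_integral (IsoCl k G)
      (decomp_cls Pool.Agent.H782.Kt.proof_ksPrime)
      (fun a s t u => prime_cls Pool.Agent.H782.Kt.proof_ksPrime a s t u) (ph φ)
      (fun s => by
        obtain ⟨A, rfl⟩ := cls_surj s
        exact φ.nonneg A) (map_one _) (map_zero _) (fun s t => map_add _ _ _)
      (fun s t => map_mul _ _ _) (cls M * cls M.dual) _ P.natDegree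
      (fun j => (P.coeff j).toNat) (fun j => (-P.coeff j).toNat) P2 hz hrel
      (cls N * cls N.dual)
      (rest + ∑ m ∈ Finset.range (a + b), (cls M * cls M.dual) ^ m *
        ((a + b).choose m : IsoCl k G)) (a + b) (by
        rw [← add_assoc, ← hrest, add_comm (1 : IsoCl k G), add_pow, Finset.sum_range_succ]
        simp only [one_pow, mul_one, Nat.choose_self, Nat.cast_one]
        ring)
    rw [hval] at h3
    exact IsIntegral.of_pow (by norm_num) h3

end Pool.Agent.H398.Kt
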