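import Pool.Agent.H398.Kt.Summ

/-!
# Direct summands of tensor products, characteristic 2: `γ` is an algebraic integer
-/

set_option autoImplicit false
set_option linter.unusedVariables false
set_option linter.unusedSimpArgs false
set_option linter.unusedSectionVars false
set_option linter.unusedTactic false

namespace Pool.Agent.H398.Kt

universe u v w

open scoped TensorProduct
open Pool.Agent.H398.Gam Ob
open Pool.Agent.H670.Kt (conical mem_of_le le_sum le_nat)

/-- Integrality of the values of a character on summands of monomials. -/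
theorem integral_multi (S : Type w) [CommSemiring S]
    (H1 : ∀ s : S, ∃ l : Multiset S, s = l.sum ∧ ∀ a ∈ l, Atm a)
    (H2 : ∀ a s t u : S, Atm a → a + u = s + t → (∃ c, s = a + c) ∨ (∃ c, t = a + c))
    (φ : S → ℝ) (hpos : ∀ s, 0 ≤ φ s) (h1 : φ 1 = 1) (h0 : φ 0 = 0)
    (hadd : ∀ s t, φ (s + t) = φ s + φ t) (hmul : ∀ s t, φ (s * t) = φ s * φ t)
    {r : ℕ} (y z w : Fin r → S) (D : Fin r → ℕ) (b : Fin r → ℕ → ℕ) (hz : ∀ i, φ (z i) = 0)
    (hrel : ∀ i, y i ^ D i + w i =
        z i + ∑ j ∈ Finset.range (D i), (b i j : S) * y i ^ j)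
    (n n' : S) (K : Fin r → ℕ) (hn : ∏ i, y i ^ K i = n + n') : IsIntegral ℤ (φ n) := by
  classical
  have hcon : ∀ a c : S, a ≠ 0 → 0 = a + c → False :=
    fun a c ha h => conical H1 hpos h1 h0 hadd ha h
  set mon : (Fin r → ℕ) → S := fun k => ∏ i, y i ^ k i with hmon
  have mon_add : ∀ k k', mon (k + k') = mon k * mon k' := by
    intro k k'
    simp only [hmon, Pi.add_apply, pow_add, Finset.prod_mul_distrib]
  have mon_single : ∀ i j, mon (Pi.single i j) = y i ^ j := by
    intro i j
    simp only [hmon]
    rw [Finset.prod_eq_single i]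
    · rw [Pi.single_eq_same]
    · intro i' _ hi'
      rw [Pi.single_eq_of_ne hi', pow_zero]
    · intro h; exact absurd (Finset.mem_univ i) h
  set B : Set ℝ := {t | ∃ e : S, Atm e ∧ (∃ k : Fin r → ℕ, (∀ i, k i < D i) ∧
    ∃ c, mon k = e + c) ∧ φ e = t} with hB
  set Λ : Submodule ℤ ℝ := Submodule.span ℤ B with hΛ
  have hBfin : B.Finite := by
    choose l hl using fun k : Fin r → ℕ => H1 (mon k)
    refine Set.Finite.subset
      ((Fintype.piFinset (fun i => Finset.range (D i))).biUnion
        fun k => ((l k).toFinset).image φ).finite_toSet ?_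
    rintro t ⟨e, he, ⟨k, hk, hc⟩, rfl⟩
    rw [Finset.mem_coe, Finset.mem_biUnion]
    refine ⟨k, Fintype.mem_piFinset.mpr (fun i => Finset.mem_range.mpr (hk i)),
      Finset.mem_image_of_mem φ ?_⟩
    rw [Multiset.mem_toFinset]
    refine mem_of_le hcon H2 he (l k) (hl k).2 ?_
    rw [← (hl k).1]
    exact hc
  have hfg : Λ.FG := Submodule.fg_span hBfin
  have h3 : ∀ (d : ℕ) (k : Fin r → ℕ), ∑ i, k i = d → ∀ e : S, Atm e →
      (∃ c, mon k = e + c) → φ e ∈ Λ := by
    intro d
    induction d using Nat.strong_induction_on with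
    | _ d ih =>
      intro k hkd e he hc
      by_cases hk : ∀ i, k i < D i
      · exact Submodule.subset_span ⟨e, he, ⟨k, hk, hc⟩, rfl⟩
      · push Not at hk
        obtain ⟨i, hi⟩ := hk
        obtain ⟨c, hc⟩ := hc
        obtain ⟨k', hk'⟩ : ∃ k' : Fin r → ℕ, k = Pi.single i (D i) + k' := by
          refine ⟨k - Pi.single i (D i), ?_⟩
          funext i'
          by_cases h : i' = i
          · subst h
            simp only [Pi.add_apply, Pi.sub_apply, Pi.single_eq_same]
            omega
          · simp only [Pi.add_apply, Pi.sub_apply, Pi.single_eq_of_ne h]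
            omega
        have hsum : ∀ j, ∑ i', (Pi.single i j + k' : Fin r → ℕ) i' = j + ∑ i', k' i' := by
          intro j
          simp only [Pi.add_apply, Finset.sum_add_distrib, Finset.sum_pi_single',
            Finset.mem_univ, if_true]
        have hd : D i + ∑ i', k' i' = d := by
          rw [← hsum, ← hk', hkd]
        have e1 : e + (c + w i * mon k') =
            z i * mon k' + ∑ j ∈ Finset.range (D i), (b i j : S) * mon (Pi.single i j + k') := by
          rw [← add_assoc, ← hc, hk', mon_add, mon_single, ← add_mul, hrel, add_mul,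
            Finset.sum_mul]
          congr 1
          refine Finset.sum_congr rfl fun j _ => ?_
          rw [mon_add, mon_single, mul_assoc]
        rcases H2 e _ _ _ he e1 with ⟨c', hc'⟩ | h'
        · have e3 : φ e + φ c' = 0 := by rw [← hadd, ← hc', hmul, hz, zero_mul]
          have e4 : φ e = 0 := by
            have := hpos e
            have := hpos c'
            linarith
          rw [e4]
          exact Submodule.zero_mem _
        · obtain ⟨j, hj, hj'⟩ := le_sum hcon H2 he _ _ h'
          have h5 := le_nat hcon H2 he _ _ hj'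
          rw [Finset.mem_range] at hj
          exact ih (j + ∑ i', k' i') (by omega) _ (hsum j) e he h5
  have h4 : ∀ (k : Fin r → ℕ) (t : S), (∃ s, mon k = t + s) → φ t ∈ Λ := by
    intro k t ht
    obtain ⟨l, hl, hl2⟩ := H1 t
    obtain ⟨s, hs⟩ := ht
    have key : ∀ e ∈ l, φ e ∈ Λ := by
      intro e he
      refine h3 _ k rfl e (hl2 e he) ⟨(l.erase e).sum + s, ?_⟩
      rw [hs, hl, ← add_assoc, Multiset.sum_erase he]
    rw [hl]
    clear hl hl2 hs
    induction l using Multiset.induction_on with
    | empty =>
      rw [Multiset.sum_zero, h0]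
      exact Submodule.zero_mem _
    | cons e l ih =>
      rw [Multiset.sum_cons, hadd]
      exact Submodule.add_mem _ (key e (Multiset.mem_cons_self _ _))
        (ih fun e he => key e (Multiset.mem_cons_of_mem he))
  have hone : (1 : ℝ) ∈ Λ := by
    rw [← h1]
    refine h4 0 1 ⟨0, ?_⟩
    simp [hmon]
  have hne : Λ ≠ ⊥ := by
    intro h
    rw [h, Submodule.mem_bot] at hone
    exact one_ne_zero hone
  refine isIntegral_of_smul_mem_submodule Λ hne hfg (φ n) ?_
  intro t ht
  induction ht using Submodule.span_induction with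
  | mem t ht =>
    obtain ⟨e, he, ⟨k, hk, c, hc⟩, rfl⟩ := ht
    rw [smul_eq_mul, ← hmul]
    refine h4 (K + k) (n * e) ⟨n' * e + (n + n') * c, ?_⟩
    have hK : mon K = n + n' := hn
    rw [mon_add, hK, hc]
    ring
  | zero =>
    rw [smul_zero]
    exact Submodule.zero_mem _
  | add t s _ _ ht hs =>
    rw [smul_add]
    exact Submodule.add_mem _ ht hs
  | smul k t _ ht =>
    rw [smul_comm]
    exact Submodule.smul_mem _ _ ht

/-- The relation satisfied by `M ⊗ M^*` modulo the kernel of a good character. -/
theorem rel_all {k : Type u} [Field k] [CharP k 2] {G : Type v} [Group G] [Fintype G]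
    (φ : PosChar k G) (hφ : ∀ A, φ.f A ≤ A.coreDim) (M : Ob k G) (h2 : M.gamma < 2) :
    ∃ (z w : IsoCl k G) (D : ℕ) (b : ℕ → ℕ), ph φ z = 0 ∧
      (cls M * cls M.dual) ^ D + w = z + ∑ j ∈ Finset.range D,
        (b j : IsoCl k G) * (cls M * cls M.dual) ^ j := by
  by_cases hM : M.IsProj
  · refine ⟨cls M * cls M.dual, 0, 1, fun _ => 0, ?_, ?_⟩
    · rw [map_mul, ph_cls, good_proj hH φ hφ M hM, zero_mul]
    · simp
  have h20 : (2 : k) = 0 := CharTwo.two_eq_zero
  rcases Nat.even_or_odd M.dim with h | h
  · have heven : (M.dim : k) = 0 := by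
      obtain ⟨m, hm⟩ := h
      rw [hm, ← two_mul]
      push_cast
      rw [h20, zero_mul]
    have c1 := good_le_gamma hH φ hφ M hM
    have c2 : φ.f M.dual ≤ M.gamma := by
      rw [← gamma_dual hH M]
      exact good_le_gamma hH φ hφ M.dual (dual_not_isProj hH M hM)
    have hs : φ.f M * φ.f M.dual < 4 := by
      have d1 := φ.nonneg M
      have d2 := φ.nonneg M.dual
      nlinarith
    obtain ⟨P, z, P1, P2, hz, hrel⟩ := exists_rel_even Pool.Agent.H825.Kt.proof_ksCancel
      Pool.Agent.H349.Kt.proof_complete h20 M heven φ hs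
    exact ⟨z, _, P.natDegree, fun j => (-P.coeff j).toNat, hz, hrel⟩
  · obtain ⟨P, hP, hPi⟩ := endo_of_odd G M hM h2 h
    refine ⟨cls P, 0, 1, fun _ => 1, ?_, ?_⟩
    · rw [ph_cls, good_proj hH φ hφ P hP]
    · have := cls_eq hPi
      rw [← cls_mul, ← cls_add, ← cls_one] at this
      rw [this]
      simp [add_comm]

theorem cls_foldr {k : Type u} [Field k] {G : Type v} [Group G] (l : List (Ob k G)) :
    cls (l.foldr Ob.tens (Ob.one k G)) = (l.map cls).prod := by
  induction l with
  | nil => rfl
  | cons A l ih =>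
    rw [List.foldr_cons, ← cls_mul, ih, List.map_cons, List.prod_cons]

theorem st_prod {k : Type u} [Field k] {G : Type v} [Group G] (l : List (Ob k G)) :
    st ((l.map cls).prod) = (l.map (fun A => cls A.dual)).prod := by
  induction l with
  | nil => exact st_one
  | cons A l ih =>
    rw [List.map_cons, List.prod_cons, st_mul, ih, st_cls, List.map_cons, List.prod_cons]

theorem prod_mul_list {k : Type u} [Field k] {G : Type v} [Group G] (l : List (Ob k G)) :
    (l.map (fun A => cls A * cls A.dual)).prod =
      (l.map cls).prod * (l.map (fun A => cls A.dual)).prod := by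
  induction l with
  | nil => simp
  | cons A l ih =>
    rw [List.map_cons, List.prod_cons, ih, List.map_cons, List.prod_cons, List.map_cons,
      List.prod_cons]
    ring

/-- **Summands of tensor products of modules with `γ < 2`** (characteristic 2). -/
theorem summ_list {k : Type u} [Field k] [CharP k 2] (G : Type v) [Group G] [Fintype G]
    (l : List (Ob k G)) (hl : ∀ M ∈ l, M.gamma < 2) (N N' : Ob k G)
    (hiso : (l.foldr Ob.tens (Ob.one k G)).Iso (N.prod N')) : IsIntegral ℤ N.gamma := by
  by_cases hN : N.IsProj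
  · rw [gamma_isProj hH N hN]
    exact isIntegral_zero
  have hNN := tens_dual_not_isProj hH N hN
  obtain ⟨φ, hφ, hφv⟩ := exists_posChar hH hA hE _ hNN
  rw [tensDual_two G N hN] at hφv
  have hq : (l.map cls).prod = cls N + cls N' := by
    have := cls_eq hiso
    rw [cls_foldr, ← cls_add] at this
    exact this
  have hq' : (l.map (fun A => cls A.dual)).prod = cls N.dual + st (cls N') := by
    have := congrArg st hq
    rw [st_prod, st_add, st_cls N] at this
    exact this
  have hprod : (l.map (fun A => cls A * cls A.dual)).prod =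
      cls N * cls N.dual + (cls N * st (cls N') + cls N' * (cls N.dual + st (cls N'))) := by
    rw [prod_mul_list, hq, hq']
    ring
  choose z w D b hz hrel using fun i : Fin l.length =>
    rel_all φ hφ (l[i.1]) (hl _ (List.getElem_mem i.2))
  have h3 := integral_multi (IsoCl k G)
    (decomp_cls Pool.Agent.H782.Kt.proof_ksPrime)
    (fun a s t u => prime_cls Pool.Agent.H782.Kt.proof_ksPrime a s t u) (ph φ)
    (fun s => by
      obtain ⟨A, rfl⟩ := cls_surj s
      exact φ.nonneg A) (map_one _) (map_zero _) (fun s t => map_add _ _ _)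
    (fun s t => map_mul _ _ _)
    (fun i : Fin l.length => cls (l[i.1]) * cls (l[i.1]).dual) z w D b hz hrel
    (cls N * cls N.dual) _ (fun _ => 1)
    (((Finset.prod_congr rfl (fun i _ => pow_one _)).trans
      (Fin.prod_univ_fun_getElem l (fun A => cls A * cls A.dual))).trans hprod)
  have hval : ph φ (cls N * cls N.dual) = N.gamma ^ 2 := by
    rw [map_mul, ph_cls, ph_cls, ← φ.tens]
    exact hφv
  rw [hval] at h3
  exact IsIntegral.of_pow (by norm_num) h3

end Pool.Agent.H398.Kt
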