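import Pool.Agent.H398.Kt.Symm

/-!
# Summands of direct sums of tensor products of modules with `γ < 2`, characteristic 2;
fully symmetric characters
-/

set_option autoImplicit false
set_option linter.unusedVariables false
set_option linter.unusedSimpArgs false
set_option linter.unusedSectionVars false
set_option linter.unusedTactic false

namespace Pool.Agent.H398.Kt

universe u v w

open scoped TensorProduct Topology
open Pool.Agent.H398.Gam Ob Filter

theorem integral_of_summand {k : Type u} [Field k] [CharP k 2] {G : Type v} [Group G] [Fintype G]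
    (φ : PosChar k G) (hφ : ∀ A, φ.f A ≤ A.coreDim)
    (l : List (Ob k G)) (hl : ∀ M ∈ l, M.gamma < 2) (N : Ob k G) (c : IsoCl k G)
    (hq : (l.map cls).prod = cls N + c) : IsIntegral ℤ (φ.f N * φ.f N.dual) := by
  have hq' : (l.map (fun A => cls A.dual)).prod = cls N.dual + st c := by
    have := congrArg st hq
    rw [st_prod, st_add, st_cls N] at this
    exact this
  have hprod : (l.map (fun A => cls A * cls A.dual)).prod =
      cls N * cls N.dual + (cls N * st c + c * (cls N.dual + st c)) := by
    rw [prod_mul_list, hq, hq']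
    ring
  choose z w D b hz hrel using fun i : Fin l.length =>
    rel_all φ hφ (l[i.1]) (hl _ (List.getElem_mem i.2))
  have h3 := integral_multi (IsoCl k G)
    (decomp_cls Pool.Agent.H782.Kt.proof_ksPrime)
    (fun a s t u => prime_cls Pool.Agent.H782.Kt.proof_ksPrime a s t u) (ph φ)
    (fun s => by
      obtain ⟨A, rfl⟩ := cls_surj s
      exact φ.nonneg A) (map_one _) (map_zero _) (fun s t => map_add _ _ _)
    (fun s t => map_mul _ _ _)
    (fun i : Fin l.length => cls (l[i.1]) * cls (l[i.1]).dual) z w D b hz hrel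
    (cls N * cls N.dual) _ (fun _ => 1)
    (((Finset.prod_congr rfl (fun i _ => pow_one _)).trans
      (Fin.prod_univ_fun_getElem l (fun A => cls A * cls A.dual))).trans hprod)
  rw [map_mul, ph_cls, ph_cls] at h3
  exact h3

theorem atom_le_list {k : Type u} [Field k] {G : Type v} [Group G] (A : Ob k G) (hA : Indec A)
    (L : List (List (Ob k G))) (c : IsoCl k G)
    (h : cls ((L.map (fun l => l.foldr Ob.tens (Ob.one k G))).foldr Ob.prod (Ob.zero k G)) =
      cls A + c) : ∃ l ∈ L, ∃ c', cls (l.foldr Ob.tens (Ob.one k G)) = cls A + c' := by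
  induction L generalizing c with
  | nil =>
    exfalso
    obtain ⟨C, rfl⟩ := cls_surj c
    rw [cls_add] at h
    have h1 := dim_eq_of_iso (cls_exact h)
    change (Ob.zero k G).dim = (A.prod C).dim at h1
    rw [zero_dim, dim_prod] at h1
    exact hA.1 (by omega)
  | cons l L ih =>
    rw [List.map_cons, List.foldr_cons, ← cls_add] at h
    rcases prime_cls Pool.Agent.H782.Kt.proof_ksPrime _ _ _ _ (atm_of_indec hA) h.symm with h' | h'
    · exact ⟨l, List.mem_cons_self, h'⟩
    · obtain ⟨c', hc'⟩ := h'
      obtain ⟨l', hl', h''⟩ := ih c' hc'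
      exact ⟨l', List.mem_cons_of_mem _ hl', h''⟩

/-- **Summands of direct sums of tensor products of modules with `γ < 2`** (characteristic 2). -/
theorem summ_sum {k : Type u} [Field k] [CharP k 2] (G : Type v) [Group G] [Fintype G]
    (L : List (List (Ob k G))) (hL : ∀ l ∈ L, ∀ M ∈ l, M.gamma < 2) (N N' : Ob k G)
    (hiso : ((L.map (fun l => l.foldr Ob.tens (Ob.one k G))).foldr Ob.prod (Ob.zero k G)).Iso
      (N.prod N')) : IsIntegral ℤ N.gamma := by
  by_cases hN : N.IsProj
  · rw [gamma_isProj hH N hN]
    exact isIntegral_zero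
  obtain ⟨li, hli, hNi⟩ := (Pool.Agent.H782.Kt.proof_ksPrime k G).2 N
  obtain ⟨φ, hφ, hφv, hsym⟩ := exists_symm G N hN li
  have hle : ∀ A ∈ li, ∃ c, cls N = cls A + c := by
    have key : ∀ (m : List (Ob k G)) (A : Ob k G), A ∈ m →
        ∃ c, cls (m.foldr Ob.prod (Ob.zero k G)) = cls A + c := by
      intro m
      induction m with
      | nil => intro A hA; exact absurd hA List.not_mem_nil
      | cons B m ih =>
        intro A hA
        rw [List.foldr_cons, ← cls_add]
        rcases List.mem_cons.mp hA with rfl | hA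
        · exact ⟨_, rfl⟩
        · obtain ⟨c, hc⟩ := ih A hA
          refine ⟨cls B + c, ?_⟩
          rw [hc]
          ring
    intro A hA
    rw [cls_eq hNi]
    exact key li A hA
  have hint : ∀ A ∈ li, IsIntegral ℤ (φ.f A) := by
    intro A hA
    obtain ⟨c, hc⟩ := hle A hA
    have h1 : cls ((L.map (fun l => l.foldr Ob.tens (Ob.one k G))).foldr Ob.prod (Ob.zero k G)) =
        cls A + (c + cls N') := by
      rw [cls_eq hiso, ← cls_add, hc]
      ring
    obtain ⟨l, hl, c', hc'⟩ := atom_le_list A (hli A hA) L _ h1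
    rw [cls_foldr] at hc'
    have h2 := integral_of_summand φ hφ l (hL l hl) A c' hc'
    rw [← hsym A hA, ← pow_two] at h2
    exact IsIntegral.of_pow (by norm_num) h2
  rw [← hφv, φ.iso _ _ hNi]
  clear hli hNi hle hsym
  induction li with
  | nil =>
    rw [List.foldr_nil, φ.f_zero _ zero_dim]
    exact isIntegral_zero
  | cons A m ih =>
    rw [List.foldr_cons, φ.prod]
    exact (hint A List.mem_cons_self).add (ih (fun B hB => hint B (List.mem_cons_of_mem _ hB)))

/-- **Fully symmetric characters** attaining `γ(N)` (characteristic 2). -/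
theorem exists_symm_all {k : Type u} [Field k] [CharP k 2] (G : Type v) [Group G] [Fintype G]
    (N : Ob k G) (hN : ¬ N.IsProj) :
    ∃ φ : PosChar k G, (∀ A, φ.f A ≤ A.coreDim) ∧ φ.f N = N.gamma ∧
      ∀ A, φ.f A = φ.f A.dual := by
  classical
  choose φ a1 a2 a3 using fun s : Finset (Ob k G) => exists_symm G N hN s.toList
  set U : Ultrafilter (Finset (Ob k G)) := Ultrafilter.of atTop with hU
  have hex : ∀ A : Ob k G, ∃ x ∈ Set.Icc (0 : ℝ) A.coreDim,
      Tendsto (fun s => (φ s).f A) (U : Filter (Finset (Ob k G))) (𝓝 x) := by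
    intro A
    have h1 := (isCompact_Icc (a := (0 : ℝ)) (b := A.coreDim)).ultrafilter_le_nhds
      (U.map (fun s => (φ s).f A)) (by
        rw [Filter.le_principal_iff]
        exact Filter.mem_map.mpr (Filter.Eventually.of_forall
          (fun s => ⟨(φ s).nonneg A, a1 s A⟩)))
    obtain ⟨x, hx, h2⟩ := h1
    exact ⟨x, hx, h2⟩
  choose L hL hT using hex
  refine ⟨⟨L, fun A => (hL A).1, fun A B h => ?_, fun A B => ?_, fun A B => ?_, ?_⟩,
    fun A => (hL A).2, ?_, fun A => ?_⟩
  · refine tendsto_nhds_unique (hT A) ?_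
    refine (hT B).congr (fun n => ((φ n).iso A B h).symm)
  · refine tendsto_nhds_unique (hT _) ?_
    exact ((hT A).add (hT B)).congr (fun n => ((φ n).prod A B).symm)
  · refine tendsto_nhds_unique (hT _) ?_
    exact ((hT A).mul (hT B)).congr (fun n => ((φ n).tens A B).symm)
  · refine tendsto_nhds_unique (hT _) ?_
    exact tendsto_const_nhds.congr (fun n => ((φ n).one).symm)
  · refine tendsto_nhds_unique (hT N) ?_
    exact tendsto_const_nhds.congr (fun n => (a2 n).symm)
  · refine tendsto_nhds_unique (hT A) ?_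
    refine (hT A.dual).congr' ?_
    have h1 : ∀ᶠ s in (atTop : Filter (Finset (Ob k G))), A ∈ s := by
      filter_upwards [Filter.eventually_ge_atTop ({A} : Finset (Ob k G))] with s hs
      exact hs (Finset.mem_singleton_self A)
    have h2 : ∀ᶠ s in (U : Filter (Finset (Ob k G))), A ∈ s :=
      h1.filter_mono (Ultrafilter.of_le atTop)
    filter_upwards [h2] with s hs
    exact (a3 s A (Finset.mem_toList.mpr hs)).symm

end Pool.Agent.H398.Kt
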