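import Pool.Agent.H398.Kt.Summ3

/-!
# Adding modules `M` with `M ⊗ M^*` algebraic (characteristic 2)
-/

set_option autoImplicit false
set_option linter.unusedVariables false
set_option linter.unusedSimpArgs false
set_option linter.unusedSectionVars false
set_option linter.unusedTactic false

namespace Pool.Agent.H398.Kt

universe u v w

open scoped TensorProduct Topology
open Pool.Agent.H398.Gam Ob Filter

/-- Up to isomorphism only finitely many non-projective indecomposable representations are
direct summands of the tensor powers of `M ⊗ M^*`. -/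
def AlgEnd {k : Type u} [Field k] {G : Type v} [Group G] (M : Ob k G) : Prop :=
  ∃ F : List (Ob k G), ∀ (n : ℕ) (A B : Ob k G), Indec A →
    ((M.tens M.dual).pow n).Iso (A.prod B) → A.IsProj ∨ ∃ A' ∈ F, A.Iso A'

theorem rel_alg {k : Type u} [Field k] {G : Type v} [Group G] [Fintype G]
    (φ : PosChar k G) (hφ : ∀ A, φ.f A ≤ A.coreDim) (M : Ob k G) (h : AlgEnd M) :
    ∃ (z w : IsoCl k G) (D : ℕ) (b : ℕ → ℕ), ph φ z = 0 ∧
      (cls M * cls M.dual) ^ D + w = z + ∑ j ∈ Finset.range D,
        (b j : IsoCl k G) * (cls M * cls M.dual) ^ j := by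
  classical
  obtain ⟨F, hF⟩ := h
  set y : IsoCl k G := cls M * cls M.dual with hy
  have hpow : ∀ n : ℕ, cls ((M.tens M.dual).pow n) = y ^ n := by
    intro n
    induction n with
    | zero => rw [pow_zero]; rfl
    | succ n ih => rw [pow_succ, ← ih, hy, cls_mul]; rfl
  let occ : Ob k G → Prop := fun A => ∃ n, ∃ c, y ^ n = cls A + c
  let jf : Ob k G → ℕ := fun A => if h : occ A then Nat.find h else 0
  have hjf : ∀ A, occ A → ∃ c, y ^ jf A = cls A + c := by
    intro A hA
    have : jf A = Nat.find hA := by
      simp only [jf, dif_pos hA]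
    rw [this]
    exact Nat.find_spec hA
  set D := (F.map jf).sum + 1 with hD
  have hjD : ∀ A ∈ F, jf A < D := by
    intro A hA
    have := List.single_le_sum (l := F.map jf) (fun _ _ => Nat.zero_le _) (jf A)
      (List.mem_map_of_mem hA)
    omega
  have key : ∀ l : Multiset (IsoCl k G), (∀ a ∈ l, Atm a) → (∃ c, y ^ D = l.sum + c) →
      ∃ (z w : IsoCl k G) (b : ℕ → ℕ), ph φ z = 0 ∧
        l.sum + w = z + ∑ j ∈ Finset.range D, (b j : IsoCl k G) * y ^ j := by
    intro l
    induction l using Multiset.induction_on with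
    | empty =>
      intro _ _
      exact ⟨0, 0, fun _ => 0, map_zero _, by simp⟩
    | cons a l ih =>
      intro hl hc
      obtain ⟨c, hc⟩ := hc
      rw [Multiset.sum_cons] at hc
      obtain ⟨z, w, b, h1, h2⟩ := ih (fun a' ha' => hl a' (Multiset.mem_cons_of_mem ha'))
        ⟨a + c, by rw [hc]; ring⟩
      have ha := hl a (Multiset.mem_cons_self a l)
      obtain ⟨A, rfl⟩ := cls_surj a
      obtain ⟨C, hC⟩ := cls_surj (l.sum + c)
      have h3 : ((M.tens M.dual).pow D).Iso (A.prod C) := by
        apply cls_exact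
        rw [hpow, hc, add_assoc, ← hC, cls_add]
      rcases hF D A C (indec_of_atm ha) h3 with hP | ⟨A', hA', hAA'⟩
      · refine ⟨z + cls A, w, b, ?_, ?_⟩
        · rw [map_add, h1, ph_cls, good_proj hH φ hφ A hP, add_zero]
        · rw [Multiset.sum_cons, add_assoc, h2]
          ring
      · have hocc : occ A' := ⟨D, l.sum + c, by rw [hc, add_assoc, cls_eq hAA']⟩
        obtain ⟨c', hc'⟩ := hjf A' hocc
        refine ⟨z, w + c', fun j => b j + if j = jf A' then 1 else 0, h1, ?_⟩
        have e1 : ∑ j ∈ Finset.range D, ((b j + if j = jf A' then 1 else 0 : ℕ) : IsoCl k G) *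
            y ^ j = ∑ j ∈ Finset.range D, (b j : IsoCl k G) * y ^ j + y ^ jf A' := by
          have e2 : ∀ j, ((b j + if j = jf A' then 1 else 0 : ℕ) : IsoCl k G) * y ^ j =
              (b j : IsoCl k G) * y ^ j + if j = jf A' then y ^ j else 0 := by
            intro j
            by_cases hj : j = jf A'
            · rw [if_pos hj, if_pos hj]
              push_cast
              ring
            · rw [if_neg hj, if_neg hj, add_zero, add_zero]
          rw [Finset.sum_congr rfl (fun j _ => e2 j), Finset.sum_add_distrib,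
            Finset.sum_ite_eq' (Finset.range D) (jf A') (fun j => y ^ j),
            if_pos (Finset.mem_range.mpr (hjD A' hA'))]
        rw [e1, hc', Multiset.sum_cons, ← cls_eq hAA']
        calc cls A + l.sum + (w + c') = (l.sum + w) + (cls A + c') := by ring
          _ = _ := by rw [h2]; ring
  obtain ⟨l, h1, h2⟩ := decomp_cls Pool.Agent.H782.Kt.proof_ksPrime (y ^ D)
  obtain ⟨z, w, b, h3, h4⟩ := key l h2 ⟨0, by rw [← h1, add_zero]⟩
  rw [← h1] at h4
  exact ⟨z, w, D, b, h3, h4⟩

theorem integral_of_summand' {k : Type u} [Field k] [CharP k 2] {G : Type v} [Group G]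
    [Fintype G] (φ : PosChar k G) (hφ : ∀ A, φ.f A ≤ A.coreDim)
    (l : List (Ob k G)) (hl : ∀ M ∈ l, M.gamma < 2 ∨ AlgEnd M) (N : Ob k G) (c : IsoCl k G)
    (hq : (l.map cls).prod = cls N + c) : IsIntegral ℤ (φ.f N * φ.f N.dual) := by
  have hq' : (l.map (fun A => cls A.dual)).prod = cls N.dual + st c := by
    have := congrArg st hq
    rw [st_prod, st_add, st_cls N] at this
    exact this
  have hprod : (l.map (fun A => cls A * cls A.dual)).prod =
      cls N * cls N.dual + (cls N * st c + c * (cls N.dual + st c)) := by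
    rw [prod_mul_list, hq, hq']
    ring
  choose z w D b hz hrel using fun i : Fin l.length =>
    (hl _ (List.getElem_mem i.2)).elim (rel_all φ hφ (l[i.1])) (rel_alg φ hφ (l[i.1]))
  have h3 := integral_multi (IsoCl k G)
    (decomp_cls Pool.Agent.H782.Kt.proof_ksPrime)
    (fun a s t u => prime_cls Pool.Agent.H782.Kt.proof_ksPrime a s t u) (ph φ)
    (fun s => by
      obtain ⟨A, rfl⟩ := cls_surj s
      exact φ.nonneg A) (map_one _) (map_zero _) (fun s t => map_add _ _ _)
    (fun s t => map_mul _ _ _)
    (fun i : Fin l.length => cls (l[i.1]) * cls (l[i.1]).dual) z w D b hz hrel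
    (cls N * cls N.dual) _ (fun _ => 1)
    (((Finset.prod_congr rfl (fun i _ => pow_one _)).trans
      (Fin.prod_univ_fun_getElem l (fun A => cls A * cls A.dual))).trans hprod)
  rw [map_mul, ph_cls, ph_cls] at h3
  exact h3

/-- **Summands of direct sums of tensor products** of modules with `γ < 2` or with algebraic
`M ⊗ M^*` (characteristic 2). -/
theorem summ_sum' {k : Type u} [Field k] [CharP k 2] (G : Type v) [Group G] [Fintype G]
    (L : List (List (Ob k G))) (hL : ∀ l ∈ L, ∀ M ∈ l, M.gamma < 2 ∨ AlgEnd M) (N N' : Ob k G)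
    (hiso : ((L.map (fun l => l.foldr Ob.tens (Ob.one k G))).foldr Ob.prod (Ob.zero k G)).Iso
      (N.prod N')) : IsIntegral ℤ N.gamma := by
  by_cases hN : N.IsProj
  · rw [gamma_isProj hH N hN]
    exact isIntegral_zero
  obtain ⟨li, hli, hNi⟩ := (Pool.Agent.H782.Kt.proof_ksPrime k G).2 N
  obtain ⟨φ, hφ, hφv, hsym⟩ := exists_symm G N hN li
  have hle : ∀ A ∈ li, ∃ c, cls N = cls A + c := by
    have key : ∀ (m : List (Ob k G)) (A : Ob k G), A ∈ m →
        ∃ c, cls (m.foldr Ob.prod (Ob.zero k G)) = cls A + c := by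
      intro m
      induction m with
      | nil => intro A hA; exact absurd hA List.not_mem_nil
      | cons B m ih =>
        intro A hA
        rw [List.foldr_cons, ← cls_add]
        rcases List.mem_cons.mp hA with rfl | hA
        · exact ⟨_, rfl⟩
        · obtain ⟨c, hc⟩ := ih A hA
          refine ⟨cls B + c, ?_⟩
          rw [hc]
          ring
    intro A hA
    rw [cls_eq hNi]
    exact key li A hA
  have hint : ∀ A ∈ li, IsIntegral ℤ (φ.f A) := by
    intro A hA
    obtain ⟨c, hc⟩ := hle A hA
    have h1 : cls ((L.map (fun l => l.foldr Ob.tens (Ob.one k G))).foldr Ob.prod (Ob.zero k G)) =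
        cls A + (c + cls N') := by
      rw [cls_eq hiso, ← cls_add, hc]
      ring
    obtain ⟨l, hl, c', hc'⟩ := atom_le_list A (hli A hA) L _ h1
    rw [cls_foldr] at hc'
    have h2 := integral_of_summand' φ hφ l (hL l hl) A c' hc'
    rw [← hsym A hA, ← pow_two] at h2
    exact IsIntegral.of_pow (by norm_num) h2
  rw [← hφv, φ.iso _ _ hNi]
  clear hli hNi hle hsym
  induction li with
  | nil =>
    rw [List.foldr_nil, φ.f_zero _ zero_dim]
    exact isIntegral_zero
  | cons A m ih =>
    rw [List.foldr_cons, φ.prod]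
    exact (hint A List.mem_cons_self).add (ih (fun B hB => hint B (List.mem_cons_of_mem _ hB)))

end Pool.Agent.H398.Kt
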