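import Pool.Agent.H398.Kt.Summ2

/-!
# Symmetric positive characters, characteristic 2
-/

set_option autoImplicit false
set_option linter.unusedVariables false
set_option linter.unusedSimpArgs false
set_option linter.unusedSectionVars false
set_option linter.unusedTactic false

namespace Pool.Agent.H398.Kt

universe u v w

open scoped TensorProduct Topology
open Pool.Agent.H398.Gam Ob Filter

section

variable {k : Type u} [Field k] {G : Type v} [Group G] [Fintype G]

/-- Good characters. -/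
def Gd (φ : PosChar k G) : Prop := ∀ A, φ.f A ≤ A.coreDim

/-- Ultralimits of good characters. -/
theorem ultralimit (φ : ℕ → PosChar k G) (hφ : ∀ n, Gd (φ n)) :
    ∃ ψ : PosChar k G, Gd ψ ∧
      ∀ A, Tendsto (fun n => (φ n).f A) (hyperfilter ℕ : Filter ℕ) (𝓝 (ψ.f A)) := by
  have hex : ∀ A : Ob k G, ∃ x ∈ Set.Icc (0 : ℝ) A.coreDim,
      Tendsto (fun n => (φ n).f A) (hyperfilter ℕ : Filter ℕ) (𝓝 x) := by
    intro A
    have h1 := (isCompact_Icc (a := (0 : ℝ)) (b := A.coreDim)).ultrafilter_le_nhds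
      ((hyperfilter ℕ).map (fun n => (φ n).f A)) (by
        rw [Filter.le_principal_iff]
        exact Filter.mem_map.mpr (Filter.Eventually.of_forall
          (fun n => ⟨(φ n).nonneg A, hφ n A⟩)))
    obtain ⟨x, hx, h2⟩ := h1
    exact ⟨x, hx, h2⟩
  choose L hL hT using hex
  refine ⟨⟨L, fun A => (hL A).1, fun A B h => ?_, fun A B => ?_, fun A B => ?_, ?_⟩,
    fun A => (hL A).2, hT⟩
  · refine tendsto_nhds_unique (hT A) ?_
    refine (hT B).congr (fun n => ((φ n).iso A B h).symm)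
  · refine tendsto_nhds_unique (hT _) ?_
    exact ((hT A).add (hT B)).congr (fun n => ((φ n).prod A B).symm)
  · refine tendsto_nhds_unique (hT _) ?_
    exact ((hT A).mul (hT B)).congr (fun n => ((φ n).tens A B).symm)
  · refine tendsto_nhds_unique (hT _) ?_
    exact tendsto_const_nhds.congr (fun n => ((φ n).one).symm)

/-- A closed, self-dual class of good characters with symmetric maximizers. -/
structure Face (Ψ : PosChar k G → Prop) : Prop where
  good : ∀ φ, Ψ φ → Gd φ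
  star : ∀ φ, Ψ φ → Ψ φ.star
  closed : ∀ (φ : ℕ → PosChar k G) (ψ : PosChar k G), (∀ n, Ψ (φ n)) →
    (∀ A, Tendsto (fun n => (φ n).f A) (hyperfilter ℕ : Filter ℕ) (𝓝 (ψ.f A))) → Ψ ψ
  maxi : ∀ Y : Ob k G, ∃ φ, Ψ φ ∧ φ.f Y = φ.f Y.dual ∧ ∀ ψ, Ψ ψ → ψ.f Y ≤ φ.f Y

theorem star_f' (φ : PosChar k G) (A : Ob k G) : φ.star.f A = φ.f A.dual := φ.star_f A

theorem star_dual (φ : PosChar k G) (A : Ob k G) : φ.star.f A.dual = φ.f A := by
  rw [star_f', φ.iso _ _ (dual_dual A)]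

/-- Passing to a smaller face. -/
theorem Face.sub {Ψ : PosChar k G → Prop} (F : Face Ψ) (N : Ob k G) :
    ∃ μ : ℝ, (∀ ψ, Ψ ψ → ψ.f N ≤ μ) ∧
      Face (fun φ => Ψ φ ∧ φ.f N = μ ∧ φ.f N.dual = μ) := by
  obtain ⟨φ₀, h1, h2, h3⟩ := F.maxi N
  set μ := φ₀.f N with hμ
  have hdual : ∀ ψ, Ψ ψ → ψ.f N.dual ≤ μ := by
    intro ψ hψ
    have := h3 _ (F.star ψ hψ)
    rwa [star_f'] at this
  refine ⟨μ, h3, ⟨fun φ h => F.good φ h.1, fun φ h => ⟨F.star φ h.1, ?_, ?_⟩,
    fun φ ψ h h' => ⟨F.closed φ ψ (fun n => (h n).1) h', ?_, ?_⟩, fun Y => ?_⟩⟩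
  · rw [star_f']; exact h.2.2
  · rw [star_dual]; exact h.2.1
  · refine tendsto_nhds_unique (h' N) ?_
    exact tendsto_const_nhds.congr (fun n => ((h n).2.1).symm)
  · refine tendsto_nhds_unique (h' N.dual) ?_
    exact tendsto_const_nhds.congr (fun n => ((h n).2.2).symm)
  · -- symmetric maximizers
    by_cases hzero : ∀ ψ, (Ψ ψ ∧ ψ.f N = μ ∧ ψ.f N.dual = μ) → ψ.f Y = 0
    · refine ⟨φ₀, ⟨h1, rfl, h2.symm⟩, ?_, fun ψ hψ => ?_⟩
      · rw [hzero φ₀ ⟨h1, rfl, h2.symm⟩]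
        have h4 := hzero φ₀.star ⟨F.star _ h1, by rw [star_f']; exact h2.symm,
          by rw [star_dual]⟩
        rw [star_f'] at h4
        exact h4.symm
      · rw [hzero ψ hψ]
        exact φ₀.nonneg _
    push Not at hzero
    obtain ⟨ψ₁, hψ₁, hψ₁Y⟩ := hzero
    have hψ₁pos : 0 < ψ₁.f Y := lt_of_le_of_ne (ψ₁.nonneg _) (Ne.symm hψ₁Y)
    have hμ0 : 0 ≤ μ := φ₀.nonneg _
    choose φ a1 a2 a3 using fun n : ℕ => F.maxi ((N.pow n).tens Y)
    obtain ⟨ψ, b1, b2⟩ := ultralimit φ (fun n => F.good _ (a1 n))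
    have hΨ : Ψ ψ := F.closed φ ψ a1 b2
    have hval : ∀ (χ : PosChar k G) (n : ℕ), χ.f ((N.pow n).tens Y) = χ.f N ^ n * χ.f Y := by
      intro χ n
      rw [χ.tens, pc_pow]
    have hval' : ∀ (χ : PosChar k G) (n : ℕ),
        χ.f ((N.pow n).tens Y).dual = χ.f N.dual ^ n * χ.f Y.dual := by
      intro χ n
      rw [← star_f', χ.star.tens, pc_pow, star_f', star_f']
    -- lower bounds
    have low : ∀ χ, (Ψ χ ∧ χ.f N = μ ∧ χ.f N.dual = μ) → ∀ n,
        μ ^ n * χ.f Y ≤ (φ n).f N ^ n * (φ n).f Y := by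
      intro χ hχ n
      have := a3 n χ hχ.1
      rw [hval, hval, hχ.2.1] at this
      exact this
    have low' : ∀ χ, (Ψ χ ∧ χ.f N = μ ∧ χ.f N.dual = μ) → ∀ n,
        μ ^ n * χ.f Y ≤ (φ n).f N.dual ^ n * (φ n).f Y.dual := by
      intro χ hχ n
      have h4 := low χ hχ n
      have h5 := a2 n
      rw [hval, hval'] at h5
      rw [← h5]
      exact h4
    have general : ∀ (u y : ℕ → ℝ) (C L L' : ℝ), (∀ n, 0 ≤ u n) → (∀ n, u n ≤ μ) →
        (∀ n, 0 ≤ y n) → (∀ n, y n ≤ C) →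
        (∀ χ, (Ψ χ ∧ χ.f N = μ ∧ χ.f N.dual = μ) → ∀ n, μ ^ n * χ.f Y ≤ u n ^ n * y n) →
        Tendsto u (hyperfilter ℕ : Filter ℕ) (𝓝 L) →
        Tendsto y (hyperfilter ℕ : Filter ℕ) (𝓝 L') →
        0 < μ → L = μ ∧ ∀ χ, (Ψ χ ∧ χ.f N = μ ∧ χ.f N.dual = μ) → χ.f Y ≤ L' := by
      intro u y C L L' hu0 hu hy0 hyC hlow hL hL' hμpos
      constructor
      · apply le_antisymm
        · exact le_of_tendsto hL (Filter.Eventually.of_forall hu)
        · by_contra hlt
          rw [not_le] at hlt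
          -- choose ρ with L < ρ < μ
          obtain ⟨ρ, hρ1, hρ2⟩ := exists_between hlt
          have hL0 : 0 ≤ L := ge_of_tendsto hL (Filter.Eventually.of_forall hu0)
          have hρ0 : 0 < ρ := lt_of_le_of_lt hL0 hρ1
          have hq1 : ρ / μ < 1 := (div_lt_one hμpos).mpr hρ2
          have hC : 0 < C := by
            have h6 := hlow ψ₁ hψ₁ 0
            rw [pow_zero, one_mul, pow_zero, one_mul] at h6
            linarith [hyC 0]
          obtain ⟨n₀, hn₀⟩ := exists_pow_lt_of_lt_one (show 0 < ψ₁.f Y / C by positivity) hq1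
          have ev1 : ∀ᶠ n in (hyperfilter ℕ : Filter ℕ), u n < ρ :=
            hL.eventually (gt_mem_nhds hρ1)
          have ev2 : ∀ᶠ n in (hyperfilter ℕ : Filter ℕ), n₀ ≤ n :=
            Filter.Eventually.filter_mono (Filter.hyperfilter_le_cofinite.trans
              Nat.cofinite_eq_atTop.le) (Filter.eventually_ge_atTop n₀)
          obtain ⟨n, hn1, hn2⟩ := (ev1.and ev2).exists
          have h6 := hlow ψ₁ hψ₁ n
          have h7 : u n ^ n ≤ ρ ^ n := pow_le_pow_left₀ (hu0 n) hn1.le n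
          have h8 : u n ^ n * y n ≤ ρ ^ n * C :=
            mul_le_mul h7 (hyC n) (hy0 n) (by positivity)
          have h9 : (ρ / μ) ^ n ≤ (ρ / μ) ^ n₀ :=
            pow_le_pow_of_le_one (by positivity) hq1.le hn2
          have h10 : ρ ^ n = (ρ / μ) ^ n * μ ^ n := by
            rw [div_pow, div_mul_cancel₀]
            positivity
          have h11 : (ρ / μ) ^ n * C < ψ₁.f Y := by
            have := lt_of_le_of_lt h9 hn₀
            rwa [lt_div_iff₀ hC] at this
          have h12 : 0 < μ ^ n := by positivity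
          rw [h10] at h8
          nlinarith
      · intro χ hχ
        refine ge_of_tendsto hL' (Filter.Eventually.of_forall (fun n => ?_))
        have h6 := hlow χ hχ n
        have h7 : u n ^ n ≤ μ ^ n := pow_le_pow_left₀ (hu0 n) (hu n) n
        have h8 : 0 < μ ^ n := by positivity
        have h9 := hy0 n
        have h10 : μ ^ n * χ.f Y ≤ μ ^ n * y n := h6.trans (mul_le_mul_of_nonneg_right h7 h9)
        exact le_of_mul_le_mul_left h10 h8
    rcases hμ0.lt_or_eq with hμpos | hμz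
    · have c1 := general (fun n => (φ n).f N) (fun n => (φ n).f Y) Y.coreDim (ψ.f N) (ψ.f Y)
        (fun n => (φ n).nonneg _) (fun n => h3 _ (a1 n)) (fun n => (φ n).nonneg _)
        (fun n => F.good _ (a1 n) Y) low (b2 N) (b2 Y) hμpos
      have c2 := general (fun n => (φ n).f N.dual) (fun n => (φ n).f Y.dual) Y.dual.coreDim
        (ψ.f N.dual) (ψ.f Y.dual)
        (fun n => (φ n).nonneg _) (fun n => hdual _ (a1 n)) (fun n => (φ n).nonneg _)
        (fun n => F.good _ (a1 n) Y.dual) low' (b2 N.dual) (b2 Y.dual) hμpos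
      have hmem : Ψ ψ ∧ ψ.f N = μ ∧ ψ.f N.dual = μ := ⟨hΨ, c1.1, c2.1⟩
      refine ⟨ψ, hmem, le_antisymm (c2.2 ψ hmem) ?_, c1.2⟩
      have h6 := c1.2 ψ.star ⟨F.star _ hΨ, by rw [star_f']; exact c2.1,
        by rw [star_dual]; exact c1.1⟩
      rwa [star_f'] at h6
    · -- `μ = 0`: the face is everything
      obtain ⟨ψ', e1, e2, e3⟩ := F.maxi Y
      have hz : ∀ χ, Ψ χ → χ.f N = μ ∧ χ.f N.dual = μ := by
        intro χ hχ
        constructor
        · exact le_antisymm (h3 χ hχ) (by rw [← hμz]; exact χ.nonneg _)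
        · exact le_antisymm (hdual χ hχ) (by rw [← hμz]; exact χ.nonneg _)
      exact ⟨ψ', ⟨e1, hz ψ' e1⟩, e2, fun χ hχ => e3 χ hχ.1⟩

/-- Simultaneous symmetric characters for a finite list. -/
theorem Face.list {Ψ : PosChar k G → Prop} (F : Face Ψ) (l : List (Ob k G)) :
    ∃ φ, Ψ φ ∧ ∀ N ∈ l, φ.f N = φ.f N.dual := by
  induction l generalizing Ψ with
  | nil =>
    obtain ⟨φ, h, _⟩ := F.maxi (one k G)
    exact ⟨φ, h, by simp⟩
  | cons N l ih =>
    obtain ⟨μ, _, F'⟩ := F.sub N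
    obtain ⟨φ, h1, h2⟩ := ih F'
    refine ⟨φ, h1.1, fun A hA => ?_⟩
    rcases List.mem_cons.mp hA with rfl | hA
    · rw [h1.2.1, h1.2.2]
    · exact h2 A hA

end

/-- In characteristic 2 all good characters form a face. -/
theorem face_all {k : Type u} [Field k] [CharP k 2] (G : Type v) [Group G] [Fintype G]
    (M₀ : Ob k G) (hM₀ : ¬ M₀.IsProj) : Face (fun φ : PosChar k G => Gd φ) := by
  refine ⟨fun φ h => h, fun φ h => good_star hH φ h, fun φ ψ h h' A => ?_, fun Y => ?_⟩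
  · exact le_of_tendsto (h' A) (Filter.Eventually.of_forall (fun n => h n A))
  · by_cases hY : Y.IsProj
    · obtain ⟨φ, hφ, _⟩ := exists_posChar hH hA hE M₀ hM₀
      refine ⟨φ, hφ, ?_, fun ψ hψ => ?_⟩
      · have h1 := good_proj hH φ hφ Y hY
        have h2 := good_proj hH φ.star (good_star hH φ hφ) Y hY
        rw [star_f'] at h2
        rw [h1, h2]
      · rw [good_proj hH ψ hψ Y hY]
        exact φ.nonneg _
    · have hYY := tens_dual_not_isProj hH Y hY
      obtain ⟨φ, hφ, hφv⟩ := exists_posChar hH hA hE _ hYY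
      rw [tensDual_two G Y hY, φ.tens] at hφv
      have c1 := good_le_gamma hH φ hφ Y hY
      have c2 : φ.f Y.dual ≤ Y.gamma := by
        rw [← gamma_dual hH Y]
        exact good_le_gamma hH φ hφ Y.dual (dual_not_isProj hH Y hY)
      have hpos : 0 < Y.gamma := by
        have := gamma_pos hH Y hY
        linarith
      obtain ⟨e1, e2⟩ := eq_of_mul_sq c1 c2 hpos (φ.nonneg _) (φ.nonneg _) hφv
      refine ⟨φ, hφ, by rw [e1, e2], fun ψ hψ => ?_⟩
      rw [e1]
      exact good_le_gamma hH ψ hψ Y hY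

/-- **Symmetric characters** attaining `γ(N)`, for a finite list of modules. -/
theorem exists_symm {k : Type u} [Field k] [CharP k 2] (G : Type v) [Group G] [Fintype G]
    (N : Ob k G) (hN : ¬ N.IsProj) (l : List (Ob k G)) :
    ∃ φ : PosChar k G, (∀ A, φ.f A ≤ A.coreDim) ∧ φ.f N = N.gamma ∧
      ∀ A ∈ l, φ.f A = φ.f A.dual := by
  have F := face_all G N hN
  obtain ⟨μ, h1, F'⟩ := F.sub N
  obtain ⟨φ, h2, h3⟩ := F'.list l
  refine ⟨φ, h2.1, ?_, h3⟩
  obtain ⟨χ, hχ, hχv⟩ := exists_posChar hH hA hE N hN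
  apply le_antisymm
  · exact good_le_gamma hH φ h2.1 N hN
  · rw [h2.2.1, ← hχv]
    exact h1 χ hχ

end Pool.Agent.H398.Kt
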